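import Pool.Agent.MSG.Un
import Pool.Agent.MSG.H0

/-! # MSC / Ba: a root system of a character of order `q * n` from an element of norm `ξ`

`θ : G → ZMod q` a continuous homomorphism, `θ c = 1`, `g` an element with stabilizer `ker θ` and norm `∏ r < q, c ^ r • g = ξ`, a primitive `n`-th root of unity fixed by `G`.
Then there are `X : G → ZMod (q * n)` (a continuous homomorphism lifting `θ`) and `D : ZMod (q * n) → Ω` with `σ • D k = D (k + X σ)` and `D (k + q) = ξ * D k`.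

PROOF.  `E m = ∏ r < m, c ^ r • g` (`m : ℕ`), `E 0 = 1`, nonzero (`ξ ≠ 0`).
1. `σ • c ^ r • g = c ^ ((θ σ).val + r) • g`: the element `(c ^ ((θ σ).val + r))⁻¹ * (σ * c ^ r)` has `θ = 0` (`hom_pow`), so it fixes `g`.  `c ^ (m + q) • g = c ^ m • g`.
2. `E (m + m') = E m * c ^ m • E m'`; `c ^ m • E q = ξ`: `E (m + q) = ξ * E m`, `E (m + q j) = ξ ^ j * E m`, `E (m + q n j) = E m`.  `σ • E m = c ^ a • E m`, `a = (θ σ).val`, and `c ^ m' • E m = c ^ a • E m` if `m' ≡ a` modulo `q`.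
3. `Ξ σ = E ((θ σ).val) ^ n`: `Ξ (σ τ) = Ξ σ * σ • Ξ τ` (`(θ (σ τ)).val` is `(θ σ).val + (θ τ).val` or this minus `q`, and `E (m + q) ^ n = E m ^ n`).  Locally constant.  `h90cont`: `Ξ σ = σ • δ / δ`.  `Δ = rt n δ` (`rt_pow`; only `Δ ^ n = δ`, `Δ ≠ 0` are used).
4. `(σ • Δ / (E a * Δ)) ^ n = 1`, so `σ • Δ = ξ ^ e * E a * Δ = E (a + q e) * Δ` for some `e` (`IsPrimitiveRoot.eq_pow_of_pow_eq_one`).
5. `D k = E k.val * Δ`; `D (m : ZMod (q * n)) = E m * Δ` for every `m : ℕ` (2.).  `D` is injective: `E m = E m'`, `m ≤ m'`, gives `E l = 1` for `l = m' - m` (apply `(c ^ m)⁻¹`), `g * c • E l = E (l + 1) = E l * c ^ l • g`, so `c ^ l • g = g`, `q ∣ l`, `l = q j`, `ξ ^ j = 1`, `n ∣ j`.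
6. By 4. there is a unique `X σ` with `σ • Δ = D (X σ)`, and `X σ ≡ a` modulo `q`.  Continuity: `cont_of hG Δ`.  `σ • (E m * Δ) = c ^ a • E m * (E m' * Δ) = E (m' + m) * Δ`, `m' = (X σ).val`: so `σ • D k = D (k + X σ)`, and `X` is additive by injectivity.
-/

set_option autoImplicit false
set_option linter.unusedVariables false

namespace MSC

universe u v

open MSG

variable {G : Type u} {Ω : Type v} [Group G] [TopologicalSpace G] [Field Ω] [MulSemiringAction G Ω]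

omit [TopologicalSpace G] in
private theorem ba_same {q : ℕ} {θ : G → ZMod q} (hadd : ∀ g h, θ (g * h) = θ g + θ h) {g : Ω}
    (hg : ∀ σ : G, θ σ = 0 ↔ σ • g = g) (σ τ : G) : θ σ = θ τ ↔ σ • g = τ • g := by
  have h1 : θ σ = θ τ + θ (τ⁻¹ * σ) := by
    rw [← hadd, mul_inv_cancel_left]
  constructor
  · intro h
    rw [h] at h1
    have h2 : θ (τ⁻¹ * σ) = 0 := left_eq_add.1 h1
    have h3 := (hg _).1 h2
    rw [mul_smul, inv_smul_eq_iff] at h3
    exact h3
  · intro h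
    have h3 : (τ⁻¹ * σ) • g = g := by
      rw [mul_smul, inv_smul_eq_iff]
      exact h
    rw [h1, (hg _).2 h3, add_zero]

/-- the partial norms -/
private def ba_E (c : G) (g : Ω) (m : ℕ) : Ω := ∏ r ∈ Finset.range m, c ^ r • g

omit [TopologicalSpace G] in
private theorem ba_add (c : G) (g : Ω) (m m' : ℕ) :
    ba_E c g (m + m') = ba_E c g m * c ^ m • ba_E c g m' := by
  unfold ba_E
  rw [Finset.prod_range_add, Finset.smul_prod']
  congr 1
  refine Finset.prod_congr rfl fun i _ => ?_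
  rw [← mul_smul, ← pow_add]

omit [TopologicalSpace G] in
private theorem ba_zero (c : G) (g : Ω) : ba_E c g 0 = 1 := Finset.prod_range_zero _

omit [TopologicalSpace G] in
private theorem ba_one (c : G) (g : Ω) : ba_E c g 1 = g := by
  unfold ba_E
  rw [Finset.prod_range_one, pow_zero, one_smul]

omit [TopologicalSpace G] in
private theorem ba_cong {q : ℕ} {θ : G → ZMod q} (hadd : ∀ g h, θ (g * h) = θ g + θ h) {g : Ω}
    (hg : ∀ σ : G, θ σ = 0 ↔ σ • g = g) (c : G) {σ τ : G} (h : θ σ = θ τ) (m : ℕ) :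
    σ • ba_E c g m = τ • ba_E c g m := by
  unfold ba_E
  rw [Finset.smul_prod', Finset.smul_prod']
  refine Finset.prod_congr rfl fun i _ => ?_
  rw [← mul_smul, ← mul_smul]
  exact (ba_same hadd hg _ _).1 (by rw [hadd, hadd, h])

omit [TopologicalSpace G] in
private theorem ba_q {q : ℕ} {θ : G → ZMod q} (hadd : ∀ g h, θ (g * h) = θ g + θ h) {g : Ω}
    (hg : ∀ σ : G, θ σ = 0 ↔ σ • g = g) {c : G} (hc : θ c = 1) {ξ : Ω} (hN : ba_E c g q = ξ)
    (j m : ℕ) : ba_E c g (q * j + m) = ξ ^ j * ba_E c g m := by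
  induction j with
  | zero => rw [mul_zero, zero_add, pow_zero, one_mul]
  | succ j ih =>
    have e : q * (j + 1) + m = q + (q * j + m) := by ring
    have h1 : c ^ q • ba_E c g (q * j + m) = (1 : G) • ba_E c g (q * j + m) :=
      ba_cong hadd hg c (by rw [hom_pow hadd hc, ZMod.natCast_self, hom_one hadd]) _
    rw [e, ba_add, hN, h1, one_smul, ih, pow_succ]
    ring

omit [TopologicalSpace G] in
private theorem ba_inj {q n : ℕ} {θ : G → ZMod q}
    (hadd : ∀ g h, θ (g * h) = θ g + θ h) {g : Ω}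
    (hg : ∀ σ : G, θ σ = 0 ↔ σ • g = g) {c : G} (hc : θ c = 1) {ξ : Ω} (hN : ba_E c g q = ξ)
    (hE : ∀ m, ba_E c g m ≠ 0) (hξ : IsPrimitiveRoot ξ n) {m l : ℕ}
    (h : ba_E c g (m + l) = ba_E c g m) : q * n ∣ l := by
  rw [ba_add] at h
  have h1 : c ^ m • ba_E c g l = 1 := mul_left_cancel₀ (hE m) (by rw [h, mul_one])
  have h2 : ba_E c g l = 1 := by
    have h3 : c ^ m • ba_E c g l = c ^ m • (1 : Ω) := by rw [h1, smul_one]
    exact MulAction.injective (c ^ m) h3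
  have h3 := ba_add c g 1 l
  rw [h2, smul_one, mul_one, add_comm, ba_add, h2, one_mul, ba_one] at h3
  have h4 : θ (c ^ l) = 0 := (hg _).2 h3
  rw [hom_pow hadd hc, ZMod.natCast_eq_zero_iff] at h4
  obtain ⟨j, rfl⟩ := h4
  have h5 := ba_q hadd hg hc hN j 0
  rw [add_zero, h2, ba_zero, mul_one] at h5
  have h6 := (hξ.pow_eq_one_iff_dvd j).1 h5.symm
  exact Nat.mul_dvd_mul_left q h6

theorem ba (hG : GA G Ω) {n : ℕ} {ξ : Ω} (hξ : PZ n ξ) (hξG : ∀ σ : G, σ • ξ = ξ) {q : ℕ} [NeZero q] {θ : G → ZMod q} (hθ : Continuous θ)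
    (hadd : ∀ g h, θ (g * h) = θ g + θ h) {c : G} (hc : θ c = 1) {g : Ω} (hg : ∀ σ : G, θ σ = 0 ↔ σ • g = g)
    (hN : ∏ r ∈ Finset.range q, c ^ r • g = ξ) :
    ∃ (X : G → ZMod (q * n)) (D : ZMod (q * n) → Ω), Continuous X ∧ (∀ g h, X (g * h) = X g + X h) ∧ (∀ k, D k ≠ 0) ∧
      (∀ σ k, σ • D k = D (k + X σ)) ∧ (∀ k, D (k + (q : ZMod (q * n))) = ξ * D k) ∧
      ∀ σ, ZMod.castHom (Dvd.intro n rfl) (ZMod q) (X σ) = θ σ := by
  have hq0 : 0 < q := Nat.pos_of_ne_zero (NeZero.ne q)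
  have hn0 : 0 < n := lt_trans one_pos hξ.one_lt
  have : NeZero n := ⟨hn0.ne'⟩
  have : NeZero (q * n) := ⟨Nat.mul_ne_zero hq0.ne' hn0.ne'⟩
  have := hG.alg
  have hξ0 : ξ ≠ 0 := hξ.prim.ne_zero hn0.ne'
  have hN' : ba_E c g q = ξ := hN
  have hg0 : g ≠ 0 := by
    rintro rfl
    apply hξ0
    rw [← hN]
    exact Finset.prod_eq_zero (Finset.mem_range.2 hq0) (smul_zero _)
  have hne : ∀ σ : G, σ • g ≠ 0 := fun σ h => hg0 (smul_eq_zero_iff_eq σ |>.1 h)
  have hE : ∀ m, ba_E c g m ≠ 0 := fun m => Finset.prod_ne_zero_iff.2 fun i _ => hne _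
  have hcast : ∀ m : ℕ, ba_E c g (m : ZMod (q * n)).val = ba_E c g m := by
    intro m
    rw [ZMod.val_natCast]
    have e : m = q * (n * (m / (q * n))) + m % (q * n) := by
      rw [← mul_assoc]
      exact (Nat.div_add_mod m (q * n)).symm
    conv_rhs => rw [e, ba_q hadd hg hc hN', pow_mul, hξ.prim.pow_eq_one, one_pow, one_mul]
  have hcθ : ∀ σ : G, θ (c ^ (θ σ).val) = θ σ := fun σ => by
    rw [hom_pow hadd hc, ZMod.natCast_zmod_val]
  obtain ⟨δ, hδ0, hδ⟩ := h90cont hG (fun σ => ba_E c g (θ σ).val ^ n) (fun σ => pow_ne_zero _ (hE _))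
    (((IsLocallyConstant.iff_continuous _).2 hθ).comp (fun z : ZMod q => ba_E c g z.val ^ n)) (by
      intro σ τ
      show ba_E c g (θ (σ * τ)).val ^ n = ba_E c g (θ σ).val ^ n * σ • ba_E c g (θ τ).val ^ n
      rw [smul_pow', ← mul_pow, ba_cong hadd hg c (hcθ σ).symm, ← ba_add, cy_eq hadd σ τ,
        add_comm (θ (σ * τ)).val, ba_q hadd hg hc hN', mul_pow, ← pow_mul, mul_comm _ n, pow_mul,
        hξ.prim.pow_eq_one, one_pow, one_mul])
  have hΔ : rt n δ ^ n = δ := rt_pow hξ δ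
  have hΔ0 : rt n δ ≠ 0 := rt_ne hξ hδ0
  have hex : ∀ σ : G, ∃ e : ℕ, σ • rt n δ = ba_E c g (q * e + (θ σ).val) * rt n δ := by
    intro σ
    have h1 : ba_E c g (θ σ).val ^ n = σ • δ / δ := hδ σ
    have h2 : (σ • rt n δ / (ba_E c g (θ σ).val * rt n δ)) ^ n = 1 := by
      rw [div_pow, mul_pow, ← smul_pow', hΔ, h1, div_mul_cancel₀ _ hδ0]
      exact div_self (fun h => hδ0 (smul_eq_zero_iff_eq σ |>.1 h))
    obtain ⟨e, _, he⟩ := hξ.prim.eq_pow_of_pow_eq_one h2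
    refine ⟨e, ?_⟩
    rw [ba_q hadd hg hc hN', he, mul_assoc, div_mul_cancel₀ _ (mul_ne_zero (hE _) hΔ0)]
  choose e he using hex
  have hinj : ∀ k k' : ZMod (q * n), ba_E c g k.val = ba_E c g k'.val → k = k' := by
    have key : ∀ k k' : ZMod (q * n), k.val ≤ k'.val → ba_E c g k.val = ba_E c g k'.val →
        k = k' := by
      intro k k' hle h
      obtain ⟨l, hl⟩ := Nat.exists_eq_add_of_le hle
      rw [hl] at h
      have h1 := ba_inj hadd hg hc hN' hE hξ.prim h.symm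
      have h2 : (l : ZMod (q * n)) = 0 := (ZMod.natCast_eq_zero_iff _ _).2 h1
      have h3 : ((k'.val : ℕ) : ZMod (q * n)) = ((k.val + l : ℕ) : ZMod (q * n)) := by rw [hl]
      rw [Nat.cast_add, h2, add_zero, ZMod.natCast_zmod_val, ZMod.natCast_zmod_val] at h3
      exact h3.symm
    intro k k' h
    rcases le_total k.val k'.val with hle | hle
    · exact key k k' hle h
    · exact (key k' k hle h.symm).symm
  have hDinj : ∀ k k' : ZMod (q * n), ba_E c g k.val * rt n δ = ba_E c g k'.val * rt n δ →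
      k = k' := fun k k' h => hinj k k' (mul_right_cancel₀ hΔ0 h)
  have hX : ∀ σ : G, σ • rt n δ =
      ba_E c g ((q * e σ + (θ σ).val : ℕ) : ZMod (q * n)).val * rt n δ := fun σ => by
    rw [hcast]
    exact he σ
  have hact : ∀ (σ : G) (k : ZMod (q * n)), σ • (ba_E c g k.val * rt n δ) =
      ba_E c g (k + ((q * e σ + (θ σ).val : ℕ) : ZMod (q * n))).val * rt n δ := by
    intro σ k
    have h1 : σ • ba_E c g k.val = c ^ (q * e σ + (θ σ).val) • ba_E c g k.val :=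
      ba_cong hadd hg c (by
        rw [hom_pow hadd hc, Nat.cast_add, Nat.cast_mul, ZMod.natCast_self, zero_mul, zero_add,
          ZMod.natCast_zmod_val]) _
    have h2 : k + ((q * e σ + (θ σ).val : ℕ) : ZMod (q * n)) =
        ((q * e σ + (θ σ).val + k.val : ℕ) : ZMod (q * n)) := by
      rw [Nat.cast_add _ k.val, ZMod.natCast_zmod_val, add_comm]
    rw [h2, hcast, smul_mul', he σ, h1, ba_add c g (q * e σ + (θ σ).val) k.val]
    ring
  refine ⟨fun σ => ((q * e σ + (θ σ).val : ℕ) : ZMod (q * n)),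
    fun k => ba_E c g k.val * rt n δ, ?_, ?_, fun k => mul_ne_zero (hE _) hΔ0, hact, ?_, ?_⟩
  · refine cont_of hG (rt n δ) _ fun σ τ h => ?_
    apply hDinj
    rw [← hX, ← hX, h]
  · intro σ τ
    apply hDinj
    rw [← hX, mul_smul, hX τ, hact, add_comm]
  · intro k
    have h2 : k + (q : ZMod (q * n)) = ((q * 1 + k.val : ℕ) : ZMod (q * n)) := by
      rw [Nat.cast_add, ZMod.natCast_zmod_val, mul_one, add_comm]
    show ba_E c g (k + (q : ZMod (q * n))).val * rt n δ = ξ * (ba_E c g k.val * rt n δ)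
    rw [h2, hcast, ba_q hadd hg hc hN', pow_one, mul_assoc]
  · intro σ
    rw [map_natCast, Nat.cast_add, Nat.cast_mul, ZMod.natCast_self, zero_mul, zero_add,
      ZMod.natCast_zmod_val]

end MSC
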