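import Pool.Agent.MSG.Un

/-! # MSC / Bb: multiples of the class of a carry cocycle

`X : G → ZMod (q * n)` a continuous homomorphism, `θ = X mod q`, `b` fixed by `G`.

PROOFS (`cy_eq`).
* `cy_red`: `(θ g).val = (X g).val % q = (X g).val - q * u g`, `u g = (X g).val / q`.  So `q * cy θ g h = (θ g).val + (θ h).val - (θ (g h)).val = q * n * cy X g h - q * (u g + u h - u (g h))`, so in `ℤ`: `cy θ g h = n * cy X g h - (u g + u h - u (g h))`.
  The factor is `Ξ g = b ^ u g`, fixed by `G`, locally constant.
* `cy_tors`: `q * n * cy X g h = (X g).val + (X h).val - (X (g h)).val`; `Ξ g = b ^ (X g).val`.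
-/

set_option autoImplicit false
set_option linter.unusedVariables false

namespace MSC

universe u v

open MSG

variable {G : Type u} {Ω : Type v} [Group G] [TopologicalSpace G] [Field Ω] [MulSemiringAction G Ω]

/-- the coboundary of `b ^ u` -/
private theorem cu_pow {b : Ω} (hb : Fx G b) {e f : G → G → ℕ} {u : G → ℕ} (hu : IsLocallyConstant u)
    (h : ∀ g h, u g + u h + f g h = u (g * h) + e g h) :
    Cu (fun g h : G => b ^ e g h) (fun g h => b ^ f g h) := by
  refine ⟨fun g => b ^ u g, fun g => pow_ne_zero _ hb.1, hu.comp (fun k => b ^ k), fun g k => ?_⟩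
  have h1 : g • b ^ u k = b ^ u k := by rw [smul_pow', hb.2 g]
  have h2 : b ^ u (g * k) ≠ 0 := pow_ne_zero _ hb.1
  have h3 : b ^ (u g + u k + f g k) = b ^ (u (g * k) + e g k) := by rw [h g k]
  show b ^ e g k = b ^ f g k * (b ^ u g * g • b ^ u k / b ^ u (g * k))
  rw [h1, mul_div_assoc', eq_div_iff h2, ← pow_add, ← pow_add, ← pow_add]
  rw [add_comm (e g k), ← h3, add_comm (f g k)]

theorem cy_red {q n : ℕ} [NeZero q] [NeZero n] {X : G → ZMod (q * n)} (hX : Continuous X) (hadd : ∀ g h, X (g * h) = X g + X h)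
    {b : Ω} (hb : Fx G b) :
    Cu (fun g h : G => (b ^ cy X g h) ^ n) (fun g h => b ^ cy (fun g => ZMod.castHom (Dvd.intro n rfl) (ZMod q) (X g)) g h) := by
  have hq0 : 0 < q := Nat.pos_of_ne_zero (NeZero.ne q)
  have hXl : IsLocallyConstant X := (IsLocallyConstant.iff_continuous _).2 hX
  have hθadd : ∀ g h : G, ZMod.castHom (Dvd.intro n rfl) (ZMod q) (X (g * h)) =
      ZMod.castHom (Dvd.intro n rfl) (ZMod q) (X g) + ZMod.castHom (Dvd.intro n rfl) (ZMod q) (X h) := by
    intro g h
    rw [hadd, map_add]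
  have hval : ∀ g : G, (X g).val = q * ((X g).val / q) +
      (ZMod.castHom (Dvd.intro n rfl) (ZMod q) (X g)).val := by
    intro g
    rw [ZMod.castHom_apply, ZMod.cast_eq_val, ZMod.val_natCast]
    exact (Nat.div_add_mod _ _).symm
  have key := cu_pow (b := b) hb (e := fun g h => cy X g h * n)
    (f := fun g h => cy (fun g => ZMod.castHom (Dvd.intro n rfl) (ZMod q) (X g)) g h)
    (u := fun g => (X g).val / q) (hXl.comp (fun x => x.val / q)) (by
      intro g h
      have h1 := cy_eq hadd g h
      have h2 := cy_eq (θ := fun g => ZMod.castHom (Dvd.intro n rfl) (ZMod q) (X g)) hθadd g h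
      have h3 := hval g
      have h4 := hval h
      have h5 := hval (g * h)
      refine Nat.eq_of_mul_eq_mul_left hq0 ?_
      have h6 : q * n * cy X g h = q * (cy X g h * n) := by ring
      rw [h6] at h1
      rw [mul_add, mul_add, mul_add]
      omega)
  have h7 : (fun g h : G => (b ^ cy X g h) ^ n) = fun g h : G => b ^ (cy X g h * n) := by
    funext g h
    rw [pow_mul]
  rw [h7]
  exact key

theorem cy_tors {q n : ℕ} [NeZero q] [NeZero n] {X : G → ZMod (q * n)} (hX : Continuous X) (hadd : ∀ g h, X (g * h) = X g + X h)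
    {b : Ω} (hb : Fx G b) : Cu (fun g h : G => (b ^ cy X g h) ^ (q * n)) (fun _ _ => 1) := by
  have hXl : IsLocallyConstant X := (IsLocallyConstant.iff_continuous _).2 hX
  have key := cu_pow (b := b) hb (e := fun g h => cy X g h * (q * n))
    (f := fun g h => 0) (u := fun g => (X g).val) (hXl.comp (fun x => x.val)) (by
      intro g h
      have h1 := cy_eq hadd g h
      have h6 : q * n * cy X g h = cy X g h * (q * n) := by ring
      rw [h6] at h1
      rw [add_zero]
      exact h1)
  have h7 : (fun g h : G => (b ^ cy X g h) ^ (q * n)) = fun g h : G => b ^ (cy X g h * (q * n)) := by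
    funext g h
    exact (pow_mul b _ _).symm
  have h8 : (fun (_ _ : G) => (1 : Ω)) = fun _ _ : G => b ^ 0 := by
    funext g h
    rw [pow_zero]
  rw [h7, h8]
  exact key

end MSC
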