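import Pool.Agent.MSN.Ov
import Pool.Agent.MSG.Uo
import Pool.Agent.MSG.Un

/-! # MSC / Brg: the relations `Cu`, `Zu` of MSG and the groups `Bq` of MSN; levels

PROOFS.
* `zo_of_zu`, `zu_of_zo`: the same conditions.  `bc_eq_of_cu`: `f = f' * (Ξ g * g • Ξ h / Ξ (g h))` gives `Bo f f'`.  `cu_of_bc_eq`: `bc_eq_iff`.
* `pf_eq_pbu`, `sb_eq_hs`: by definition.
* `tors_hB`: `n • bc (sb ..) = bc (sb .. ^ n)`, `zp ζ _ ^ n = 1` (`K2_induction`).
* `hB_level`: on symbols: `hs_level` (`hs n (z ^ k) a b = hs (n k) z a b ^ k`, so `hB (level n) x = k • hB (level n k) x`).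
* `hB_zeta`: on symbols: `hs_zeta`: `hs n (z ^ v) a b ^ v = hs n z a b`.
* `adjust`: `z ^ (p ^ m)` is a primitive `p`-th root of unity, so `ζ = (z ^ (p ^ m)) ^ v` with `v` prime to `p`; take `z' = z ^ v` (`IsPrimitiveRoot.pow_of_coprime`) and `κ' = v • κ` (`hB_zeta`).
* `sum_sym`: every element of `K₂` is a finite sum of symbols (`K2_induction`; `- S a b = S a⁻¹ b`).
* `sub_lv`: restriction of level data to a subgroup `Gi`: `GA.sub`.
* `cy_sym`: `θ g = km n ζ a g`; `cy_km`: `zp ζ (km n ζ b g * km n ζ a h) * b ^ cy θ g h ~ 1`, and `km b ∪ km a ~ - km a ∪ km b` (`hs_anti` for the whole group, or `Co` with `χ g = km a g * km b g`).  So `b ^ cy θ ~ sb n ζ a b`.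
-/

set_option autoImplicit false
set_option linter.unusedVariables false

namespace MSC

universe u

open MSG MSN Pool.Agent.Helper14.Massey

open Pool.Agent.MK (K2 S)

section

variable {H Ω H' Ω' : Type u} [Group H] [TopologicalSpace H] [Field Ω] [MulSemiringAction H Ω]
  [Group H'] [TopologicalSpace H'] [Field Ω'] [MulSemiringAction H' Ω'] {f f' : H → H → Ω}

theorem zo_of_zu (h : Zu H f) : Zo f := h

theorem zu_of_zo (h : Zo f) : Zu H f := h

theorem bc_eq_of_cu (hf : ∀ g h, f g h ≠ 0) (hf' : ∀ g h, f' g h ≠ 0) (h : Cu f f') : bc f = bc f' :=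
  (bc_eq_cu hf hf').2 h

theorem cu_of_bc_eq (hf : ∀ g h, f g h ≠ 0) (hf' : ∀ g h, f' g h ≠ 0) (h : bc f = bc f') : Cu f f' :=
  (bc_eq_cu hf hf').1 h

theorem pf_eq_pbu (m : Mo H Ω H' Ω') (f : H → H → Ω) : pf m f = pbu m f := rfl

theorem co_of_bc_zf {n : ℕ} {ζ : Ω} (hH : GA H Ω) (hz : PZ n ζ) (hζ : ∀ g : H, g • ζ = ζ) {F F' : H → H → ZMod n}
    (h : bc (zf ζ F) = bc (zf ζ F')) : Co F F' :=
  Co_of_Cu hH hz hζ ((bc_eq_cu (nz_zf hz F) (nz_zf hz F')).1 h)

variable {F : Type u} [Field F] {j : F →+* Ω} {n : ℕ} {z : Ω}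

theorem tors_hB (L : Lv n H z j) (x : K2 F) : n • hB L x = 0 := by
  induction x using Pool.Agent.MK.K2_induction with
  | hS a b ha hb =>
    rw [hB_S L ha hb, ← bc_pow (nz_sb L.pz _ _), ← bc_one]
    congr 1
    funext g h
    exact zp_pow L.pz _
  | hz => rw [map_zero, smul_zero]
  | hadd x y hx hy => rw [map_add, smul_add, hx, hy, add_zero]

theorem hB_level {k N : ℕ} (hN : N = n * k) (L : Lv N H z j) (L' : Lv n H (z ^ k) j) (x : K2 F) : hB L' x = k • hB L x := by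
  subst hN
  induction x using Pool.Agent.MK.K2_induction with
  | hS a b ha hb =>
    rw [hB_S L ha hb, hB_S L' ha hb, ← bc_pow (nz_sb L.pz _ _)]
    congr 1
    funext g h
    exact hs_level L.ga L.pz L'.pz (L.fx ha).1 (L.fx hb).1 (L.fz g) (L.fz h) (L.fj g a) (L.fj h b)
  | hz => rw [map_zero, map_zero, smul_zero]
  | hadd x y hx hy => rw [map_add, map_add, smul_add, hx, hy]

theorem hB_zeta {v : ℕ} (hv : n.Coprime v) (L : Lv n H z j) (L' : Lv n H (z ^ v) j) (x : K2 F) : v • hB L' x = hB L x := by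
  induction x using Pool.Agent.MK.K2_induction with
  | hS a b ha hb =>
    rw [hB_S L ha hb, hB_S L' ha hb, ← bc_pow (nz_sb L'.pz _ _)]
    congr 1
    funext g h
    exact hs_zeta L.ga L.pz hv (L.fx ha).1 (L.fx hb).1 (L.fz g) (L.fz h) (L.fj g a) (L.fj h b)
  | hz => rw [map_zero, map_zero, smul_zero]
  | hadd x y hx hy => rw [map_add, map_add, smul_add, hx, hy]

theorem adjust {p m : ℕ} (hp : p.Prime) {ζ : Ω} (hz : PZ p ζ) (L : Lv (p ^ (m + 1)) H z j) (κ : K2 F) :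
    ∃ (z' : Ω) (L' : Lv (p ^ (m + 1)) H z' j) (κ' : K2 F), z' ^ (p ^ m) = ζ ∧ hB L' κ' = hB L κ := by
  have hpos : 0 < p ^ (m + 1) := pow_pos hp.pos _
  have h1 : IsPrimitiveRoot (z ^ (p ^ m)) p := L.pz.prim.pow hpos (pow_succ p m)
  have := hz.neZero
  obtain ⟨v, _, hv⟩ := h1.eq_pow_of_pow_eq_one hz.prim.pow_eq_one
  have h2 : v.Coprime p := by
    rw [← h1.pow_iff_coprime hp.pos, hv]
    exact hz.prim
  have h3 : v.Coprime (p ^ (m + 1)) := h2.pow_right _
  have L' : Lv (p ^ (m + 1)) H (z ^ v) j :=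
    ⟨L.ga, ⟨L.pz.odd, L.pz.one_lt, L.pz.prim.pow_of_coprime v h3⟩,
      fun g => by rw [smul_pow', L.fz], L.fj⟩
  refine ⟨z ^ v, L', v • κ, ?_, ?_⟩
  · rw [← hv, ← pow_mul, ← pow_mul, mul_comm]
  · rw [map_nsmul, hB_zeta h3.symm L L']

theorem sum_sym (x : K2 F) : ∃ (r : ℕ) (a b : Fin r → F), (∀ i, a i ≠ 0) ∧ (∀ i, b i ≠ 0) ∧ x = ∑ i, S (a i) (b i) := by
  induction x using Pool.Agent.MK.K2_induction with
  | hS a b ha hb =>
    exact ⟨1, fun _ => a, fun _ => b, fun _ => ha, fun _ => hb, by rw [Fin.sum_univ_one]⟩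
  | hz => exact ⟨0, fun _ => 1, fun _ => 1, fun _ => one_ne_zero, fun _ => one_ne_zero, by
      rw [Fin.sum_univ_zero]⟩
  | hadd x y hx hy =>
    obtain ⟨r, a, b, ha, hb, hx⟩ := hx
    obtain ⟨r', a', b', ha', hb', hy⟩ := hy
    refine ⟨r + r', Fin.append a a', Fin.append b b', fun i => ?_, fun i => ?_, ?_⟩
    · refine Fin.addCases (fun i => ?_) (fun i => ?_) i
      · rw [Fin.append_left]
        exact ha i
      · rw [Fin.append_right]
        exact ha' i
    · refine Fin.addCases (fun i => ?_) (fun i => ?_) i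
      · rw [Fin.append_left]
        exact hb i
      · rw [Fin.append_right]
        exact hb' i
    · rw [Fin.sum_univ_add, hx, hy]
      congr 1
      · refine Finset.sum_congr rfl fun i _ => ?_
        rw [Fin.append_left, Fin.append_left]
      · refine Finset.sum_congr rfl fun i _ => ?_
        rw [Fin.append_right, Fin.append_right]

private theorem brg_zp_sum (hz : PZ n z) {κ : Type*} (t : Finset κ) (c : κ → ZMod n) :
    zp z (∑ i ∈ t, c i) = ∏ i ∈ t, zp z (c i) := by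
  classical
  induction t using Finset.induction_on with
  | empty => rw [Finset.sum_empty, Finset.prod_empty, zp_zero hz]
  | insert i s hi ih => rw [Finset.sum_insert hi, Finset.prod_insert hi, zp_add hz, ih]

theorem hB_sum (L : Lv n H z j) {r : ℕ} {a b : Fin r → F} (ha : ∀ i, a i ≠ 0) (hb : ∀ i, b i ≠ 0) :
    hB L (∑ i, S (a i) (b i)) = bc (zf z (fun g h => ∑ i, km n z (j (a i)) g * km n z (j (b i)) h)) := by
  rw [map_sum, Finset.sum_congr rfl fun i _ => hB_S L (ha i) (hb i),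
    ← bc_prod Finset.univ (fun i => sb (H := H) n z (j (a i)) (j (b i))) (fun i _ => nz_sb L.pz _ _)]
  congr 1
  funext g h
  exact (brg_zp_sum L.pz Finset.univ _).symm

theorem cy_sym (hH : GA H Ω) {p : ℕ} {ζ : Ω} (hz : PZ p ζ) (hζ : ∀ g : H, g • ζ = ζ) {a b : Ω} (ha : Fx H a) (hb : Fx H b) :
    Cu (fun g h : H => b ^ cy (fun g : H => km p ζ a g) g h) (sb p ζ a b) := by
  have := hH.alg
  have := hz.neZero
  have hadd : ∀ g h : H, km p ζ a (g * h) = km p ζ a g + km p ζ a h := fun g h =>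
    km_hom hz ha.1 (hζ g) (hζ h) (ha.2 g) (ha.2 h)
  have h1 := cy_km hH hz hζ (km_cont hH p ζ a) hadd hb
  have h2 : Co (fun g h : H => km p ζ b g * km p ζ a h) (fun g h : H => -(km p ζ a g * km p ζ b h)) := by
    refine ⟨fun g => -(km p ζ a g * km p ζ b g), ((km_cont hH p ζ a).mul (km_cont hH p ζ b)).neg, fun g h => ?_⟩
    have e1 := km_hom hz ha.1 (hζ g) (hζ h) (ha.2 g) (ha.2 h)
    have e2 := km_hom hz hb.1 (hζ g) (hζ h) (hb.2 g) (hb.2 h)
    beta_reduce
    rw [e1, e2]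
    ring
  have h3 := Cu_mul (Cu_inv (Cu_of_Co hz hζ h2)) h1
  have e1 : (fun g h : H => (zp ζ (km p ζ b g * km p ζ a h))⁻¹ *
      (zp ζ (km p ζ b g * km p ζ a h) * b ^ cy (fun g : H => km p ζ a g) g h)) =
      fun g h : H => b ^ cy (fun g : H => km p ζ a g) g h := by
    funext g h
    exact inv_mul_cancel_left₀ (zp_ne hz _) _
  have e2 : (fun g h : H => (zp ζ (-(km p ζ a g * km p ζ b h)))⁻¹ * (1 : Ω)) = sb p ζ a b := by
    funext g h
    rw [zp_neg hz, inv_inv, mul_one]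
    rfl
  rw [e1, e2] at h3
  exact h3

end

section

variable {p : ℕ} {G Ω : Type u} [Group G] [TopologicalSpace G] [Field Ω] [MulSemiringAction G Ω]
  {F : Type u} [Field F] {j : F →+* Ω} {n : ℕ} {z : Ω}

theorem gi_lv (L : Lv n G z j) : Lv n (Gi p G Ω) z j :=
  ⟨gi_ga L.ga, L.pz, fun g => L.fz g, fun g x => L.fj g x⟩

theorem ri_hB (L : Lv n G z j) (L' : Lv n (Gi p G Ω) z j) (x : K2 F) : ri p G Ω (hB L x) = hB L' x := by
  induction x using Pool.Agent.MK.K2_induction with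
  | hS a b ha hb =>
    rw [hB_S L ha hb, hB_S L' ha hb, ri_bc (nz_sb L.pz _ _)]
    rfl
  | hz => rw [map_zero, map_zero, map_zero]
  | hadd x y hx hy => rw [map_add, map_add, map_add, hx, hy]

/-- level data on `Gi` for a primitive root of unity of `p`-power order -/
theorem lv_gi (hp : p.Prime) (hG : GA G Ω) (hj : ∀ (g : G) (x : F), g • j x = j x) {m : ℕ} (hz : PZ (p ^ (m + 1)) z) :
    Lv (p ^ (m + 1)) (Gi p G Ω) z j :=
  ⟨gi_ga hG, hz, fun g => gi_fix g hz.prim.pow_eq_one, fun g x => hj g x⟩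

end

end MSC
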