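import Pool.Agent.MSC.Tc
import Pool.Agent.MSC.Brg
import Pool.Agent.MSG.RT

/-! # MSC / Bc: if `(θ, b)` is trivial then `(X, b)` is a sum of symbols of level `n`

`X : G → ZMod (p * n)` a continuous homomorphism, `θ = X mod p`, `D` a root system (`g • D k = D (k + X g)`, `D (k + p) = z * D k`), `b` fixed by `G`, `b ^ cy θ ~ 1`.

PROOF.
* `bc_ev`: there is `y : ZMod p → Ω`, equivariant for the action `g • s = s + θ g` (stated explicitly: `y (s + θ g) = g • y s`), nonzero, with `∏ s, y s = b`.  If `θ = 0`: `y 0 = b`, `y s = 1` for `s ≠ 0`.  Otherwise `θ g₁ ≠ 0` for some `g₁`, a unit of `ZMod p`, so a power `g₀` of `g₁` has `θ g₀ = 1`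
  (`θ (g₁ ^ l) = l * θ g₁`); `norm_of_cy`: `b = ∏ i < p, g₀ ^ i • y₀`, `y₀` fixed by `ker θ`; `y s = g₀ ^ s.val • y₀`: `(g₀ ^ (s + θ g).val)⁻¹ * (g * g₀ ^ s.val)` is in `ker θ`.
* `bc_sym`: the action of `G` on `ZMod p` (a local `MulAction`, `g • s = s + castHom (X g)`), `OS G (ZMod p)` (the set `{g | θ g = 0}` is open).  `tc` with `q' = p`: `zp z (tS n z y (fun s => D s.val ^ n)) * b ^ cy X ~ 1`.  `tc_ev`, `rosset_tate` (`ι = id`, `tH n z id = tS n z`): `tS n z y (..)` is `Co` to `∑ km n z (a i) g * km n z (b i) h`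
  with `a i`, `b i` in the fixed field; `Cu_of_Co`; `hB_sum`: `zp z (∑ ..)` has class `hB L κ₀`, `κ₀ = ∑ S (a i) (b i)`.  So the class of `b ^ cy X` is `- hB L κ₀ = hB L (- κ₀)`.
-/

set_option autoImplicit false
set_option linter.unusedVariables false

namespace MSC

universe u v

open MSG MSN

open Pool.Agent.MK (K2 S)

private theorem bc_pow_hom {G : Type u} [Group G] {q : ℕ} {θ : G → ZMod q} (hadd : ∀ g h, θ (g * h) = θ g + θ h)
    (g : G) (l : ℕ) : θ (g ^ l) = (l : ZMod q) * θ g := by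
  induction l with
  | zero => rw [pow_zero, hom_one hadd, Nat.cast_zero, zero_mul]
  | succ l ih => rw [pow_succ, hadd, ih, Nat.cast_succ, add_mul, one_mul]

private theorem bc_inv_hom {G : Type u} [Group G] {q : ℕ} {θ : G → ZMod q} (hadd : ∀ g h, θ (g * h) = θ g + θ h)
    (g : G) : θ g⁻¹ = - θ g := by
  have h1 := hadd g⁻¹ g
  rw [inv_mul_cancel, hom_one hadd] at h1
  exact eq_neg_of_add_eq_zero_left h1.symm

/-- the kernel -/
private def bcK {G : Type u} [Group G] {q : ℕ} {θ : G → ZMod q} (hadd : ∀ g h, θ (g * h) = θ g + θ h) : Subgroup G where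
  carrier := {g | θ g = 0}
  mul_mem' := by
    intro a b ha hb
    have ha' : θ a = 0 := ha
    have hb' : θ b = 0 := hb
    show θ (a * b) = 0
    rw [hadd, ha', hb', add_zero]
  one_mem' := hom_one hadd
  inv_mem' := by
    intro a ha
    have ha' : θ a = 0 := ha
    show θ a⁻¹ = 0
    rw [bc_inv_hom hadd, ha', neg_zero]

theorem bc_ev {G : Type u} {Ω : Type v} [Group G] [TopologicalSpace G] [Field Ω] [MulSemiringAction G Ω] (hG : GA G Ω)
    {p : ℕ} (hp : p.Prime) {θ : G → ZMod p} (hθ : Continuous θ) (hadd : ∀ g h, θ (g * h) = θ g + θ h) {b : Ω} (hb : Fx G b)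
    (h : Cu (fun g h : G => b ^ cy θ g h) (fun _ _ => 1)) :
    ∃ y : ZMod p → Ω, (∀ s, y s ≠ 0) ∧ (∀ (g : G) (s : ZMod p), y (s + θ g) = g • y s) ∧ ∏ i ∈ Finset.range p, y (i : ZMod p) = b := by
  have hfact := Fact.mk hp
  by_cases h0 : ∀ g, θ g = 0
  · refine ⟨fun s => if s = 0 then b else 1, fun s => ?_, fun g s => ?_, ?_⟩
    · beta_reduce
      split_ifs
      · exact hb.1
      · exact one_ne_zero
    · rw [h0, add_zero]
      beta_reduce
      split_ifs
      · exact (hb.2 g).symm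
      · exact (smul_one g).symm
    · rw [Finset.prod_eq_single 0]
      · rw [Nat.cast_zero]
        exact if_pos rfl
      · intro i hi hi0
        refine if_neg ?_
        intro h1
        rw [ZMod.natCast_eq_zero_iff] at h1
        exact absurd (Nat.le_of_dvd (Nat.pos_of_ne_zero hi0) h1) (not_le.2 (Finset.mem_range.1 hi))
      · intro h1
        exact absurd (Finset.mem_range.2 hp.pos) h1
  · push Not at h0
    obtain ⟨g₁, hg₁⟩ := h0
    obtain ⟨g₀, hg₀⟩ : ∃ g₀, θ g₀ = 1 := by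
      refine ⟨g₁ ^ ((θ g₁)⁻¹).val, ?_⟩
      rw [bc_pow_hom hadd, ZMod.natCast_zmod_val, inv_mul_cancel₀ hg₁]
    obtain ⟨y₀, hy0, hyN, hyb⟩ := norm_of_cy hG hθ hadd hg₀ (N := bcK hadd) (fun g => Iff.rfl) hb h
    refine ⟨fun s => g₀ ^ s.val • y₀, fun s => smul_ne_z _ hy0, fun g s => ?_, ?_⟩
    · have h1 : (g₀ ^ (s + θ g).val)⁻¹ * (g * g₀ ^ s.val) ∈ bcK hadd := by
        show θ _ = 0
        rw [hadd, hadd, bc_inv_hom hadd, hom_pow hadd hg₀, hom_pow hadd hg₀,
          ZMod.natCast_zmod_val, ZMod.natCast_zmod_val]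
        ring
      have h2 := hyN _ h1
      rw [mul_smul, inv_smul_eq_iff, mul_smul] at h2
      exact h2.symm
    · rw [hyb]
      refine Finset.prod_congr rfl fun i hi => ?_
      beta_reduce
      rw [ZMod.val_cast_of_lt (Finset.mem_range.1 hi)]

private theorem bc_prod_range {Ω : Type u} [Field Ω] {p : ℕ} [NeZero p] (y : ZMod p → Ω) :
    ∏ s, y s = ∏ i ∈ Finset.range p, y (i : ZMod p) := by
  symm
  refine Finset.prod_bij' (fun i _ => (i : ZMod p)) (fun s _ => s.val) ?_ ?_ ?_ ?_ ?_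
  · intro i _
    exact Finset.mem_univ _
  · intro s _
    exact Finset.mem_range.2 (ZMod.val_lt s)
  · intro i hi
    exact ZMod.val_cast_of_lt (Finset.mem_range.1 hi)
  · intro s _
    exact ZMod.natCast_zmod_val s
  · intro i _
    rfl

theorem bc_sym {G Ω : Type u} [Group G] [TopologicalSpace G] [Field Ω] [MulSemiringAction G Ω] {p n : ℕ} (hp : p.Prime) {z : Ω}
    (L : Lv n G z (FixedPoints.subfield G Ω).subtype) {X : G → ZMod (p * n)} (hX : Continuous X) (hadd : ∀ g h, X (g * h) = X g + X h)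
    {D : ZMod (p * n) → Ω} (hD0 : ∀ k, D k ≠ 0) (hD : ∀ g k, g • D k = D (k + X g)) (hDq : ∀ k, D (k + (p : ZMod (p * n))) = z * D k)
    {b : Ω} (hb : Fx G b)
    (h : Cu (fun g h : G => b ^ cy (fun g => ZMod.castHom (Dvd.intro n rfl) (ZMod p) (X g)) g h) (fun _ _ => 1)) :
    ∃ κ : K2 (FixedPoints.subfield G Ω), bc (fun g h : G => b ^ cy X g h) = hB L κ := by
  have hn := L.pz.neZero
  have hp0 : NeZero p := ⟨hp.ne_zero⟩
  have hXl : IsLocallyConstant X := (IsLocallyConstant.iff_continuous _).2 hX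
  obtain ⟨θ, hθ⟩ : ∃ θ : G → ZMod p, θ = fun g => ZMod.castHom (Dvd.intro n rfl) (ZMod p) (X g) := ⟨_, rfl⟩
  rw [← hθ] at h
  have hθl : IsLocallyConstant θ := by
    rw [hθ]
    exact hXl.comp (fun t => ZMod.castHom (Dvd.intro n rfl) (ZMod p) t)
  have hθa : ∀ g h, θ (g * h) = θ g + θ h := by
    intro g h
    rw [hθ]
    beta_reduce
    rw [hadd, map_add]
  obtain ⟨y, hy0, hye, hyb⟩ := bc_ev L.ga hp ((IsLocallyConstant.iff_continuous _).1 hθl) hθa hb h
  let act : MulAction G (ZMod p) :=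
    { smul := fun g s => s + θ g
      one_smul := fun s => by
        show s + θ 1 = s
        rw [hom_one hθa, add_zero]
      mul_smul := fun g h s => by
        show s + θ (g * h) = s + θ h + θ g
        rw [hθa, add_assoc, add_comm (θ g)] }
  have hact : ∀ (g : G) (s : ZMod p), g • s = s + ZMod.castHom (Dvd.intro n rfl) (ZMod p) (X g) := by
    intro g s
    show s + θ g = _
    rw [hθ]
  have hyE : Ev G y := fun s => ⟨hy0 s, fun g => hye g s⟩
  have hOS : OS G (ZMod p) := by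
    intro s
    have h1 : {g : G | g • s = s} = θ ⁻¹' {0} := by
      ext g
      show s + θ g = s ↔ θ g = 0
      exact add_eq_left
    rw [h1]
    exact hθl.isOpen_fiber 0
  have h1 := tc L.ga L.pz L.fz hX hadd hact hD0 hD hDq hyE
  have h2 := tc_ev L.pz hadd hact hD0 hD hDq
  obtain ⟨m, a, c, ha, hc, hco⟩ := rosset_tate (ι := MonoidHom.id G) L.ga L.pz hOS continuous_id
    (fun g => L.fz g) hyE h2
  obtain ⟨F, hF⟩ : ∃ F : G → G → ZMod n,
      F = tS n z y (fun s : ZMod p => D (s.val : ZMod (p * n)) ^ n) := ⟨_, rfl⟩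
  have h3 : Co F (fun g h => ∑ i, km n z (a i) g * km n z (c i) h) := by
    rw [hF]
    exact hco
  rw [bc_prod_range, hyb, ← hF] at h1
  have hA : Nz (zf z F) := nz_zf L.pz F
  have hB' : Nz (fun g h : G => b ^ cy X g h) := fun g h => pow_ne_zero _ hb.1
  have h4 : bc (zf z F) + bc (fun g h : G => b ^ cy X g h) = 0 := by
    rw [← bc_mul hA hB', ← bc_one]
    exact (bc_eq_cu (hA.mul hB') Nz.one).2 h1
  have h5 : hB L (∑ i, S (⟨a i, (ha i).2⟩ : FixedPoints.subfield G Ω) (⟨c i, (hc i).2⟩ : FixedPoints.subfield G Ω)) =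
      bc (zf z F) := by
    rw [MSC.hB_sum L (fun i h => (ha i).1 (congrArg Subtype.val h))
      (fun i h => (hc i).1 (congrArg Subtype.val h))]
    exact (bc_of_co L.pz L.fz h3).symm
  refine ⟨-(∑ i, S (⟨a i, (ha i).2⟩ : FixedPoints.subfield G Ω) (⟨c i, (hc i).2⟩ : FixedPoints.subfield G Ω)), ?_⟩
  rw [map_neg, h5]
  exact eq_neg_of_add_eq_zero_right h4

end MSC
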