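import Pool.Agent.MSC.Ba
import Pool.Agent.MSC.Bb
import Pool.Agent.MSC.Bc

/-! # MSC / Bd: the data of case 2

`exists_theta`: `H` open normal of index `p`, `c ∉ H`: the homomorphism `θ : G → G / H = ZMod p` with `θ c = 1`.

PROOF of `exists_theta`: `G ⧸ H` has `p` elements, so every element is a power of the class of `c` (`zpowers_eq_top_of_prime_card` or `isCyclic_of_prime_card`); `θ g` is the exponent modulo `p` (`orderOf = p`).  Continuity: `θ` is constant on the cosets of the open subgroup `H`. -/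

set_option autoImplicit false
set_option linter.unusedVariables false

namespace MSC

universe u v

open MSG MSN

open Pool.Agent.MK (K2 S)

theorem exists_theta {G : Type u} [Group G] [TopologicalSpace G] [IsTopologicalGroup G] {p : ℕ} (hp : p.Prime) {H : Subgroup G}
    (hH : H.Normal) (hHo : IsOpen (H : Set G)) (hi : H.index = p) {c : G} (hc : c ∉ H) :
    ∃ θ : G → ZMod p, Continuous θ ∧ (∀ g h, θ (g * h) = θ g + θ h) ∧ θ c = 1 ∧ ∀ g, g ∈ H ↔ θ g = 0 := by
  haveI := hH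
  haveI : NeZero p := ⟨hp.ne_zero⟩
  haveI : Fact p.Prime := ⟨hp⟩
  have hcard : Nat.card (G ⧸ H) = p := hi
  obtain ⟨q, hq⟩ : ∃ q : G ⧸ H, q = (c : G ⧸ H) := ⟨_, rfl⟩
  have hq1 : q ≠ 1 := by
    rw [hq]
    intro h
    exact hc ((QuotientGroup.eq_one_iff c).1 h)
  have hord : orderOf q = p := by
    refine orderOf_eq_prime ?_ hq1
    rw [← hcard]
    exact pow_card_eq_one'
  obtain ⟨ψ, hψ⟩ : ∃ ψ : ZMod p → G ⧸ H, ∀ j, ψ j = q ^ j.val := ⟨fun j => q ^ j.val, fun j => rfl⟩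
  have hinj : Function.Injective ψ := by
    intro i j h
    rw [hψ, hψ] at h
    have h1 := pow_injOn_Iio_orderOf (x := q) (show i.val ∈ Set.Iio (orderOf q) by
      rw [hord]; exact ZMod.val_lt i) (show j.val ∈ Set.Iio (orderOf q) by
      rw [hord]; exact ZMod.val_lt j) h
    exact ZMod.val_injective p h1
  haveI : Finite (G ⧸ H) := Nat.finite_of_card_ne_zero (by rw [hcard]; exact hp.ne_zero)
  have hbij : Function.Bijective ψ := by
    haveI := Fintype.ofFinite (G ⧸ H)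
    rw [Fintype.bijective_iff_injective_and_card]
    refine ⟨hinj, ?_⟩
    rw [ZMod.card, ← Nat.card_eq_fintype_card, hcard]
  have hadd : ∀ i j, ψ (i + j) = ψ i * ψ j := by
    intro i j
    rw [hψ, hψ, hψ, ← pow_add, ZMod.val_add]
    conv_rhs => rw [← pow_mod_orderOf, hord]
  obtain ⟨e, he⟩ : ∃ e : G ⧸ H → ZMod p, (∀ x, ψ (e x) = x) ∧ ∀ j, e (ψ j) = j :=
    ⟨(Equiv.ofBijective ψ hbij).symm, (Equiv.ofBijective ψ hbij).apply_symm_apply,
      (Equiv.ofBijective ψ hbij).symm_apply_apply⟩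
  have he1 : ∀ x y, e (x * y) = e x + e y := by
    intro x y
    apply hinj
    rw [hadd, he.1, he.1, he.1]
  have h01 : e 1 = 0 := by
    have h := he1 1 1
    rw [mul_one] at h
    exact left_eq_add.1 h
  refine ⟨fun g => e (g : G ⧸ H), ?_, fun g h => ?_, ?_, fun g => ?_⟩
  · haveI : DiscreteTopology (G ⧸ H) := QuotientGroup.discreteTopology hHo
    exact (continuous_of_discreteTopology (f := e)).comp QuotientGroup.continuous_mk
  · show e ((g * h : G) : G ⧸ H) = _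
    rw [QuotientGroup.mk_mul, he1]
  · show e (c : G ⧸ H) = 1
    rw [← hq]
    have h := he.2 1
    haveI : Fact (1 < p) := ⟨hp.one_lt⟩
    rw [hψ, ZMod.val_one, pow_one] at h
    exact h
  · show g ∈ H ↔ e (g : G ⧸ H) = 0
    constructor
    · intro h
      rw [(QuotientGroup.eq_one_iff g).2 h, h01]
    · intro h
      rw [← QuotientGroup.eq_one_iff]
      have h1 := he.1 (g : G ⧸ H)
      rw [h, ← h01, he.1] at h1
      exact h1.symm

theorem bta {p i : ℕ} (hp : p.Prime) {G Ω : Type u} [Group G] [TopologicalSpace G] [Field Ω] [MulSemiringAction G Ω] (hG : GA G Ω)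
    {ξ : Ω} (hξ : PZ (p ^ i) ξ) (hξG : ∀ σ : G, σ • ξ = ξ) {θ : G → ZMod p} (hθ : Continuous θ)
    (hadd : ∀ g h, θ (g * h) = θ g + θ h) {c : G} (hc : θ c = 1) {g : Ω} (hg : ∀ σ : G, θ σ = 0 ↔ σ • g = g)
    (hN : ∏ r ∈ Finset.range p, c ^ r • g = ξ) {b : Ω} (hb : Fx G b) :
    ∃ β : G → G → Ω, Zo β ∧ p ^ i • bc β = bc (fun g h : G => b ^ cy θ g h) ∧ p ^ (i + 1) • bc β = 0 ∧
      ∀ (G' Ω' : Type u) [Group G'] [TopologicalSpace G'] [Field Ω'] [MulSemiringAction G' Ω'] (m : Mo G Ω G' Ω'),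
        bqm m (bc (fun g h : G => b ^ cy θ g h)) = 0 →
        ∀ L : Lv (p ^ i) G' (m.ψ ξ) (FixedPoints.subfield G' Ω').subtype,
          ∃ κ : K2 (FixedPoints.subfield G' Ω'), bqm m (bc β) = hB L κ := by
  haveI : NeZero p := ⟨hp.ne_zero⟩
  haveI : NeZero (p ^ i) := ⟨pow_ne_zero i hp.ne_zero⟩
  obtain ⟨X, D, hX, hXa, hD0, hD, hDq, hXθ⟩ := ba hG hξ hξG hθ hadd hc hg hN
  have hθX : θ = fun g => ZMod.castHom (Dvd.intro (p ^ i) rfl) (ZMod p) (X g) := funext fun σ => (hXθ σ).symm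
  have hnz : Nz (fun g h : G => b ^ cy X g h) := fun g h => pow_ne_zero _ hb.1
  have hnz' : Nz (fun g h : G => b ^ cy θ g h) := fun g h => pow_ne_zero _ hb.1
  refine ⟨fun g h => b ^ cy X g h, cy_zu hG hX hXa hb, ?_, ?_, ?_⟩
  · rw [← bc_pow hnz]
    refine bc_eq_of_cu (hnz.pow _) hnz' ?_
    rw [hθX]
    exact cy_red hX hXa hb
  · have h1 : bc (fun g h : G => (b ^ cy X g h) ^ (p * p ^ i)) = 0 := by
      rw [← bc_one]
      exact bc_eq_of_cu (hnz.pow _) Nz.one (cy_tors hX hXa hb)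
    rw [bc_pow hnz] at h1
    rw [pow_succ, mul_comm]
    exact h1
  · intro G' Ω' _ _ _ _ m h0 L
    rw [bqm_bc m hnz'] at h0
    have h1 : Cu (pf m (fun g h : G => b ^ cy θ g h)) (fun _ _ => 1) := by
      refine cu_of_bc_eq (hnz'.pf m) Nz.one ?_
      rw [h0, bc_one]
    have e1 : pf m (fun g h : G => b ^ cy X g h) = fun g h : G' => (m.ψ b) ^ cy (fun g => X (m.r g)) g h := by
      funext g h
      exact map_pow m.ψ b _
    have e2 : pf m (fun g h : G => b ^ cy θ g h) = fun g h : G' =>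
        (m.ψ b) ^ cy (fun g => ZMod.castHom (Dvd.intro (p ^ i) rfl) (ZMod p) (X (m.r g))) g h := by
      funext g h
      rw [hθX]
      exact map_pow m.ψ b _
    obtain ⟨κ, hκ⟩ := bc_sym hp L (X := fun g => X (m.r g)) (hX.comp m.cont) (fun g h => by rw [map_mul, hXa])
      (D := fun k => m.ψ (D k)) (fun k => (map_ne_zero m.ψ).2 (hD0 k)) (fun g k => by rw [← m.comp, hD])
      (fun k => by rw [hDq, map_mul]) (m.fx hb) (by rw [← e2]; exact h1)
    exact ⟨κ, by rw [bqm_bc m hnz, e1, hκ]⟩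

end MSC
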