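import Pool.Agent.MSC.Dev
import Pool.Agent.MSG.Uo

/-! # MSC / Evl: evaluation of elements of `TT M` and the cochains attached to functions `Q → Q → TT M`

`A : Frm act G Ω`: `E` is embedded in `Ω` by `ε`, `G` acts on it through `π : G → Q` (open kernel).  `O : OvM A M G' Ω'`: a morphism of pairs `m : (G, Ω) → (G', Ω')` and an embedding `j : M → Ω'` with image
fixed by `G'`, compatible on `F`.  `O.ev : TT F E M → Ω'`, `x ⊗ e ↦ j x * m.ψ (ε e)`.  `O.cl C σ τ = O.ev (C (π (m.r σ)) (π (m.r τ)))`.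

PROOFS.
* `ev_qa`: on pure tensors: `σ • (j x * m.ψ (ε e)) = j x * m.ψ (m.r σ • ε e) = j x * m.ψ (ε (act (π (m.r σ)) e))` (`m.comp`, `A.cmp`).
* `pi_lc`: `σ ↦ A.π (O.m.r σ)` is locally constant (`A.op`, `O.m.cont`).
* `cl_zu`: `ev` is a ring homomorphism (units go to nonzero elements), `ev_qa`, the values depend only on `π (m.r σ)`, `π (m.r τ)`.
* `cl_coh`: witness `Ξ σ = O.ev (W (π (m.r σ)))`.
* `cl_pull`: `m'.ψ (O.ev x) = O'.ev (tm φ x)`: on pure tensors.
-/

set_option autoImplicit false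
set_option linter.unusedVariables false

namespace MSC

universe u

open scoped TensorProduct

open MSG

noncomputable section

variable {F E : Type u} [Field F] [Field E] [Algebra F E]

/-- evaluation -/
def evT {B Ω' : Type u} [CommRing B] [Algebra F B] [Field Ω'] (j : B →+* Ω') (ψ : E →+* Ω')
    (h : ∀ x : F, j (algebraMap F B x) = ψ (algebraMap F E x)) : TT F E B →+* Ω' :=
  letI : Algebra F Ω' := (ψ.comp (algebraMap F E)).toAlgebra
  ((Algebra.TensorProduct.lift ({ j with commutes' := h } : B →ₐ[F] Ω')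
    ({ ψ with commutes' := fun _ => rfl } : E →ₐ[F] Ω') (fun _ _ => Commute.all _ _) : TT F E B →ₐ[F] Ω') : TT F E B →+* Ω')

theorem evT_tmul {B Ω' : Type u} [CommRing B] [Algebra F B] [Field Ω'] (j : B →+* Ω') (ψ : E →+* Ω')
    (h : ∀ x : F, j (algebraMap F B x) = ψ (algebraMap F E x)) (x : B) (e : E) : evT j ψ h (x ⊗ₜ e) = j x * ψ e := by
  letI : Algebra F Ω' := (ψ.comp (algebraMap F E)).toAlgebra
  exact Algebra.TensorProduct.lift_tmul ({ j with commutes' := h } : B →ₐ[F] Ω')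
    ({ ψ with commutes' := fun _ => rfl } : E →ₐ[F] Ω') (fun _ _ => Commute.all _ _) x e

variable {Q : Type u} [Group Q] {act : Q →* (E ≃ₐ[F] E)}

/-- embedding of `E` in `Ω` with the action of `G` through `Q` -/
structure Frm (act : Q →* (E ≃ₐ[F] E)) (G Ω : Type u) [Group G] [TopologicalSpace G] [Field Ω] [MulSemiringAction G Ω] where
  ε : E →+* Ω
  π : G →* Q
  op : ∀ q, IsOpen {g : G | π g = q}
  cmp : ∀ (g : G) (x : E), ε (act (π g) x) = g • ε x

variable {G Ω G' Ω' G'' Ω'' : Type u} [Group G] [TopologicalSpace G] [Field Ω] [MulSemiringAction G Ω]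
  [Group G'] [TopologicalSpace G'] [Field Ω'] [MulSemiringAction G' Ω']
  [Group G''] [TopologicalSpace G''] [Field Ω''] [MulSemiringAction G'' Ω'']

/-- a pair over the field `M` and a morphism from `(G, Ω)` -/
structure OvM (A : Frm act G Ω) (M : Type u) [Field M] [Algebra F M] (G' Ω' : Type u) [Group G'] [TopologicalSpace G'] [Field Ω']
    [MulSemiringAction G' Ω'] where
  m : Mo G Ω G' Ω'
  j : M →+* Ω'
  fx : ∀ (σ : G') (x : M), σ • j x = j x
  cm : ∀ x : F, j (algebraMap F M x) = m.ψ (A.ε (algebraMap F E x))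

variable {A : Frm act G Ω} {M : Type u} [Field M] [Algebra F M] {M' : Type u} [Field M'] [Algebra F M']

namespace OvM

/-- evaluation -/
def ev (O : OvM A M G' Ω') : TT F E M →+* Ω' := evT O.j (O.m.ψ.comp A.ε) O.cm

/-- the cochain attached to `C` -/
def cl (O : OvM A M G' Ω') (C : Q → Q → TT F E M) (σ τ : G') : Ω' := O.ev (C (A.π (O.m.r σ)) (A.π (O.m.r τ)))

theorem ev_inl (O : OvM A M G' Ω') (x : M) : O.ev (inl M x) = O.j x := by
  show evT O.j (O.m.ψ.comp A.ε) O.cm (x ⊗ₜ 1) = O.j x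
  rw [evT_tmul, map_one, mul_one]

private theorem ev_tmul42 (O : OvM A M G' Ω') (x : M) (y : E) :
    O.ev (x ⊗ₜ y) = O.j x * O.m.ψ (A.ε y) :=
  evT_tmul O.j (O.m.ψ.comp A.ε) O.cm x y

theorem ev_qa (O : OvM A M G' Ω') (σ : G') (x : TT F E M) : O.ev (qa act M (A.π (O.m.r σ)) x) = σ • O.ev x := by
  induction x using TensorProduct.induction_on with
  | zero => rw [map_zero, map_zero, smul_zero]
  | tmul x y =>
    rw [qa_tmul, ev_tmul42, ev_tmul42, A.cmp, O.m.comp, smul_mul', O.fx]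
  | add x y hx hy => rw [map_add, map_add, map_add, hx, hy, smul_add]

theorem pi_lc (O : OvM A M G' Ω') : IsLocallyConstant (fun σ : G' => A.π (O.m.r σ)) := by
  rw [IsLocallyConstant.iff_isOpen_fiber]
  intro q
  exact (A.op q).preimage O.m.cont

theorem cl_ne (O : OvM A M G' Ω') {C : Q → Q → TT F E M} (hu : ∀ q q', IsUnit (C q q')) (σ τ : G') : O.cl C σ τ ≠ 0 :=
  ((hu _ _).map O.ev).ne_zero

theorem cl_zu (O : OvM A M G' Ω') {C : Q → Q → TT F E M} (hu : ∀ q q', IsUnit (C q q'))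
    (hc : ∀ q q' q'', C q q' * C (q * q') q'' = qa act M q (C q' q'') * C q (q' * q'')) : Zu G' (O.cl C) := by
  refine ⟨fun g h => O.cl_ne hu g h, ?_, fun g h l => ?_⟩
  · have h1 : IsLocallyConstant (fun p : G' × G' => (A.π (O.m.r p.1), A.π (O.m.r p.2))) :=
      (O.pi_lc.comp_continuous continuous_fst).prodMk (O.pi_lc.comp_continuous continuous_snd)
    exact h1.comp (fun p : Q × Q => O.ev (C p.1 p.2))
  · show g • O.ev (C (A.π (O.m.r h)) (A.π (O.m.r l))) * O.ev (C (A.π (O.m.r g)) (A.π (O.m.r (h * l)))) =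
      O.ev (C (A.π (O.m.r (g * h))) (A.π (O.m.r l))) * O.ev (C (A.π (O.m.r g)) (A.π (O.m.r h)))
    rw [← O.ev_qa, map_mul O.m.r g h, map_mul O.m.r h l, map_mul A.π (O.m.r g) (O.m.r h),
      map_mul A.π (O.m.r h) (O.m.r l), ← map_mul O.ev, ← map_mul O.ev,
      ← hc, mul_comm (C (A.π (O.m.r g)) (A.π (O.m.r h)))]

theorem cl_coh (O : OvM A M G' Ω') {C : Q → Q → TT F E M} {c : Q → Q → M} {W : Q → TT F E M} (hW : ∀ q, IsUnit (W q))
    (h : ∀ q q', C q q' * W (q * q') = inl M (c q q') * (W q * qa act M q (W q'))) :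
    Cu (O.cl C) (fun σ τ => O.j (c (A.π (O.m.r σ)) (A.π (O.m.r τ)))) := by
  have hne : ∀ g : G', O.ev (W (A.π (O.m.r g))) ≠ 0 := fun g => ((hW _).map O.ev).ne_zero
  refine ⟨fun g => O.ev (W (A.π (O.m.r g))), hne, O.pi_lc.comp (fun q => O.ev (W q)), fun g h' => ?_⟩
  have h1 := congrArg O.ev (h (A.π (O.m.r g)) (A.π (O.m.r h')))
  rw [map_mul, map_mul, map_mul, ev_inl, ev_qa, ← map_mul A.π, ← map_mul O.m.r] at h1
  show O.ev (C (A.π (O.m.r g)) (A.π (O.m.r h'))) = _
  rw [← mul_div_assoc, eq_div_iff (hne _)]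
  exact h1

/-- push forward along `φ : M → M'` and a morphism of pairs -/
def push (O : OvM A M G' Ω') (φ : M →ₐ[F] M') (m' : Mo G' Ω' G'' Ω'') (j' : M' →+* Ω'')
    (fx' : ∀ (σ : G'') (x : M'), σ • j' x = j' x) (h : ∀ x : M, m'.ψ (O.j x) = j' (φ x)) : OvM A M' G'' Ω'' where
  m := O.m.cmp m'
  j := j'
  fx := fx'
  cm x := by
    show j' (algebraMap F M' x) = m'.ψ (O.m.ψ (A.ε (algebraMap F E x)))
    rw [← O.cm, h, φ.commutes]

theorem cl_pull (O : OvM A M G' Ω') (φ : M →ₐ[F] M') (m' : Mo G' Ω' G'' Ω'') (j' : M' →+* Ω'')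
    (fx' : ∀ (σ : G'') (x : M'), σ • j' x = j' x) (h : ∀ x : M, m'.ψ (O.j x) = j' (φ x)) (C : Q → Q → TT F E M) :
    pbu m' (O.cl C) = (O.push φ m' j' fx' h).cl (fun q q' => tm φ (C q q')) := by
  have key : ∀ x : TT F E M, m'.ψ (O.ev x) = (O.push φ m' j' fx' h).ev (tm φ x) := by
    intro x
    induction x using TensorProduct.induction_on with
    | zero => rw [map_zero, map_zero, map_zero, map_zero]
    | tmul x y =>
      rw [tm_tmul, ev_tmul42, ev_tmul42, map_mul, h]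
      rfl
    | add x y hx hy => rw [map_add, map_add, map_add, map_add, hx, hy]
  funext σ τ
  exact key _

end OvM

end

end MSC
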