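import Pool.Agent.MSC.Gen
import Pool.Agent.MSC.Evl
import Pool.Agent.MSC.Brg
import Pool.Agent.MSG.Uf

/-! # MSC / Cdat: the data of part C from a trivial sum of symbols

PROOF of `cdat`.  `F = FixedPoints.subfield G Ω`, `α_j = km p ζ (a j) : G → ZMod p` (continuous homomorphisms, `km_hom`, `km_cont`).  Let `c g h = ∏ b_j ^ cy α_j g h`.  By `cy_sym` (for every `j`, `Cu_prod`) `c ~ ∏ sb p ζ (a j) (b j) = zf ζ (∑ km a_j ∪ km b_j) ~ 1`
(hypothesis `h`, `Cu_of_Co`).  So `c g h = u g * g • u h / u (g h)` with `u : G → Ω` nonzero, locally constant.  Let `y g = ∏ b_j ^ (α_j g).val`.  `c g h ^ p * y (g h) = y g * y h` (`x.val + y.val = (x + y).val + p * cy`) and the values of `y` are fixed by `G`, so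
`g ↦ y g / u g ^ p` is a 1-cocycle, locally constant, and `h90cont` gives `a' ≠ 0` with `y g = u g ^ p * g • a' / a'`.
Choose an open normal subgroup `V` of `G` such that the `α_j` vanish on `V`, `u (g v) = u g` for `v ∈ V` (compactness: `u` is locally constant), and `V` fixes `a'` and the (finitely many) values of `u` (`MSG.Uf_exists_normal` or `GA.pf`, `hG.stab`).
`Q = G ⧸ V` (finite: `V` open in the compact group), `π = QuotientGroup.mk' V`, `E = FixedPoints.subfield V Ω`: `F ≤ E` gives the `F`-algebra structure (`Subfield.inclusion`; `ε` = the inclusion in `Ω`), `G` maps `E` to itself (`V` is normal) and `V` acts trivially, which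
defines `act : Q →* (E ≃ₐ[F] E)`.  `E` is finite over `F`: the finite group `Q` acts on `E` with fixed field `F` (elements of `E` fixed by `Q` are fixed by `G`): Artin (`FixedPoints.finiteDimensional`, or: every `x ∈ Ω` is algebraic, separable over `F` of degree `≤ #Q`).
`al j`, `u` factor through `Q`; `D.a = a'`.
-/

set_option autoImplicit false
set_option linter.unusedVariables false

namespace MSC

universe u

open MSG MSN Pool.Agent.Helper14.Massey

open Pool.Agent.MK (K2 S)

section dat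

variable {G Ω : Type u} [Group G] [Field Ω] [MulSemiringAction G Ω] (V : Subgroup G)

theorem cd_le : FixedPoints.subfield G Ω ≤ FixedPoints.subfield V Ω := by
  intro x hx v
  exact hx (v : G)

/-- the algebra structure -/
abbrev cd_alg : Algebra (FixedPoints.subfield G Ω) (FixedPoints.subfield V Ω) :=
  (Subfield.inclusion (cd_le V)).toAlgebra

attribute [local instance] cd_alg

theorem cd_coe (x : FixedPoints.subfield G Ω) :
    ((algebraMap (FixedPoints.subfield G Ω) (FixedPoints.subfield V Ω) x : FixedPoints.subfield V Ω) : Ω) = (x : Ω) := rfl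

variable [hV : V.Normal]

theorem cd_mem (g : G) (x : FixedPoints.subfield V Ω) : g • (x : Ω) ∈ FixedPoints.subfield V Ω := by
  intro v
  have h1 : g⁻¹ * (v : G) * g ∈ V := by
    have := hV.conj_mem (v : G) v.2 g⁻¹
    rwa [inv_inv] at this
  have h2 : (⟨g⁻¹ * (v : G) * g, h1⟩ : V) • (x : Ω) = (x : Ω) := x.2 ⟨_, h1⟩
  have h3 : (g⁻¹ * (v : G) * g) • (x : Ω) = (x : Ω) := h2
  show (v : G) • (g • (x : Ω)) = g • (x : Ω)
  calc (v : G) • (g • (x : Ω)) = g • ((g⁻¹ * (v : G) * g) • (x : Ω)) := by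
        rw [smul_smul, smul_smul]
        congr 1
        group
    _ = g • (x : Ω) := by rw [h3]

/-- the action of one element -/
def cd_eqv (g : G) : FixedPoints.subfield V Ω ≃ₐ[FixedPoints.subfield G Ω] FixedPoints.subfield V Ω where
  toFun x := ⟨g • (x : Ω), cd_mem V g x⟩
  invFun x := ⟨g⁻¹ • (x : Ω), cd_mem V g⁻¹ x⟩
  left_inv x := Subtype.ext (inv_smul_smul g (x : Ω))
  right_inv x := Subtype.ext (smul_inv_smul g (x : Ω))
  map_mul' x y := Subtype.ext (smul_mul' g (x : Ω) (y : Ω))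
  map_add' x y := Subtype.ext (smul_add g (x : Ω) (y : Ω))
  commutes' x := Subtype.ext (x.2 g)

/-- the action of `G` -/
def cd_actG : G →* (FixedPoints.subfield V Ω ≃ₐ[FixedPoints.subfield G Ω] FixedPoints.subfield V Ω) where
  toFun g := cd_eqv V g
  map_one' := AlgEquiv.ext fun x => Subtype.ext (one_smul G (x : Ω))
  map_mul' g h := AlgEquiv.ext fun x => Subtype.ext (mul_smul g h (x : Ω))

theorem cd_ker : V ≤ (cd_actG (Ω := Ω) V).ker := by
  intro v hv
  rw [MonoidHom.mem_ker]
  exact AlgEquiv.ext fun x => Subtype.ext (x.2 ⟨v, hv⟩)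

/-- the action of `G ⧸ V` -/
def cd_act : G ⧸ V →* (FixedPoints.subfield V Ω ≃ₐ[FixedPoints.subfield G Ω] FixedPoints.subfield V Ω) :=
  QuotientGroup.lift V (cd_actG V) (cd_ker V)

theorem cd_act_mk (g : G) (x : FixedPoints.subfield V Ω) :
    ((cd_act V (QuotientGroup.mk g : G ⧸ V) x : FixedPoints.subfield V Ω) : Ω) = g • (x : Ω) := rfl

theorem cd_fin [Finite (G ⧸ V)] : FiniteDimensional (FixedPoints.subfield G Ω) (FixedPoints.subfield V Ω) := by
  let _ : MulSemiringAction (G ⧸ V) (FixedPoints.subfield V Ω) := MulSemiringAction.compHom _ (cd_act (Ω := Ω) V)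
  have hsm : ∀ (q : G ⧸ V) (x : FixedPoints.subfield V Ω), q • x = cd_act V q x := fun q x => rfl
  have hmem : ∀ x : FixedPoints.subfield G Ω, algebraMap (FixedPoints.subfield G Ω) (FixedPoints.subfield V Ω) x ∈
      FixedPoints.subfield (G ⧸ V) (FixedPoints.subfield V Ω) := by
    intro x q
    rw [hsm, AlgEquiv.commutes]
  let f : FixedPoints.subfield G Ω →+* FixedPoints.subfield (G ⧸ V) (FixedPoints.subfield V Ω) :=
    (algebraMap (FixedPoints.subfield G Ω) (FixedPoints.subfield V Ω)).codRestrict _ hmem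
  have hf : Function.Bijective f := by
    refine ⟨f.injective, ?_⟩
    intro y
    have h1 : ∀ g : G, g • ((y : FixedPoints.subfield V Ω) : Ω) = ((y : FixedPoints.subfield V Ω) : Ω) := by
      intro g
      have h2 : (QuotientGroup.mk g : G ⧸ V) • (y : FixedPoints.subfield V Ω) = (y : FixedPoints.subfield V Ω) := y.2 _
      rw [hsm] at h2
      rw [← cd_act_mk, h2]
    exact ⟨⟨((y : FixedPoints.subfield V Ω) : Ω), h1⟩, Subtype.ext (Subtype.ext rfl)⟩
  have hfin : Module.Finite (FixedPoints.subfield (G ⧸ V) (FixedPoints.subfield V Ω)) (FixedPoints.subfield V Ω) :=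
    inferInstance
  refine Module.Finite.of_equiv_equiv (RingEquiv.ofBijective f hf).symm (RingEquiv.refl _) ?_
  refine RingHom.ext fun y => ?_
  obtain ⟨x, rfl⟩ := (RingEquiv.ofBijective f hf).surjective y
  simp only [RingHom.comp_apply]
  show algebraMap _ _ ((RingEquiv.ofBijective f hf).symm ((RingEquiv.ofBijective f hf) x)) = _
  rw [RingEquiv.symm_apply_apply]
  rfl

end dat

theorem cdat_zp_sum {Ω : Type u} [Field Ω] {n : ℕ} {ζ : Ω} (hz : PZ n ζ) {κ : Type*} (s : Finset κ) (f : κ → ZMod n) :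
    ∏ i ∈ s, zp ζ (f i) = zp ζ (∑ i ∈ s, f i) := by
  classical
  induction s using Finset.induction_on with
  | empty => rw [Finset.prod_empty, Finset.sum_empty, zp_zero hz]
  | insert a s ha ih => rw [Finset.prod_insert ha, Finset.sum_insert ha, ih, zp_add hz]

theorem cdat {G Ω : Type u} [Group G] [TopologicalSpace G] [Field Ω] [MulSemiringAction G Ω] {p r : ℕ} (hp : p.Prime) (hG : GA G Ω)
    {ζ : Ω} (hz : PZ p ζ) (hζ : ∀ g : G, g • ζ = ζ) (a b : Fin r → FixedPoints.subfield G Ω) (ha : ∀ i, a i ≠ 0) (hb : ∀ i, b i ≠ 0)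
    (h : Co (fun g h : G => ∑ i, km p ζ (a i : Ω) g * km p ζ (b i : Ω) h) (fun _ _ => 0)) :
    ∃ (Q E : Type u) (_ : Group Q) (_ : Finite Q) (_ : Field E) (_ : Algebra (FixedPoints.subfield G Ω) E)
      (_ : FiniteDimensional (FixedPoints.subfield G Ω) E) (D : CD p r (FixedPoints.subfield G Ω) E Q) (A : Frm D.act G Ω),
      D.b = b ∧ (∀ x : FixedPoints.subfield G Ω, A.ε (algebraMap (FixedPoints.subfield G Ω) E x) = (x : Ω)) ∧
      ∀ j g, D.al j (A.π g) = km p ζ (a j : Ω) g := by
  classical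
  have := hG.top
  have := hG.cpt
  have := hG.alg
  have hNZ : NeZero p := ⟨hp.ne_zero⟩
  have ha' : ∀ j, Fx G (a j : Ω) := fun j => ⟨fun h0 => ha j (Subtype.ext h0), (a j).2⟩
  have hb' : ∀ j, Fx G (b j : Ω) := fun j => ⟨fun h0 => hb j (Subtype.ext h0), (b j).2⟩
  have hadd : ∀ (j : Fin r) (g h : G), km p ζ (a j : Ω) (g * h) = km p ζ (a j : Ω) g + km p ζ (a j : Ω) h :=
    fun j g h => km_hom hz (ha' j).1 (hζ g) (hζ h) ((ha' j).2 g) ((ha' j).2 h)
  have hkc : ∀ j : Fin r, Continuous (fun g : G => km p ζ (a j : Ω) g) := fun j => km_cont hG p ζ _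
  -- the cocycle is trivial
  have h1 : Cu (fun g h : G => ∏ j, (b j : Ω) ^ cy (fun g : G => km p ζ (a j : Ω) g) g h) (fun _ _ => 1) := by
    refine Cu_trans (Cu_prod Finset.univ _ _ (fun j _ => cy_sym hG hz hζ (ha' j) (hb' j))) ?_
    have h2 := Cu_of_Co hz hζ h
    rw [zp_zero hz] at h2
    have h3 : (fun g h : G => ∏ j, sb p ζ (a j : Ω) (b j : Ω) g h) =
        (fun g h : G => zp ζ (∑ i, km p ζ (a i : Ω) g * km p ζ (b i : Ω) h)) := by
      funext g h
      exact cdat_zp_sum hz Finset.univ (fun i => km p ζ (a i : Ω) g * km p ζ (b i : Ω) h)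
    rw [h3]
    exact h2
  obtain ⟨Ξ, hΞ0, hΞl, hΞ⟩ := h1
  simp only [one_mul] at hΞ
  -- `y`
  have hy0 : ∀ g : G, (∏ j, (b j : Ω) ^ (km p ζ (a j : Ω) g).val) ≠ 0 := fun g =>
    Finset.prod_ne_zero_iff.2 fun j _ => pow_ne_zero _ (hb' j).1
  have hyl : IsLocallyConstant (fun g : G => ∏ j, (b j : Ω) ^ (km p ζ (a j : Ω) g).val) := by
    have h2 : IsLocallyConstant (fun g : G => fun j : Fin r => km p ζ (a j : Ω) g) :=
      (IsLocallyConstant.iff_continuous _).2 (continuous_pi hkc)
    exact h2.comp (fun c : Fin r → ZMod p => ∏ j, (b j : Ω) ^ (c j).val)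
  have hyc : ∀ g h : G, (∏ j, (b j : Ω) ^ cy (fun g : G => km p ζ (a j : Ω) g) g h) ^ p *
      (∏ j, (b j : Ω) ^ (km p ζ (a j : Ω) (g * h)).val) =
      (∏ j, (b j : Ω) ^ (km p ζ (a j : Ω) g).val) * (∏ j, (b j : Ω) ^ (km p ζ (a j : Ω) h).val) := by
    intro g h
    rw [← Finset.prod_pow, ← Finset.prod_mul_distrib, ← Finset.prod_mul_distrib]
    refine Finset.prod_congr rfl fun j _ => ?_
    rw [← pow_add, cy_eq (hadd j) g h, pow_add, pow_mul', mul_comm]
  have hysm : ∀ g h : G, g • (∏ j, (b j : Ω) ^ (km p ζ (a j : Ω) h).val) = ∏ j, (b j : Ω) ^ (km p ζ (a j : Ω) h).val := by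
    intro g h
    rw [Finset.smul_prod']
    refine Finset.prod_congr rfl fun j _ => ?_
    rw [smul_pow', (hb' j).2]
  obtain ⟨a', ha0, hcob⟩ := h90cont hG (fun g => (∏ j, (b j : Ω) ^ (km p ζ (a j : Ω) g).val) / Ξ g ^ p)
    (fun g => div_ne_zero (hy0 g) (pow_ne_zero _ (hΞ0 g)))
    (hyl.div (hΞl.comp (fun x : Ω => x ^ p))) (by
      intro g h
      rw [smul_div_z, hysm, smul_pow']
      have e1 := hyc g h
      rw [hΞ g h] at e1
      have n1 := hΞ0 g
      have n2 := hΞ0 h
      have n3 := hΞ0 (g * h)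
      have n4 : g • Ξ h ≠ 0 := smul_ne_z g n2
      rw [div_mul_div_comm, ← e1, div_pow, mul_pow]
      have n5 : Ξ g ^ p ≠ 0 := pow_ne_zero _ n1
      have n6 : (g • Ξ h) ^ p ≠ 0 := pow_ne_zero _ n4
      have n7 : Ξ (g * h) ^ p ≠ 0 := pow_ne_zero _ n3
      generalize Ξ g ^ p = A at *
      generalize (g • Ξ h) ^ p = B at *
      generalize Ξ (g * h) ^ p = C at *
      field_simp)
  have hcob' : ∀ g : G, (∏ j, (b j : Ω) ^ (km p ζ (a j : Ω) g).val) = Ξ g ^ p * g • a' / a' := by
    intro g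
    have e1 := hcob g
    rw [div_eq_iff (pow_ne_zero _ (hΞ0 g))] at e1
    rw [e1]
    ring
  -- the open normal subgroup
  have hflc : IsLocallyConstant (fun q : G × G => ((q.1 • Ξ q.2, q.1 • a', fun j : Fin r => km p ζ (a j : Ω) q.1) :
      Ω × Ω × (Fin r → ZMod p))) := by
    refine IsLocallyConstant.prodMk ?_ (IsLocallyConstant.prodMk ?_ ?_)
    · exact lc_smul hG continuous_fst (hΞl.comp_continuous continuous_snd)
    · exact lc_smul hG continuous_fst (IsLocallyConstant.const a')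
    · exact (IsLocallyConstant.iff_continuous _).2 (continuous_pi fun j => (hkc j).comp continuous_fst)
  obtain ⟨V, hVn, hVo, hV⟩ := open_invariant hG
    (f := fun g h : G => ((g • Ξ h, g • a', fun j : Fin r => km p ζ (a j : Ω) g) : Ω × Ω × (Fin r → ZMod p))) hflc
  have hV1 : ∀ v ∈ V, ∀ h : G, v • Ξ h = Ξ h := by
    intro v hv h
    have e1 := congrArg Prod.fst (hV 1 h v hv 1 V.one_mem)
    simpa using e1
  have hV2 : ∀ v ∈ V, ∀ h : G, Ξ (h * v) = Ξ h := by
    intro v hv h
    have e1 := congrArg Prod.fst (hV 1 h 1 V.one_mem v hv)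
    simpa using e1
  have hV3 : ∀ v ∈ V, v • a' = a' := by
    intro v hv
    have e1 := congrArg (fun z => z.2.1) (hV 1 1 v hv 1 V.one_mem)
    simpa using e1
  have hV4 : ∀ (j : Fin r), ∀ v ∈ V, ∀ g : G, km p ζ (a j : Ω) (g * v) = km p ζ (a j : Ω) g := by
    intro j v hv g
    have e1 := congrArg (fun z => z.2.2 j) (hV g 1 v hv 1 V.one_mem)
    exact e1
  have hQf : Finite (G ⧸ V) := Subgroup.quotient_finite_of_isOpen V hVo
  let _ := cd_alg (Ω := Ω) V
  have hout : ∀ g : G, ∃ v ∈ V, (Quotient.out (QuotientGroup.mk g : G ⧸ V) : G) = g * v := by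
    intro g
    have e1 : (QuotientGroup.mk g : G ⧸ V) = QuotientGroup.mk (Quotient.out (QuotientGroup.mk g : G ⧸ V)) :=
      (QuotientGroup.out_eq' _).symm
    rw [QuotientGroup.eq] at e1
    exact ⟨_, e1, by rw [mul_inv_cancel_left]⟩
  have ho1 : ∀ g : G, Ξ (Quotient.out (QuotientGroup.mk g : G ⧸ V)) = Ξ g := by
    intro g
    obtain ⟨v, hv, e⟩ := hout g
    rw [e, hV2 v hv]
  have ho2 : ∀ (j : Fin r) (g : G), km p ζ (a j : Ω) (Quotient.out (QuotientGroup.mk g : G ⧸ V)) = km p ζ (a j : Ω) g := by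
    intro j g
    obtain ⟨v, hv, e⟩ := hout g
    rw [e, hV4 j v hv]
  have ho3 : ∀ (j : Fin r) (g h : G),
      cy (fun q : G ⧸ V => km p ζ (a j : Ω) (Quotient.out q)) (QuotientGroup.mk g) (QuotientGroup.mk h) =
      cy (fun g : G => km p ζ (a j : Ω) g) g h := by
    intro j g h
    simp only [cy, ho2]
  let D : CD p r (FixedPoints.subfield G Ω) (FixedPoints.subfield V Ω) (G ⧸ V) :=
    { act := cd_act V
      al := fun j q => km p ζ (a j : Ω) (Quotient.out q)
      al_add := by
        intro j q q'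
        obtain ⟨g, rfl⟩ := QuotientGroup.mk_surjective q
        obtain ⟨h, rfl⟩ := QuotientGroup.mk_surjective q'
        rw [← QuotientGroup.mk_mul, ho2, ho2, ho2, hadd]
      b := b
      b_ne := hb
      u := fun q => ⟨Ξ (Quotient.out q), fun v => hV1 v v.2 _⟩
      u_ne := fun q h0 => hΞ0 _ (congrArg Subtype.val h0)
      a := ⟨a', fun v => hV3 v v.2⟩
      a_ne := fun h0 => ha0 (congrArg Subtype.val h0)
      hc := by
        intro q q'
        obtain ⟨g, rfl⟩ := QuotientGroup.mk_surjective q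
        obtain ⟨h, rfl⟩ := QuotientGroup.mk_surjective q'
        apply Subtype.ext
        rw [cd_coe]
        have e1 := hΞ g h
        push_cast
        rw [← QuotientGroup.mk_mul, cd_act_mk]
        simp only [ho1, ho3]
        exact e1
      hy := by
        intro q
        obtain ⟨g, rfl⟩ := QuotientGroup.mk_surjective q
        apply Subtype.ext
        rw [cd_coe]
        have e1 := hcob' g
        push_cast
        rw [cd_act_mk]
        simp only [ho1, ho2]
        exact e1 }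
  let A : Frm D.act G Ω :=
    { ε := (FixedPoints.subfield V Ω).subtype
      π := QuotientGroup.mk' V
      op := by
        intro q
        obtain ⟨g, rfl⟩ := QuotientGroup.mk_surjective q
        have e1 : {x : G | (QuotientGroup.mk' V) x = (QuotientGroup.mk g : G ⧸ V)} = (fun x : G => x⁻¹ * g) ⁻¹' (V : Set G) := by
          ext x
          show (QuotientGroup.mk x : G ⧸ V) = QuotientGroup.mk g ↔ x⁻¹ * g ∈ V
          exact QuotientGroup.eq
        rw [e1]
        exact hVo.preimage (continuous_inv.mul continuous_const)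
      cmp := fun g x => rfl }
  exact ⟨G ⧸ V, FixedPoints.subfield V Ω, inferInstance, hQf, inferInstance, cd_alg V, cd_fin V, D, A, rfl,
    fun x => rfl, fun j g => ho2 j g⟩

end MSC
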