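import Pool.Agent.MSC.Brg
import Pool.Agent.MSG.Uf

/-! # MSC / Cyd: cyclotomic extensions, `p` odd

PROOF of `cyd`.  For `N : ℕ` let `ξ_N` be a primitive `p ^ N`-th root of unity in `Ω` (`Ω` algebraically closed, `(p : Ω) ≠ 0`: `PZ.cast_ne`; e.g. `HasEnoughRootsOfUnity`, or successive `p`-th roots of `ζ`: `ξ_1 = ζ`, `ξ_(N+1) ^ p = ξ_N`) and `G_N` its stabilizer: open,
decreasing, normal, `⋂ G_N = Gi` (every `x` with `x ^ (p ^ k) = 1` is a power of `ξ_k`).  `exists_le` (Uf): `G_N ≤ U` for some `N ≥ 1`; let `D = ξ_N`.  If `G_N = ⊤` then `U = ⊤`.  Otherwise: for `g ∈ G` let `χ g ∈ (ZMod (p ^ N))ˣ` with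
`g • D = D ^ (χ g).val` (`IsPrimitiveRoot.autToPow`-like); `χ` is a homomorphism with kernel `G_N`; its image `I` is a subgroup of the cyclic group `(ZMod (p ^ N))ˣ` (`ZMod.isCyclic_units_of_prime_pow`, `p` odd), and it is a
`p`-group: `χ g ≡ 1` modulo `p` because `g` fixes `ζ`, which is a power `D ^ (c p ^ (N-1))`, `c` prime to `p`; the kernel of `(ZMod (p ^ N))ˣ → (ZMod p)ˣ` has order `p ^ (N-1)`.  So `I` is cyclic of order `q = p ^ j`, `j ≥ 1` (`G_N ≠ ⊤`); let `χ g₀` be a generator and define `θ g ∈ ZMod q` by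
`χ g = (χ g₀) ^ (θ g).val`: a homomorphism, `θ g₀ = 1`, continuous (open kernel `G_N`), `θ g = 0` iff `g • D = D`.  Let `q' = q / p`.  `h = g₀ ^ q'` does not fix `D` but `h ^ p` does.  The elements `x` of the cyclic group `(ZMod (p ^ N))ˣ` with `x ^ p = 1` are at most `p`
(`IsCyclic.card_pow_eq_one_le`), and the `p` elements `1 + p ^ (N-1) c` are among them (`N ≥ 2`, because for `N = 1` `D` is a power of `ζ`, fixed), so `χ h = 1 + p ^ (N-1) c` with `c` not divisible by `p`, `h • D = D * (D ^ (p ^ (N-1))) ^ c = D * ζ'`, `ζ'` a primitive `p`-th root of unity.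
Replace `D` by `D ^ t`, `t` prime to `p`, `ζ' ^ t = ζ` (then `g • D = D` iff as before).
-/

set_option autoImplicit false
set_option linter.unusedVariables false

namespace MSC

universe u

open MSG MSN Pool.Agent.Helper14.Massey

/-- the stabilizer of an element is closed -/
theorem cyd_closed {G Ω : Type u} [Group G] [TopologicalSpace G] [Field Ω] [MulSemiringAction G Ω] (hG : GA G Ω)
    (x : Ω) : IsClosed (MulAction.stabilizer G x : Set G) := by
  have := hG.top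
  exact Subgroup.isClosed_of_isOpen _ (hG.stab x)

/-- lifting the exponent -/
theorem cyd_lte {p : ℕ} (hp : p.Prime) (hodd : Odd p) {x : ℤ} {M : ℕ} (h1 : (p : ℤ) ∣ x - 1)
    (h2 : ((p : ℤ) ^ (M + 1)) ∣ x ^ p - 1) : ((p : ℤ) ^ M) ∣ x - 1 := by
  have hx : ¬ (p : ℤ) ∣ x := by
    intro h3
    have h4 : (p : ℤ) ∣ 1 := by
      have := dvd_sub h3 h1
      simpa using this
    have h5 := Int.natAbs_dvd_natAbs.2 h4
    simp only [Int.natAbs_natCast, Int.natAbs_one] at h5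
    exact hp.one_lt.ne' (Nat.dvd_one.1 h5)
  have e1 := Int.emultiplicity_pow_sub_pow hp hodd (x := x) (y := 1) h1 hx p
  rw [one_pow] at e1
  have e2 : emultiplicity p p = 1 := Nat.Prime.emultiplicity_self hp
  rw [e2] at e1
  have e3 : ((M + 1 : ℕ) : ℕ∞) ≤ emultiplicity (p : ℤ) (x ^ p - 1) := by
    exact le_emultiplicity_of_pow_dvd h2
  rw [e1] at e3
  apply pow_dvd_of_le_emultiplicity
  have e4 : (M : ℕ∞) + 1 ≤ emultiplicity (p : ℤ) (x - 1) + 1 := by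
    simpa using e3
  exact (ENat.add_le_add_iff_right (by simp)).1 e4

theorem cyd {p : ℕ} (hp : p.Prime) {G Ω : Type u} [Group G] [TopologicalSpace G] [Field Ω] [MulSemiringAction G Ω] (hG : GA G Ω)
    {ζ : Ω} (hz : PZ p ζ) (hζ : ∀ g : G, g • ζ = ζ) {U : Subgroup G} (hU : IsOpen (U : Set G)) (h : Gi p G Ω ≤ U) :
    U = ⊤ ∨ ∃ (q' : ℕ) (θ : G → ZMod (q' * p)) (g₀ : G) (D : Ω) (N : ℕ), q' ≠ 0 ∧ Continuous θ ∧
      (∀ g h, θ (g * h) = θ g + θ h) ∧ θ g₀ = 1 ∧ D ^ (p ^ N) = 1 ∧ (∀ g, θ g = 0 ↔ g • D = D) ∧ g₀ ^ q' • D = ζ * D ∧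
      ∀ g, θ g = 0 → g ∈ U := by
  classical
  have := hG.top
  have := hG.alg
  have := Fact.mk hp
  have hpΩ : (p : Ω) ≠ 0 := hz.cast_ne
  have hex : ∀ N : ℕ, ∃ ξ : Ω, IsPrimitiveRoot ξ (p ^ N) := by
    intro N
    have : NeZero ((p ^ N : ℕ) : Ω) := ⟨by
      rw [Nat.cast_pow]
      exact pow_ne_zero _ hpΩ⟩
    exact HasEnoughRootsOfUnity.exists_primitiveRoot Ω (p ^ N)
  choose ξ hξ using hex
  have hfix : ∀ (g : G) (N : ℕ), g • ξ N = ξ N → ∀ x : Ω, x ^ (p ^ N) = 1 → g • x = x := by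
    intro g N hg x hx
    have : NeZero (p ^ N) := ⟨pow_ne_zero _ hp.ne_zero⟩
    obtain ⟨i, -, hi⟩ := (hξ N).eq_pow_of_pow_eq_one hx
    rw [← hi, smul_pow', hg]
  obtain ⟨k, hk⟩ := exists_le hG (fun N => MulAction.stabilizer G (ξ N)) (fun N => cyd_closed hG (ξ N))
    (by
      refine antitone_nat_of_succ_le ?_
      intro N g hg
      refine hfix g (N + 1) hg (ξ N) ?_
      rw [pow_succ, pow_mul, (hξ N).pow_eq_one, one_pow])
    hU (by
      intro g hg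
      refine h ?_
      intro x k hx
      exact hfix g k (hg k) x hx)
  -- `N = k + 1`
  have hDp : IsPrimitiveRoot (ξ (k + 1)) (p ^ (k + 1)) := hξ (k + 1)
  set D : Ω := ξ (k + 1) with hD
  clear_value D
  have hfD : ∀ g : G, g • D = D → ∀ x : Ω, x ^ (p ^ (k + 1)) = 1 → g • x = x := by
    intro g hg x hx
    exact hfix g (k + 1) (by rw [← hD]; exact hg) x hx
  have hDU : ∀ g : G, g • D = D → g ∈ U := by
    intro g hg
    refine hk ?_
    refine hfD g hg (ξ k) ?_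
    rw [pow_succ, pow_mul, (hξ k).pow_eq_one, one_pow]
  by_cases hall : ∀ g : G, g • D = D
  · left
    rw [eq_top_iff]
    intro g _
    exact hDU g (hall g)
  right
  push Not at hall
  obtain ⟨g₁, hg₁⟩ := hall
  have hne : NeZero (p ^ (k + 1)) := ⟨pow_ne_zero _ hp.ne_zero⟩
  have : Fact (1 < p ^ (k + 1)) := ⟨Nat.one_lt_pow (Nat.succ_ne_zero k) hp.one_lt⟩
  -- the character
  let χ : G →* (ZMod (p ^ (k + 1)))ˣ :=
    (modularCyclotomicCharacter Ω hDp.card_rootsOfUnity).comp (MulSemiringAction.toRingAut G Ω)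
  have hχ : ∀ (g : G) (x : Ω), x ^ (p ^ (k + 1)) = 1 → g • x = x ^ ((χ g : (ZMod (p ^ (k + 1)))ˣ) : ZMod (p ^ (k + 1))).val := by
    intro g x hx
    have hx0 : x ≠ 0 := by
      rintro rfl
      rw [zero_pow (pow_ne_zero _ hp.ne_zero)] at hx
      exact zero_ne_one hx
    have h1 := modularCyclotomicCharacter.spec Ω hDp.card_rootsOfUnity (MulSemiringAction.toRingAut G Ω g)
      (t := Units.mk0 x hx0) (by
        rw [mem_rootsOfUnity]
        ext
        simpa using hx)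
    exact h1
  have hχ1 : ∀ g : G, χ g = 1 ↔ g • D = D := by
    intro g
    rw [hχ g D hDp.pow_eq_one]
    constructor
    · intro h1
      rw [h1, Units.val_one, ZMod.val_one, pow_one]
    · intro h1
      ext
      rw [Units.val_one]
      apply ZMod.val_injective
      rw [ZMod.val_one]
      refine hDp.pow_inj (ZMod.val_lt _) (Nat.one_lt_pow (Nat.succ_ne_zero k) hp.one_lt) ?_
      rw [h1, pow_one]
  have hDp0 : D ≠ 0 := hDp.ne_zero (pow_ne_zero _ hp.ne_zero)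
  -- modulo `p`
  have hmod : ∀ g : G, (p : ℤ) ∣ (((χ g : (ZMod (p ^ (k + 1)))ˣ) : ZMod (p ^ (k + 1))).val : ℤ) - 1 := by
    intro g
    set m : ℕ := ((χ g : (ZMod (p ^ (k + 1)))ˣ) : ZMod (p ^ (k + 1))).val with hm
    have h1 : (D ^ (p ^ k)) ^ p = 1 := by
      rw [← pow_mul, ← pow_succ, hDp.pow_eq_one]
    have : NeZero p := ⟨hp.ne_zero⟩
    obtain ⟨i, -, hi⟩ := hz.prim.eq_pow_of_pow_eq_one h1
    have h2 : g • (D ^ (p ^ k)) = D ^ (p ^ k) := by
      rw [← hi, smul_pow', hζ]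
    have h3 : D ^ (p ^ k * m) = D ^ (p ^ k) := by
      rw [pow_mul, hm, ← hχ g (D ^ (p ^ k)) (by rw [← pow_mul, mul_comm, pow_mul, hDp.pow_eq_one, one_pow]), h2]
    have h4 : D ^ (((p ^ k : ℕ) : ℤ) - ((p ^ k * m : ℕ) : ℤ)) = 1 := by
      rw [zpow_sub₀ hDp0, zpow_natCast, zpow_natCast, h3, div_self (pow_ne_zero _ hDp0)]
    have h5 : ((p ^ (k + 1) : ℕ) : ℤ) ∣ ((p ^ k : ℕ) : ℤ) - ((p ^ k * m : ℕ) : ℤ) := (hDp.zpow_eq_one_iff_dvd _).1 h4
    have h6 : (p : ℤ) ^ k * (p : ℤ) ∣ (p : ℤ) ^ k * ((m : ℤ) - 1) := by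
      have h7 := (dvd_neg.2 h5)
      push_cast at h7
      rw [pow_succ] at h7
      have h8 : (p : ℤ) ^ k * ((m : ℤ) - 1) = -((p : ℤ) ^ k - (p : ℤ) ^ k * (m : ℤ)) := by ring
      rw [h8]
      exact h7
    exact (mul_dvd_mul_iff_left (pow_ne_zero k (by exact_mod_cast hp.ne_zero))).1 h6
  -- the order of `χ g`
  have hord : ∀ g : G, (χ g) ^ (p ^ k) = 1 := by
    intro g
    ext
    rw [Units.val_pow_eq_pow_val, Units.val_one]
    set z : ZMod (p ^ (k + 1)) := ((χ g : (ZMod (p ^ (k + 1)))ˣ) : ZMod (p ^ (k + 1))) with hz'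
    have h1 := dvd_sub_pow_of_dvd_sub (R := ℤ) (hmod g) k
    rw [one_pow] at h1
    rw [← hz'] at h1
    have h2 : ((((z.val : ℤ)) ^ p ^ k - 1 : ℤ) : ZMod (p ^ (k + 1))) = 0 := by
      rw [ZMod.intCast_zmod_eq_zero_iff_dvd]
      exact_mod_cast h1
    push_cast at h2
    rw [ZMod.natCast_zmod_val] at h2
    exact sub_eq_zero.1 h2
  -- a generator of the image
  have hcyc : IsCyclic (ZMod (p ^ (k + 1)))ˣ := ZMod.isCyclic_units_of_prime_pow p hp (by
    rintro rfl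
    exact absurd hz.odd (by decide)) (k + 1)
  obtain ⟨⟨γ, hγ⟩, hgen⟩ := IsCyclic.exists_generator (α := χ.range)
  obtain ⟨g₀, rfl⟩ := hγ
  have hgen' : ∀ g : G, ∃ n : ℤ, (χ g₀) ^ n = χ g := by
    intro g
    obtain ⟨n, hn⟩ := Subgroup.mem_zpowers_iff.1 (hgen ⟨χ g, g, rfl⟩)
    refine ⟨n, ?_⟩
    have := congrArg Subtype.val hn
    simpa using this
  obtain ⟨j, hjk, hj⟩ := (Nat.dvd_prime_pow hp).1 (orderOf_dvd_of_pow_eq_one (hord g₀))
  have hj0 : j ≠ 0 := by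
    rintro rfl
    rw [pow_zero, orderOf_eq_one_iff] at hj
    obtain ⟨n, hn⟩ := hgen' g₁
    rw [hj, one_zpow] at hn
    exact hg₁ ((hχ1 g₁).1 hn.symm)
  obtain ⟨j, rfl⟩ := Nat.exists_eq_succ_of_ne_zero hj0
  have hq : orderOf (χ g₀) = p ^ j * p := by rw [hj, Nat.succ_eq_add_one, pow_succ]
  choose e he using hgen'
  have hmodE : ∀ m n : ℤ, (χ g₀) ^ m = (χ g₀) ^ n ↔ ((m : ZMod (p ^ j * p)) = (n : ZMod (p ^ j * p))) := by
    intro m n
    rw [zpow_eq_zpow_iff_modEq, hq, ZMod.intCast_eq_intCast_iff]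
  have hθ0 : ∀ g : G, ((e g : ℤ) : ZMod (p ^ j * p)) = 0 ↔ g • D = D := by
    intro g
    have h1 := hmodE (e g) 0
    rw [he g, zpow_zero, Int.cast_zero] at h1
    rw [← h1, hχ1]
  have hθm : ∀ g h : G, ((e (g * h) : ℤ) : ZMod (p ^ j * p)) = ((e g : ℤ) : ZMod (p ^ j * p)) + ((e h : ℤ) : ZMod (p ^ j * p)) := by
    intro g h
    have h1 := hmodE (e (g * h)) (e g + e h)
    rw [Int.cast_add] at h1
    rw [← h1, he, zpow_add, he, he, map_mul]
  have hθg : ((e g₀ : ℤ) : ZMod (p ^ j * p)) = 1 := by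
    have h1 := hmodE (e g₀) 1
    rw [Int.cast_one] at h1
    rw [← h1, he, zpow_one]
  have hθc : Continuous (fun g : G => ((e g : ℤ) : ZMod (p ^ j * p))) := by
    refine IsLocallyConstant.continuous ((IsLocallyConstant.iff_exists_open _).2 ?_)
    intro g
    refine ⟨{h : G | (g⁻¹ * h) • D = D}, ?_, ?_, ?_⟩
    · exact (hG.stab D).preimage (continuous_const.mul continuous_id)
    · show (g⁻¹ * g) • D = D
      rw [inv_mul_cancel, one_smul]
    · intro h hh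
      have h1 := (hθ0 (g⁻¹ * h)).2 hh
      have h2 := hθm g (g⁻¹ * h)
      rw [mul_inv_cancel_left, h1, add_zero] at h2
      exact h2
  -- `g₀ ^ q'`
  have hh1 : χ (g₀ ^ (p ^ j)) ≠ 1 := by
    intro h1
    rw [map_pow] at h1
    have h2 := orderOf_dvd_of_pow_eq_one h1
    rw [hq] at h2
    have h3 := Nat.le_of_dvd (pow_pos hp.pos j) h2
    have h4 : p ^ j * 1 < p ^ j * p := Nat.mul_lt_mul_of_pos_left hp.one_lt (pow_pos hp.pos j)
    omega
  have hhp : (χ (g₀ ^ (p ^ j))) ^ p = 1 := by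
    rw [map_pow, ← pow_mul, ← hq, pow_orderOf_eq_one]
  set h₀ : G := g₀ ^ (p ^ j) with hh₀
  have hdv : ((p : ℤ) ^ k) ∣ (((χ h₀ : (ZMod (p ^ (k + 1)))ˣ) : ZMod (p ^ (k + 1))).val : ℤ) - 1 := by
    refine cyd_lte hp hz.odd (hmod h₀) ?_
    have h1 : (((((χ h₀ : (ZMod (p ^ (k + 1)))ˣ) : ZMod (p ^ (k + 1))).val : ℤ) ^ p - 1 : ℤ) : ZMod (p ^ (k + 1))) = 0 := by
      push_cast
      rw [ZMod.natCast_zmod_val]
      have h2 := congrArg Units.val hhp
      rw [Units.val_pow_eq_pow_val, Units.val_one] at h2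
      rw [h2, sub_self]
    rw [ZMod.intCast_zmod_eq_zero_iff_dvd] at h1
    exact_mod_cast h1
  have hD0 : D ≠ 0 := hDp.ne_zero (pow_ne_zero _ hp.ne_zero)
  set m : ℕ := ((χ h₀ : (ZMod (p ^ (k + 1)))ˣ) : ZMod (p ^ (k + 1))).val with hm
  have hhD : h₀ • D = D ^ m := hχ h₀ D hDp.pow_eq_one
  have hm0 : m ≠ 0 := by
    intro h0
    have h1 : ((χ h₀ : (ZMod (p ^ (k + 1)))ˣ) : ZMod (p ^ (k + 1))) = 0 := by
      rw [← ZMod.val_eq_zero]
      exact h0
    exact (χ h₀).ne_zero h1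
  obtain ⟨m', hm'⟩ := Nat.exists_eq_succ_of_ne_zero hm0
  have hdv' : p ^ k ∣ m' := by
    have h1 : ((p ^ k : ℕ) : ℤ) ∣ ((m' : ℕ) : ℤ) := by
      rw [hm'] at hdv
      push_cast at hdv ⊢
      simpa using hdv
    exact_mod_cast h1
  have hz'p : (D ^ m') ^ p = 1 := by
    obtain ⟨c, hc⟩ := hdv'
    rw [hc, ← pow_mul]
    rw [show p ^ k * c * p = p ^ (k + 1) * c by ring, pow_mul, hDp.pow_eq_one, one_pow]
  have hz'1 : D ^ m' ≠ 1 := by
    intro h1
    apply hh1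
    rw [hχ1, hhD, hm', pow_succ, h1, one_mul]
  have hprim' : IsPrimitiveRoot (D ^ m') p := by
    rw [IsPrimitiveRoot.iff_orderOf]
    exact orderOf_eq_prime hz'p hz'1
  obtain ⟨t, -, ht⟩ : ∃ t < p, (D ^ m') ^ t = ζ := by
    have : NeZero p := ⟨hp.ne_zero⟩
    exact hprim'.eq_pow_of_pow_eq_one hz.prim.pow_eq_one
  have htp : Nat.Coprime t (p ^ (k + 1)) := by
    refine Nat.Coprime.pow_right _ ?_
    rw [Nat.coprime_comm, hp.coprime_iff_not_dvd]
    rintro ⟨c, hc⟩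
    rw [hc, pow_mul, hz'p, one_pow] at ht
    exact hz.prim.ne_one hp.one_lt ht.symm
  have hD' : IsPrimitiveRoot (D ^ t) (p ^ (k + 1)) := hDp.pow_of_coprime t htp
  have hiff : ∀ g : G, g • (D ^ t) = D ^ t ↔ g • D = D := by
    intro g
    constructor
    · intro h1
      obtain ⟨s, -, hs⟩ := hD'.eq_pow_of_pow_eq_one hDp.pow_eq_one
      rw [← hs, smul_pow', h1]
    · intro h1
      rw [smul_pow', h1]
  refine ⟨p ^ j, fun g => ((e g : ℤ) : ZMod (p ^ j * p)), g₀, D ^ t, k + 1, pow_ne_zero _ hp.ne_zero, hθc, hθm, hθg,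
    hD'.pow_eq_one, ?_, ?_, ?_⟩
  · intro g
    show ((e g : ℤ) : ZMod (p ^ j * p)) = 0 ↔ _
    rw [hθ0, hiff]
  · rw [← hh₀, smul_pow', hhD, hm', Nat.succ_eq_add_one, pow_succ, mul_pow, ht]
  · intro g hg
    exact hDU g ((hθ0 g).1 hg)

end MSC
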