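import Pool.Agent.MSC.Th1

/-! # MSC / Th2: the conclusion from path 1

PROOF of `th2_class` (over the pair `(G', Ω', j')` over `M`, `O`, `z'`, `L` as in `Univ`, `b' j ∈ M` nonzero): put `ζ' = O.m.ψ ζ` (fixed by `G'`, primitive), `θ_j σ = D.al j (A.π (O.m.r σ))`.  By `hal` and `Mo.km`,
`θ_j σ = km p ζ (..a j) (O.m.r σ) = km p ζ' (j' (a j)) σ` (`O.cm`, `O.j = j'`).  `j' (D.cc b' (π ..) (π ..)) = ∏ j' (b' j) ^ cy θ_j σ τ`, which is cohomologous to `∏ sb p ζ' (j' (a j)) (j' (b' j))` (`cy_sym`), so its class is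
`hB (level p) (∑ S (a j) (b' j))` (`bc_prod`, `hB_S`); on `Gi` (`ri_hB`, `gi_lv`) this is `p ^ m • hB L (..)` (`hB_level` with `p ^ (m+1) = p * p ^ m`, `z' ^ (p ^ m) = ζ'`).
PROOF of `th2`.  As `th1`, with `φ`, `c q q' = algebraMap (D.cc (bX D) q q')` (nonzero: `bX j ≠ 0`, its value at `0` is `1`), `W q = tm cR (Ua (some q))`: `hB L (K2.map φ κ₀) = hB L (p ^ m • ∑ S (a j) (b_j(t)))`, `b_j(t)` the image of `bX j`.  So
`zero_const` for `w = K2.map φ κ₀ - p ^ m • ∑ S (a j) (b_j(t))`.  `diff_spec`; the specialisations of `S (a j) (b_j(t))` (`Val.spec_S`, `pc_poly`): `S (a j) 1 = 0` at `0`, `S (a j) (b j)` at `1`.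
-/

set_option autoImplicit false
set_option linter.unusedVariables false

namespace MSC

universe u

open scoped TensorProduct

open MSG MSN Pool.Agent.Helper14.Massey Polynomial

open Pool.Agent.MK (K2 S)

variable {p r : ℕ} {F E Q : Type u} [Field F] [Field E] [Algebra F E] [Group Q] [FiniteDimensional F E] (D : CD p r F E Q)
  {G Ω : Type u} [Group G] [TopologicalSpace G] [Field Ω] [MulSemiringAction G Ω]

theorem th2_class (hp : p.Prime) {A : Frm D.act G Ω} (hG : GA G Ω) {ζ : Ω} (hz : PZ p ζ) (hζ : ∀ g : G, g • ζ = ζ) (a : Fin r → F) (ha : ∀ j, a j ≠ 0)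
    (hF : ∀ (g : G) (x : F), g • A.ε (algebraMap F E x) = A.ε (algebraMap F E x))
    (hal : ∀ j g, D.al j (A.π g) = km p ζ (A.ε (algebraMap F E (a j))) g) {m : ℕ} {M : Type u} [Field M] [Algebra F M]
    {G' Ω' : Type u} [Group G'] [TopologicalSpace G'] [Field Ω'] [MulSemiringAction G' Ω'] {j' : M →+* Ω'} (hM : Ov M G' j')
    (O : OvM A M G' Ω') (hO : O.j = j') {z' : Ω'} (L : Lv (p ^ (m + 1)) (Gi p G' Ω') z' j') (hz' : z' ^ (p ^ m) = O.m.ψ ζ)
    (b' : Fin r → M) (hb' : ∀ j, b' j ≠ 0) :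
    ri p G' Ω' (bc (fun σ τ => j' (D.cc b' (A.π (O.m.r σ)) (A.π (O.m.r τ))))) =
      hB L (p ^ m • ∑ j, S (algebraMap F M (a j)) (b' j)) := by
  subst hO
  have hz1 : PZ p (O.m.ψ ζ) := O.m.pz hz
  have hζ1 : ∀ g : G', g • O.m.ψ ζ = O.m.ψ ζ := fun g => by rw [← O.m.comp, hζ]
  have hG' : GA G' Ω' := hM.ga
  have := hG.alg
  have := hG'.alg
  -- the characters
  have hkm : ∀ j σ, D.al j (A.π (O.m.r σ)) = km p (O.m.ψ ζ) (O.j (algebraMap F M (a j))) σ := by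
    intro j σ
    rw [hal, O.cm, O.m.km hz ((_root_.map_ne_zero A.ε).2 ((_root_.map_ne_zero _).2 (ha j))) (hζ _) (hF _ _)]
  have hcy : ∀ j σ τ, MSG.cy (D.al j) (A.π (O.m.r σ)) (A.π (O.m.r τ)) =
      MSG.cy (fun g : G' => km p (O.m.ψ ζ) (O.j (algebraMap F M (a j))) g) σ τ := by
    intro j σ τ
    unfold MSG.cy
    rw [hkm, hkm]
  have hfun : (fun σ τ : G' => O.j (D.cc b' (A.π (O.m.r σ)) (A.π (O.m.r τ)))) =
      fun σ τ => ∏ j, O.j (b' j) ^
        MSG.cy (fun g : G' => km p (O.m.ψ ζ) (O.j (algebraMap F M (a j))) g) σ τ := by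
    funext σ τ
    unfold CD.cc
    rw [map_prod]
    refine Finset.prod_congr rfl fun j _ => ?_
    rw [map_pow, hcy]
  have hfa : ∀ j, Fx G' (O.j (algebraMap F M (a j))) := fun j =>
    ⟨(_root_.map_ne_zero O.j).2 ((_root_.map_ne_zero _).2 (ha j)), fun g => O.fx g _⟩
  have hfb : ∀ j, Fx G' (O.j (b' j)) := fun j => ⟨(_root_.map_ne_zero O.j).2 (hb' j), fun g => O.fx g _⟩
  let L0 : Lv p G' (O.m.ψ ζ) O.j := ⟨hG', hz1, hζ1, O.fx⟩
  have hnz : ∀ j, Nz (fun σ τ : G' => O.j (b' j) ^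
      MSG.cy (fun g : G' => km p (O.m.ψ ζ) (O.j (algebraMap F M (a j))) g) σ τ) :=
    fun j g h => pow_ne_zero _ (hfb j).1
  have hbc : bc (fun σ τ : G' => O.j (D.cc b' (A.π (O.m.r σ)) (A.π (O.m.r τ)))) =
      hB L0 (∑ j, S (algebraMap F M (a j)) (b' j)) := by
    rw [hfun, bc_prod _ _ (fun j _ => hnz j), map_sum]
    refine Finset.sum_congr rfl fun j _ => ?_
    rw [hB_S L0 ((_root_.map_ne_zero _).2 (ha j)) (hb' j)]
    exact bc_eq_of_cu (hnz j) (nz_sb hz1 _ _) (cy_sym hG' hz1 hζ1 (hfa j) (hfb j))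
  have key : ∀ (ξ : Ω') (L' : Lv p (Gi p G' Ω') ξ O.j), ξ = z' ^ (p ^ m) →
      ∀ x : K2 M, hB L' x = p ^ m • hB L x := by
    rintro _ L' rfl x
    exact hB_level (by rw [pow_succ, mul_comm]) L L' x
  rw [hbc, ri_hB L0 (gi_lv L0), key _ (gi_lv L0) hz'.symm, map_nsmul]

theorem th2 (hp : p.Prime) {ζF : F} (hzF : PZ p ζF) {A : Frm D.act G Ω} (hG : GA G Ω) {ζ : Ω} (hz : PZ p ζ) (hζ : ∀ g : G, g • ζ = ζ)
    (a : Fin r → F) (ha : ∀ j, a j ≠ 0) (hF : ∀ (g : G) (x : F), g • A.ε (algebraMap F E x) = A.ε (algebraMap F E x))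
    (hal : ∀ j g, D.al j (A.π g) = km p ζ (A.ε (algebraMap F E (a j))) g)
    {m : ℕ} {κ₀ : K2 (K0 D)} (hU : Univ D A ζ m κ₀) (s' : AA F E Q →ₐ[F] AA F E Q) (φ : K0 D →ₐ[F] RatFunc (AA F E Q))
    (h2 : ∀ κ : K2 (K0 D), (pc (AA F E Q) 0).spec (K2.map (φ : K0 D →+* RatFunc (AA F E Q)) κ) = K2.map (kA D : K0 D →+* AA F E Q) κ ∧
        (pc (AA F E Q) 1).spec (K2.map (φ : K0 D →+* RatFunc (AA F E Q)) κ) =
          K2.map (s' : AA F E Q →+* AA F E Q) (K2.map (kA D : K0 D →+* AA F E Q) κ))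
    (h4 : ∀ q q', tm φ (C0 D q q' : TT F E (K0 D)) * tm (cR F E Q) (Ua (some (q * q'))) =
        inl _ (algebraMap (AA F E Q)[X] (RatFunc (AA F E Q)) (D.cc (bX D) q q')) *
          (tm (cR F E Q) (Ua (some q)) * qa D.act _ q (tm (cR F E Q) (Ua (some q'))))) :
    ∃ (s : ℕ) (w : K2 (AA F E Q)), p ^ s • (K2.map (s' : AA F E Q →+* AA F E Q) (K2.map (kA D : K0 D →+* AA F E Q) κ₀) -
      p ^ m • K2.map (algebraMap F (AA F E Q)) (∑ j, S (a j) (D.b j)) - K2.map (kA D : K0 D →+* AA F E Q) κ₀) =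
        p ^ (s + m + 1) • w := by
  have hpb : ∀ (c : AA F E Q) (j : Fin r), (bX D j).eval c = 1 + c * (algebraMap F (AA F E Q) (D.b j) - 1) := by
    intro c j
    unfold bX
    simp
  have hb0 : ∀ j, (bX D j).eval 0 = 1 := fun j => by rw [hpb]; ring
  have hb1 : ∀ j, (bX D j).eval 1 = algebraMap F (AA F E Q) (D.b j) := fun j => by rw [hpb]; ring
  have hbne : ∀ j, bX D j ≠ 0 := fun j h => by
    have h1 := hb0 j
    rw [h, eval_zero] at h1
    exact zero_ne_one h1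
  have hinj : Function.Injective (algebraMap (AA F E Q)[X] (RatFunc (AA F E Q))) :=
    Pool.Agent.MK.ratFunc_inj _
  have hbne' : ∀ j, algebraMap (AA F E Q)[X] (RatFunc (AA F E Q)) (bX D j) ≠ 0 := fun j =>
    (map_ne_zero_iff _ hinj).2 (hbne j)
  -- the pair over `AA(t)`
  obtain ⟨G', Ω', _, _, _, _, j', hM⟩ := exists_ov (RatFunc (AA F E Q))
  obtain ⟨O, z', L, hO, hz', hcl⟩ := hU (RatFunc (AA F E Q)) φ G' Ω' j' hM
  have hccX : ∀ q q', algebraMap (AA F E Q)[X] (RatFunc (AA F E Q)) (D.cc (bX D) q q') =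
      D.cc (fun j => algebraMap (AA F E Q)[X] (RatFunc (AA F E Q)) (bX D j)) q q' := by
    intro q q'
    unfold CD.cc
    rw [map_prod]
    simp only [map_pow]
  have h5 := hcl (fun q q' => algebraMap (AA F E Q)[X] (RatFunc (AA F E Q)) (D.cc (bX D) q q'))
    (fun q => tm (cR F E Q) (Ua (some q)))
    (fun q q' => by
      rw [hccX]
      unfold CD.cc
      exact Finset.prod_ne_zero_iff.2 fun j _ => pow_ne_zero _ (hbne' j))
    (fun q => (ua_unit (some q)).map (tm (cR F E Q))) h4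
  simp only [hccX] at h5
  have h6 := th2_class D hp hG hz hζ a ha hF hal hM O hO L hz'
    (fun j => algebraMap (AA F E Q)[X] (RatFunc (AA F E Q)) (bX D j)) hbne'
  rw [h5] at h6
  -- the element killed by `hB`
  have h7 : hB L (K2.map (φ : K0 D →+* RatFunc (AA F E Q)) κ₀ -
      p ^ m • ∑ j, S (algebraMap F (RatFunc (AA F E Q)) (a j))
        (algebraMap (AA F E Q)[X] (RatFunc (AA F E Q)) (bX D j))) = 0 := by
    rw [map_sub, h6, sub_self]
  have hz2 : PZ p (algebraMap F (AA F E Q) ζF) :=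
    ⟨hzF.odd, hzF.one_lt, hzF.prim.map_of_injective (algebraMap F (AA F E Q)).injective⟩
  obtain ⟨s, k₀, w₁, h8⟩ := zero_const hp hz2 hM L _ h7
  have h9 := diff_spec (N := ((p ^ s : ℕ) : ℤ)) (M := ((p ^ (s + m + 1) : ℕ) : ℤ)) (k := k₀)
    (w := K2.map (φ : K0 D →+* RatFunc (AA F E Q)) κ₀ -
      p ^ m • ∑ j, S (algebraMap F (RatFunc (AA F E Q)) (a j))
        (algebraMap (AA F E Q)[X] (RatFunc (AA F E Q)) (bX D j))) (w' := w₁)
    (by rw [natCast_zsmul, natCast_zsmul]; exact h8)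
  rw [natCast_zsmul, natCast_zsmul] at h9
  -- specialisations
  have hac : ∀ (c : AA F E Q) (x : F), x ≠ 0 →
      (pc (AA F E Q) c).ac (algebraMap F (RatFunc (AA F E Q)) x) = algebraMap F (AA F E Q) x := by
    intro c x hx
    have e1 : algebraMap F (RatFunc (AA F E Q)) x =
        algebraMap (AA F E Q)[X] (RatFunc (AA F E Q)) (C (algebraMap F (AA F E Q) x)) := by
      rw [IsScalarTower.algebraMap_apply F (AA F E Q) (RatFunc (AA F E Q)),
        IsScalarTower.algebraMap_apply (AA F E Q) (AA F E Q)[X] (RatFunc (AA F E Q))]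
      rfl
    have h10 := pc_poly c (P := C (algebraMap F (AA F E Q) x))
      (by rw [eval_C]; exact (_root_.map_ne_zero _).2 hx)
    rw [e1, h10.2, eval_C]
  have hs0 : ∀ j, (pc (AA F E Q) 0).spec (S (algebraMap F (RatFunc (AA F E Q)) (a j))
      (algebraMap (AA F E Q)[X] (RatFunc (AA F E Q)) (bX D j))) = 0 := by
    intro j
    rw [Pool.Agent.MK.Val.spec_S, (pc_poly 0 (P := bX D j) (by rw [hb0]; exact one_ne_zero)).2, hb0,
      Pool.Agent.MK.S_one_right]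
  have hs1 : ∀ j, (pc (AA F E Q) 1).spec (S (algebraMap F (RatFunc (AA F E Q)) (a j))
      (algebraMap (AA F E Q)[X] (RatFunc (AA F E Q)) (bX D j))) =
      S (algebraMap F (AA F E Q) (a j)) (algebraMap F (AA F E Q) (D.b j)) := by
    intro j
    rw [Pool.Agent.MK.Val.spec_S, hac 1 (a j) (ha j),
      (pc_poly 1 (P := bX D j) (by rw [hb1]; exact (_root_.map_ne_zero _).2 (D.b_ne j))).2, hb1]
  refine ⟨s, (pc (AA F E Q) 1).spec w₁ - (pc (AA F E Q) 0).spec w₁, ?_⟩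
  rw [← h9]
  congr 1
  have hsum0 : (pc (AA F E Q) 0).spec (∑ j, S (algebraMap F (RatFunc (AA F E Q)) (a j))
      (algebraMap (AA F E Q)[X] (RatFunc (AA F E Q)) (bX D j))) = 0 := by
    rw [map_sum, Finset.sum_congr rfl fun j _ => hs0 j, Finset.sum_const_zero]
  have hsum1 : (pc (AA F E Q) 1).spec (∑ j, S (algebraMap F (RatFunc (AA F E Q)) (a j))
      (algebraMap (AA F E Q)[X] (RatFunc (AA F E Q)) (bX D j))) =
      K2.map (algebraMap F (AA F E Q)) (∑ j, S (a j) (D.b j)) := by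
    rw [map_sum, map_sum]
    refine Finset.sum_congr rfl fun j _ => ?_
    rw [hs1, Pool.Agent.MK.K2.map_S]
  rw [map_sub, map_sub, map_nsmul, map_nsmul, hsum0, hsum1, (h2 κ₀).1, (h2 κ₀).2, smul_zero,
    sub_zero]

end MSC
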