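import Pool.Agent.MSC.Cdat
import Pool.Agent.MSC.Th2

/-! # MSC / ThC: Theorem C

PROOF.  `κ = ∑ S (a j) (b j)` (`sum_sym`).  `hB_sum`: `bc (zf ζ (∑ km a_j ∪ km b_j)) = 0`, so `∑ km a_j ∪ km b_j ~ 0` (`co_of_bc_zf` with `F' = 0`).  `cdat` gives `Q`, `E`, `D`, `A`.  `Ov.self hG` is the pair over `F = FixedPoints.subfield G Ω`
(`A.ε ∘ algebraMap = subtype`).  `ζ ∈ F`: `ζF = ⟨ζ, hζ⟩`.  `kz` gives `m`, `κ₀` with `Univ D A ζ m κ₀`; `paths` (`(p : F) ≠ 0`: `PZ.cast_ne`); `th1` and `th2`; multiply both equations by powers of `p` to have the same `s` and subtract: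
`p ^ (s + m) • K2.map (algebraMap F AA) κ = p ^ (s + m + 1) • w`.  `ret F (Option Q × Ix F E)`: apply `r`: `p ^ (s + m) • κ = p ^ (s + m + 1) • r w`.
-/

set_option autoImplicit false
set_option linter.unusedVariables false

namespace MSC

universe u

open MSG MSN Pool.Agent.Helper14.Massey

open Pool.Agent.MK (K2 S)

theorem thC_arith {A : Type u} [AddCommGroup A] {p m s₁ s₂ : ℕ} {X Y Z w₁ w₂ : A}
    (e1 : p ^ s₁ • (X - Y) = p ^ (s₁ + m + 1) • w₁) (e2 : p ^ s₂ • (X - p ^ m • Z - Y) = p ^ (s₂ + m + 1) • w₂) :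
    p ^ (s₁ + s₂ + m) • Z = p ^ (s₁ + s₂ + m + 1) • (w₁ - w₂) := by
  have h1 : p ^ (s₁ + s₂) • (X - Y) = p ^ (s₁ + s₂ + m + 1) • w₁ := by
    rw [show s₁ + s₂ = s₂ + s₁ by omega, pow_add, mul_smul, e1, smul_smul, ← pow_add]
    congr 2
    omega
  have h2 : p ^ (s₁ + s₂) • (X - p ^ m • Z - Y) = p ^ (s₁ + s₂ + m + 1) • w₂ := by
    rw [pow_add, mul_smul, e2, smul_smul, ← pow_add]
    congr 2
    omega
  have h3 : p ^ (s₁ + s₂ + m) • Z = p ^ (s₁ + s₂) • (X - Y) - p ^ (s₁ + s₂) • (X - p ^ m • Z - Y) := by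
    rw [← smul_sub, pow_add, mul_smul]
    congr 1
    abel
  rw [h3, h1, h2, smul_sub]

theorem thC {G Ω : Type u} [Group G] [TopologicalSpace G] [Field Ω] [MulSemiringAction G Ω] {p : ℕ} (hp : p.Prime) (hG : GA G Ω)
    {ζ : Ω} (L : Lv p G ζ (FixedPoints.subfield G Ω).subtype) (κ : K2 (FixedPoints.subfield G Ω)) (h : hB L κ = 0) :
    ∃ (s : ℕ) (κ' : K2 (FixedPoints.subfield G Ω)), p ^ s • κ = p ^ (s + 1) • κ' := by
  classical
  have hz : PZ p ζ := L.pz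
  have hζ : ∀ g : G, g • ζ = ζ := L.fz
  have hNZ : NeZero p := ⟨hp.ne_zero⟩
  obtain ⟨r, a, b, ha, hb, rfl⟩ := sum_sym κ
  have h1 := h
  rw [hB_sum L ha hb] at h1
  have h2 : Co (fun g h : G => ∑ i, km p ζ (a i : Ω) g * km p ζ (b i : Ω) h) (fun _ _ => 0) := by
    refine co_of_bc_zf hG hz hζ ?_
    have h3 : zf (H := G) ζ (fun _ _ => (0 : ZMod p)) = fun _ _ => 1 := by
      funext g h
      exact zp_zero hz
    rw [h3, bc_one]
    exact h1
  obtain ⟨Q, E, iQ, iQf, iE, iA, iFD, D, A, hDb, hA, hal⟩ := cdat hp hG hz hζ a b ha hb h2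
  have hF : Ov (FixedPoints.subfield G Ω) G (A.ε.comp (algebraMap (FixedPoints.subfield G Ω) E)) := by
    have e : A.ε.comp (algebraMap (FixedPoints.subfield G Ω) E) = (FixedPoints.subfield G Ω).subtype := RingHom.ext hA
    rw [e]
    exact Ov.self hG
  obtain ⟨m, κ₀, hU⟩ := kz D hp hz hζ A hF
  have hU' : Univ D A ζ m κ₀ := hU
  have hzF : PZ p (⟨ζ, hζ⟩ : FixedPoints.subfield G Ω) := by
    refine ⟨hz.odd, hz.one_lt, ?_⟩
    refine IsPrimitiveRoot.of_map_of_injective (f := (FixedPoints.subfield G Ω).subtype) ?_ (FixedPoints.subfield G Ω).subtype.injective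
    exact hz.prim
  have hpF : (p : FixedPoints.subfield G Ω) ≠ 0 := hzF.cast_ne
  obtain ⟨s', st, φ, g1, g2, g3, g4⟩ := paths D hpF
  obtain ⟨s₁, w₁, e1⟩ := th1 D hp hzF hU' s' st g1 g3
  have hfix : ∀ (g : G) (x : FixedPoints.subfield G Ω), g • A.ε (algebraMap (FixedPoints.subfield G Ω) E x) =
      A.ε (algebraMap (FixedPoints.subfield G Ω) E x) := by
    intro g x
    rw [hA]
    exact x.2 g
  obtain ⟨s₂, w₂, e2⟩ := th2 D hp hzF hG hz hζ a ha hfix (fun j g => by rw [hA]; exact hal j g) hU' s' φ g2 g4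
  have e3 := thC_arith e1 e2
  obtain ⟨ρ, hρ⟩ := ret (FixedPoints.subfield G Ω) (Option Q × Ix (FixedPoints.subfield G Ω) E)
  refine ⟨s₁ + s₂ + m, ρ (w₁ - w₂), ?_⟩
  have e4 := congrArg ρ e3
  rw [map_nsmul, map_nsmul] at e4
  rw [hDb] at e4
  rw [← e4]
  congr 1
  exact (hρ _).symm

end MSC
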