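import Pool.Agent.MSC.Oc
import Pool.Agent.MSC.ThC

/-! # MSC / Dd: surjectivity of the norm residue homomorphism

PROOF of `dd_ind` (induction on `m`; `F = FixedPoints.subfield G Ω`).
* `m = 0`: `z = ζ`.  Write `κ = ∑ S a_i b_i` (`sum_sym`), `f' = f - ∑ km a_i ∪ km b_i` (a cocycle: `km_hom`, `km_cont`); `bc (zf ζ f') = bc (zf ζ f) - hB L κ` (`hB_sum`), `ri` of it is `0` (`ri_hB`).  `oc` gives `kt`; `κ' = κ + kt`.
* `m → m + 1`: `z` of order `p ^ (m + 2)`, `z ^ (p ^ (m+1)) = ζ`.  `p • ri (bc (zf ζ f)) = 0` (`p`-th powers), so `p ^ (m+1) • hB Lz κ = 0`, i.e. (`hB_level`, `z ^ (p ^ (m+1)) = ζ`) `hB (gi_lv L) κ = 0`, `ri (hB L κ) = 0`.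
  `oc` for the cocycle `∑ km a_i ∪ km b_i` of `κ`: `hB L κ = hB L kt` and all `hB L' kt = 0`.  `thC` for `κ - kt`: `p ^ s • (κ - kt) = p ^ (s + 1) • κ₁`.  Let `z₁ ∈ Ω` with `z₁ ^ (p ^ s) = z`, a primitive `p ^ (m + 2 + s)`-th root of unity; `L₁ = lv_gi` its level on `Gi`.
  `hB Lz κ = hB Lz (κ - kt) = p ^ s • hB L₁ (κ - kt)` (`hB_level`) `= p ^ (s+1) • hB L₁ κ₁ = hB L₂ κ₁`, `L₂` the level `p ^ (m + 1)` with the root of unity `z₁ ^ (p ^ (s+1)) = z ^ p` (`hB_level` again).  `(z ^ p) ^ (p ^ m) = ζ`.  Induction hypothesis.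
* `dd`: `theoremB` and `adjust`.  `ms_pair`: `bc (zf ζ f) = hB L κ'`, `sum_sym`, `hB_sum`, `co_of_bc_zf`.
-/

set_option autoImplicit false
set_option linter.unusedVariables false

namespace MSC

universe u

open MSG MSN Pool.Agent.Helper14.Massey

open Pool.Agent.MK (K2 S)

variable {p : ℕ} {G Ω : Type u} [Group G] [TopologicalSpace G] [Field Ω] [MulSemiringAction G Ω] {ζ : Ω}

private theorem hB_congr_h75 {H : Type u} [Group H] [TopologicalSpace H] [MulSemiringAction H Ω] {F : Type u} [Field F] {j : F →+* Ω}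
    {n : ℕ} {z w : Ω} (h : z = w) (L : Lv n H z j) (L' : Lv n H w j) (x : K2 F) : hB L x = hB L' x := by
  subst h
  rfl

private theorem hB_level_h75 {H : Type u} [Group H] [TopologicalSpace H] [MulSemiringAction H Ω] {F : Type u} [Field F] {j : F →+* Ω}
    {n k N : ℕ} {z w : Ω} (hN : N = n * k) (hw : w = z ^ k) (L : Lv N H z j) (L' : Lv n H w j) (x : K2 F) :
    hB L' x = k • hB L x := by
  subst hw
  exact hB_level hN L L' x

private theorem sym_Z2_h75 (L : Lv p G ζ (FixedPoints.subfield G Ω).subtype) {r : ℕ} {a b : Fin r → FixedPoints.subfield G Ω}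
    (ha : ∀ i, a i ≠ 0) (hb : ∀ i, b i ≠ 0) :
    (fun g h => ∑ i, km p ζ ((FixedPoints.subfield G Ω).subtype (a i)) g *
      km p ζ ((FixedPoints.subfield G Ω).subtype (b i)) h) ∈ Z2 p G := by
  have hac := L.ga.alg
  refine ⟨?_, fun σ τ υ => ?_⟩
  · refine continuous_finsetSum _ fun i _ => ?_
    exact ((km_cont L.ga p ζ _).comp continuous_fst).mul ((km_cont L.ga p ζ _).comp continuous_snd)
  · rw [← Finset.sum_sub_distrib, ← Finset.sum_add_distrib, ← Finset.sum_sub_distrib]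
    refine Finset.sum_eq_zero fun i _ => ?_
    have h1 := km_hom L.pz (L.fx (ha i)).1 (L.fz σ) (L.fz τ) ((L.fx (ha i)).2 σ) ((L.fx (ha i)).2 τ)
    have h2 := km_hom L.pz (L.fx (hb i)).1 (L.fz τ) (L.fz υ) ((L.fx (hb i)).2 τ) ((L.fx (hb i)).2 υ)
    rw [h1, h2]
    ring

private theorem hB_Z2_h75 (L : Lv p G ζ (FixedPoints.subfield G Ω).subtype) (κ : K2 (FixedPoints.subfield G Ω)) :
    ∃ e ∈ Z2 p G, hB L κ = bc (zf ζ e) := by
  obtain ⟨r, a, b, ha, hb, rfl⟩ := sum_sym κ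
  exact ⟨_, sym_Z2_h75 L ha hb, hB_sum L ha hb⟩

private theorem p_bc_h75 (hz : PZ p ζ) (f : G → G → ZMod p) : p • bc (zf ζ f) = 0 := by
  rw [← bc_pow (nz_zf hz f), ← bc_one]
  congr 1
  funext g h
  show (ζ ^ (f g h).val) ^ p = 1
  rw [← pow_mul, mul_comm, pow_mul, hz.prim.pow_eq_one, one_pow]

theorem dd_ind (hp : p.Prime) (hG : GA G Ω) (L : Lv p G ζ (FixedPoints.subfield G Ω).subtype) {f : G → G → ZMod p} (hf : f ∈ Z2 p G)
    (m : ℕ) : ∀ (z : Ω) (Lz : Lv (p ^ (m + 1)) (Gi p G Ω) z (FixedPoints.subfield G Ω).subtype) (κ : K2 (FixedPoints.subfield G Ω)),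
      z ^ (p ^ m) = ζ → ri p G Ω (bc (zf ζ f)) = hB Lz κ →
      ∃ κ' : K2 (FixedPoints.subfield G Ω), bc (zf ζ f) = hB L κ' := by
  induction m with
  | zero =>
    intro z Lz κ hz h
    rw [pow_zero, pow_one] at hz
    have h1 : ri p G Ω (hB L κ) = ri p G Ω (bc (zf ζ f)) := by
      rw [ri_hB L (gi_lv L), h, hB_level_h75 (k := 1) (by ring) (by rw [hz, pow_one]) Lz (gi_lv L), one_nsmul]
    obtain ⟨e, he, hκ⟩ := hB_Z2_h75 L κ
    have h2 : bc (zf ζ (f - e)) = bc (zf ζ f) - bc (zf ζ e) := by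
      rw [eq_sub_iff_add_eq, ← bc_mul (nz_zf L.pz _) (nz_zf L.pz _), ← zf_add L.pz]
      congr 2
      funext g k
      simp
    obtain ⟨kt, hkt, -⟩ := oc hp hG L (sub_mem hf he) (by rw [h2, map_sub, ← hκ, h1, sub_self])
    refine ⟨κ + kt, ?_⟩
    rw [map_add, ← hkt, h2, hκ]
    abel
  | succ m ih =>
    intro z Lz κ hz h
    have hζ1 : ζ ≠ 1 := L.pz.prim.ne_one L.pz.one_lt
    have hpf : Fact p.Prime := ⟨hp⟩
    have hac := hG.alg
    have h1 : hB (gi_lv (p := p) L) κ = 0 := by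
      rw [hB_level_h75 (k := p ^ (m + 1)) (by ring) hz.symm Lz (gi_lv L), ← h, pow_succ, mul_nsmul',
        ← map_nsmul, p_bc_h75 L.pz, map_zero, nsmul_zero]
    obtain ⟨e, he, hκ⟩ := hB_Z2_h75 L κ
    obtain ⟨kt, hkt, hkt0⟩ := oc hp hG L he (by rw [← hκ, ri_hB L (gi_lv L), h1])
    obtain ⟨s, κ₁, hs⟩ := thC hp hG L (κ - kt) (by rw [map_sub, hκ, hkt, sub_self])
    obtain ⟨z₁, hz₁⟩ := IsAlgClosed.exists_pow_nat_eq z (pow_pos hp.pos s)
    have hz2 : z₁ ^ (p ^ (m + 1 + s)) = ζ := by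
      rw [← hz, ← hz₁, ← pow_mul]
      congr 1
      ring
    have hord : IsPrimitiveRoot z₁ (p ^ (m + 1 + s + 1)) := by
      have h3 : orderOf z₁ = p ^ (m + 1 + s + 1) := by
        apply orderOf_eq_prime_pow
        · rw [hz2]
          exact hζ1
        · rw [pow_succ, pow_mul, hz2]
          exact L.pz.prim.pow_eq_one
      rw [← h3]
      exact IsPrimitiveRoot.orderOf z₁
    have hodd : ∀ k : ℕ, Odd (p ^ k) := fun k => L.pz.odd.pow
    have hPZ1 : PZ (p ^ (m + 1 + s + 1)) z₁ := ⟨hodd _, Nat.one_lt_pow (Nat.succ_ne_zero _) hp.one_lt, hord⟩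
    have hPZ2 : PZ (p ^ (m + 1)) (z ^ p) := by
      refine ⟨hodd _, Nat.one_lt_pow (Nat.succ_ne_zero _) hp.one_lt, ?_⟩
      exact Lz.pz.prim.pow (pow_pos hp.pos _) (by ring)
    have L₁ := lv_gi (p := p) hp hG L.fj hPZ1
    have L₂ := lv_gi (p := p) hp hG L.fj hPZ2
    refine ih (z ^ p) L₂ κ₁ ?_ ?_
    · rw [← hz, ← pow_mul]
      congr 1
      ring
    · have e1 : hB Lz κ = hB Lz (κ - kt) := by
        rw [map_sub, hkt0 (m + 1) z Lz, sub_zero]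
      rw [h, e1, hB_level_h75 (k := p ^ s) (by ring) hz₁.symm L₁ Lz, ← map_nsmul, hs, map_nsmul,
        hB_level_h75 (k := p ^ (s + 1)) (by ring) (by rw [← hz₁, ← pow_mul, pow_succ]) L₁ L₂]

theorem dd (hp : p.Prime) (hG : GA G Ω) (L : Lv p G ζ (FixedPoints.subfield G Ω).subtype) {f : G → G → ZMod p} (hf : f ∈ Z2 p G) :
    ∃ κ' : K2 (FixedPoints.subfield G Ω), bc (zf ζ f) = hB L κ' := by
  obtain ⟨m, z, Lz, κ, h⟩ := theoremB hp hG L.pz L.fz hf
  obtain ⟨z', L', κ', hz', h'⟩ := adjust hp L.pz Lz κ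
  exact dd_ind hp hG L hf m z' L' κ' hz' (by rw [h, h'])

/-- surjectivity for all Galois pairs -/
theorem ms_pair (hp : p.Prime) (hG : GA G Ω) (hz : PZ p ζ) (hζ : ∀ g : G, g • ζ = ζ) {f : G → G → ZMod p} (hf : f ∈ Z2 p G) :
    Sy p ζ (MonoidHom.id G) f := by
  have L : Lv p G ζ (FixedPoints.subfield G Ω).subtype := ⟨hG, hz, hζ, fun g x => x.2 g⟩
  obtain ⟨κ, hκ⟩ := dd hp hG L hf
  obtain ⟨r, a, b, ha, hb, rfl⟩ := sum_sym κ
  rw [hB_sum L ha hb] at hκ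
  exact ⟨r, fun i => (FixedPoints.subfield G Ω).subtype (a i), fun i => (FixedPoints.subfield G Ω).subtype (b i),
    fun i => L.fx (ha i), fun i => L.fx (hb i), co_of_bc_zf hG hz hζ hκ⟩

end MSC
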