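import Mathlib

/-! # MSC / Dev: the device `T(B) = B ⊗ E` (project MS, part C)

`E/F` is a finite field extension, `Q` a group acting on `E` over `F` by `act`.  For a commutative `F`-algebra `B` let `TT F E B = B ⊗[F] E`; `qa act B q` is the action of `q` on the
right factor, `tm φ : TT F E B → TT F E B'` the map induced by `φ : B →ₐ[F] B'`, `cd B i x` the `i`-th coordinate of `x` with respect to the basis `e i` of `E/F`, `inl B : B → TT F E B` and
`inr B : E → TT F E B` the two inclusions.

PROOFS.
* `tm_*`, `qa_*`: check on pure tensors (`TensorProduct.induction_on`), or `Algebra.TensorProduct.ext`.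
* `cd_*`: `Algebra.TensorProduct.basis_repr_tmul`, linearity.  `cd_tm`: on pure tensors `b ⊗ x`, `x = ∑ c_i e_i`: both sides are `φ (c_i b)`.
* `sum_cd`: `Basis.sum_repr`.  `tm_inj`: `cd_tm` and `cd_ext`.
* `exists_tm_of_cd`: `x = ∑ i, (cd i x) ⊗ e i`, `cd i x = φ (y i)`; take `∑ i, y i ⊗ e i`.
* `isUnit_of_tm`: `B → B'` injective field homomorphism (fields `B`, `B'`), `x : TT B`, `tm φ x` a unit.  Multiplication by `x` is an injective linear map of the finite-dimensional `B`-space
  `TT B` to itself (if `x y = 0` then `tm x * tm y = 0`, `tm y = 0`, `y = 0`), so it is surjective.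
-/

set_option autoImplicit false
set_option linter.unusedVariables false

namespace MSC

universe u

open scoped TensorProduct

noncomputable section

section

variable (F E : Type u) [Field F] [Field E] [Algebra F E]

/-- the device -/
abbrev TT (B : Type u) [CommRing B] [Algebra F B] : Type u := B ⊗[F] E

/-- index type of the basis of `E/F` -/
abbrev Ix : Type := Fin (Module.finrank F E)

/-- the basis of `E/F` -/
def eb [FiniteDimensional F E] : Module.Basis (Ix F E) F E := Module.finBasis F E

end

section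

variable {F E : Type u} [Field F] [Field E] [Algebra F E] {Q : Type u} [Group Q] (act : Q →* (E ≃ₐ[F] E))

/-- the action on the right factor -/
def qa (B : Type u) [CommRing B] [Algebra F B] (q : Q) : TT F E B →ₐ[B] TT F E B :=
  Algebra.TensorProduct.map (AlgHom.id B B) ((act q : E ≃ₐ[F] E) : E →ₐ[F] E)

/-- the map induced by `φ` -/
def tm {B B' : Type u} [CommRing B] [Algebra F B] [CommRing B'] [Algebra F B'] (φ : B →ₐ[F] B') : TT F E B →ₐ[F] TT F E B' :=
  Algebra.TensorProduct.map φ (AlgHom.id F E)

/-- left inclusion -/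
def inl (B : Type u) [CommRing B] [Algebra F B] : B →ₐ[F] TT F E B := Algebra.TensorProduct.includeLeft

/-- right inclusion -/
def inr (B : Type u) [CommRing B] [Algebra F B] : E →ₐ[F] TT F E B := Algebra.TensorProduct.includeRight

/-- coordinates -/
def cd (B : Type u) [CommRing B] [Algebra F B] [FiniteDimensional F E] (i : Ix F E) (x : TT F E B) : B :=
  (Algebra.TensorProduct.basis B (eb F E)).repr x i

variable {B B' B'' : Type u} [CommRing B] [Algebra F B] [CommRing B'] [Algebra F B'] [CommRing B''] [Algebra F B'']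

theorem qa_tmul (q : Q) (x : B) (y : E) : qa act B q (x ⊗ₜ y) = x ⊗ₜ act q y := by
  simp only [qa, Algebra.TensorProduct.map_tmul, AlgHom.id_apply]
  rfl

theorem tm_tmul (φ : B →ₐ[F] B') (x : B) (y : E) : tm (E := E) φ (x ⊗ₜ y) = φ x ⊗ₜ y := by
  simp only [tm, Algebra.TensorProduct.map_tmul, AlgHom.id_apply]

theorem qa_mul (q q' : Q) (x : TT F E B) : qa act B (q * q') x = qa act B q (qa act B q' x) := by
  induction x using TensorProduct.induction_on with
  | zero => rw [map_zero, map_zero, map_zero]
  | tmul x y => rw [qa_tmul, qa_tmul, qa_tmul, map_mul]; rfl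
  | add x y hx hy => rw [map_add, map_add, map_add, hx, hy]

theorem qa_one (x : TT F E B) : qa act B 1 x = x := by
  induction x using TensorProduct.induction_on with
  | zero => rw [map_zero]
  | tmul x y => rw [qa_tmul, map_one]; rfl
  | add x y hx hy => rw [map_add, hx, hy]

theorem qa_inl (q : Q) (x : B) : qa act B q (inl B x) = inl B x := by
  show qa act B q (x ⊗ₜ 1) = x ⊗ₜ 1
  rw [qa_tmul, map_one]

theorem qa_inr (q : Q) (x : E) : qa act B q (inr B x) = inr B (act q x) := by
  show qa act B q (1 ⊗ₜ x) = 1 ⊗ₜ (act q x)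
  rw [qa_tmul]

theorem tm_qa (φ : B →ₐ[F] B') (q : Q) (x : TT F E B) : tm φ (qa act B q x) = qa act B' q (tm φ x) := by
  induction x using TensorProduct.induction_on with
  | zero => rw [map_zero, map_zero, map_zero]
  | tmul x y => rw [qa_tmul, tm_tmul, tm_tmul, qa_tmul]
  | add x y hx hy => rw [map_add, map_add, map_add, map_add, hx, hy]

theorem tm_inl (φ : B →ₐ[F] B') (x : B) : tm (E := E) φ (inl B x) = inl B' (φ x) := by
  show tm φ (x ⊗ₜ 1) = φ x ⊗ₜ 1
  rw [tm_tmul]

theorem tm_inr (φ : B →ₐ[F] B') (x : E) : tm φ (inr B x) = inr B' x := by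
  show tm φ (1 ⊗ₜ x) = 1 ⊗ₜ x
  rw [tm_tmul, map_one]

theorem tm_comp (φ : B →ₐ[F] B') (ψ : B' →ₐ[F] B'') (x : TT F E B) : tm (ψ.comp φ) x = tm ψ (tm φ x) := by
  induction x using TensorProduct.induction_on with
  | zero => rw [map_zero, map_zero, map_zero]
  | tmul x y => rw [tm_tmul, tm_tmul, tm_tmul]; rfl
  | add x y hx hy => rw [map_add, map_add, map_add, hx, hy]

variable [FiniteDimensional F E]

theorem cd_add (i : Ix F E) (x y : TT F E B) : cd B i (x + y) = cd B i x + cd B i y := by
  simp only [cd, map_add, Finsupp.add_apply]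

theorem cd_sum {κ : Type*} (s : Finset κ) (f : κ → TT F E B) (i : Ix F E) : cd B i (∑ k ∈ s, f k) = ∑ k ∈ s, cd B i (f k) := by
  simp only [cd, map_sum, Finsupp.finsetSum_apply]

/-- coordinates of a multiple -/
theorem cd_inl_mul (i : Ix F E) (c : B) (x : TT F E B) : cd B i (inl B c * x) = c * cd B i x := by
  have h : inl B c * x = c • x := by
    rw [Algebra.smul_def]
    rfl
  rw [h]
  simp only [cd, map_smul, Finsupp.smul_apply, smul_eq_mul]

theorem cd_eb (i j : Ix F E) (c : B) : cd B i (c ⊗ₜ eb F E j) = if i = j then c else 0 := by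
  rw [cd, Algebra.TensorProduct.basis_repr_tmul, Finsupp.smul_apply, Finsupp.mapRange_apply, Module.Basis.repr_self,
    Finsupp.single_apply]
  by_cases h : i = j
  · rw [if_pos h.symm, if_pos h, map_one, smul_eq_mul, mul_one]
  · rw [if_neg (fun e => h e.symm), if_neg h, map_zero, smul_zero]

theorem cd_tm (φ : B →ₐ[F] B') (i : Ix F E) (x : TT F E B) : cd B' i (tm φ x) = φ (cd B i x) := by
  induction x using TensorProduct.induction_on with
  | zero =>
    rw [map_zero]
    simp only [cd, map_zero, Finsupp.zero_apply]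
  | tmul x y =>
    rw [tm_tmul, cd, cd, Algebra.TensorProduct.basis_repr_tmul, Algebra.TensorProduct.basis_repr_tmul, Finsupp.smul_apply,
      Finsupp.smul_apply, Finsupp.mapRange_apply, Finsupp.mapRange_apply, smul_eq_mul, smul_eq_mul, map_mul, AlgHom.commutes]
  | add x y hx hy => rw [map_add, cd_add, cd_add, hx, hy, map_add]

theorem sum_cd (x : TT F E B) : ∑ i, cd B i x ⊗ₜ[F] eb F E i = x := by
  have h := (Algebra.TensorProduct.basis B (eb F E)).sum_repr x
  refine Eq.trans (Finset.sum_congr rfl fun i _ => ?_) h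
  rw [Algebra.TensorProduct.basis_apply, TensorProduct.smul_tmul', smul_eq_mul, mul_one]
  rfl

theorem cd_ext {x y : TT F E B} (h : ∀ i, cd B i x = cd B i y) : x = y := by
  rw [← sum_cd x, ← sum_cd y]
  exact Finset.sum_congr rfl fun i _ => by rw [h i]

theorem tm_inj {φ : B →ₐ[F] B'} (h : Function.Injective φ) : Function.Injective (tm (E := E) φ) := by
  intro x y hxy
  refine cd_ext fun i => h ?_
  rw [← cd_tm, ← cd_tm, hxy]

theorem exists_tm_of_cd (φ : B →ₐ[F] B') (x : TT F E B') (h : ∀ i, ∃ y : B, cd B' i x = φ y) : ∃ y : TT F E B, tm φ y = x := by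
  choose y hy using h
  refine ⟨∑ i, y i ⊗ₜ[F] eb F E i, ?_⟩
  rw [map_sum]
  refine Eq.trans (Finset.sum_congr rfl fun i _ => ?_) (sum_cd x)
  rw [tm_tmul, hy i]

end

section

variable {F E : Type u} [Field F] [Field E] [Algebra F E] [FiniteDimensional F E] {M M' : Type u} [Field M] [Algebra F M]
  [Field M'] [Algebra F M']

theorem isUnit_of_tm (φ : M →ₐ[F] M') {x : TT F E M} (h : IsUnit (tm φ x)) : IsUnit x := by
  have hinj : Function.Injective φ := φ.toRingHom.injective
  have h1 : Function.Injective (LinearMap.mulLeft M x) := by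
    rw [← LinearMap.ker_eq_bot, LinearMap.ker_eq_bot']
    intro y hy
    have h2 : x * y = 0 := hy
    have h3 : tm φ x * tm φ y = 0 := by rw [← map_mul, h2, map_zero]
    have h4 : tm φ y = 0 := (h.mul_right_eq_zero).1 h3
    exact tm_inj hinj (by rw [h4, map_zero])
  have h5 : Function.Surjective (LinearMap.mulLeft M x) := LinearMap.injective_iff_surjective.1 h1
  obtain ⟨y, hy⟩ := h5 1
  exact IsUnit.of_mul_eq_one y hy

end

end

end MSC
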