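import Pool.Agent.MSC.Dev
import Pool.Agent.MSG.Uq

/-! # MSC / Gen: the data of part C and the generic elements

`CD p r F E Q`: an action of the finite group `Q` on `E/F`, characters `al j : Q → ZMod p`, `b j ∈ F*`, `u : Q → E*`, `a ∈ E*` with
`c(q,q') = ∏ b_j ^ carry(al_j q, al_j q') = u q * q(u q') / u (q q')` and `y(q) = ∏ b_j ^ (al_j q).val = u q ^ p * q(a) / a`.
`PP = F[X_(j,i)]`, `j ∈ Option Q`, `i` an index of the basis of `E/F`; `AA` its fraction field; `Ug j = ∑ X_(j,i) ⊗ e_i` in `TT PP`, `Ua j` its image in `TT AA` (a unit),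
`Cg q q' = U_q q(U_q') / U_(qq')`, `Yg q = U_q ^ p q(U_*) / U_*` (`* = none`).

PROOFS.
* `ua_unit`: the matrix of the multiplication by `Ug j` on the free `PP`-module `TT PP` with basis `1 ⊗ e_i` has a determinant `δ ∈ PP`; the `F`-algebra homomorphism `PP → F`, `X_(j,i) ↦` the `i`-th coordinate of
  `1 ∈ E` maps `Ug j` to `1 ⊗ 1`, hence `δ` to `1`; so `δ ≠ 0`, and the multiplication by `Ua j` on `TT AA` has determinant `δ ≠ 0` (a unit), so it is surjective.  (Or: `TT AA` is a domain, a localization of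
  `PP ⊗ E = E[X]`, and finite over the field `AA`.)
* `cg_coc`, `cg_pow`: computations with units: `qa` is a ring homomorphism, `qa_mul`.
* `bt_c`, `bt_y`: for elements `b_j` of any commutative ring: `(∏ B_j^(x.val))·.. `: the exponent identity `x.val + y.val = (x + y).val + p * carry`.
-/

set_option autoImplicit false
set_option linter.unusedVariables false

namespace MSC

universe u

open scoped TensorProduct

open MvPolynomial

noncomputable section

/-- the data of part C -/
structure CD (p r : ℕ) (F E Q : Type u) [Field F] [Field E] [Algebra F E] [Group Q] where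
  act : Q →* (E ≃ₐ[F] E)
  al : Fin r → Q → ZMod p
  al_add : ∀ j q q', al j (q * q') = al j q + al j q'
  b : Fin r → F
  b_ne : ∀ j, b j ≠ 0
  u : Q → E
  u_ne : ∀ q, u q ≠ 0
  a : E
  a_ne : a ≠ 0
  hc : ∀ q q', algebraMap F E (∏ j, b j ^ MSG.cy (al j) q q') = u q * act q (u q') / u (q * q')
  hy : ∀ q, algebraMap F E (∏ j, b j ^ (al j q).val) = u q ^ p * act q a / a

section

variable {p r : ℕ} {F E Q : Type u} [Field F] [Field E] [Algebra F E] [Group Q] (D : CD p r F E Q)

namespace CD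

/-- the cocycle `∏ b_j ^ carry` for elements `bb j` of a commutative ring -/
def cc {R : Type u} [CommRing R] (bb : Fin r → R) (q q' : Q) : R := ∏ j, bb j ^ MSG.cy (D.al j) q q'

/-- `∏ b_j ^ val` -/
def yy {R : Type u} [CommRing R] (bb : Fin r → R) (q : Q) : R := ∏ j, bb j ^ (D.al j q).val

private theorem val_cy [NeZero p] (j : Fin r) (q q' : Q) :
    (D.al j q).val + (D.al j q').val = MSG.cy (D.al j) q q' * p + (D.al j (q * q')).val := by
  rw [D.al_add, ZMod.val_add]
  have h1 := ZMod.val_lt (D.al j q)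
  have h2 := ZMod.val_lt (D.al j q')
  unfold MSG.cy
  split_ifs with h
  · rw [Nat.mod_eq_sub_mod h, Nat.mod_eq_of_lt (by omega)]
    omega
  · rw [Nat.mod_eq_of_lt (by omega)]
    omega

theorem cc_pow [NeZero p] {R : Type u} [CommRing R] (bb : Fin r → R) (q q' : Q) :
    D.cc bb q q' ^ p * D.yy bb (q * q') = D.yy bb q * D.yy bb q' := by
  unfold cc yy
  rw [← Finset.prod_pow, ← Finset.prod_mul_distrib, ← Finset.prod_mul_distrib]
  refine Finset.prod_congr rfl fun j _ => ?_
  rw [← pow_mul, ← pow_add, ← pow_add, D.val_cy]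

theorem yy_pow_root [NeZero p] {R : Type u} [CommRing R] (be : Fin r → R) (q q' : Q) :
    D.yy be q * D.yy be q' = D.cc (fun j => be j ^ p) q q' * D.yy be (q * q') := by
  unfold cc yy
  rw [← Finset.prod_mul_distrib, ← Finset.prod_mul_distrib]
  refine Finset.prod_congr rfl fun j _ => ?_
  rw [← pow_mul, ← pow_add, ← pow_add, D.val_cy, mul_comm p]

end CD

variable (F E Q) [FiniteDimensional F E]

/-- the polynomial ring -/
abbrev PP : Type u := MvPolynomial (Option Q × Ix F E) F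

/-- its fraction field -/
abbrev AA : Type u := FractionRing (PP F E Q)

/-- the inclusion `PP → AA` -/
def pA : PP F E Q →ₐ[F] AA F E Q := IsScalarTower.toAlgHom F (PP F E Q) (AA F E Q)

variable {F E Q}

/-- the generic element -/
def Ug (j : Option Q) : TT F E (PP F E Q) := ∑ i, (X (j, i) : PP F E Q) ⊗ₜ[F] eb F E i

/-- the generic element over `AA` -/
def Ua (j : Option Q) : TT F E (AA F E Q) := tm (pA F E Q) (Ug j)

/-- the matrix of the multiplication by `x` -/
private def mx {B : Type u} [CommRing B] [Algebra F B] (x : TT F E B) : Matrix (Ix F E) (Ix F E) B :=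
  fun i k => cd B i (x * ((1 : B) ⊗ₜ[F] eb F E k))

private theorem mx_tm {B B' : Type u} [CommRing B] [Algebra F B] [CommRing B'] [Algebra F B']
    (φ : B →ₐ[F] B') (x : TT F E B) : mx (tm φ x) = (mx x).map φ := by
  ext i k
  show cd B' i (tm φ x * ((1 : B') ⊗ₜ[F] eb F E k)) = φ (cd B i (x * ((1 : B) ⊗ₜ[F] eb F E k)))
  rw [← cd_tm, map_mul, tm_tmul, map_one]

private theorem mx_one {B : Type u} [CommRing B] [Algebra F B] : mx (1 : TT F E B) = 1 := by
  ext i k
  show cd B i (1 * ((1 : B) ⊗ₜ[F] eb F E k)) = _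
  rw [one_mul, cd_eb, Matrix.one_apply]

private theorem isUnit_of_mx {B : Type u} [CommRing B] [Algebra F B] {x : TT F E B}
    (h : IsUnit (mx x).det) : IsUnit x := by
  set v : Ix F E → B := (mx x)⁻¹.mulVec (fun i => cd B i 1) with hv
  refine IsUnit.of_mul_eq_one (∑ k, v k ⊗ₜ[F] eb F E k) (cd_ext fun i => ?_)
  have h1 : ∀ k, x * (v k ⊗ₜ[F] eb F E k) = inl B (v k) * (x * ((1 : B) ⊗ₜ[F] eb F E k)) := by
    intro k
    have h2 : (v k ⊗ₜ[F] eb F E k : TT F E B) = inl B (v k) * ((1 : B) ⊗ₜ[F] eb F E k) := by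
      show _ = (v k ⊗ₜ[F] (1 : E)) * ((1 : B) ⊗ₜ[F] eb F E k)
      rw [Algebra.TensorProduct.tmul_mul_tmul, mul_one, one_mul]
    rw [h2]
    ring
  rw [Finset.mul_sum, cd_sum]
  have h3 : ∑ k, cd B i (x * (v k ⊗ₜ[F] eb F E k)) = (mx x).mulVec v i := by
    rw [Matrix.mulVec, dotProduct]
    refine Finset.sum_congr rfl fun k _ => ?_
    rw [h1, cd_inl_mul, mul_comm]
    rfl
  rw [h3, hv, Matrix.mulVec_mulVec, Matrix.mul_nonsing_inv _ h, Matrix.one_mulVec]

theorem ua_unit (j : Option Q) : IsUnit (Ua (F := F) (E := E) j) := by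
  set φ : PP F E Q →ₐ[F] F := aeval (fun x : Option Q × Ix F E => (eb F E).repr 1 x.2) with hφ
  have h1 : tm φ (Ug (F := F) (E := E) j) = 1 := by
    unfold Ug
    rw [map_sum]
    have h2 : ∀ i, tm φ ((X (j, i) : PP F E Q) ⊗ₜ[F] eb F E i) =
        (1 : F) ⊗ₜ[F] ((eb F E).repr 1 i • eb F E i) := by
      intro i
      rw [tm_tmul, hφ, aeval_X, TensorProduct.tmul_smul, TensorProduct.smul_tmul', smul_eq_mul,
        mul_one]
    rw [Finset.sum_congr rfl fun i _ => h2 i, ← TensorProduct.tmul_sum, Module.Basis.sum_repr]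
    rfl
  have h2 : φ (mx (Ug (F := F) (E := E) j)).det = 1 := by
    have h3 := congrArg Matrix.det (mx_tm φ (Ug (F := F) (E := E) j))
    rw [h1, mx_one, Matrix.det_one] at h3
    rw [h3]
    exact AlgHom.map_det φ _
  have h3 : (mx (Ug (F := F) (E := E) j)).det ≠ 0 := by
    intro h0
    rw [h0, map_zero] at h2
    exact zero_ne_one h2
  apply isUnit_of_mx
  have h4 : (mx (Ua (F := F) (E := E) j)).det = pA F E Q (mx (Ug (F := F) (E := E) j)).det := by
    unfold Ua
    rw [mx_tm]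
    exact (AlgHom.map_det (pA F E Q) _).symm
  rw [h4]
  refine IsUnit.mk0 _ ?_
  intro h0
  exact h3 (IsFractionRing.injective (PP F E Q) (AA F E Q) (h0.trans (map_zero _).symm))

/-- the generic element as a unit -/
def Uu (j : Option Q) : (TT F E (AA F E Q))ˣ := (ua_unit j).unit

theorem Uu_val (j : Option Q) : (Uu (F := F) (E := E) j : TT F E (AA F E Q)) = Ua j := (ua_unit j).unit_spec

/-- `qa` on units -/
def qu (B : Type u) [CommRing B] [Algebra F B] (q : Q) : (TT F E B)ˣ →* (TT F E B)ˣ :=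
  Units.map ((qa D.act B q : TT F E B →ₐ[B] TT F E B) : TT F E B →* TT F E B)

/-- the generic cocycle -/
def Cg (q q' : Q) : (TT F E (AA F E Q))ˣ := Uu (some q) * qu D (AA F E Q) q (Uu (some q')) * (Uu (some (q * q')))⁻¹

/-- the generic `Y` -/
def Yg (q : Q) : (TT F E (AA F E Q))ˣ := Uu (some q) ^ p * qu D (AA F E Q) q (Uu none) * (Uu none)⁻¹

private theorem qu_mul (B : Type u) [CommRing B] [Algebra F B] (q q' : Q) (x : (TT F E B)ˣ) :
    qu D B (q * q') x = qu D B q (qu D B q' x) := by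
  apply Units.ext
  exact qa_mul D.act q q' (x : TT F E B)

private theorem cg_aux {G : Type*} [CommGroup G] (a b c d e f : G) :
    a * b * c⁻¹ * (c * d * e⁻¹) = b * d * f⁻¹ * (a * f * e⁻¹) := by
  rw [mul_comm a f]
  have h1 : a * b * c⁻¹ * (c * d * e⁻¹) = a * (b * d) * e⁻¹ := by group
  have h2 : b * d * f⁻¹ * (f * a * e⁻¹) = (b * d) * a * e⁻¹ := by group
  rw [h1, h2, mul_comm a (b * d)]

theorem cg_coc (q q' q'' : Q) : Cg D q q' * Cg D (q * q') q'' = qu D (AA F E Q) q (Cg D q' q'') * Cg D q (q' * q'') := by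
  unfold Cg
  rw [map_mul, map_mul, map_inv, qu_mul, mul_assoc q q' q'']
  exact cg_aux _ _ _ _ _ _

private theorem cg_aux2 {G : Type*} [CommGroup G] (a b c d s t : G) (p : ℕ) :
    (a * b * c⁻¹) ^ p * (c ^ p * d * s⁻¹) = a ^ p * t * s⁻¹ * (b ^ p * d * t⁻¹) := by
  rw [mul_pow, mul_pow, inv_pow]
  generalize a ^ p = A
  generalize b ^ p = B
  generalize c ^ p = C'
  have h1 : A * B * C'⁻¹ * (C' * d * s⁻¹) = A * ((B * d) * s⁻¹) := by group
  have h2 : A * t * s⁻¹ * (B * d * t⁻¹) = A * (t * (s⁻¹ * (B * d)) * t⁻¹) := by group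
  rw [h1, h2, mul_comm t, mul_inv_cancel_right, mul_comm (B * d)]

theorem cg_pow (q q' : Q) : Cg D q q' ^ p * Yg D (q * q') = Yg D q * qu D (AA F E Q) q (Yg D q') := by
  unfold Cg Yg
  rw [map_mul, map_mul, map_inv, map_pow, qu_mul]
  exact cg_aux2 _ _ _ _ _ _ p

end

end

end MSC
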