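import Pool.Agent.MSC.Rz
import Pool.Agent.MSC.Evl
import Pool.Agent.MSC.Brg
import Pool.Agent.MSN.ThB

/-! # MSC / Kz: the universal class

`(G, Ω)` a Galois pair over `F` (`jF = A.ε ∘ algebraMap`), `ζ` a primitive `p`-th root of unity fixed by `G`.  There are `m` and ONE element `κ₀ ∈ K₂(K0)` such that for every `F`-homomorphism `φ : K0 → M`
and every pair over `M` the class of `tm φ (C0)` on `Gi` is `hB (φ κ₀)`.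

PROOF of `kz_base` (over `K0`).
* `exists_ov (K0 D)`: `(G₀, Ω₀, j₀)`.  `Ov.mo` for `Ov F G jF` and `φ = j₀ ∘ algebraMap F K0`: a morphism `m₀ : (G, Ω) → (G₀, Ω₀)`.  `O₀ = ⟨m₀, j₀, ..⟩ : OvM A (K0 D) G₀ Ω₀`.
* `c₀ = O₀.cl (C0)` is a cocycle (`cl_zu`, `c0_coc`), and `c₀ ^ p` is the coboundary of `Ξ σ = O₀.ev (Y0 (π (m₀.r σ)))` (`c0_pow`, `ev_qa`, `pi_lc`).  `exists_zp`: `c₀ ~ zp ζ' (f₀)`, `f₀ ∈ Z2 p G₀`, `ζ' = m₀.ψ ζ`.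
* `theoremB` for `(G₀, Ω₀)`, `ζ'`, `f₀`: `m`, `z`, `L`, `κ` over the fixed field; `adjust`: we may assume `z ^ (p ^ m) = ζ'`.  `Ov.k2`: `N • κ = K2.map toFix κ'`, `N` prime to `p`; choose `N'` with `N' N ≡ 1` modulo `p ^ (m+1)`:
  `hB L κ = hB L (N' N • κ)` (`tors_hB`) `= hB L (K2.map toFix (N' • κ')) = hB L₀ (N' • κ')` (`hB_map`), `L₀` the same level for `j₀`.  `κ₀ = N' • κ'`.
* `kz`: for `φ`, `(G', Ω', j')`: `Ov.mo` for `Ov (K0 D) G₀ j₀` and `j' ∘ φ`: `m₁ : (G₀, Ω₀) → (G', Ω')`.  `O = O₀.push φ m₁ j'`, `z' = m₁.ψ z`.  `pbu m₁ c₀ = O.cl (tm φ C0)` (`cl_pull`) `~ j' (c ..)` (`cl_coh`).  `gim_ri`, `bqm_bc`,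
  `bqm_hB`, `hB_map`, `bc_eq_of_cu`.
-/

set_option autoImplicit false
set_option linter.unusedVariables false

namespace MSC

universe u

open scoped TensorProduct

open MSG MSN Pool.Agent.Helper14.Massey

open Pool.Agent.MK (K2 S)

variable {p r : ℕ} {F E Q : Type u} [Field F] [Field E] [Algebra F E] [Group Q] [FiniteDimensional F E] (D : CD p r F E Q)
  {G Ω : Type u} [Group G] [TopologicalSpace G] [Field Ω] [MulSemiringAction G Ω] {ζ : Ω}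

private theorem kz_congr {n : ℕ} {H Ω₁ F₁ : Type u} [Group H] [TopologicalSpace H] [Field Ω₁] [MulSemiringAction H Ω₁]
    [Field F₁] {j j' : F₁ →+* Ω₁} {z : Ω₁} (e : j = j') (L : Lv n H z j) (L' : Lv n H z j') (x : K2 F₁) :
    hB L x = hB L' x := by
  subst e
  rfl

private theorem kz_ne {p : ℕ} (hp : p.Prime) {Ω₁ : Type u} [Field Ω₁] {z : Ω₁} (hz : PZ p z) : (p : Ω₁) ≠ 0 := by
  have : NeZero p := ⟨hp.ne_zero⟩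
  have h := hz.prim.neZero'
  exact h.out

private theorem kz_desc {p m : ℕ} (hp : p.Prime) {K G₁ Ω₁ : Type u} [Field K] [Group G₁] [TopologicalSpace G₁]
    [Field Ω₁] [MulSemiringAction G₁ Ω₁] {j : K →+* Ω₁} (h : Ov K G₁ j) (hpΩ : (p : Ω₁) ≠ 0) {z : Ω₁}
    (L : Lv (p ^ (m + 1)) (Gi p G₁ Ω₁) z (FixedPoints.subfield G₁ Ω₁).subtype) (κ : K2 (FixedPoints.subfield G₁ Ω₁)) :
    ∃ (L₀ : Lv (p ^ (m + 1)) (Gi p G₁ Ω₁) z j) (κ₀ : K2 K), hB L κ = hB L₀ κ₀ := by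
  obtain ⟨N, κ', hN, hκ⟩ := h.k2 hp hpΩ κ
  have hN' : N.Coprime (p ^ (m + 1)) := hN.pow_right (m + 1)
  have h1 : 1 < p ^ (m + 1) := Nat.one_lt_pow (Nat.succ_ne_zero m) hp.one_lt
  obtain ⟨N', -, hN''⟩ := Nat.exists_mul_mod_eq_one_of_coprime hN' h1
  have h2 : N * N' = p ^ (m + 1) * (N * N' / p ^ (m + 1)) + 1 := by
    conv_lhs => rw [← Nat.div_add_mod (N * N') (p ^ (m + 1)), hN'']
  have h3 : (N * N') • hB L κ = hB L κ := by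
    rw [h2, add_smul, one_smul, mul_comm, mul_smul, tors_hB, smul_zero, zero_add]
  refine ⟨L.comp h.toFix, N' • κ', ?_⟩
  rw [← h3, mul_comm N N', mul_smul, ← map_nsmul (hB L) N κ, hκ, ← map_nsmul (hB L), ← map_nsmul (K2.map h.toFix)]
  exact hB_map h.toFix L (L.comp h.toFix) (N' • κ')

private theorem kz_pow {A : Frm D.act G Ω} {G₁ Ω₁ : Type u} [Group G₁] [TopologicalSpace G₁] [Field Ω₁]
    [MulSemiringAction G₁ Ω₁] (O : OvM A (K0 D) G₁ Ω₁) :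
    Cu (fun g h => O.cl (fun q q' => (C0 D q q' : TT F E (K0 D))) g h ^ p) (fun _ _ => 1) := by
  have h0 : ∀ σ : G₁, O.ev (Y0 D (A.π (O.m.r σ)) : TT F E (K0 D)) ≠ 0 := fun σ =>
    ((Y0 D (A.π (O.m.r σ))).isUnit.map O.ev).ne_zero
  refine ⟨fun σ => O.ev (Y0 D (A.π (O.m.r σ)) : TT F E (K0 D)), h0, ?_, fun σ τ => ?_⟩
  · exact O.pi_lc.comp (fun q => O.ev (Y0 D q : TT F E (K0 D)))
  · have h1 : (C0 D (A.π (O.m.r σ)) (A.π (O.m.r τ)) : TT F E (K0 D)) ^ p * (Y0 D (A.π (O.m.r σ) * A.π (O.m.r τ)) : TT F E (K0 D)) =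
        (Y0 D (A.π (O.m.r σ)) : TT F E (K0 D)) * qa D.act (K0 D) (A.π (O.m.r σ)) (Y0 D (A.π (O.m.r τ)) : TT F E (K0 D)) :=
      congrArg Units.val (c0_pow D (A.π (O.m.r σ)) (A.π (O.m.r τ)))
    have h2 := congrArg O.ev h1
    rw [map_mul, map_mul, map_pow, O.ev_qa, ← map_mul, ← map_mul] at h2
    rw [one_mul, eq_div_iff (h0 _)]
    exact h2

theorem kz_base (hp : p.Prime) (hz : PZ p ζ) (hζ : ∀ g : G, g • ζ = ζ) (A : Frm D.act G Ω)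
    (hF : Ov F G (A.ε.comp (algebraMap F E))) :
    ∃ (G₀ Ω₀ : Type u) (_ : Group G₀) (_ : TopologicalSpace G₀) (_ : Field Ω₀) (_ : MulSemiringAction G₀ Ω₀)
      (O₀ : OvM A (K0 D) G₀ Ω₀) (_ : Ov (K0 D) G₀ O₀.j) (m : ℕ) (z : Ω₀) (L₀ : Lv (p ^ (m + 1)) (Gi p G₀ Ω₀) z O₀.j)
      (κ₀ : K2 (K0 D)), z ^ (p ^ m) = O₀.m.ψ ζ ∧ Zu G₀ (O₀.cl (fun q q' => (C0 D q q' : TT F E (K0 D)))) ∧
        ri p G₀ Ω₀ (bc (O₀.cl (fun q q' => (C0 D q q' : TT F E (K0 D))))) = hB L₀ κ₀ := by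
  obtain ⟨G₀, Ω₀, i1, i2, i3, i4, j₀, h₀⟩ := exists_ov (K0 D)
  obtain ⟨m₀, hm₀⟩ := hF.mo h₀.ga (j₀.comp (algebraMap F (K0 D))) (fun g x => h₀.fj g _)
  have hcm : ∀ x : F, j₀ (algebraMap F (K0 D) x) = m₀.ψ (A.ε (algebraMap F E x)) := fun x => (hm₀ x).symm
  let O₀ : OvM A (K0 D) G₀ Ω₀ := ⟨m₀, j₀, h₀.fj, hcm⟩
  have hzu : Zu G₀ (O₀.cl (fun q q' => (C0 D q q' : TT F E (K0 D)))) :=
    O₀.cl_zu (fun q q' => (C0 D q q').isUnit) (fun q q' q'' => congrArg Units.val (c0_coc D q q' q''))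
  have hpow : Cu (fun g h => O₀.cl (fun q q' => (C0 D q q' : TT F E (K0 D))) g h ^ p) (fun _ _ => 1) :=
    kz_pow D O₀
  have hz₀ : PZ p (m₀.ψ ζ) := m₀.pz hz
  have hζ₀ : ∀ g : G₀, g • m₀.ψ ζ = m₀.ψ ζ := fun g => by rw [← m₀.comp, hζ]
  obtain ⟨f₀, hf₀, hcu⟩ := exists_zp h₀.ga hz₀ hζ₀ hzu hpow
  obtain ⟨m, z, L, κ, hκ⟩ := theoremB hp h₀.ga hz₀ hζ₀ hf₀
  obtain ⟨z', L', κ', hz', hκ'⟩ := adjust hp hz₀ L κ
  have hpΩ : (p : Ω₀) ≠ 0 := kz_ne hp hz₀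
  obtain ⟨L₀, κ₀, hκ₀⟩ := kz_desc hp h₀ hpΩ L' κ'
  refine ⟨G₀, Ω₀, i1, i2, i3, i4, O₀, h₀, m, z', L₀, κ₀, hz', hzu, ?_⟩
  rw [bc_eq_of_cu hzu.ne (nz_zf hz₀ f₀) hcu, hκ, ← hκ', hκ₀]

theorem kz (hp : p.Prime) (hz : PZ p ζ) (hζ : ∀ g : G, g • ζ = ζ) (A : Frm D.act G Ω)
    (hF : Ov F G (A.ε.comp (algebraMap F E))) :
    ∃ (m : ℕ) (κ₀ : K2 (K0 D)), ∀ (M : Type u) [Field M] [Algebra F M] (φ : K0 D →ₐ[F] M) (G' Ω' : Type u) [Group G']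
      [TopologicalSpace G'] [Field Ω'] [MulSemiringAction G' Ω'] (j' : M →+* Ω'), Ov M G' j' →
      ∃ (O : OvM A M G' Ω') (z' : Ω') (L : Lv (p ^ (m + 1)) (Gi p G' Ω') z' j'), O.j = j' ∧ z' ^ (p ^ m) = O.m.ψ ζ ∧
        ∀ (c : Q → Q → M) (W : Q → TT F E M), (∀ q q', c q q' ≠ 0) → (∀ q, IsUnit (W q)) →
          (∀ q q', tm φ (C0 D q q' : TT F E (K0 D)) * W (q * q') = inl M (c q q') * (W q * qa D.act M q (W q'))) →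
          ri p G' Ω' (bc (fun σ τ => j' (c (A.π (O.m.r σ)) (A.π (O.m.r τ))))) = hB L (K2.map (φ : K0 D →+* M) κ₀) := by
  obtain ⟨G₀, Ω₀, i1, i2, i3, i4, O₀, h₀, m, z, L₀, κ₀, hz₀, hzu, hB₀⟩ := kz_base D hp hz hζ A hF
  refine ⟨m, κ₀, fun M _ _ φ G' Ω' _ _ _ _ j' h' => ?_⟩
  obtain ⟨m₁, hm₁⟩ := h₀.mo h'.ga (j'.comp (φ : K0 D →+* M)) (fun g x => h'.fj g _)
  have hm₂ : ∀ x : K0 D, m₁.ψ (O₀.j x) = j' (φ x) := hm₁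
  have L : Lv (p ^ (m + 1)) (Gi p G' Ω') (m₁.ψ z) j' := lv_gi hp h'.ga h'.fj (m₁.pz L₀.pz)
  refine ⟨O₀.push φ m₁ j' h'.fj hm₂, m₁.ψ z, L, rfl, ?_, fun c W hc hW h => ?_⟩
  · rw [← map_pow, hz₀]
    rfl
  · have h1 : Cu ((O₀.push φ m₁ j' h'.fj hm₂).cl (fun q q' => tm φ (C0 D q q' : TT F E (K0 D))))
        (fun σ τ => j' (c (A.π ((O₀.push φ m₁ j' h'.fj hm₂).m.r σ)) (A.π ((O₀.push φ m₁ j' h'.fj hm₂).m.r τ)))) :=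
      OvM.cl_coh (O₀.push φ m₁ j' h'.fj hm₂) hW h
    have h2 : (O₀.push φ m₁ j' h'.fj hm₂).cl (fun q q' => tm φ (C0 D q q' : TT F E (K0 D))) =
        pf m₁ (O₀.cl (fun q q' => (C0 D q q' : TT F E (K0 D)))) :=
      (O₀.cl_pull φ m₁ j' h'.fj hm₂ (fun q q' => (C0 D q q' : TT F E (K0 D)))).symm
    have hNz : Nz (O₀.cl (fun q q' => (C0 D q q' : TT F E (K0 D)))) := hzu.ne
    rw [h2] at h1
    rw [← bc_eq_of_cu (hNz.pf m₁) (fun σ τ => (map_ne_zero j').2 (hc _ _)) h1, ← bqm_bc m₁ hNz, ← gim_ri p m₁, hB₀,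
      bqm_hB (gim p m₁) L₀ (L₀.pull (gim p m₁) (gi_ga h'.ga)), hB_map (φ : K0 D →+* M) L (L.comp (φ : K0 D →+* M))]
    exact kz_congr (RingHom.ext hm₁) _ _ κ₀

end MSC
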