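import Mathlib

/-! # MSC / Psr: roots of power series with constant coefficient `1`

PROOF.  Let `n` be invertible in the field `k` and `f = 1 + ...`.  Construct the coefficients `g_0 = 1, g_1, ...` of `g` recursively: the coefficient of `X ^ m` in `g ^ n` is
`n * g_m + (a polynomial in g_1, ..., g_(m-1))`.  For instance: construct by induction truncated solutions: polynomials (or power series) `h_m` with constant coefficient `1`, `h_m ^ n ≡ f` modulo `X ^ (m+1)` and
`h_(m+1) ≡ h_m` modulo `X ^ (m+1)`: `h_(m+1) = h_m + c X ^ (m+1)`, `(h_m + c X ^ (m+1)) ^ n ≡ h_m ^ n + n c X ^ (m+1)` modulo `X ^ (m+2)`, `c = (coeff (m+1) (f - h_m ^ n)) / n`.  Let `g` be the power series whose `m`-th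
coefficient is that of `h_m`; `g ≡ h_m` modulo `X ^ (m+1)`, so `g ^ n ≡ f` modulo all powers.  (Or: Hensel's lemma for the `X`-adically complete ring of power series, polynomial `Y ^ n - f`, root `1` modulo `X`.)
-/

set_option autoImplicit false

namespace MSC

universe u

open PowerSeries

private theorem psr_step {k : Type u} [Field k] {n : ℕ} (hn : (n : k) ≠ 0) (f : PowerSeries k)
    (m : ℕ) (h : PowerSeries k) (h1 : constantCoeff h = 1)
    (h2 : (X : PowerSeries k) ^ (m + 1) ∣ h ^ n - f) :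
    ∃ h' : PowerSeries k, (constantCoeff h' = 1 ∧ (X : PowerSeries k) ^ (m + 2) ∣ h' ^ n - f) ∧
      (X : PowerSeries k) ^ (m + 1) ∣ h' - h := by
  obtain ⟨q, hq⟩ := h2
  obtain ⟨c, hc⟩ : ∃ c : k, c = -(constantCoeff q) / n := ⟨_, rfl⟩
  obtain ⟨y, hy⟩ : ∃ y : PowerSeries k, y = X ^ (m + 1) * C c := ⟨_, rfl⟩
  obtain ⟨z, hz⟩ := Polynomial.powAddExpansion h y n
  have hX : (X : PowerSeries k) ∣ q + (n : PowerSeries k) * h ^ (n - 1) * C c := by
    rw [X_dvd_iff, map_add, map_mul, map_mul, map_pow, h1, one_pow, mul_one, map_natCast,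
      constantCoeff_C, hc]
    field_simp
    ring
  refine ⟨h + y, ⟨?_, ?_⟩, ?_⟩
  · rw [map_add, h1, hy, map_mul, map_pow, constantCoeff_X]
    simp
  · obtain ⟨w, hw⟩ := hX
    refine ⟨w + z * X ^ m * C c * C c, ?_⟩
    rw [hz]
    have e : h ^ n + (n : PowerSeries k) * h ^ (n - 1) * y + z * y ^ 2 - f =
        (h ^ n - f) + (n : PowerSeries k) * h ^ (n - 1) * y + z * y ^ 2 := by ring
    rw [e, hq, hy]
    have e2 : X ^ (m + 1) * q + (n : PowerSeries k) * h ^ (n - 1) * (X ^ (m + 1) * C c) +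
        z * (X ^ (m + 1) * C c) ^ 2 =
        X ^ (m + 1) * (q + (n : PowerSeries k) * h ^ (n - 1) * C c) +
        z * (X ^ (m + 1) * C c) ^ 2 := by ring
    rw [e2, hw]
    ring
  · rw [add_sub_cancel_left, hy]
    exact dvd_mul_right _ _

theorem exists_ps_root {k : Type u} [Field k] {n : ℕ} (hn : (n : k) ≠ 0) (f : PowerSeries k)
    (hf : PowerSeries.constantCoeff f = 1) : ∃ g : PowerSeries k, PowerSeries.constantCoeff g = 1 ∧ g ^ n = f := by
  classical
  have h0 : (X : PowerSeries k) ^ (0 + 1) ∣ (1 : PowerSeries k) ^ n - f := by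
    rw [zero_add, pow_one, X_dvd_iff, one_pow, map_sub, map_one, hf, sub_self]
  let P : ℕ → Type u := fun m => {h : PowerSeries k //
    constantCoeff h = 1 ∧ (X : PowerSeries k) ^ (m + 1) ∣ h ^ n - f}
  let H : (m : ℕ) → P m := fun m => Nat.rec (motive := P) ⟨1, map_one _, h0⟩
    (fun m h => ⟨(psr_step hn f m h.1 h.2.1 h.2.2).choose,
      (psr_step hn f m h.1 h.2.1 h.2.2).choose_spec.1⟩) m
  have hH : ∀ m, (X : PowerSeries k) ^ (m + 1) ∣ (H (m + 1)).1 - (H m).1 := fun m =>
    (psr_step hn f m (H m).1 (H m).2.1 (H m).2.2).choose_spec.2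
  have hc1 : ∀ m i, i ≤ m → coeff i (H (m + 1)).1 = coeff i (H m).1 := by
    intro m i hi
    have h1 := (X_pow_dvd_iff.1 (hH m)) i (by omega)
    rw [map_sub, sub_eq_zero] at h1
    exact h1
  have hc2 : ∀ m i, i ≤ m → coeff i (H m).1 = coeff i (H i).1 := by
    intro m i hi
    induction m, hi using Nat.le_induction with
    | base => rfl
    | succ m hm ih => rw [hc1 m i hm, ih]
  obtain ⟨g, hg⟩ : ∃ g : PowerSeries k, g = PowerSeries.mk fun m => coeff m (H m).1 := ⟨_, rfl⟩
  have hgd : ∀ m, (X : PowerSeries k) ^ (m + 1) ∣ g - (H m).1 := by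
    intro m
    rw [X_pow_dvd_iff]
    intro i hi
    rw [map_sub, hg, coeff_mk, hc2 m i (by omega), sub_self]
  refine ⟨g, ?_, ?_⟩
  · have h1 : (X : PowerSeries k) ∣ g - (H 0).1 := (dvd_pow_self _ (by norm_num)).trans (hgd 0)
    rw [X_dvd_iff, map_sub, sub_eq_zero] at h1
    rw [h1]
    exact (H 0).2.1
  · have hall : ∀ m, (X : PowerSeries k) ^ (m + 1) ∣ g ^ n - f := by
      intro m
      have h1 : (X : PowerSeries k) ^ (m + 1) ∣ g ^ n - (H m).1 ^ n :=
        (hgd m).trans (sub_dvd_pow_sub_pow g (H m).1 n)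
      have h2 := dvd_add h1 (H m).2.2
      have e : g ^ n - (H m).1 ^ n + ((H m).1 ^ n - f) = g ^ n - f := by ring
      rwa [e] at h2
    ext m
    have h1 := (X_pow_dvd_iff.1 (hall m)) m (by omega)
    rw [map_sub, sub_eq_zero] at h1
    exact h1

end MSC
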