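import Pool.Agent.MSX.Laur
import Pool.Agent.MSC.Psr
import Pool.Agent.MK.ValLem

/-! # MSC / La: `K₂` of the field of Laurent series modulo `n`; the substitution `t ↦ t ^ e`

`tL = cs X` is the variable.  `cL : k → k((t))` the constants (`HahnSeries.C`).

PROOFS.
* `one_unit_pow`: a Laurent series with order `0` and leading coefficient `1` is `cs f` with constant coefficient `1` (`lv_iff`); `exists_ps_root`.
* `lt_dec`: by `K2_induction`.  For `w = S x y`: `x = tL ^ a * cL α * x'`, `a = v x`, `α = ac x`, `x'` of order `0` and leading coefficient `1`, so an `n`-th power; the same for `y` (`b`, `β`).  Modulo `n • K₂`: `S x y ≡ S (tL ^ a * cL α) (tL ^ b * cL β)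
  = (a b) • S tL tL + a • S tL (cL β) + b • S (cL α) tL + S (cL α) (cL β)`, `S tL tL = S tL (-1)`, `S (cL α) tL = - S tL (cL α)`; so it is `S tL (cL u) + S (cL α) (cL β)`, `u = (-1) ^ (a b) β ^ a / α ^ b`, and `tame (S x y)` is the class of `u` (`Val.tame_S`, `A_val`),
  `spec (S x y) = S α β`.  Sums: `tame` and `spec` are additive, `S tL (cL (u u')) = S tL (cL u) + S tL (cL u')`.
* `sg e` is `HahnSeries.embDomainRingHom` for `n ↦ e n` (`ℤ →+ ℤ`).  `sg_v`: the coefficients of `sg e x` at `e n` are those of `x` at `n`, the others are `0`.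
* `sg_spec`, `sg_tame`: on symbols: `v (sg e x) = e * v x`, `ac (sg e x) = ac x`; `(e v)(e v') • m1 = e • (v v' • m1)` because `2 • m1 = 0` and `e ^ 2 ≡ e` modulo `2` (`two_m1`).
-/

set_option autoImplicit false
set_option linter.unusedVariables false

namespace MSC

universe u

open Pool.Agent.MK (K2 S Val)

open Pool.Agent.MSX (lv cs)

noncomputable section

variable {k : Type u} [Field k]

variable (k) in
/-- the variable -/
def tL : LaurentSeries k := cs (PowerSeries.X : PowerSeries k)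

/-- constants -/
def cL : k →+* LaurentSeries k := HahnSeries.C

theorem tL_v : (lv k).v (tL k) = 1 ∧ (lv k).ac (tL k) = 1 := Pool.Agent.MSX.lv_X

theorem cL_v (x : k) : (lv k).v (cL x) = 0 ∧ (lv k).ac (cL x) = x := by
  have h : (cL x : LaurentSeries k) = HahnSeries.single (0 : ℤ) x := rfl
  rw [h, Pool.Agent.MSX.lv_v, Pool.Agent.MSX.lv_ac]
  by_cases hx : x = 0
  · subst hx
    rw [map_zero]
    exact ⟨HahnSeries.order_zero, HahnSeries.leadingCoeff_zero⟩
  · exact ⟨HahnSeries.order_single hx, HahnSeries.leadingCoeff_of_single⟩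

theorem one_unit_pow {n : ℕ} (hn : (n : k) ≠ 0) {x : LaurentSeries k} (hx : x ≠ 0) (h0 : (lv k).v x = 0) (h1 : (lv k).ac x = 1) :
    ∃ y : LaurentSeries k, y ^ n = x := by
  obtain ⟨f, rfl⟩ := (Pool.Agent.MSX.lv_iff x).1 (Or.inr h0.ge)
  have hf : PowerSeries.constantCoeff f = 1 := by
    have e1 : HahnSeries.leadingCoeff (cs f) = (cs f).coeff 0 := Pool.Agent.MSX.LaurAux.lc_of h0
    have e2 := Pool.Agent.MSX.cs_coeff f 0
    rw [Nat.cast_zero] at e2
    rw [← PowerSeries.coeff_zero_eq_constantCoeff_apply, ← e2, ← e1]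
    exact h1
  obtain ⟨g, -, hg⟩ := exists_ps_root hn f hf
  exact ⟨cs g, by rw [← map_pow, hg]⟩

theorem tL_ne : tL k ≠ 0 := by
  intro h
  have h1 := (tL_v (k := k)).2
  rw [h, (lv k).ac_zero] at h1
  exact zero_ne_one h1

theorem cL_ne {x : k} (hx : x ≠ 0) : cL x ≠ 0 := (map_ne_zero cL).2 hx

/-- `x = t ^ a * α * p ^ n` -/
theorem la_fac {n : ℕ} (hn : (n : k) ≠ 0) {x : LaurentSeries k} (hx : x ≠ 0) :
    ∃ p : LaurentSeries k, p ≠ 0 ∧
      x = tL k ^ ((lv k).v x) * cL ((lv k).ac x) * p ^ n := by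
  have hα : (lv k).ac x ≠ 0 := (lv k).ac_ne x hx
  have ht : tL k ^ ((lv k).v x) ≠ 0 := zpow_ne_zero _ tL_ne
  have hc : cL ((lv k).ac x) ≠ 0 := cL_ne hα
  have hd : tL k ^ ((lv k).v x) * cL ((lv k).ac x) ≠ 0 := mul_ne_zero ht hc
  have hq : x / (tL k ^ ((lv k).v x) * cL ((lv k).ac x)) ≠ 0 := div_ne_zero hx hd
  have hv : (lv k).v (x / (tL k ^ ((lv k).v x) * cL ((lv k).ac x))) = 0 := by
    rw [(lv k).v_div hx hd, (lv k).v_mul _ _ ht hc, (lv k).v_zpow _ _ tL_ne, tL_v.1, (cL_v _).1]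
    ring
  have ha : (lv k).ac (x / (tL k ^ ((lv k).v x) * cL ((lv k).ac x))) = 1 := by
    rw [(lv k).ac_div, (lv k).ac_mul _ _ ht hc, (lv k).ac_zpow _ _ tL_ne, tL_v.2, (cL_v _).2,
      one_zpow, one_mul, div_self hα]
  obtain ⟨p, hp⟩ := one_unit_pow hn hq hv ha
  refine ⟨p, ?_, ?_⟩
  · rintro rfl
    have hn0 : n ≠ 0 := by
      rintro rfl
      exact hn Nat.cast_zero
    rw [zero_pow hn0] at hp
    exact hq hp.symm
  · rw [hp, mul_div_cancel₀ _ hd]

theorem la_symb {n : ℕ} (hn : (n : k) ≠ 0) {x y : LaurentSeries k} (hx : x ≠ 0) (hy : y ≠ 0) :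
    ∃ z : K2 (LaurentSeries k), S x y =
      (((lv k).v x * (lv k).v y) • S (tL k) (-1) + (lv k).v x • S (tL k) (cL ((lv k).ac y)) -
        (lv k).v y • S (tL k) (cL ((lv k).ac x))) + S (cL ((lv k).ac x)) (cL ((lv k).ac y)) +
        n • z := by
  obtain ⟨p, hp, hxp⟩ := la_fac hn hx
  obtain ⟨q, hq, hyq⟩ := la_fac hn hy
  have hα : cL ((lv k).ac x) ≠ 0 := cL_ne ((lv k).ac_ne x hx)
  have hβ : cL ((lv k).ac y) ≠ 0 := cL_ne ((lv k).ac_ne y hy)
  obtain ⟨a, ha⟩ : ∃ a, a = (lv k).v x := ⟨_, rfl⟩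
  obtain ⟨b, hb⟩ : ∃ b, b = (lv k).v y := ⟨_, rfl⟩
  obtain ⟨α, hα'⟩ : ∃ α, α = cL ((lv k).ac x) := ⟨_, rfl⟩
  obtain ⟨β, hβ'⟩ : ∃ β, β = cL ((lv k).ac y) := ⟨_, rfl⟩
  rw [← ha, ← hα'] at hxp
  rw [← hb, ← hβ'] at hyq
  rw [← hα'] at hα
  rw [← hβ'] at hβ
  rw [← ha, ← hb, ← hα', ← hβ']
  have hta : tL k ^ a ≠ 0 := zpow_ne_zero _ tL_ne
  have htb : tL k ^ b ≠ 0 := zpow_ne_zero _ tL_ne
  have e1 : ∀ z : LaurentSeries k, S x z = a • S (tL k) z + S α z + n • S p z := by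
    intro z
    conv_lhs => rw [hxp]
    rw [Pool.Agent.MK.S_mul_left (mul_ne_zero hta hα) (pow_ne_zero _ hp),
      Pool.Agent.MK.S_mul_left hta hα, Pool.Agent.MK.S_zpow_left, Pool.Agent.MK.S_pow_left]
  have e2 : ∀ z : LaurentSeries k, S z y = b • S z (tL k) + S z β + n • S z q := by
    intro z
    conv_lhs => rw [hyq]
    rw [Pool.Agent.MK.S_mul_right (mul_ne_zero htb hβ) (pow_ne_zero _ hq),
      Pool.Agent.MK.S_mul_right htb hβ, Pool.Agent.MK.S_zpow_right, Pool.Agent.MK.S_pow_right]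
  refine ⟨S p y + a • S (tL k) q + S α q, ?_⟩
  rw [e1 y, e2 (tL k), e2 α, Pool.Agent.MK.S_self (tL k), Pool.Agent.MK.S_comm α (tL k)]
  rw [smul_add, smul_add, smul_add, smul_add, mul_smul, smul_neg, smul_comm a n (S (tL k) q)]
  abel

theorem lt_dec {n : ℕ} (hn : (n : k) ≠ 0) (w : K2 (LaurentSeries k)) : ∃ (u : kˣ) (y : K2 (LaurentSeries k)),
    (lv k).tame w = Additive.ofMul u ∧ w = K2.map cL ((lv k).spec w) + S (tL k) (cL (u : k)) + n • y := by
  induction w using Pool.Agent.MK.K2_induction with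
  | hS x y hx hy =>
    obtain ⟨z, hz⟩ := la_symb hn hx hy
    have hα : (lv k).ac x ≠ 0 := (lv k).ac_ne x hx
    have hβ : (lv k).ac y ≠ 0 := (lv k).ac_ne y hy
    refine ⟨(-1) ^ ((lv k).v x * (lv k).v y) * (Units.mk0 _ hβ) ^ ((lv k).v x) /
      (Units.mk0 _ hα) ^ ((lv k).v y), z, ?_, ?_⟩
    · rw [(lv k).tame_S hx hy]
      have hA : ∀ (w : LaurentSeries k) (hw : w ≠ 0),
          (lv k).A w = Additive.ofMul (Units.mk0 ((lv k).ac w) ((lv k).ac_ne w hw)) := by
        intro w hw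
        apply Additive.toMul.injective
        apply Units.ext
        rw [(lv k).A_val hw]
        rfl
      rw [hA x hx, hA y hy]
      rfl
    · rw [(lv k).spec_S, K2.map_S]
      conv_lhs => rw [hz]
      have h1 : ((-1 : LaurentSeries k)) ^ ((lv k).v x * (lv k).v y) ≠ 0 :=
        zpow_ne_zero _ (neg_ne_zero.mpr one_ne_zero)
      have h2 : (cL ((lv k).ac y)) ^ ((lv k).v x) ≠ 0 := zpow_ne_zero _ (cL_ne hβ)
      have h3 : (cL ((lv k).ac x)) ^ ((lv k).v y) ≠ 0 := zpow_ne_zero _ (cL_ne hα)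
      have e : cL (((-1) ^ ((lv k).v x * (lv k).v y) * (Units.mk0 _ hβ) ^ ((lv k).v x) /
          (Units.mk0 _ hα) ^ ((lv k).v y) : kˣ) : k) =
          (-1) ^ ((lv k).v x * (lv k).v y) * (cL ((lv k).ac y)) ^ ((lv k).v x) /
          (cL ((lv k).ac x)) ^ ((lv k).v y) := by
        rw [Units.val_div_eq_div_val, Units.val_mul, Units.val_zpow_eq_zpow_val,
          Units.val_zpow_eq_zpow_val, Units.val_zpow_eq_zpow_val, Units.val_mk0, Units.val_mk0,
          map_div₀, map_mul, map_zpow₀, map_zpow₀, map_zpow₀, Units.val_neg, Units.val_one,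
          map_neg, map_one]
      rw [e, Pool.Agent.MK.S_div_right (mul_ne_zero h1 h2) h3, Pool.Agent.MK.S_mul_right h1 h2,
        Pool.Agent.MK.S_zpow_right, Pool.Agent.MK.S_zpow_right, Pool.Agent.MK.S_zpow_right]
      abel
  | hz =>
    refine ⟨1, 0, by rw [map_zero]; rfl, ?_⟩
    rw [map_zero, map_zero, Units.val_one, map_one, Pool.Agent.MK.S_one_right, smul_zero, add_zero,
      add_zero]
  | hadd x y hx hy =>
    obtain ⟨u, a, h1, h2⟩ := hx
    obtain ⟨u', a', h1', h2'⟩ := hy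
    refine ⟨u * u', a + a', by rw [map_add, h1, h1']; rfl, ?_⟩
    rw [map_add, map_add, Units.val_mul, map_mul,
      Pool.Agent.MK.S_mul_right (cL_ne u.ne_zero) (cL_ne u'.ne_zero), smul_add]
    conv_lhs => rw [h2, h2']
    abel

/-- the substitution `t ↦ t ^ e` -/
def sg (e : ℕ) (he : e ≠ 0) : LaurentSeries k →+* LaurentSeries k :=
  HahnSeries.embDomainRingHom (AddMonoidHom.mulLeft (e : ℤ)) (mul_right_injective₀ (by exact_mod_cast he))
    (fun g g' => mul_le_mul_iff_right₀ (by positivity : (0 : ℤ) < (e : ℤ)))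

theorem sg_v (e : ℕ) (he : e ≠ 0) (x : LaurentSeries k) : (lv k).v (sg e he x) = e * (lv k).v x ∧ (lv k).ac (sg e he x) = (lv k).ac x := by
  by_cases hx : x = 0
  · rw [hx, map_zero, (lv k).v_zero, (lv k).ac_zero, mul_zero]
    exact ⟨rfl, rfl⟩
  have hc : ∀ m : ℤ, (sg e he x).coeff ((e : ℤ) * m) = x.coeff m := fun m =>
    HahnSeries.embDomain_coeff (f := ⟨⟨AddMonoidHom.mulLeft (e : ℤ), _⟩, _⟩) (x := x) (a := m)
  have h0 : x.coeff (HahnSeries.order x) ≠ 0 := fun h => hx (HahnSeries.coeff_order_eq_zero.1 h)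
  have hord : HahnSeries.order (sg e he x) = (e : ℤ) * HahnSeries.order x := by
    refine Pool.Agent.MSX.LaurAux.ord_eq (by rw [hc]; exact h0) fun m hm => ?_
    by_cases hr : ∃ j : ℤ, (e : ℤ) * j = m
    · obtain ⟨j, rfl⟩ := hr
      rw [hc]
      have hpos : (0 : ℤ) < e := by positivity
      exact HahnSeries.coeff_eq_zero_of_lt_order (lt_of_mul_lt_mul_left hm hpos.le)
    · exact HahnSeries.embDomain_of_notMem_range (f := ⟨⟨AddMonoidHom.mulLeft (e : ℤ), _⟩, _⟩)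
        (x := x) (by
          rintro ⟨j, hj⟩
          exact hr ⟨j, hj⟩)
  refine ⟨hord, ?_⟩
  rw [Pool.Agent.MSX.lv_ac, Pool.Agent.MSX.lv_ac, Pool.Agent.MSX.LaurAux.lc_of hord, hc,
    HahnSeries.leadingCoeff_eq]

theorem sg_tL (e : ℕ) (he : e ≠ 0) : sg e he (tL k) = tL k ^ e := by
  have h : tL k = HahnSeries.single (1 : ℤ) 1 := HahnSeries.ofPowerSeries_X
  rw [h, HahnSeries.single_pow, one_pow]
  have h1 : sg e he (HahnSeries.single (1 : ℤ) (1 : k)) =
      HahnSeries.single ((e : ℤ) * 1) 1 :=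
    HahnSeries.embDomain_single (f := ⟨⟨AddMonoidHom.mulLeft (e : ℤ), _⟩, _⟩)
  rw [h1, mul_one, nsmul_eq_mul, mul_one]

theorem sg_cL (e : ℕ) (he : e ≠ 0) (x : k) : sg e he (cL x) = cL x :=
  HahnSeries.embDomainRingHom_C

theorem sg_A (e : ℕ) (he : e ≠ 0) {x : LaurentSeries k} (hx : x ≠ 0) :
    (lv k).A (sg e he x) = (lv k).A x := by
  apply Additive.toMul.injective
  apply Units.ext
  rw [(lv k).A_val hx, (lv k).A_val ((map_ne_zero (sg e he)).2 hx), (sg_v e he x).2]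

theorem sg_spec (e : ℕ) (he : e ≠ 0) (w : K2 (LaurentSeries k)) : (lv k).spec (K2.map (sg e he) w) = (lv k).spec w := by
  have h : (lv k).spec.comp (K2.map (sg e he)) = (lv k).spec :=
    Pool.Agent.MK.K2_hom_ext fun a b _ _ => by
      rw [AddMonoidHom.comp_apply, K2.map_S, (lv k).spec_S, (lv k).spec_S, (sg_v e he a).2,
        (sg_v e he b).2]
  exact DFunLike.congr_fun h w

theorem sg_tame (e : ℕ) (he : e ≠ 0) (w : K2 (LaurentSeries k)) : (lv k).tame (K2.map (sg e he) w) = e • (lv k).tame w := by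
  induction w using Pool.Agent.MK.K2_induction with
  | hS a b ha hb =>
    have ha' : sg e he a ≠ 0 := (map_ne_zero (sg e he)).2 ha
    have hb' : sg e he b ≠ 0 := (map_ne_zero (sg e he)).2 hb
    rw [K2.map_S, (lv k).tame_S ha' hb', (lv k).tame_S ha hb, sg_A e he ha, sg_A e he hb,
      (sg_v e he a).1, (sg_v e he b).1]
    have h1 : ((e : ℤ) * (lv k).v a * ((e : ℤ) * (lv k).v b)) • Val.m1 k =
        ((e : ℤ) * ((lv k).v a * (lv k).v b)) • Val.m1 k := by
      obtain ⟨t, ht⟩ := Int.even_mul_pred_self (e : ℤ)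
      have h2 : (e : ℤ) * (lv k).v a * ((e : ℤ) * (lv k).v b) =
          (e : ℤ) * ((lv k).v a * (lv k).v b) + (t * ((lv k).v a * (lv k).v b)) * 2 := by
        linear_combination ((lv k).v a * (lv k).v b) * ht
      rw [h2, add_zsmul, mul_smul _ (2 : ℤ), Val.two_m1, smul_zero, add_zero]
    rw [h1, ← natCast_zsmul, zsmul_sub, zsmul_add, mul_smul (e : ℤ), mul_smul (e : ℤ),
      mul_smul (e : ℤ)]
  | hz => rw [map_zero, map_zero, smul_zero]
  | hadd x y hx hy => rw [map_add, map_add, map_add, hx, hy, nsmul_add]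

end

end MSC
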