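import Pool.Agent.MSC.Dd
import Pool.Agent.MSG.Dsf

/-! # MSC / MS: every class in `H²(G_F(p), ℤ/p)` is a sum of cup products (`p` odd, `F` contains a primitive `p`-th root of unity) -/

set_option autoImplicit false

namespace MSC

universe u

open MSG Pool.Agent.Helper14.Massey

theorem ms {p : ℕ} (hp : p.Prime) (hp2 : p ≠ 2) (F : Type u) [Field F] (hζ : ∃ ζ : F, IsPrimitiveRoot ζ p)
    (α : H2 p (GalP p F)) : ∃ m, IsSumCup m α :=
  dsc hp hp2 (fun _ _ _ _ _ _ _ hG hz hζ _ hf => ms_pair hp hG hz hζ hf) F hζ α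

end MSC
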