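import Pool.Agent.MSG.TSb
import Pool.Agent.MSG.Un

/-! # MSC / Tc: the transfer of `(y, D ^ n)` and the carry cocycle

`θ : G → ZMod (q' n)` is a continuous homomorphism, `D : ZMod (q' n) → Ω` with `g • D k = D (k + θ g)`, `D (k + q') = z * D k`, `z` a primitive `n`-th root of unity fixed by
`G`.  `G` acts on `S = ZMod q'` by translation with the reduction of `θ`.  `y : S → Ω` is an equivariant family.  The family `δ s = D (s.val) ^ n` is equivariant.

PROOF of `tc`.  Let `q = q' n`; for `s : ZMod q'` and `h : G` define the natural number `w s h` by `(h⁻¹ • s).val + (θ h).val = s.val + q' * w s h` (the left side is congruent to `s.val` modulo `q'` and `≥ s.val`: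
because `s.val < q'` and they are congruent, `x ≥ 0`, `x ≡ s.val`).
* `h • D (h⁻¹ • s).val = D ((h⁻¹ • s).val + θ h) = D (s.val + q' w) = z ^ (w s h) * D s.val`.
  So for the family of roots `D s.val` of `δ s` the value of the Kummer cocycle is `w s h` modulo `n`; `cS_root`: `cS n z δ h s = w s h + ε (h⁻¹ • s) - ε s`.
* With `c g s = cS n z y g s` and `η s = rt n (y s)` (`cS_spec`: `g • η (g⁻¹ • s) = zp z (c g s) * η s`): `tS n z y δ g h = ∑ s, c g s * w (g⁻¹ • s) h + ∑ s, c g s * (ε (h⁻¹ • g⁻¹ • s) - ε (g⁻¹ • s))`; the second sum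
  is a coboundary (`corr_right`; `Cu_of_Co`).
* `u h = ∏ s, η s ^ (w s h)` (locally constant, it depends only on `θ h`).  `g • u h = ∏ s, (g • η (g⁻¹ • s)) ^ (w (g⁻¹ • s) h) = zp z (∑ s, c g s * w (g⁻¹ • s) h) * ∏ s, η s ^ (w (g⁻¹ • s) h)`.
* Adding the definitions of `w s g` and `w (g⁻¹ • s) h` and subtracting that of `w s (g h)`: `w s g + w (g⁻¹ • s) h = w s (g * h) + n * cy θ g h` (`(θ g).val + (θ h).val = (θ (g h)).val + q * cy θ g h`).
* So `u g * g • u h / u (g h) = zp z (∑ s, c g s * w (g⁻¹ • s) h) * ∏ s, (η s ^ n) ^ cy θ g h`, `η s ^ n = y s`.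
-/

set_option autoImplicit false
set_option linter.unusedVariables false

namespace MSC

universe u v

open MSG Pool.Agent.Helper14.Massey

variable {G : Type u} {Ω : Type v} [Group G] [TopologicalSpace G] [Field Ω] [MulSemiringAction G Ω]

omit [TopologicalSpace G] [Field Ω] [MulSemiringAction G Ω] in
private theorem tc_val {n q' : ℕ} [NeZero q'] [NeZero n] {θ : G → ZMod (q' * n)} [MulAction G (ZMod q')]
    (hact : ∀ (g : G) (s : ZMod q'), g • s = s + ZMod.castHom (Dvd.intro n rfl) (ZMod q') (θ g))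
    (g : G) (s : ZMod q') : (g • s).val = (s.val + (θ g).val) % q' := by
  have h1 : ZMod.castHom (Dvd.intro n rfl) (ZMod q') (θ g) = (((θ g).val : ℕ) : ZMod q') := by
    have : NeZero (q' * n) := ⟨mul_ne_zero (NeZero.ne q') (NeZero.ne n)⟩
    conv_lhs => rw [← ZMod.natCast_zmod_val (θ g)]
    rw [map_natCast]
  have h2 : g • s = ((s.val + (θ g).val : ℕ) : ZMod q') := by
    rw [hact, h1, Nat.cast_add, ZMod.natCast_zmod_val]
  rw [h2, ZMod.val_natCast]

private theorem tc_shift {n q' : ℕ} {z : Ω} {D : ZMod (q' * n) → Ω}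
    (hDq : ∀ k, D (k + (q' : ZMod (q' * n))) = z * D k) (a w : ℕ) :
    D (((a + q' * w : ℕ) : ZMod (q' * n))) = z ^ w * D (a : ZMod (q' * n)) := by
  induction w with
  | zero => rw [mul_zero, add_zero, pow_zero, one_mul]
  | succ w ih =>
    have h1 : ((a + q' * (w + 1) : ℕ) : ZMod (q' * n)) =
        ((a + q' * w : ℕ) : ZMod (q' * n)) + (q' : ZMod (q' * n)) := by
      push_cast
      ring
    rw [h1, hDq, ih, pow_succ]
    ring

/-- the number `w` -/
private def tcw {n q' : ℕ} [MulAction G (ZMod q')] (θ : G → ZMod (q' * n)) (s : ZMod q') (h : G) : ℕ :=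
  ((h⁻¹ • s).val + (θ h).val) / q'

omit [TopologicalSpace G] [Field Ω] [MulSemiringAction G Ω] in
private theorem tcw_eq {n q' : ℕ} [NeZero q'] [NeZero n] {θ : G → ZMod (q' * n)} [MulAction G (ZMod q')]
    (hact : ∀ (g : G) (s : ZMod q'), g • s = s + ZMod.castHom (Dvd.intro n rfl) (ZMod q') (θ g))
    (s : ZMod q') (h : G) : (h⁻¹ • s).val + (θ h).val = s.val + q' * tcw θ s h := by
  have h1 := tc_val hact h (h⁻¹ • s)
  rw [smul_inv_smul] at h1
  rw [h1, tcw]
  exact (Nat.mod_add_div _ _).symm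

omit [TopologicalSpace G] in
private theorem tcw_D {n q' : ℕ} [NeZero q'] [NeZero n] {z : Ω} {θ : G → ZMod (q' * n)} [MulAction G (ZMod q')]
    (hact : ∀ (g : G) (s : ZMod q'), g • s = s + ZMod.castHom (Dvd.intro n rfl) (ZMod q') (θ g))
    {D : ZMod (q' * n) → Ω} (hD : ∀ g k, g • D k = D (k + θ g))
    (hDq : ∀ k, D (k + (q' : ZMod (q' * n))) = z * D k) (s : ZMod q') (h : G) :
    h • D ((h⁻¹ • s).val : ZMod (q' * n)) = z ^ tcw θ s h * D (s.val : ZMod (q' * n)) := by
  have : NeZero (q' * n) := ⟨mul_ne_zero (NeZero.ne q') (NeZero.ne n)⟩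
  have h1 : ((h⁻¹ • s).val : ZMod (q' * n)) + θ h = (((h⁻¹ • s).val + (θ h).val : ℕ) : ZMod (q' * n)) := by
    rw [Nat.cast_add, ZMod.natCast_zmod_val]
  rw [hD, h1, tcw_eq hact, tc_shift hDq]

theorem tc_ev {n : ℕ} {z : Ω} (hz : PZ n z) {q' : ℕ} [NeZero q'] {θ : G → ZMod (q' * n)}
    (hadd : ∀ g h, θ (g * h) = θ g + θ h) [MulAction G (ZMod q')]
    (hact : ∀ (g : G) (s : ZMod q'), g • s = s + ZMod.castHom (Dvd.intro n rfl) (ZMod q') (θ g))
    {D : ZMod (q' * n) → Ω} (hD0 : ∀ k, D k ≠ 0) (hD : ∀ g k, g • D k = D (k + θ g))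
    (hDq : ∀ k, D (k + (q' : ZMod (q' * n))) = z * D k) :
    Ev G (fun s : ZMod q' => D (s.val : ZMod (q' * n)) ^ n) := by
  have := hz.neZero
  intro s
  refine ⟨pow_ne_zero _ (hD0 _), fun g => ?_⟩
  have h1 := tcw_D hact hD hDq (g • s) g
  rw [inv_smul_smul] at h1
  show D ((g • s).val : ZMod (q' * n)) ^ n = g • (D (s.val : ZMod (q' * n)) ^ n)
  have h2 : (z ^ tcw θ (g • s) g) ^ n = 1 := by
    rw [← pow_mul, Nat.mul_comm, pow_mul, hz.prim.pow_eq_one, one_pow]
  rw [smul_pow', h1, mul_pow, h2, one_mul]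

omit [TopologicalSpace G] [MulSemiringAction G Ω] [Group G] in
private theorem tc_zp_sum {n : ℕ} {z : Ω} (hz : PZ n z) {ι : Type*} (t : Finset ι) (c : ι → ZMod n) :
    zp z (∑ i ∈ t, c i) = ∏ i ∈ t, zp z (c i) := by
  classical
  induction t using Finset.induction_on with
  | empty => simpa using zp_zero hz
  | insert a t ha ih => rw [Finset.sum_insert ha, Finset.prod_insert ha, zp_add hz, ih]

omit [TopologicalSpace G] [Field Ω] [MulSemiringAction G Ω] in
private theorem tcw_add {n q' : ℕ} [NeZero q'] [NeZero n] {θ : G → ZMod (q' * n)}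
    (hadd : ∀ g h, θ (g * h) = θ g + θ h) [MulAction G (ZMod q')]
    (hact : ∀ (g : G) (s : ZMod q'), g • s = s + ZMod.castHom (Dvd.intro n rfl) (ZMod q') (θ g))
    (s : ZMod q') (g h : G) :
    tcw θ s g + tcw θ (g⁻¹ • s) h = tcw θ s (g * h) + n * cy θ g h := by
  have : NeZero (q' * n) := ⟨mul_ne_zero (NeZero.ne q') (NeZero.ne n)⟩
  have h1 := tcw_eq hact s g
  have h2 := tcw_eq hact (g⁻¹ • s) h
  have h3 := tcw_eq hact s (g * h)
  rw [mul_inv_rev, mul_smul] at h3
  have h4 := cy_eq hadd g h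
  have h5 : q' * (tcw θ s g + tcw θ (g⁻¹ • s) h) = q' * (tcw θ s (g * h) + n * cy θ g h) := by
    rw [mul_add, mul_add, ← mul_assoc]
    omega
  exact Nat.eq_of_mul_eq_mul_left (Nat.pos_of_ne_zero (NeZero.ne q')) h5

private theorem tc_cu_of_co {n : ℕ} {z : Ω} (hz : PZ n z) (hzG : ∀ g : G, g • z = z)
    {F F' : G → G → ZMod n} (h : Co F F') :
    Cu (fun g h => zp z (F g h)) (fun g h => zp z (F' g h)) := by
  obtain ⟨χ, hχ, h⟩ := h
  refine ⟨fun g => zp z (χ g), fun g => zp_ne hz _,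
    ((IsLocallyConstant.iff_continuous χ).2 hχ).comp (zp z), fun g l => ?_⟩
  change zp z (F g l) = zp z (F' g l) * (zp z (χ g) * g • zp z (χ l) / zp z (χ (g * l)))
  rw [h g l, smul_zp (hzG g), sub_eq_add_neg, zp_add hz, zp_add hz, zp_add hz, zp_neg hz,
    div_eq_mul_inv]

theorem tc (hG : GA G Ω) {n : ℕ} {z : Ω} (hz : PZ n z) (hzG : ∀ g : G, g • z = z) {q' : ℕ} [NeZero q']
    {θ : G → ZMod (q' * n)} (hθ : Continuous θ) (hadd : ∀ g h, θ (g * h) = θ g + θ h) [MulAction G (ZMod q')]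
    (hact : ∀ (g : G) (s : ZMod q'), g • s = s + ZMod.castHom (Dvd.intro n rfl) (ZMod q') (θ g))
    {D : ZMod (q' * n) → Ω} (hD0 : ∀ k, D k ≠ 0) (hD : ∀ g k, g • D k = D (k + θ g))
    (hDq : ∀ k, D (k + (q' : ZMod (q' * n))) = z * D k) {y : ZMod q' → Ω} (hy : Ev G y) :
    Cu (fun g h : G => zp z (tS n z y (fun s : ZMod q' => D (s.val : ZMod (q' * n)) ^ n) g h) * (∏ s, y s) ^ cy θ g h)
      (fun _ _ => 1) := by
  have hn := hz.neZero
  have halg := hG.alg
  have hq : NeZero (q' * n) := ⟨mul_ne_zero (NeZero.ne q') (NeZero.ne n)⟩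
  have hθl : IsLocallyConstant θ := (IsLocallyConstant.iff_continuous _).2 hθ
  have hOS : OS G (ZMod q') := by
    intro s
    have h1 : {g : G | g • s = s} =
        (fun g : G => ZMod.castHom (Dvd.intro n rfl) (ZMod q') (θ g)) ⁻¹' {0} := by
      ext g
      show g • s = s ↔ ZMod.castHom (Dvd.intro n rfl) (ZMod q') (θ g) = 0
      rw [hact]
      exact add_eq_left
    rw [h1]
    exact (hθl.comp (fun t => ZMod.castHom (Dvd.intro n rfl) (ZMod q') t)).isOpen_fiber 0
  have hev := tc_ev hz hadd hact hD0 hD hDq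
  obtain ⟨ε, -, hε⟩ := cS_root hz hev (ρ := fun s => D (s.val : ZMod (q' * n))) (fun s => rfl)
  have hcS : ∀ (h : G) (s : ZMod q'), cS n z (fun s : ZMod q' => D (s.val : ZMod (q' * n)) ^ n) h s =
      (tcw θ s h : ZMod n) + ε (h⁻¹ • s) - ε s := by
    intro h s
    refine hε h s _ (hzG h) ?_
    rw [zp_nat hz]
    exact tcw_D hact hD hDq s h
  -- the coboundary part
  have hco := corr_right (ι := MonoidHom.id G) hG hz hOS continuous_id hzG hy ε
  have hcu := tc_cu_of_co hz hzG hco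
  -- the main part
  have hη : ∀ s, rt n (y s) ^ n = y s := fun s => rt_pow hz _
  have hη0 : ∀ s, rt n (y s) ≠ 0 := fun s => rt_ne hz (hy s).1
  have hmain : Cu (fun g h : G => zp z (∑ s : ZMod q', cS n z y g s * (tcw θ (g⁻¹ • s) h : ZMod n)) *
      (∏ s, y s) ^ cy θ g h) (fun _ _ => 1) := by
    have hθ1 : θ 1 = 0 := hom_one hadd
    have hθi : ∀ h, θ h⁻¹ = - θ h := by
      intro h
      have h1 := hadd h⁻¹ h
      rw [inv_mul_cancel, hθ1] at h1
      exact eq_neg_of_add_eq_zero_left h1.symm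
    refine ⟨fun h => ∏ s : ZMod q', rt n (y s) ^ tcw θ s h,
      fun h => Finset.prod_ne_zero_iff.2 fun s _ => pow_ne_zero _ (hη0 s), ?_, fun g h => ?_⟩
    · have h1 : (fun h : G => ∏ s : ZMod q', rt n (y s) ^ tcw θ s h) =
          (fun t : ZMod (q' * n) => ∏ s : ZMod q', rt n (y s) ^
            (((s + ZMod.castHom (Dvd.intro n rfl) (ZMod q') (-t)).val + t.val) / q')) ∘ θ := by
        funext h
        show ∏ s : ZMod q', rt n (y s) ^ tcw θ s h = ∏ s : ZMod q', rt n (y s) ^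
            (((s + ZMod.castHom (Dvd.intro n rfl) (ZMod q') (-θ h)).val + (θ h).val) / q')
        refine Finset.prod_congr rfl fun s _ => ?_
        rw [tcw, hact, hθi]
      rw [h1]
      exact hθl.comp _
    · rw [one_mul, eq_div_iff (Finset.prod_ne_zero_iff.2 fun s _ => pow_ne_zero _ (hη0 s))]
      have e1 : g • (∏ s : ZMod q', rt n (y s) ^ tcw θ s h) =
          ∏ s : ZMod q', (g • rt n (y (g⁻¹ • s))) ^ tcw θ (g⁻¹ • s) h := by
        rw [Finset.smul_prod']
        have h2 := Equiv.prod_comp (MulAction.toPerm g⁻¹)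
          (fun s : ZMod q' => g • (rt n (y s) ^ tcw θ s h))
        rw [← h2]
        refine Finset.prod_congr rfl fun s _ => ?_
        show g • (rt n (y (g⁻¹ • s)) ^ tcw θ (g⁻¹ • s) h) = _
        rw [smul_pow']
      have e2 : ∏ s : ZMod q', (g • rt n (y (g⁻¹ • s))) ^ tcw θ (g⁻¹ • s) h =
          zp z (∑ s : ZMod q', cS n z y g s * (tcw θ (g⁻¹ • s) h : ZMod n)) *
            ∏ s : ZMod q', rt n (y s) ^ tcw θ (g⁻¹ • s) h := by
        rw [tc_zp_sum hz, ← Finset.prod_mul_distrib]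
        refine Finset.prod_congr rfl fun s _ => ?_
        rw [cS_spec hz hy, mul_pow, zp_val_pow hz]
      have e3 : (∏ s : ZMod q', rt n (y s) ^ tcw θ s g) *
          ∏ s : ZMod q', rt n (y s) ^ tcw θ (g⁻¹ • s) h =
          (∏ s, y s) ^ cy θ g h * ∏ s : ZMod q', rt n (y s) ^ tcw θ s (g * h) := by
        rw [← Finset.prod_pow, ← Finset.prod_mul_distrib, ← Finset.prod_mul_distrib]
        refine Finset.prod_congr rfl fun s _ => ?_
        rw [← pow_add, tcw_add hadd hact, pow_add, pow_mul, hη]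
        ring
      rw [e1, e2]
      calc zp z (∑ s : ZMod q', cS n z y g s * (tcw θ (g⁻¹ • s) h : ZMod n)) *
            (∏ s, y s) ^ cy θ g h * ∏ s : ZMod q', rt n (y s) ^ tcw θ s (g * h)
          = zp z (∑ s : ZMod q', cS n z y g s * (tcw θ (g⁻¹ • s) h : ZMod n)) *
            ((∏ s, y s) ^ cy θ g h * ∏ s : ZMod q', rt n (y s) ^ tcw θ s (g * h)) := by ring
        _ = _ := by
          rw [← e3]
          ring
  have hfin := Cu_mul hmain hcu
  have hrw : (fun x y_1 : G => zp z (∑ s : ZMod q', cS n z y x s * (tcw θ (x⁻¹ • s) y_1 : ZMod n)) *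
      (∏ s, y s) ^ cy θ x y_1 * zp z (∑ s : ZMod q', cS n z y ((MonoidHom.id G) x) s *
        (ε (((MonoidHom.id G) y_1)⁻¹ • ((MonoidHom.id G) x)⁻¹ • s) - ε (((MonoidHom.id G) x)⁻¹ • s)))) =
      (fun g h : G => zp z (tS n z y (fun s : ZMod q' => D (s.val : ZMod (q' * n)) ^ n) g h) *
        (∏ s, y s) ^ cy θ g h) := by
    funext g h
    have h1 : tS n z y (fun s : ZMod q' => D (s.val : ZMod (q' * n)) ^ n) g h =
        ∑ s : ZMod q', cS n z y g s * (tcw θ (g⁻¹ • s) h : ZMod n) +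
          ∑ s : ZMod q', cS n z y g s * (ε (h⁻¹ • g⁻¹ • s) - ε (g⁻¹ • s)) := by
      rw [tS, ← Finset.sum_add_distrib]
      refine Finset.sum_congr rfl fun s _ => ?_
      rw [hcS]
      ring
    rw [h1, zp_add hz]
    simp only [MonoidHom.id_apply]
    ring
  rw [hrw] at hfin
  have h1 : (fun _ _ : G => (1 : Ω)) = fun x y : G => (1 : Ω) * zp z (0 : ZMod n) := by
    funext g h
    rw [zp_zero hz, one_mul]
  rw [h1]
  exact hfin

end MSC
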