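import Pool.Agent.MSC.Cyd
import Pool.Agent.MSC.Tc
import Pool.Agent.MSG.Uqb
import Pool.Agent.MSG.RT

/-! # MSC / Oc: classes which are trivial on `Gi`

PROOF of `oc_core` (the case of a cyclic quotient).  `θ : G → ZMod (q' p)`, `N' = ker θ`, `f ~ 0` on `N'` as an `Ωˣ`-cochain; `q = q' p`.
* `ker_cyc`: `zp ζ (f g h) ~ c ^ cy θ g h`, `c ∈ Ω^G`.
* `θ' g` = the reduction of `θ g` modulo `q'`, `(θ g).val = (θ' g).val + q' * e g`.  `p * cy θ g h + e (g h) = cy θ' g h + e g + e h` (from `(θ g).val + (θ h).val = (θ (g h)).val + q * cy θ g h` and the same for `θ'`, divide by `q'`).  The `p`-th power of `zp ζ (f g h)` is `1`, so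
  `c ^ (p * cy θ) ~ 1`, so `c ^ cy θ' ~ 1` (coboundary of `c ^ e`).  `norm_of_cy` for `θ'` (`θ' g₀ = 1`): `c = ∏ i < q', g₀ ^ i • y`, `y ≠ 0` fixed by `ker θ'`.
* On `ZMod q'` let `G` act by `g • s = s + θ' g`; `y_s = g₀ ^ s.val • y` is equivariant: `g * g₀ ^ s.val` and `g₀ ^ (g • s).val` differ by an element of `ker θ'` on the right (`θ' (g g₀ ^ s.val) = θ' g + s`).  `D_k = g₀ ^ k.val • D` for `k : ZMod q`: `g • D_k = D_(k + θ g)`
  (the same argument with `θ`: the kernel of `θ` fixes `D`), `D_(k + q') = ζ * D_k` (`g₀ ^ q' • D = ζ D`, `ζ` fixed).  `∏ s, y_s = c`.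
* `tc`: `zp ζ (tS p ζ y δ) * c ^ cy θ ~ 1`, `δ s = D_s ^ p`.  `rosset_tate_u` for `y`, `δ` (`tc_ev`; `OS`: the stabilizers contain the open subgroup `ker θ`): `a_i, b_i ∈ Ω^G`, for all levels `tH n' ζ' ι y δ ~ ∑ km a_i ∪ km b_i`.  So `zf ζ f ~ zf ζ (- ∑ km a_i ∪ km b_i)`:
  `kt = - ∑ S a_i b_i` (`hB_sum`).
* `Gi ≤ ker θ` (`D` is a root of unity of `p`-power order).  On `H = Gi` (`ι` the inclusion), level `n' = p ^ (k+1)`, `ζ' = z'`: `cS n' z' δ (ι h) s = lg (h • rt (δ (h⁻¹ • s)) / rt (δ s)) = 0`: `h⁻¹ • s = s` and `rt n' (δ s)` is a root of unity of `p`-power order (`rt ^ n' = δ s`,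
  `δ s ^ (p ^ N) = 1`), fixed by `h`.  So `tH n' z' ι y δ = 0` and `hB L' kt = 0`.
PROOF of `oc`.  `cu_of_bc_eq`: `zf ζ f ~ 1` on `Gi`; `CuN_fin` (Uf): on an open `U ≥ Gi`; `cyd`: if `U = ⊤` then `bc (zf ζ f) = 0`, `kt = 0`; otherwise `oc_core` (`CuN_mono`).
-/

set_option autoImplicit false
set_option linter.unusedVariables false

namespace MSC

universe u

open MSG MSN Pool.Agent.Helper14.Massey

open Pool.Agent.MK (K2 S)

variable {p : ℕ} {G Ω : Type u} [Group G] [TopologicalSpace G] [Field Ω] [MulSemiringAction G Ω] {ζ : Ω}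

omit [TopologicalSpace G] [Field Ω] [MulSemiringAction G Ω] [Group G] in
private theorem oc_prod {q : ℕ} [NeZero q] {M : Type*} [CommMonoid M] (F : ℕ → M) :
    ∏ s : ZMod q, F s.val = ∏ i ∈ Finset.range q, F i := by
  refine Finset.prod_nbij' (fun s => s.val) (fun i => (i : ZMod q)) ?_ ?_ ?_ ?_ ?_
  · intro s _
    exact Finset.mem_range.2 (ZMod.val_lt s)
  · intro i _
    exact Finset.mem_univ _
  · intro s _
    exact ZMod.natCast_zmod_val s
  · intro i hi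
    exact ZMod.val_natCast_of_lt (Finset.mem_range.1 hi)
  · intro s _
    rfl

omit [TopologicalSpace G] [Field Ω] [MulSemiringAction G Ω] in
private theorem oc_inv {q : ℕ} {θ : G → ZMod q} (hadd : ∀ g h, θ (g * h) = θ g + θ h) (g : G) :
    θ g⁻¹ = - θ g := by
  have h1 := hadd g⁻¹ g
  rw [inv_mul_cancel, hom_one hadd] at h1
  exact eq_neg_of_add_eq_zero_left h1.symm

omit [TopologicalSpace G] in
private theorem oc_ev {q : ℕ} [NeZero q] {θ : G → ZMod q} (hadd : ∀ g h, θ (g * h) = θ g + θ h)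
    {g₀ : G} (hg₀ : θ g₀ = 1) {y : Ω} (hy : ∀ g, θ g = 0 → g • y = y) (g : G) :
    g • y = g₀ ^ (θ g).val • y := by
  have h1 : θ ((g₀ ^ (θ g).val)⁻¹ * g) = 0 := by
    rw [hadd, oc_inv hadd, hom_pow hadd hg₀, ZMod.natCast_zmod_val, neg_add_cancel]
  have h2 := hy _ h1
  rw [mul_smul, inv_smul_eq_iff] at h2
  exact h2

omit [TopologicalSpace G] in
private theorem oc_ev2 {q : ℕ} [NeZero q] {θ : G → ZMod q} (hadd : ∀ g h, θ (g * h) = θ g + θ h)
    {g₀ : G} (hg₀ : θ g₀ = 1) {y : Ω} (hy : ∀ g, θ g = 0 → g • y = y) (g : G) (s : ZMod q) :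
    g • g₀ ^ s.val • y = g₀ ^ (s + θ g).val • y := by
  rw [← mul_smul, oc_ev hadd hg₀ hy (g * g₀ ^ s.val), hadd, hom_pow hadd hg₀,
    ZMod.natCast_zmod_val, add_comm]

theorem oc_core (hp : p.Prime) (hG : GA G Ω) (L : Lv p G ζ (FixedPoints.subfield G Ω).subtype) {f : G → G → ZMod p} (hf : f ∈ Z2 p G)
    {q' : ℕ} (hq' : q' ≠ 0) {θ : G → ZMod (q' * p)} (hθ : Continuous θ) (hadd : ∀ g h, θ (g * h) = θ g + θ h) {g₀ : G} (hg₀ : θ g₀ = 1)
    {D : Ω} {N : ℕ} (hD : D ^ (p ^ N) = 1) (hDθ : ∀ g, θ g = 0 ↔ g • D = D) (hDq : g₀ ^ q' • D = ζ * D)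
    (h : ∀ V : Subgroup G, (∀ g, g ∈ V ↔ θ g = 0) → CuN V (zf ζ f) (fun _ _ => 1)) :
    ∃ kt : K2 (FixedPoints.subfield G Ω), bc (zf ζ f) = hB L kt ∧
      ∀ (k : ℕ) (z' : Ω) (L' : Lv (p ^ (k + 1)) (Gi p G Ω) z' (FixedPoints.subfield G Ω).subtype), hB L' kt = 0 := by
  classical
  have hz := L.pz
  have hζ := L.fz
  have halg := hG.alg
  have hnp : NeZero p := ⟨hp.ne_zero⟩
  have hnq' : NeZero q' := ⟨hq'⟩
  have hnq : NeZero (q' * p) := ⟨mul_ne_zero hq' hp.ne_zero⟩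
  have hθl : IsLocallyConstant θ := (IsLocallyConstant.iff_continuous _).2 hθ
  have hs0 : ∀ (g : G) {x : Ω}, x ≠ 0 → g • x ≠ 0 := fun g x hx h0 => hx ((smul_eq_zero_iff_eq g).1 h0)
  have hD00 : D ≠ 0 := by
    rintro rfl
    rw [zero_pow (pow_ne_zero _ hp.ne_zero)] at hD
    exact zero_ne_one hD
  -- the kernel of `θ`
  let V : Subgroup G :=
    { carrier := {g | θ g = 0}
      mul_mem' := fun {a b} ha hb => by
        have ha' : θ a = 0 := ha
        have hb' : θ b = 0 := hb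
        show θ (a * b) = 0
        rw [hadd, ha', hb', add_zero]
      one_mem' := hom_one hadd
      inv_mem' := fun {a} ha => by
        have ha' : θ a = 0 := ha
        show θ a⁻¹ = 0
        rw [oc_inv hadd, ha', neg_zero] }
  have hV : ∀ g, g ∈ V ↔ θ g = 0 := fun g => Iff.rfl
  have hZu : Zu G (zf ζ f) := Zu_zp hG hz hζ hf
  obtain ⟨c, hc, hfc⟩ := ker_cyc hG hθ hadd hg₀ hV hZu (h V hV)
  -- the character modulo `q'`
  let θ' : G → ZMod q' := fun g => ZMod.castHom (Dvd.intro p rfl) (ZMod q') (θ g)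
  have hadd' : ∀ g h, θ' (g * h) = θ' g + θ' h := by
    intro g h
    show ZMod.castHom _ _ (θ (g * h)) = _
    rw [hadd, map_add]
  have hg₀' : θ' g₀ = 1 := by
    show ZMod.castHom _ _ (θ g₀) = _
    rw [hg₀, map_one]
  have hθ' : Continuous θ' := (hθl.comp (fun t => ZMod.castHom (Dvd.intro p rfl) (ZMod q') t)).continuous
  have hval : ∀ g, (θ g).val = (θ' g).val + q' * ((θ g).val / q') := by
    intro g
    have h1 : θ' g = (((θ g).val : ℕ) : ZMod q') := by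
      show ZMod.castHom _ _ (θ g) = _
      conv_lhs => rw [← ZMod.natCast_zmod_val (θ g)]
      rw [map_natCast]
    rw [h1, ZMod.val_natCast]
    exact (Nat.mod_add_div _ _).symm
  have hcy : ∀ g h, p * cy θ g h + (θ (g * h)).val / q' =
      cy θ' g h + ((θ g).val / q' + (θ h).val / q') := by
    intro g h
    have h1 := cy_eq hadd g h
    have h2 := cy_eq hadd' g h
    have h3 := hval g
    have h4 := hval h
    have h5 := hval (g * h)
    have h6 : q' * (p * cy θ g h + (θ (g * h)).val / q') =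
        q' * (cy θ' g h + ((θ g).val / q' + (θ h).val / q')) := by
      rw [mul_add, mul_add, mul_add, ← mul_assoc]
      omega
    exact Nat.eq_of_mul_eq_mul_left (Nat.pos_of_ne_zero hq') h6
  have hcpow : Cu (fun g h : G => c ^ cy θ' g h) (fun _ _ => 1) := by
    have h1 := Cu_symm (Cu_pow p hfc)
    have h2 : (fun x y : G => zf ζ f x y ^ p) = fun _ _ => (1 : Ω) := by
      funext x y
      exact zp_pow hz _
    rw [h2] at h1
    obtain ⟨Ξ, hΞ0, hΞl, hΞ⟩ := h1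
    have he0 : ∀ g, c ^ ((θ g).val / q') ≠ 0 := fun g => pow_ne_zero _ hc.1
    refine ⟨fun g => Ξ g * (c ^ ((θ g).val / q'))⁻¹, fun g => mul_ne_zero (hΞ0 g) (inv_ne_zero (he0 g)),
      hΞl.mul (hθl.comp fun t => (c ^ (t.val / q'))⁻¹), fun g h => ?_⟩
    have h3 : (c ^ cy θ g h) ^ p = 1 * (Ξ g * g • Ξ h / Ξ (g * h)) := hΞ g h
    have h4 : c ^ (p * cy θ g h) * c ^ ((θ (g * h)).val / q') =
        c ^ cy θ' g h * (c ^ ((θ g).val / q') * c ^ ((θ h).val / q')) := by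
      rw [← pow_add, ← pow_add, ← pow_add, hcy]
    have h5 : c ^ (p * cy θ g h) = (c ^ cy θ g h) ^ p := by
      rw [← pow_mul, mul_comm]
    have h6 : g • (Ξ h * (c ^ ((θ h).val / q'))⁻¹) = g • Ξ h * (c ^ ((θ h).val / q'))⁻¹ := by
      rw [smul_mul', smul_inv'', smul_pow', hc.2 g]
    rw [h5, h3] at h4
    have n1 := hΞ0 g
    have n2 := hs0 g (hΞ0 h)
    have n3 := hΞ0 (g * h)
    have n4 := he0 g
    have n5 := he0 h
    have n6 := he0 (g * h)
    show c ^ cy θ' g h = 1 * (Ξ g * (c ^ ((θ g).val / q'))⁻¹ * g • (Ξ h * (c ^ ((θ h).val / q'))⁻¹) /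
      (Ξ (g * h) * (c ^ ((θ (g * h)).val / q'))⁻¹))
    rw [h6]
    field_simp
    field_simp at h4
    linear_combination -h4
  -- the kernel of `θ'`
  let V' : Subgroup G :=
    { carrier := {g | θ' g = 0}
      mul_mem' := fun {a b} ha hb => by
        have ha' : θ' a = 0 := ha
        have hb' : θ' b = 0 := hb
        show θ' (a * b) = 0
        rw [hadd', ha', hb', add_zero]
      one_mem' := hom_one hadd'
      inv_mem' := fun {a} ha => by
        have ha' : θ' a = 0 := ha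
        show θ' a⁻¹ = 0
        rw [oc_inv hadd', ha', neg_zero] }
  have hV' : ∀ g, g ∈ V' ↔ θ' g = 0 := fun g => Iff.rfl
  obtain ⟨y, hy0, hyV, hcy'⟩ := norm_of_cy hG hθ' hadd' hg₀' hV' hc hcpow
  have hyθ : ∀ g, θ' g = 0 → g • y = y := fun g hg => hyV g hg
  have hDθ' : ∀ g, θ g = 0 → g • D = D := fun g hg => (hDθ g).1 hg
  -- the action on `ZMod q'`
  let act : MulAction G (ZMod q') :=
    { smul := fun g s => s + θ' g
      one_smul := fun s => by
        show s + θ' 1 = s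
        rw [hom_one hadd', add_zero]
      mul_smul := fun g h s => by
        show s + θ' (g * h) = s + θ' h + θ' g
        rw [hadd', add_assoc, add_comm (θ' h)] }
  have hact : ∀ (g : G) (s : ZMod q'), g • s = s + ZMod.castHom (Dvd.intro p rfl) (ZMod q') (θ g) :=
    fun g s => rfl
  have hOS : OS G (ZMod q') := by
    intro s
    have h1 : {g : G | g • s = s} = θ' ⁻¹' {0} := by
      ext g
      show s + θ' g = s ↔ θ' g = 0
      exact add_eq_left
    rw [h1]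
    exact ((IsLocallyConstant.iff_continuous _).2 hθ').isOpen_fiber 0
  let ys : ZMod q' → Ω := fun s => g₀ ^ s.val • y
  have hys : Ev G ys := fun s => ⟨hs0 _ hy0, fun g => (oc_ev2 hadd' hg₀' hyθ g s).symm⟩
  have hyp : ∏ s, ys s = c := by
    rw [hcy']
    exact oc_prod (fun i => g₀ ^ i • y)
  let Ds : ZMod (q' * p) → Ω := fun k => g₀ ^ k.val • D
  have hD0 : ∀ k, Ds k ≠ 0 := fun k => hs0 _ hD00
  have hDs : ∀ g k, g • Ds k = Ds (k + θ g) := fun g k => oc_ev2 hadd hg₀ hDθ' g k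
  have hDsq : ∀ k, Ds (k + (q' : ZMod (q' * p))) = ζ * Ds k := by
    intro k
    have h1 := oc_ev hadd hg₀ hDθ' (g₀ ^ k.val * g₀ ^ q')
    rw [hadd, hom_pow hadd hg₀, hom_pow hadd hg₀, ZMod.natCast_zmod_val, mul_smul, hDq, smul_mul',
      hζ] at h1
    exact h1.symm
  have htc := tc hG hz hζ hθ hadd hact hD0 hDs hDsq hys
  have hδ := tc_ev hz hadd hact hD0 hDs hDsq
  rw [hyp] at htc
  set δ : ZMod q' → Ω := fun s : ZMod q' => Ds (s.val : ZMod (q' * p)) ^ p with hδdef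
  obtain ⟨m, a, b, ha, hb, hall⟩ := (rosset_tate_u hG hOS hys hδ :
    SyU.{u, u, u} G (fun n ζ H _ ι => tH n ζ ι ys δ))
  let a' : Fin m → FixedPoints.subfield G Ω := fun i => ⟨a i, (ha i).2⟩
  let b' : Fin m → FixedPoints.subfield G Ω := fun i => ⟨b i, (hb i).2⟩
  have ha' : ∀ i, a' i ≠ 0 := fun i h0 => (ha i).1 (congrArg Subtype.val h0)
  have hb' : ∀ i, b' i ≠ 0 := fun i h0 => (hb i).1 (congrArg Subtype.val h0)
  refine ⟨- ∑ i, S (a' i) (b' i), ?_, ?_⟩
  · have e1 : bc (zf ζ f) = bc (fun g h : G => c ^ cy θ g h) :=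
      bc_eq_of_cu (nz_zf hz f) (fun g h => pow_ne_zero _ hc.1) hfc
    have e2 : bc (fun g h : G => zf ζ (tS p ζ ys δ) g h * c ^ cy θ g h) = 0 := by
      rw [← bc_one]
      exact bc_eq_of_cu (fun g h => mul_ne_zero (zp_ne hz _) (pow_ne_zero _ hc.1))
        (fun _ _ => one_ne_zero) htc
    rw [bc_mul (nz_zf hz _) (fun g h => pow_ne_zero _ hc.1)] at e2
    have e3 : bc (zf ζ (tS p ζ ys δ)) =
        bc (zf ζ (fun g h : G => ∑ i, km p ζ (a i) g * km p ζ (b i) h)) :=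
      bc_of_co hz hζ (hall p ζ G (MonoidHom.id G) hz continuous_id hζ)
    have e4 := hB_sum L ha' hb'
    rw [map_neg, e4, e1, eq_neg_iff_add_eq_zero, add_comm, ← e2, e3]
    rfl
  · intro k z' L'
    have hz' := L'.pz
    have hcont : Continuous (Gi p G Ω).subtype := continuous_subtype_val
    have e3 : bc (zf z' (tH (p ^ (k + 1)) z' (Gi p G Ω).subtype ys δ)) =
        bc (zf z' (fun g h : Gi p G Ω => ∑ i, km (p ^ (k + 1)) z' (a i) ((Gi p G Ω).subtype g) *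
          km (p ^ (k + 1)) z' (b i) ((Gi p G Ω).subtype h))) :=
      bc_of_co hz' L'.fz (hall (p ^ (k + 1)) z' (Gi p G Ω) (Gi p G Ω).subtype hz' hcont L'.fz)
    have e4 := hB_sum L' ha' hb'
    have e5 : tH (p ^ (k + 1)) z' (Gi p G Ω).subtype ys δ = fun _ _ => 0 := by
      funext g h
      refine Finset.sum_eq_zero fun s _ => ?_
      have hθh : θ (h : G) = 0 := (hDθ _).2 (h.2 D N hD)
      have hθh' : θ' ((h : G)⁻¹) = 0 := by
        rw [oc_inv hadd']
        show - ZMod.castHom _ _ (θ (h : G)) = 0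
        rw [hθh, map_zero, neg_zero]
      have h2 : ∀ t : ZMod q', cS (p ^ (k + 1)) z' δ (h : G) t = 0 := by
        intro t
        have h3 : (h : G)⁻¹ • t = t := by
          show t + θ' ((h : G)⁻¹) = t
          rw [hθh', add_zero]
        have h4 : (rt (p ^ (k + 1)) (δ t)) ^ (p ^ (k + 1 + N)) = 1 := by
          have hpe : p ^ (k + 1 + N) = p ^ (k + 1) * p ^ N := pow_add _ _ _
          rw [hpe, pow_mul, rt_pow hz']
          show (Ds (t.val : ZMod (q' * p)) ^ p) ^ p ^ N = 1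
          rw [← pow_mul, mul_comm p (p ^ N), pow_mul]
          show ((g₀ ^ (t.val : ZMod (q' * p)).val • D) ^ p ^ N) ^ p = 1
          rw [← smul_pow', hD, smul_one, one_pow]
        have h5 : (h : G) • rt (p ^ (k + 1)) (δ t) = rt (p ^ (k + 1)) (δ t) := h.2 _ _ h4
        unfold cS
        rw [h3, h5, div_self (rt_ne hz' (hδ t).1), lg_one hz']
      show cS _ _ _ _ _ * cS (p ^ (k + 1)) z' δ (h : G) _ = 0
      rw [h2, mul_zero]
    rw [e5, bc_zero_zf hz'] at e3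
    rw [map_neg, e4, neg_eq_zero]
    exact e3.symm

theorem oc (hp : p.Prime) (hG : GA G Ω) (L : Lv p G ζ (FixedPoints.subfield G Ω).subtype) {f : G → G → ZMod p} (hf : f ∈ Z2 p G)
    (h : ri p G Ω (bc (zf ζ f)) = 0) :
    ∃ kt : K2 (FixedPoints.subfield G Ω), bc (zf ζ f) = hB L kt ∧
      ∀ (k : ℕ) (z' : Ω) (L' : Lv (p ^ (k + 1)) (Gi p G Ω) z' (FixedPoints.subfield G Ω).subtype), hB L' kt = 0 := by
  have hz := L.pz
  have hζ := L.fz
  have hZu : Zu G (zf ζ f) := Zu_zp hG hz hζ hf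
  have hnz : Nz (zf ζ f) := nz_zf hz f
  have h1 : CuN (Gi p G Ω) (zf ζ f) (fun _ _ => 1) := by
    rw [ri_bc hnz, ← bc_one] at h
    exact cu_of_bc_eq (fun g h => hnz _ _) (fun _ _ => one_ne_zero) h
  obtain ⟨U, hU, hPU, hCU⟩ := CuN_fin hG hZu.lc (IsLocallyConstant.const 1) (gi_closed hG) h1
  rcases cyd hp hG hz hζ hU hPU with hT | ⟨q', θ, g₀, D, N, hq', hθ, hadd, hg₀, hD, hDθ, hDq, hle⟩
  · refine ⟨0, ?_, fun k z' L' => map_zero _⟩
    rw [map_zero, ← bc_one]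
    rw [hT] at hCU
    obtain ⟨Ξ, hΞ0, hΞl, hΞ⟩ := hCU
    refine bc_eq_of_cu (fun g h => hnz _ _) (fun _ _ => one_ne_zero)
      ⟨fun g => Ξ ⟨g, Subgroup.mem_top g⟩, fun g => hΞ0 _, ?_, fun g h => ?_⟩
    · exact hΞl.comp_continuous (continuous_id.subtype_mk _)
    · exact hΞ ⟨g, Subgroup.mem_top g⟩ ⟨h, Subgroup.mem_top h⟩
  · exact oc_core hp hG L hf hq' hθ hadd hg₀ hD hDθ hDq fun V hV =>
      CuN_mono (fun g hg => hle g ((hV g).1 hg)) hCU

end MSC
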