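import Pool.Agent.MSC.Rz
import Pool.Agent.MSC.Psr

/-! # MSC / Pa1: path 1

`bX j = 1 + t (b_j - 1)` in `AA[t]`.  There is an `F`-algebra homomorphism `ι : R0 → AA[t]` with value `x` at `t = 0` and `tm ι (CR q q') = cc(bX) * Cg q q'`, `tm ι (YR q) = yy(bX) * Yg q`.

PROOF.  `(p : F) ≠ 0` (hypothesis).  Let `β_j` be the power series over `F` with `β_j ^ p = 1 + X (b_j - 1)`, constant coefficient `1` (`exists_ps_root`), considered in `PowerSeries (AA)`.  Put
`B_q = ∏ β_j ^ (al_j q).val = D.yy β q`.  Let `Φ : PP → PowerSeries AA` be the `F`-algebra homomorphism `X_(some q, i) ↦ B_q * C (X_(some q, i))`, `X_(none, i) ↦ C (X_(none, i))`.  Its composite with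
`constantCoeff` is the inclusion `PP → AA`, so for `f ≠ 0` the power series `Φ f` has a nonzero constant coefficient and is a unit; so `Φ` extends to `Φ' : AA → PowerSeries AA` (`IsLocalization.lift`).  In `TT (PowerSeries AA)`:
`tm Φ' (Ua (some q)) = inl B_q * tm C (Ua (some q))`, `tm Φ' (Ua none) = tm C (Ua none)`; so (units, `tm_qa`) `tm Φ' (Cg q q') = inl (B_q B_q' / B_(q q')) * tm C (Cg q q')` and `B_q B_q' = cc(β ^ p) B_(q q')`
(`CD.yy_pow_root`), `tm Φ' (Yg q) = inl (B_q ^ p) * tm C (Yg q)`, `B_q ^ p = yy(β ^ p) q`.  `β_j ^ p` is the image of the polynomial `bX j`.  So on the coordinates (`cd_tm`, `cd_inl_mul`): `Φ' (cd i (Cg q q')) = cc(bX) * C (cd i (Cg q q'))` is the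
image of a polynomial, the same for `Yg`.  So `Φ'` maps `R0 = adjoin (S0)` into the image of the injective `AA[X] → PowerSeries AA` (`Polynomial.coeToPowerSeries.algHom`), which defines `ι`.  The value at `0` is
the constant coefficient: `constantCoeff ∘ Φ' = id` on `AA`.  The formulas for `tm ι (CR q q')`: apply the injective `tm (AA[X] → PowerSeries AA)` (`tm_inj`): `tm Φ' (tm (R0.val) (CR q q')) = tm Φ' (Cg q q')`.
-/

set_option autoImplicit false
set_option linter.unusedVariables false

namespace MSC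

universe u

open scoped TensorProduct

open Polynomial

noncomputable section

variable {p r : ℕ} {F E Q : Type u} [Field F] [Field E] [Algebra F E] [Group Q] [FiniteDimensional F E] (D : CD p r F E Q)

/-- `1 + t (b_j - 1)` -/
def bX (j : Fin r) : (AA F E Q)[X] := 1 + X * (C (algebraMap F (AA F E Q) (D.b j)) - 1)

/-- constants -/
def cX : AA F E Q →ₐ[F] (AA F E Q)[X] := IsScalarTower.toAlgHom F (AA F E Q) (AA F E Q)[X]

section aux

variable (F) (A : Type u) [Field A] [Algebra F A]

/-- polynomials as power series -/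
private def psC : A[X] →ₐ[F] PowerSeries A :=
  { Polynomial.coeToPowerSeries.ringHom with
    commutes' := fun c => by
      change ((algebraMap F A[X] c : A[X]) : PowerSeries A) = algebraMap F (PowerSeries A) c
      rw [Polynomial.algebraMap_apply, Polynomial.coe_C, PowerSeries.algebraMap_apply] }

/-- the constant coefficient -/
private def psK : PowerSeries A →ₐ[F] A :=
  { (PowerSeries.constantCoeff : PowerSeries A →+* A) with
    commutes' := fun c => by
      change PowerSeries.constantCoeff (algebraMap F (PowerSeries A) c) = algebraMap F A c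
      rw [PowerSeries.algebraMap_apply, PowerSeries.constantCoeff_C] }

private theorem psC_apply (f : A[X]) : psC F A f = (f : PowerSeries A) := rfl

private theorem psK_apply (f : PowerSeries A) : psK F A f = PowerSeries.constantCoeff f := rfl

private theorem psK_psC (f : A[X]) : psK F A (psC F A f) = f.eval 0 := by
  rw [psC_apply, psK_apply, Polynomial.constantCoeff_coe, Polynomial.coeff_zero_eq_eval_zero]

private theorem psC_inj : Function.Injective (psC F A) := Polynomial.coe_injective A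

end aux

section main

variable (β : Fin r → PowerSeries (AA F E Q))

/-- the scaling factors -/
private def sc : Option Q → PowerSeries (AA F E Q)
  | some q => D.yy β q
  | none => 1

private theorem sc_some (q : Q) : sc D β (some q) = D.yy β q := rfl

private theorem sc_none : sc D β none = 1 := rfl

/-- constants -/
private def cP : AA F E Q →ₐ[F] PowerSeries (AA F E Q) := (psC F (AA F E Q)).comp cX

private theorem psK_cP (x : AA F E Q) : psK F (AA F E Q) (cP x) = x := by
  rw [cP, AlgHom.comp_apply, psK_psC]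
  change (C x : (AA F E Q)[X]).eval 0 = x
  rw [eval_C]

/-- the map on the polynomial ring -/
private def ph : PP F E Q →ₐ[F] PowerSeries (AA F E Q) :=
  MvPolynomial.aeval fun x => sc D β x.1 * cP (pA F E Q (MvPolynomial.X x))

variable (hβ : ∀ j, PowerSeries.constantCoeff (β j) = 1)

include hβ

private theorem psK_yy (q : Q) : psK F (AA F E Q) (D.yy β q) = 1 := by
  unfold CD.yy
  rw [map_prod]
  refine Finset.prod_eq_one fun j _ => ?_
  rw [map_pow, psK_apply, hβ, one_pow]

private theorem psK_sc (j : Option Q) : psK F (AA F E Q) (sc D β j) = 1 := by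
  cases j with
  | none => rw [sc_none, map_one]
  | some q => rw [sc_some]; exact psK_yy D β hβ q

private theorem psK_ph (f : PP F E Q) : psK F (AA F E Q) (ph D β f) = pA F E Q f := by
  have h : (psK F (AA F E Q)).comp (ph D β) = pA F E Q := by
    apply MvPolynomial.algHom_ext
    intro x
    rw [AlgHom.comp_apply, ph, MvPolynomial.aeval_X, map_mul, psK_sc D β hβ, psK_cP, one_mul]
  exact congrArg (fun g : PP F E Q →ₐ[F] AA F E Q => g f) h

private theorem ph_unit (y : nonZeroDivisors (PP F E Q)) : IsUnit (ph D β y) := by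
  rw [PowerSeries.isUnit_iff_constantCoeff, ← psK_apply F, psK_ph D β hβ]
  refine IsUnit.mk0 _ ?_
  intro h0
  have h1 : (y : PP F E Q) = 0 :=
    IsFractionRing.injective (PP F E Q) (AA F E Q) (h0.trans (map_zero _).symm)
  exact nonZeroDivisors.ne_zero y.2 h1

omit hβ in
private theorem exists_Ph (hβ : ∀ j, PowerSeries.constantCoeff (β j) = 1) :
    ∃ Ph : AA F E Q →ₐ[F] PowerSeries (AA F E Q),
    (∀ f, Ph (pA F E Q f) = ph D β f) ∧ ∀ x, psK F (AA F E Q) (Ph x) = x := by
  obtain ⟨Ph, hPh⟩ : ∃ Ph : AA F E Q →ₐ[F] PowerSeries (AA F E Q), ∀ f, Ph (pA F E Q f) = ph D β f := by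
    refine ⟨IsLocalization.liftAlgHom (M := nonZeroDivisors (PP F E Q)) (S := AA F E Q) (f := ph D β)
      (fun y => ph_unit D β hβ y), fun f => ?_⟩
    exact IsLocalization.lift_eq (M := nonZeroDivisors (PP F E Q)) (S := AA F E Q) (fun y => ph_unit D β hβ y) f
  refine ⟨Ph, hPh, fun x => ?_⟩
  have h : (((psK F (AA F E Q)).comp Ph : AA F E Q →ₐ[F] AA F E Q) : AA F E Q →+* AA F E Q) =
      RingHom.id (AA F E Q) := by
    refine IsLocalization.ringHom_ext (nonZeroDivisors (PP F E Q)) (RingHom.ext fun f => ?_)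
    change psK F (AA F E Q) (Ph (pA F E Q f)) = pA F E Q f
    rw [hPh, psK_ph D β hβ]
  exact congrArg (fun g : AA F E Q →+* AA F E Q => g x) h

end main

private theorem tm_ps_ua (β : Fin r → PowerSeries (AA F E Q)) (Ph : AA F E Q →ₐ[F] PowerSeries (AA F E Q))
    (hPh : ∀ f, Ph (pA F E Q f) = ph D β f) (j : Option Q) :
    tm Ph (Ua (F := F) (E := E) j) =
      inl (PowerSeries (AA F E Q)) (sc D β j) * tm (cP (F := F) (E := E) (Q := Q)) (Ua (F := F) (E := E) j) := by
  unfold Ua Ug
  rw [map_sum, map_sum, map_sum, Finset.mul_sum]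
  refine Finset.sum_congr rfl fun i _ => ?_
  rw [tm_tmul, tm_tmul, tm_tmul, hPh, ph, MvPolynomial.aeval_X]
  change _ = (sc D β j ⊗ₜ[F] (1 : E)) * _
  rw [Algebra.TensorProduct.tmul_mul_tmul, one_mul]

/-- `tm` on units -/
private def tmu {B B' : Type u} [CommRing B] [Algebra F B] [CommRing B'] [Algebra F B'] (φ : B →ₐ[F] B') :
    (TT F E B)ˣ →* (TT F E B')ˣ := Units.map ((tm φ : TT F E B →ₐ[F] TT F E B') : TT F E B →* TT F E B')

omit [FiniteDimensional F E] in
private theorem tmu_val {B B' : Type u} [CommRing B] [Algebra F B] [CommRing B'] [Algebra F B'] (φ : B →ₐ[F] B')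
    (x : (TT F E B)ˣ) : ((tmu φ x : (TT F E B')ˣ) : TT F E B') = tm φ (x : TT F E B) := rfl

private theorem tmu_qu {B B' : Type u} [CommRing B] [Algebra F B] [CommRing B'] [Algebra F B'] (φ : B →ₐ[F] B')
    (q : Q) (x : (TT F E B)ˣ) : tmu φ (qu D B q x) = qu D B' q (tmu φ x) := by
  apply Units.ext
  exact tm_qa D.act φ q (x : TT F E B)

/-- `inl` on units -/
private def inu (B : Type u) [CommRing B] [Algebra F B] : Bˣ →* (TT F E B)ˣ :=
  Units.map ((inl B : B →ₐ[F] TT F E B) : B →* TT F E B)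

omit [FiniteDimensional F E] in
private theorem inu_val (B : Type u) [CommRing B] [Algebra F B] (x : Bˣ) :
    ((inu (F := F) (E := E) B x : (TT F E B)ˣ) : TT F E B) = inl B (x : B) := rfl

private theorem inu_qu (B : Type u) [CommRing B] [Algebra F B] (q : Q) (x : Bˣ) :
    qu D B q (inu B x) = inu B x := by
  apply Units.ext
  exact qa_inl D.act q (x : B)

private theorem grp1 {G : Type*} [CommGroup G] (s s' t v v' w : G) :
    s * v * (s' * v') * (t * w)⁻¹ = (s * s' * t⁻¹) * (v * v' * w⁻¹) := by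
  rw [mul_inv]
  simp only [mul_assoc, mul_comm, mul_left_comm]

private theorem grp2 {G : Type*} [CommGroup G] (s v x y : G) (n : ℕ) :
    (s * v) ^ n * x * y⁻¹ = s ^ n * (v ^ n * x * y⁻¹) := by
  rw [mul_pow]
  simp only [mul_assoc]

private theorem tm_ps_cg [NeZero p] (β : Fin r → PowerSeries (AA F E Q)) (hβ : ∀ j, PowerSeries.constantCoeff (β j) = 1)
    (hb : ∀ j, β j ^ p = psC F (AA F E Q) (bX D j))
    (Ph : AA F E Q →ₐ[F] PowerSeries (AA F E Q)) (hPh : ∀ f, Ph (pA F E Q f) = ph D β f) :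
    (∀ q q', tm Ph (Cg D q q' : TT F E (AA F E Q)) = inl (PowerSeries (AA F E Q)) (psC F (AA F E Q) (D.cc (bX D) q q')) *
      tm (cP (F := F) (E := E) (Q := Q)) (Cg D q q' : TT F E (AA F E Q))) ∧
    (∀ q, tm Ph (Yg D q : TT F E (AA F E Q)) = inl (PowerSeries (AA F E Q)) (psC F (AA F E Q) (D.yy (bX D) q)) *
      tm (cP (F := F) (E := E) (Q := Q)) (Yg D q : TT F E (AA F E Q))) := by
  have hsu : ∀ j, IsUnit (sc D β j) := by
    intro j
    rw [PowerSeries.isUnit_iff_constantCoeff, ← psK_apply F, psK_sc D β hβ]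
    exact isUnit_one
  obtain ⟨s, hs⟩ : ∃ s : Option Q → (PowerSeries (AA F E Q))ˣ, ∀ j, (s j : PowerSeries (AA F E Q)) = sc D β j :=
    ⟨fun j => (hsu j).unit, fun j => (hsu j).unit_spec⟩
  have hs0 : s none = 1 := by
    apply Units.ext
    rw [hs, sc_none, Units.val_one]
  have hU : ∀ j, tmu Ph (Uu (F := F) (E := E) j) = inu _ (s j) * tmu cP (Uu (F := F) (E := E) j) := by
    intro j
    apply Units.ext
    rw [Units.val_mul, tmu_val, tmu_val, inu_val, Uu_val, hs]
    exact tm_ps_ua D β Ph hPh j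
  have hcc : ∀ q q', s (some q) * s (some q') * (s (some (q * q')))⁻¹ =
      (s (some q) * s (some q') * (s (some (q * q')))⁻¹ : (PowerSeries (AA F E Q))ˣ) := fun _ _ => rfl
  have hbb : (fun j => β j ^ p) = fun j => psC F (AA F E Q) (bX D j) := funext hb
  have hccv : ∀ q q', ((s (some q) * s (some q') * (s (some (q * q')))⁻¹ : (PowerSeries (AA F E Q))ˣ) :
      PowerSeries (AA F E Q)) = psC F (AA F E Q) (D.cc (bX D) q q') := by
    intro q q'
    rw [Units.val_mul, Units.val_mul, hs, hs, sc_some, sc_some, D.yy_pow_root, ← sc_some D β (q * q'), ← hs,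
      mul_assoc, Units.mul_inv, mul_one, hbb]
    unfold CD.cc
    rw [map_prod]
    exact Finset.prod_congr rfl fun j _ => (map_pow _ _ _).symm
  have hyyv : ∀ q, ((s (some q) ^ p : (PowerSeries (AA F E Q))ˣ) : PowerSeries (AA F E Q)) =
      psC F (AA F E Q) (D.yy (bX D) q) := by
    intro q
    rw [Units.val_pow_eq_pow_val, hs, sc_some]
    unfold CD.yy
    rw [map_prod, ← Finset.prod_pow]
    refine Finset.prod_congr rfl fun j _ => ?_
    rw [← pow_mul, mul_comm, pow_mul, hb, map_pow]
  constructor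
  · intro q q'
    have h1 : tmu Ph (Cg D q q') = inu _ (s (some q) * s (some q') * (s (some (q * q')))⁻¹) * tmu cP (Cg D q q') := by
      unfold Cg
      rw [map_mul, map_mul, map_inv, tmu_qu, hU, hU, hU, map_mul, inu_qu, grp1, map_mul, map_mul, map_inv,
        map_mul, map_mul, map_inv, tmu_qu]
    have h2 := congrArg (fun z : (TT F E (PowerSeries (AA F E Q)))ˣ => (z : TT F E (PowerSeries (AA F E Q)))) h1
    simp only [Units.val_mul, tmu_val] at h2
    rw [inu_val, hccv] at h2
    exact h2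
  · intro q
    have h1 : tmu Ph (Yg D q) = inu _ (s (some q) ^ p) * tmu cP (Yg D q) := by
      unfold Yg
      rw [map_mul, map_mul, map_inv, map_pow, tmu_qu, hU, hU, hs0, map_one, one_mul, grp2, map_pow, map_mul, map_mul,
        map_inv, map_pow, tmu_qu]
    have h2 := congrArg (fun z : (TT F E (PowerSeries (AA F E Q)))ˣ => (z : TT F E (PowerSeries (AA F E Q)))) h1
    simp only [Units.val_mul, tmu_val] at h2
    rw [inu_val, hyyv] at h2
    exact h2

theorem path1 [NeZero p] (hp : (p : F) ≠ 0) : ∃ ι : R0 D →ₐ[F] (AA F E Q)[X],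
    (∀ x : R0 D, (ι x).eval 0 = (x : AA F E Q)) ∧
    (∀ q q', tm ι (CR D q q') = inl _ (D.cc (bX D) q q') * tm (cX (F := F) (E := E) (Q := Q)) (Cg D q q' : TT F E (AA F E Q))) ∧
    (∀ q, tm ι (YR D q) = inl _ (D.yy (bX D) q) * tm (cX (F := F) (E := E) (Q := Q)) (Yg D q : TT F E (AA F E Q))) := by
  have hp' : (p : AA F E Q) ≠ 0 := by
    intro h0
    apply hp
    apply (algebraMap F (AA F E Q)).injective
    rw [map_natCast, h0, map_zero]
  have h1 : ∀ j : Fin r, ∃ g : PowerSeries (AA F E Q), PowerSeries.constantCoeff g = 1 ∧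
      g ^ p = psC F (AA F E Q) (bX D j) := by
    intro j
    refine exists_ps_root hp' _ ?_
    rw [← psK_apply F, psK_psC, bX]
    simp
  choose β hβ hb using h1
  obtain ⟨Ph, hPh, hPK⟩ := exists_Ph D β hβ
  obtain ⟨hC, hY⟩ := tm_ps_cg D β hβ hb Ph hPh
  have hran : ∀ x : R0 D, Ph (x : AA F E Q) ∈ (psC F (AA F E Q)).range := by
    intro x
    have h2 : R0 D ≤ ((psC F (AA F E Q)).range).comap Ph := by
      refine Algebra.adjoin_le ?_
      rintro y (⟨q, q', i, rfl⟩ | ⟨q, i, rfl⟩)
      · refine ⟨D.cc (bX D) q q' * cX (cd (AA F E Q) i (Cg D q q' : TT F E (AA F E Q))), ?_⟩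
        change psC F (AA F E Q) _ = Ph _
        rw [← cd_tm Ph, hC, cd_inl_mul, cd_tm, map_mul]
        rfl
      · refine ⟨D.yy (bX D) q * cX (cd (AA F E Q) i (Yg D q : TT F E (AA F E Q))), ?_⟩
        change psC F (AA F E Q) _ = Ph _
        rw [← cd_tm Ph, hY, cd_inl_mul, cd_tm, map_mul]
        rfl
    exact h2 x.2
  let ι : R0 D →ₐ[F] (AA F E Q)[X] :=
    ((AlgEquiv.ofInjective (psC F (AA F E Q)) (psC_inj F (AA F E Q))).symm : _ →ₐ[F] (AA F E Q)[X]).comp
      ((Ph.comp (R0 D).val).codRestrict (psC F (AA F E Q)).range hran)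
  have hι : ∀ x : R0 D, psC F (AA F E Q) (ι x) = Ph (x : AA F E Q) := by
    intro x
    have h3 := (AlgEquiv.ofInjective (psC F (AA F E Q)) (psC_inj F (AA F E Q))).apply_symm_apply
      ((Ph.comp (R0 D).val).codRestrict (psC F (AA F E Q)).range hran x)
    exact congrArg Subtype.val h3
  have hcomp : (psC F (AA F E Q)).comp ι = Ph.comp (R0 D).val := AlgHom.ext hι
  refine ⟨ι, fun x => ?_, fun q q' => ?_, fun q => ?_⟩
  · rw [← psK_psC F, hι, hPK]
  · apply tm_inj (psC_inj F (AA F E Q))
    rw [← tm_comp, hcomp, tm_comp, CR_spec, hC, map_mul, tm_inl, ← tm_comp]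
    rfl
  · apply tm_inj (psC_inj F (AA F E Q))
    rw [← tm_comp, hcomp, tm_comp, YR_spec, hY, map_mul, tm_inl, ← tm_comp]
    rfl

end

end MSC
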