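import Pool.Agent.MSC.Rz
import Pool.Agent.MK.P1

/-! # MSC / Pa2: path 2

`F`-algebra homomorphisms `s' : AA → AA` with `tm s' (U_q) = (1 ⊗ u q) * U_q`, `tm s' (U_*) = (1 ⊗ a) * U_*`, and `st : AA → AA(t)` which has the value `id` at `t = 0` and `s'` at `t = 1`.

PROOF.  For `e : Option Q → E` (nonzero values) let `T_e : PP → PP` be the `F`-algebra homomorphism `X_(j,i) ↦ cd i (inr (e j) * Ug j)`: `tm T_e (Ug j) = inr (e j) * Ug j` (`cd_ext`, `cd_tm`, `cd_eb`).  `T_e (T_(e⁻¹) x) = x` (on the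
variables: `tm T_e (tm T_(e⁻¹) (Ug j)) = tm T_e (inr (e j)⁻¹ * Ug j) = inr (e j)⁻¹ * inr (e j) * Ug j`), so `T_e` is bijective and extends to `AA`: `s'` is the extension of `T_e` for `e (some q) = u q`, `e none = a`
(`tm_comp`, `Ua j = tm pA (Ug j)`).  `τ : PP → PP[t]`: `X_(j,i) ↦ cd i ((1 + t (inr (e j) - 1)) * Ug j)` in `PP[t]` (a linear polynomial in `t`: `X_(j,i) + t * (cd i (inr (e j) * Ug j) - X_(j,i))`); its value at `t = 0` is the identity, at
`t = 1` it is `T_e`.  So `τ` is injective, and composed with `PP[t] → AA[t] → RatFunc AA` it is injective and extends to `st : AA → RatFunc AA`.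
* `s'_Cg`, `s'_Yg`: `tm s' (Cg q q') = inr (u q * q(u q') / u (q q')) * Cg q q'` and `D.hc`; `tm s' (Yg q) = inr (u q ^ p * q(a) / a) * Yg q` and `D.hy`; `inr (algebraMap F E c) = inl (algebraMap F _ c)`.
-/

set_option autoImplicit false
set_option linter.unusedVariables false

namespace MSC

universe u

open scoped TensorProduct

open Polynomial

noncomputable section

variable {p r : ℕ} {F E Q : Type u} [Field F] [Field E] [Algebra F E] [Group Q] [FiniteDimensional F E] (D : CD p r F E Q)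

section pa2aux

private theorem frac_lift {R A K L : Type u} [CommRing R] [CommRing A] [IsDomain A] [Field K] [Field L]
    [Algebra R A] [Algebra A K] [Algebra R K] [IsScalarTower R A K] [Algebra R L]
    [IsFractionRing A K] (g : A →ₐ[R] L) (hg : Function.Injective g) :
    ∃ t : K →ₐ[R] L, ∀ x : A, t (algebraMap A K x) = g x :=
  ⟨IsFractionRing.liftAlgHom hg, fun x => by
    rw [IsFractionRing.liftAlgHom_apply, IsFractionRing.lift_algebraMap]
    rfl⟩

omit [Group Q] in
private theorem cd_Ug (j : Option Q) (i : Ix F E) :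
    cd (PP F E Q) i (Ug (F := F) (E := E) j) = MvPolynomial.X (j, i) := by
  unfold Ug
  rw [cd_sum, Finset.sum_eq_single i]
  · rw [cd_eb, if_pos rfl]
  · intro k _ hk
    rw [cd_eb, if_neg (fun h => hk h.symm)]
  · intro h
    exact absurd (Finset.mem_univ i) h

variable (Q) in
/-- the substitution `U_j ↦ e_j U_j` -/
private def Te (e : Option Q → E) : PP F E Q →ₐ[F] PP F E Q :=
  MvPolynomial.aeval (fun x => cd (PP F E Q) x.2 (inr (PP F E Q) (e x.1) * Ug x.1))

omit [Group Q] in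
private theorem Te_X (e : Option Q → E) (j : Option Q) (i : Ix F E) :
    Te Q e (MvPolynomial.X (j, i)) = cd (PP F E Q) i (inr (PP F E Q) (e j) * Ug j) := by
  unfold Te
  rw [MvPolynomial.aeval_X]

omit [Group Q] in
private theorem tm_Te (e : Option Q → E) (j : Option Q) :
    tm (Te Q e) (Ug (F := F) (E := E) j) = inr (PP F E Q) (e j) * Ug j := by
  apply cd_ext
  intro i
  rw [cd_tm, cd_Ug, Te_X]

omit [Group Q] in
private theorem Te_Te (e e' : Option Q → E) (h : ∀ j, e' j * e j = 1) (x : PP F E Q) :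
    Te Q e (Te Q e' x) = x := by
  have h1 : (Te Q e).comp (Te Q e') = AlgHom.id F (PP F E Q) := by
    apply MvPolynomial.algHom_ext
    rintro ⟨j, i⟩
    rw [AlgHom.comp_apply, Te_X, ← cd_tm, map_mul, tm_Te, tm_inr, ← mul_assoc, ← map_mul, h,
      map_one, one_mul, cd_Ug]
    rfl
  exact congrArg (fun g : PP F E Q →ₐ[F] PP F E Q => g x) h1

omit [Group Q] [FiniteDimensional F E] in
private theorem pA_inj : Function.Injective (pA F E Q) :=
  IsFractionRing.injective (PP F E Q) (AA F E Q)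

omit [Group Q] in
private theorem tm_lift (e : Option Q → E) (s' : AA F E Q →ₐ[F] AA F E Q)
    (hs : ∀ x : PP F E Q, s' (pA F E Q x) = pA F E Q (Te Q e x)) (j : Option Q) :
    tm s' (Ua j) = inr (AA F E Q) (e j) * Ua (Q := Q) j := by
  have h1 : s'.comp (pA F E Q) = (pA F E Q).comp (Te Q e) := AlgHom.ext hs
  unfold Ua
  rw [← tm_comp, h1, tm_comp, tm_Te, map_mul, tm_inr]

variable (Q) in
/-- the path from the identity to the substitution -/
private def Tp (e : Option Q → E) : PP F E Q →ₐ[F] (PP F E Q)[X] :=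
  MvPolynomial.aeval (fun x => C (MvPolynomial.X x) +
    X * C (cd (PP F E Q) x.2 (inr (PP F E Q) (e x.1) * Ug x.1) - MvPolynomial.X x))

omit [Group Q] in
private theorem Tp_zero (e : Option Q → E) (x : PP F E Q) : (Tp Q e x).eval 0 = x := by
  have h1 : ((Polynomial.aeval (0 : PP F E Q)).restrictScalars F).comp (Tp Q e) =
      AlgHom.id F (PP F E Q) := by
    apply MvPolynomial.algHom_ext
    intro i
    rw [AlgHom.comp_apply]
    unfold Tp
    rw [MvPolynomial.aeval_X]
    simp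
  have h2 := congrArg (fun g : PP F E Q →ₐ[F] PP F E Q => g x) h1
  simpa using h2

omit [Group Q] in
private theorem Tp_one (e : Option Q → E) (x : PP F E Q) : (Tp Q e x).eval 1 = Te Q e x := by
  have h1 : ((Polynomial.aeval (1 : PP F E Q)).restrictScalars F).comp (Tp Q e) = Te Q e := by
    apply MvPolynomial.algHom_ext
    intro i
    rw [AlgHom.comp_apply]
    unfold Tp Te
    rw [MvPolynomial.aeval_X, MvPolynomial.aeval_X]
    simp
  have h2 := congrArg (fun g : PP F E Q →ₐ[F] PP F E Q => g x) h1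
  simpa using h2

variable (Q) in
/-- the path with values in the rational functions -/
private def Tr (e : Option Q → E) : PP F E Q →ₐ[F] RatFunc (AA F E Q) :=
  ((IsScalarTower.toAlgHom F (AA F E Q)[X] (RatFunc (AA F E Q))).comp
    (Polynomial.mapAlgHom (pA F E Q))).comp (Tp Q e)

omit [Group Q] in
private theorem Tr_apply (e : Option Q → E) (x : PP F E Q) :
    Tr Q e x = algebraMap (AA F E Q)[X] (RatFunc (AA F E Q))
      ((Tp Q e x).map (pA F E Q : PP F E Q →+* AA F E Q)) := rfl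

omit [Group Q] in
private theorem Tr_inj (e : Option Q → E) : Function.Injective (Tr (F := F) Q e) := by
  rw [injective_iff_map_eq_zero]
  intro x hx
  rw [Tr_apply] at hx
  have h1 := (map_eq_zero_iff _ (RatFunc.algebraMap_injective (AA F E Q))).mp hx
  have h2 : Tp Q e x = 0 :=
    (Polynomial.map_eq_zero_iff (f := (pA F E Q : PP F E Q →+* AA F E Q)) pA_inj).mp h1
  have h3 := Tp_zero e x
  rw [h2, Polynomial.eval_zero] at h3
  exact h3.symm

end pa2aux

theorem path2 : ∃ (s' : AA F E Q →ₐ[F] AA F E Q) (st : AA F E Q →ₐ[F] RatFunc (AA F E Q)),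
    (∀ q : Q, tm s' (Ua (some q)) = inr (AA F E Q) (D.u q) * Ua (some q)) ∧
    (tm s' (Ua none) = inr (AA F E Q) D.a * Ua (Q := Q) none) ∧
    ∀ x : PP F E Q, ∃ P : (AA F E Q)[X], st (pA F E Q x) = algebraMap (AA F E Q)[X] (RatFunc (AA F E Q)) P ∧
      P.eval 0 = pA F E Q x ∧ P.eval 1 = s' (pA F E Q x) := by
  let e : Option Q → E := fun j => Option.elim j D.a D.u
  have he : ∀ j, e j ≠ 0 := by
    rintro (_ | q)
    · exact D.a_ne
    · exact D.u_ne q
  have hinj : Function.Injective ((pA F E Q).comp (Te Q e)) := by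
    intro x y hxy
    have h1 : Te Q e x = Te Q e y := pA_inj hxy
    rw [← Te_Te (fun j => (e j)⁻¹) e (fun j => mul_inv_cancel₀ (he j)) x, h1,
      Te_Te (fun j => (e j)⁻¹) e (fun j => mul_inv_cancel₀ (he j)) y]
  obtain ⟨s', hs⟩ := frac_lift (K := AA F E Q) ((pA F E Q).comp (Te Q e)) hinj
  have hs' : ∀ x : PP F E Q, s' (pA F E Q x) = pA F E Q (Te Q e x) := hs
  obtain ⟨st, hst0⟩ := frac_lift (R := F) (A := PP F E Q) (K := AA F E Q)
    (L := RatFunc (AA F E Q)) (Tr Q e) (Tr_inj e)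
  have hst : ∀ x : PP F E Q, st (pA F E Q x) = Tr Q e x := hst0
  refine ⟨s', st, fun q => tm_lift e s' hs' (some q), tm_lift e s' hs' none, fun x => ?_⟩
  refine ⟨(Tp Q e x).map (pA F E Q : PP F E Q →+* AA F E Q), ?_, ?_, ?_⟩
  · rw [hst, Tr_apply]
  · rw [Polynomial.eval_zero_map, Tp_zero]
    rfl
  · rw [Polynomial.eval_one_map, Tp_one, hs']
    rfl

section pa2aux2

variable (F E Q) in
/-- `inr` on units -/
private def iu : Eˣ →* (TT F E (AA F E Q))ˣ :=
  Units.map ((inr (AA F E Q) : E →ₐ[F] TT F E (AA F E Q)) : E →* TT F E (AA F E Q))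

variable (E) in
/-- `tm` on units -/
private def mu (s' : AA F E Q →ₐ[F] AA F E Q) : (TT F E (AA F E Q))ˣ →* (TT F E (AA F E Q))ˣ :=
  Units.map ((tm s' : TT F E (AA F E Q) →ₐ[F] TT F E (AA F E Q)) :
    TT F E (AA F E Q) →* TT F E (AA F E Q))

omit [FiniteDimensional F E] in
private theorem qu_iu (q : Q) (y : Eˣ) : qu D (AA F E Q) q (iu F E Q y) =
    iu F E Q (Units.map ((D.act q : E ≃ₐ[F] E) : E →* E) y) := by
  apply Units.ext
  exact qa_inr D.act q (y : E)

omit [FiniteDimensional F E] in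
private theorem map_qu (s' : AA F E Q →ₐ[F] AA F E Q) (q : Q) (x : (TT F E (AA F E Q))ˣ) :
    mu E s' (qu D (AA F E Q) q x) =
      qu D (AA F E Q) q (mu E s' x) := by
  apply Units.ext
  exact tm_qa D.act s' q (x : TT F E (AA F E Q))

private theorem map_Uu (s' : AA F E Q →ₐ[F] AA F E Q) (j : Option Q) (y : Eˣ)
    (h : tm s' (Ua j) = inr (AA F E Q) (y : E) * Ua (Q := Q) j) :
    mu E s' (Uu j) =
      iu F E Q y * Uu (F := F) (E := E) j := by
  apply Units.ext
  have h1 : ((Uu (F := F) (E := E) j : (TT F E (AA F E Q))ˣ) : TT F E (AA F E Q)) = Ua j := Uu_val j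
  show tm s' ((Uu (F := F) (E := E) j : (TT F E (AA F E Q))ˣ) : TT F E (AA F E Q)) =
    inr (AA F E Q) (y : E) * ((Uu (F := F) (E := E) j : (TT F E (AA F E Q))ˣ) : TT F E (AA F E Q))
  rw [h1, h]

omit [Group Q] [FiniteDimensional F E] in
private theorem inr_alg (c : F) : inr (F := F) (E := E) (AA F E Q) (algebraMap F E c) =
    inl (E := E) (AA F E Q) (algebraMap F (AA F E Q) c) := by
  rw [AlgHom.commutes, AlgHom.commutes]

end pa2aux2

theorem tm_s'_Cg {s' : AA F E Q →ₐ[F] AA F E Q} (h1 : ∀ q : Q, tm s' (Ua (some q)) = inr (AA F E Q) (D.u q) * Ua (some q))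
    (q q' : Q) : tm s' (Cg D q q' : TT F E (AA F E Q)) =
      inl (AA F E Q) (algebraMap F (AA F E Q) (D.cc D.b q q')) * (Cg D q q' : TT F E (AA F E Q)) := by
  have hu : ∀ q : Q, mu E s' (Uu (some q)) =
      iu F E Q (Units.mk0 (D.u q) (D.u_ne q)) * Uu (F := F) (E := E) (some q) := fun q =>
    map_Uu s' (some q) _ (h1 q)
  have h2 : mu E s' (Cg D q q') =
      iu F E Q (Units.mk0 (D.u q) (D.u_ne q) * Units.map ((D.act q : E ≃ₐ[F] E) : E →* E)
        (Units.mk0 (D.u q') (D.u_ne q')) * (Units.mk0 (D.u (q * q')) (D.u_ne (q * q')))⁻¹) *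
          Cg D q q' := by
    unfold Cg
    rw [map_mul, map_mul, map_inv, map_qu, hu, hu, hu, map_mul (qu D (AA F E Q) q), qu_iu,
      map_mul (iu F E Q), map_mul (iu F E Q), map_inv (iu F E Q), mul_inv]
    simp only [mul_comm, mul_left_comm, mul_assoc]
  have h3 := congrArg (fun y : (TT F E (AA F E Q))ˣ => (y : TT F E (AA F E Q))) h2
  have h4 : ((iu F E Q (Units.mk0 (D.u q) (D.u_ne q) * Units.map ((D.act q : E ≃ₐ[F] E) : E →* E)
        (Units.mk0 (D.u q') (D.u_ne q')) * (Units.mk0 (D.u (q * q')) (D.u_ne (q * q')))⁻¹) :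
          (TT F E (AA F E Q))ˣ) : TT F E (AA F E Q)) =
        inl (AA F E Q) (algebraMap F (AA F E Q) (D.cc D.b q q')) := by
    rw [← inr_alg]
    have h5 : algebraMap F E (D.cc D.b q q') = D.u q * D.act q (D.u q') / D.u (q * q') := D.hc q q'
    rw [h5, div_eq_mul_inv]
    rfl
  rw [← h4]
  exact h3

theorem tm_s'_Yg {s' : AA F E Q →ₐ[F] AA F E Q} (h1 : ∀ q : Q, tm s' (Ua (some q)) = inr (AA F E Q) (D.u q) * Ua (some q))
    (h2 : tm s' (Ua none) = inr (AA F E Q) D.a * Ua (Q := Q) none) (q : Q) : tm s' (Yg D q : TT F E (AA F E Q)) =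
      inl (AA F E Q) (algebraMap F (AA F E Q) (D.yy D.b q)) * (Yg D q : TT F E (AA F E Q)) := by
  have hu : mu E s' (Uu (some q)) =
      iu F E Q (Units.mk0 (D.u q) (D.u_ne q)) * Uu (F := F) (E := E) (some q) :=
    map_Uu s' (some q) _ (h1 q)
  have hn : mu E s' (Uu (Q := Q) none) =
      iu F E Q (Units.mk0 D.a D.a_ne) * Uu (F := F) (E := E) none :=
    map_Uu s' none _ h2
  have h3 : mu E s' (Yg D q) =
      iu F E Q ((Units.mk0 (D.u q) (D.u_ne q)) ^ p * Units.map ((D.act q : E ≃ₐ[F] E) : E →* E)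
        (Units.mk0 D.a D.a_ne) * (Units.mk0 D.a D.a_ne)⁻¹) * Yg D q := by
    unfold Yg
    rw [map_mul, map_mul, map_inv, map_qu, map_pow, hu, hn, map_mul (qu D (AA F E Q) q), qu_iu,
      map_mul (iu F E Q), map_mul (iu F E Q), map_inv (iu F E Q), map_pow (iu F E Q), mul_inv, mul_pow]
    simp only [mul_comm, mul_left_comm, mul_assoc]
  have h4 := congrArg (fun y : (TT F E (AA F E Q))ˣ => (y : TT F E (AA F E Q))) h3
  have h5 : ((iu F E Q ((Units.mk0 (D.u q) (D.u_ne q)) ^ p * Units.map ((D.act q : E ≃ₐ[F] E) : E →* E)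
        (Units.mk0 D.a D.a_ne) * (Units.mk0 D.a D.a_ne)⁻¹) :
          (TT F E (AA F E Q))ˣ) : TT F E (AA F E Q)) =
        inl (AA F E Q) (algebraMap F (AA F E Q) (D.yy D.b q)) := by
    rw [← inr_alg]
    have h6 : algebraMap F E (D.yy D.b q) = D.u q ^ p * D.act q D.a / D.a := D.hy q
    rw [h6, div_eq_mul_inv]
    rfl
  rw [← h5]
  exact h4

end

end MSC
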