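import Pool.Agent.MK.P1

/-! # MSC / Plm: specialisation of `K₂(A(t))` at the points `t = c`, path lemma, retraction

PROOFS.
* `exists_pc`: `MK.exists_prime` for `R = A[X]`, `K = RatFunc A`, `p = X - C c`, `π = Polynomial.evalRingHom c` (`Polynomial.dvd_iff_isRoot`), `MK.ratFunc_inj`, `MK.ratFunc_frac`.
* `pc_C`: constants: `eval c (C a) = a`; check `spec (K2.map C x) = x` on symbols (`K2_induction`).
* `path_spec`: on symbols `{x, y}`, `x, y ∈ K` nonzero, `x = x₁ / x₂` with `x_i ∈ R` nonzero: `σ x_i` is a polynomial `P_i` with `P_i(c) = e x_i ≠ 0`, so `ac (σ x_i) = e x_i` and `ac (σ x) = e x` (`ac_mul`); so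
  `spec (S (σ x) (σ y)) = S (e x) (e y)`.
* `diff_spec`: apply `spec` at `1` and at `0` and subtract.
* `ret`: induction (`Finite.induction_empty_option`) on `τ`: a bijection `τ ≃ τ'` gives an isomorphism of the fields; `τ = PEmpty`: `MvPolynomial PEmpty F ≃ F`, which is its own fraction field; `Option τ`: `MvPolynomial.optionEquivLeft`
  gives `MvPolynomial (Option τ) F ≃ (MvPolynomial τ F)[X] → RatFunc (FractionRing (MvPolynomial τ F))` (injective), so an embedding `φ` of `FractionRing (MvPolynomial (Option τ) F)` in `RatFunc M`, `M` the field for `τ`, over `F`;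
  `r = r_τ ∘ (pc M 0).spec ∘ K2.map φ` (`pc_C`).
-/

set_option autoImplicit false
set_option linter.unusedVariables false

namespace MSC

universe u

open Pool.Agent.MK Polynomial

theorem exists_pc (A : Type u) [Field A] (c : A) : ∃ w : Val (RatFunc A) A,
    (∀ P : A[X], P.eval c ≠ 0 → w.v (algebraMap A[X] (RatFunc A) P) = 0 ∧ w.ac (algebraMap A[X] (RatFunc A) P) = P.eval c) := by
  have hπ : ∀ r : A[X], evalRingHom c r = 0 ↔ (X - C c) ∣ r := by
    intro r
    rw [dvd_iff_isRoot]
    rfl
  obtain ⟨w, -, -, -, hw⟩ := exists_prime (algebraMap A[X] (RatFunc A)) (ratFunc_inj A)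
    (ratFunc_frac A) (X - C c) (prime_X_sub_C c) (evalRingHom c) hπ
  refine ⟨w, fun P hP => ?_⟩
  refine hw P fun hd => hP ?_
  exact (hπ P).2 hd

/-- the place `t = c` of `A(t)` -/
noncomputable def pc (A : Type u) [Field A] (c : A) : Val (RatFunc A) A := (exists_pc A c).choose

theorem pc_poly {A : Type u} [Field A] (c : A) {P : A[X]} (h : P.eval c ≠ 0) :
    (pc A c).v (algebraMap A[X] (RatFunc A) P) = 0 ∧ (pc A c).ac (algebraMap A[X] (RatFunc A) P) = P.eval c :=
  (exists_pc A c).choose_spec P h

theorem pc_C {A : Type u} [Field A] (c : A) (x : K2 A) : (pc A c).spec (K2.map (RatFunc.C : A →+* RatFunc A) x) = x := by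
  have key : ∀ a : A, a ≠ 0 → (pc A c).ac (RatFunc.C a) = a := by
    intro a ha
    have h1 : (C a : A[X]).eval c ≠ 0 := by rwa [eval_C]
    have h2 := (pc_poly c h1).2
    rw [eval_C, RatFunc.algebraMap_C] at h2
    exact h2
  induction x using K2_induction with
  | hS a b ha hb => rw [K2.map_S, Val.spec_S, key a ha, key b hb]
  | hz => rw [map_zero, map_zero]
  | hadd x y hx hy => rw [map_add, map_add, hx, hy]

theorem path_spec {R K A : Type u} [CommRing R] [IsDomain R] [Field K] [Algebra R K] [IsFractionRing R K] [Field A] (c : A)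
    (σ : K →+* RatFunc A) (e : K →+* A)
    (h : ∀ x : R, ∃ P : A[X], σ (algebraMap R K x) = algebraMap A[X] (RatFunc A) P ∧ e (algebraMap R K x) = P.eval c)
    (κ : K2 K) : (pc A c).spec (K2.map σ κ) = K2.map e κ := by
  have key : ∀ x : R, x ≠ 0 → (pc A c).ac (σ (algebraMap R K x)) = e (algebraMap R K x) := by
    intro x hx
    obtain ⟨P, h1, h2⟩ := h x
    have hx0 : algebraMap R K x ≠ 0 := (map_ne_zero_iff _ (IsFractionRing.injective R K)).2 hx
    have h3 : P.eval c ≠ 0 := by
      rw [← h2]
      exact (map_ne_zero e).2 hx0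
    rw [h1, h2]
    exact (pc_poly c h3).2
  have key2 : ∀ x : K, x ≠ 0 → (pc A c).ac (σ x) = e x := by
    intro x hx
    obtain ⟨a, b, hb, rfl⟩ := IsFractionRing.div_surjective (A := R) x
    have hb0 : b ≠ 0 := nonZeroDivisors.ne_zero hb
    have ha0 : a ≠ 0 := by
      rintro rfl
      rw [map_zero, zero_div] at hx
      exact hx rfl
    rw [map_div₀, map_div₀, Val.ac_div, key a ha0, key b hb0]
  induction κ using K2_induction with
  | hS a b ha hb => rw [K2.map_S, K2.map_S, Val.spec_S, key2 a ha, key2 b hb]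
  | hz => rw [map_zero, map_zero, map_zero]
  | hadd x y hx hy => rw [map_add, map_add, map_add, hx, hy]

theorem diff_spec {A : Type u} [Field A] {w w' : K2 (RatFunc A)} {k : K2 A} {N M : ℤ}
    (h : N • w = K2.map (RatFunc.C : A →+* RatFunc A) k + M • w') :
    N • ((pc A 1).spec w - (pc A 0).spec w) = M • ((pc A 1).spec w' - (pc A 0).spec w') := by
  have h1 := congrArg (pc A 1).spec h
  have h0 := congrArg (pc A 0).spec h
  rw [map_zsmul, map_add, map_zsmul, pc_C] at h1 h0
  rw [zsmul_sub, zsmul_sub, h1, h0]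
  abel

private theorem ret_aux {F K K' : Type u} [Field F] [Field K] [Field K'] (ι : F →+* K)
    (ι' : F →+* K') (φ : K →+* K') (h : ∀ x, φ (ι x) = ι' x) (r : K2 K' →+ K2 F)
    (hr : ∀ x, r (K2.map ι' x) = x) :
    ∃ r' : K2 K →+ K2 F, ∀ x, r' (K2.map ι x) = x := by
  refine ⟨r.comp (K2.map φ), fun x => ?_⟩
  have h1 : φ.comp ι = ι' := RingHom.ext h
  rw [AddMonoidHom.comp_apply, K2.map_map, h1, hr]

private theorem alg_C (F : Type u) [Field F] (τ : Type u) (x : F) :
    algebraMap F (FractionRing (MvPolynomial τ F)) x =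
      algebraMap (MvPolynomial τ F) (FractionRing (MvPolynomial τ F)) (MvPolynomial.C x) := by
  rw [IsScalarTower.algebraMap_apply F (MvPolynomial τ F) (FractionRing (MvPolynomial τ F)),
    MvPolynomial.algebraMap_eq]

theorem ret (F : Type u) [Field F] (τ : Type u) [Finite τ] :
    ∃ r : K2 (FractionRing (MvPolynomial τ F)) →+ K2 F,
      ∀ x : K2 F, r (K2.map (algebraMap F (FractionRing (MvPolynomial τ F))) x) = x := by
  induction τ using Finite.induction_empty_option with
  | of_equiv e ih =>
    rename_i α β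
    obtain ⟨r, hr⟩ := ih
    let g : MvPolynomial β F →+* FractionRing (MvPolynomial α F) :=
      (algebraMap (MvPolynomial α F) (FractionRing (MvPolynomial α F))).comp
        (MvPolynomial.rename e.symm : MvPolynomial β F →ₐ[F] MvPolynomial α F).toRingHom
    have hg : Function.Injective g :=
      (IsFractionRing.injective (MvPolynomial α F) (FractionRing (MvPolynomial α F))).comp
        (MvPolynomial.rename_injective _ e.symm.injective)
    refine ret_aux _ _ (IsFractionRing.lift hg) (fun x => ?_) r hr
    rw [alg_C, IsFractionRing.lift_algebraMap, alg_C]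
    change algebraMap _ _ (MvPolynomial.rename e.symm (MvPolynomial.C x)) = _
    rw [MvPolynomial.rename_C]
  | h_empty =>
    let g : MvPolynomial PEmpty.{u + 1} F →+* F :=
      (MvPolynomial.isEmptyRingEquiv F PEmpty).toRingHom
    have hg : Function.Injective g := (MvPolynomial.isEmptyRingEquiv F PEmpty).injective
    refine ret_aux _ (RingHom.id F) (IsFractionRing.lift hg) (fun x => ?_) (AddMonoidHom.id _)
      (fun x => ?_)
    · rw [alg_C, IsFractionRing.lift_algebraMap]
      change MvPolynomial.isEmptyRingEquiv F PEmpty (MvPolynomial.C x) = x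
      rw [← MvPolynomial.isEmptyRingEquiv_symm_apply, RingEquiv.apply_symm_apply]
    · rw [K2.map_id]
      rfl
  | h_option ih =>
    rename_i α _
    obtain ⟨r, hr⟩ := ih
    let M := FractionRing (MvPolynomial α F)
    let g : MvPolynomial (Option α) F →+* RatFunc M :=
      (algebraMap M[X] (RatFunc M)).comp
        ((Polynomial.mapRingHom (algebraMap (MvPolynomial α F) M)).comp
          (MvPolynomial.optionEquivLeft F α).toAlgHom.toRingHom)
    have hg : Function.Injective g :=
      (ratFunc_inj M).comp ((Polynomial.map_injective _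
        (IsFractionRing.injective (MvPolynomial α F) M)).comp
          (MvPolynomial.optionEquivLeft F α).injective)
    refine ret_aux _ ((RatFunc.C : M →+* RatFunc M).comp (algebraMap F M))
      (IsFractionRing.lift hg) (fun x => ?_) (r.comp (pc M 0).spec) (fun x => ?_)
    · rw [alg_C, IsFractionRing.lift_algebraMap]
      change algebraMap M[X] (RatFunc M) (Polynomial.map (algebraMap (MvPolynomial α F) M)
        (MvPolynomial.optionEquivLeft F α (MvPolynomial.C x))) = RatFunc.C (algebraMap F M x)
      rw [MvPolynomial.optionEquivLeft_C, Polynomial.map_C, RatFunc.algebraMap_C, alg_C]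
    · rw [← K2.map_map, AddMonoidHom.comp_apply, pc_C, hr]

end MSC
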