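import Pool.Agent.MSC.Pa1
import Pool.Agent.MSC.Pa2
import Pool.Agent.MSC.Plm

/-! # MSC / Pa3: summary of the two paths

PROOF.  `ι` from `path1`, `s'`, `st` from `path2`.  `ι` is injective (`(ι x).eval 0 = x`), so it extends (composed with `AA[X] → RatFunc AA`) to `φ : K0 → RatFunc AA` (`IsFractionRing.liftAlgHom`).
* `s' x = (ι x).eval 1` for `x ∈ R0`: both sides are `F`-algebra homomorphisms `R0 → AA`; check on the generators `S0` (`Algebra.adjoin_induction`, or `AlgHom.ext_of_adjoin_eq_top`): for `x = cd i (Cg q q')`: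
  `s' x = cd i (tm s' (Cg q q')) = cc(b) * x` (`tm_s'_Cg`), and `ι x = ` the `i`-th coordinate of `tm ι (CR q q')` (`cd_tm`; `x = cd i (CR q q')` by `CR_spec`, `cd_tm`, injectivity of `R0 → AA`) `= cc(bX) * C x`, whose value at `1` is
  `cc(b) * x` (`bX j` has the value `b j` at `1`).  The same for `Yg`.
* `path_spec` with `R = PP`, `K = AA`, `σ = st`, `e = id` (at `0`), `e = s'` (at `1`); with `R = R0`, `K = K0`, `σ = φ`, `e = kA` at `0`, `e = s' ∘ kA` at `1` (`kA_rK`).
* cocycle identities: `tm φ (C0 q q') = tm (AA[X] → RatFunc) (tm ι (CR q q'))` (`C0_val`, `tm_comp`) `= inl (cc(bX)) * tm cR (Cg q q')`, and `Cg q q' * U_(qq') = U_q * q(U_q')`; `cR = RatFunc.C` as an `F`-algebra homomorphism.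
  `tm (st ∘ kA) (C0 q q') = tm st (Cg q q')` (`kA_C0`).
-/

set_option autoImplicit false
set_option linter.unusedVariables false

namespace MSC

universe u

open scoped TensorProduct

open Polynomial

open Pool.Agent.MK (K2 S)

noncomputable section

variable {p r : ℕ} {F E Q : Type u} [Field F] [Field E] [Algebra F E] [Group Q] [FiniteDimensional F E] (D : CD p r F E Q)

section aux

variable (F E Q) in
/-- `AA[X] → RatFunc AA` -/
private def aR : (AA F E Q)[X] →ₐ[F] RatFunc (AA F E Q) :=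
  IsScalarTower.toAlgHom F (AA F E Q)[X] (RatFunc (AA F E Q))

private theorem aR_apply (x : (AA F E Q)[X]) : aR F E Q x = algebraMap (AA F E Q)[X] (RatFunc (AA F E Q)) x := rfl

variable (F E Q) in
/-- the value at `1` -/
private def ev1 : (AA F E Q)[X] →ₐ[F] AA F E Q := (Polynomial.aeval (1 : AA F E Q)).restrictScalars F

private theorem ev1_apply (x : (AA F E Q)[X]) : ev1 F E Q x = x.eval 1 := by
  change Polynomial.aeval (1 : AA F E Q) x = _
  rw [Polynomial.coe_aeval_eq_eval]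

private theorem ev_cc (q q' : Q) : (D.cc (bX D) q q').eval 1 = algebraMap F (AA F E Q) (D.cc D.b q q') := by
  unfold CD.cc
  rw [Polynomial.eval_prod, map_prod]
  refine Finset.prod_congr rfl fun j _ => ?_
  rw [Polynomial.eval_pow, map_pow]
  congr 1
  unfold bX
  rw [eval_add, eval_mul, eval_sub, eval_one, eval_X, eval_C]
  ring

private theorem ev_yy (q : Q) : (D.yy (bX D) q).eval 1 = algebraMap F (AA F E Q) (D.yy D.b q) := by
  unfold CD.yy
  rw [Polynomial.eval_prod, map_prod]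
  refine Finset.prod_congr rfl fun j _ => ?_
  rw [Polynomial.eval_pow, map_pow]
  congr 1
  unfold bX
  rw [eval_add, eval_mul, eval_sub, eval_one, eval_X, eval_C]
  ring

private theorem s'_eq {s' : AA F E Q →ₐ[F] AA F E Q}
    (h1 : ∀ q : Q, tm s' (Ua (some q)) = inr (AA F E Q) (D.u q) * Ua (some q))
    (h2 : tm s' (Ua none) = inr (AA F E Q) D.a * Ua (Q := Q) none) {ι : R0 D →ₐ[F] (AA F E Q)[X]}
    (hC : ∀ q q', tm ι (CR D q q') = inl _ (D.cc (bX D) q q') * tm (cX (F := F) (E := E) (Q := Q)) (Cg D q q' : TT F E (AA F E Q)))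
    (hY : ∀ q, tm ι (YR D q) = inl _ (D.yy (bX D) q) * tm (cX (F := F) (E := E) (Q := Q)) (Yg D q : TT F E (AA F E Q)))
    (x : R0 D) : s' (x : AA F E Q) = (ι x).eval 1 := by
  have key : s'.comp (R0 D).val = (ev1 F E Q).comp ι := by
    refine AlgHom.adjoin_ext (s := S0 D) ?_
    rintro x (⟨q, q', i, rfl⟩ | ⟨q, i, rfl⟩)
    · have e1 : (⟨cd (AA F E Q) i (Cg D q q' : TT F E (AA F E Q)),
          Algebra.subset_adjoin (Or.inl ⟨q, q', i, rfl⟩)⟩ : R0 D) = cd (R0 D) i (CR D q q') := by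
        apply Subtype.ext
        change cd (AA F E Q) i (Cg D q q' : TT F E (AA F E Q)) = (R0 D).val (cd (R0 D) i (CR D q q'))
        rw [← cd_tm, CR_spec]
      change s' (cd (AA F E Q) i (Cg D q q' : TT F E (AA F E Q))) = ev1 F E Q (ι (⟨cd (AA F E Q) i (Cg D q q' : TT F E (AA F E Q)),
          Algebra.subset_adjoin (Or.inl ⟨q, q', i, rfl⟩)⟩ : R0 D))
      have l1 : s' (cd (AA F E Q) i (Cg D q q' : TT F E (AA F E Q))) =
          algebraMap F (AA F E Q) (D.cc D.b q q') * cd (AA F E Q) i (Cg D q q' : TT F E (AA F E Q)) := by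
        rw [← cd_tm, tm_s'_Cg D h1, cd_inl_mul]
      have l2 : ι (cd (R0 D) i (CR D q q')) = D.cc (bX D) q q' *
          cX (F := F) (E := E) (Q := Q) (cd (AA F E Q) i (Cg D q q' : TT F E (AA F E Q))) := by
        rw [← cd_tm, hC, cd_inl_mul, cd_tm]
      rw [e1, l1, ev1_apply, l2, eval_mul, ev_cc]
      congr 1
      exact (eval_C (R := AA F E Q)).symm
    · have e1 : (⟨cd (AA F E Q) i (Yg D q : TT F E (AA F E Q)),
          Algebra.subset_adjoin (Or.inr ⟨q, i, rfl⟩)⟩ : R0 D) = cd (R0 D) i (YR D q) := by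
        apply Subtype.ext
        change cd (AA F E Q) i (Yg D q : TT F E (AA F E Q)) = (R0 D).val (cd (R0 D) i (YR D q))
        rw [← cd_tm, YR_spec]
      change s' (cd (AA F E Q) i (Yg D q : TT F E (AA F E Q))) = ev1 F E Q (ι (⟨cd (AA F E Q) i (Yg D q : TT F E (AA F E Q)),
          Algebra.subset_adjoin (Or.inr ⟨q, i, rfl⟩)⟩ : R0 D))
      have l1 : s' (cd (AA F E Q) i (Yg D q : TT F E (AA F E Q))) =
          algebraMap F (AA F E Q) (D.yy D.b q) * cd (AA F E Q) i (Yg D q : TT F E (AA F E Q)) := by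
        rw [← cd_tm, tm_s'_Yg D h1 h2, cd_inl_mul]
      have l2 : ι (cd (R0 D) i (YR D q)) = D.yy (bX D) q *
          cX (F := F) (E := E) (Q := Q) (cd (AA F E Q) i (Yg D q : TT F E (AA F E Q))) := by
        rw [← cd_tm, hY, cd_inl_mul, cd_tm]
      rw [e1, l1, ev1_apply, l2, eval_mul, ev_yy]
      congr 1
      exact (eval_C (R := AA F E Q)).symm
  have h := DFunLike.congr_fun key x
  rw [AlgHom.comp_apply, AlgHom.comp_apply, ev1_apply] at h
  exact h

/-- the generic cocycle identity -/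
private theorem Cg_mul (q q' : Q) : (Cg D q q' : TT F E (AA F E Q)) * Ua (some (q * q')) =
    Ua (some q) * qa D.act _ q (Ua (some q')) := by
  have h : Cg D q q' * Uu (some (q * q')) = Uu (some q) * qu D (AA F E Q) q (Uu (some q')) := by
    unfold Cg
    rw [inv_mul_cancel_right]
  have h2 := congrArg Units.val h
  rw [Units.val_mul, Units.val_mul, Uu_val, Uu_val] at h2
  rw [h2]
  have h3 : (qu D (AA F E Q) q (Uu (some q')) : TT F E (AA F E Q)) =
      qa D.act (AA F E Q) q (Uu (F := F) (E := E) (some q') : TT F E (AA F E Q)) := rfl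
  rw [h3, Uu_val]

end aux

variable (F E Q) in
/-- constants `AA → RatFunc AA` -/
def cR : AA F E Q →ₐ[F] RatFunc (AA F E Q) := IsScalarTower.toAlgHom F (AA F E Q) (RatFunc (AA F E Q))

theorem cR_apply (x : AA F E Q) : cR F E Q x = RatFunc.C x := by
  unfold cR
  rw [IsScalarTower.coe_toAlgHom', RatFunc.algebraMap_eq_C]

theorem paths [NeZero p] (hp : (p : F) ≠ 0) :
    ∃ (s' : AA F E Q →ₐ[F] AA F E Q) (st : AA F E Q →ₐ[F] RatFunc (AA F E Q)) (φ : K0 D →ₐ[F] RatFunc (AA F E Q)),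
      (∀ κ : K2 (AA F E Q), (pc (AA F E Q) 0).spec (K2.map (st : AA F E Q →+* RatFunc (AA F E Q)) κ) = κ ∧
        (pc (AA F E Q) 1).spec (K2.map (st : AA F E Q →+* RatFunc (AA F E Q)) κ) = K2.map (s' : AA F E Q →+* AA F E Q) κ) ∧
      (∀ κ : K2 (K0 D), (pc (AA F E Q) 0).spec (K2.map (φ : K0 D →+* RatFunc (AA F E Q)) κ) = K2.map (kA D : K0 D →+* AA F E Q) κ ∧
        (pc (AA F E Q) 1).spec (K2.map (φ : K0 D →+* RatFunc (AA F E Q)) κ) =
          K2.map (s' : AA F E Q →+* AA F E Q) (K2.map (kA D : K0 D →+* AA F E Q) κ)) ∧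
      (∀ q q', tm (st.comp (kA D)) (C0 D q q' : TT F E (K0 D)) * tm st (Ua (some (q * q'))) =
        tm st (Ua (some q)) * qa D.act _ q (tm st (Ua (some q')))) ∧
      (∀ q q', tm φ (C0 D q q' : TT F E (K0 D)) * tm (cR F E Q) (Ua (some (q * q'))) =
        inl _ (algebraMap (AA F E Q)[X] (RatFunc (AA F E Q)) (D.cc (bX D) q q')) *
          (tm (cR F E Q) (Ua (some q)) * qa D.act _ q (tm (cR F E Q) (Ua (some q'))))) := by
  obtain ⟨ι, hι0, hC, hY⟩ := path1 D hp
  obtain ⟨s', st, h1, h2, h3⟩ := path2 D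
  have hinj : Function.Injective ((aR F E Q).comp ι) := by
    rw [injective_iff_map_eq_zero]
    intro x hx
    rw [AlgHom.comp_apply, aR_apply] at hx
    have h4 : ι x = 0 := by
      apply Pool.Agent.MK.ratFunc_inj (AA F E Q)
      rw [hx, map_zero]
    apply Subtype.ext
    rw [← hι0 x, h4, eval_zero]
    rfl
  obtain ⟨φ, hφ⟩ : ∃ φ : K0 D →ₐ[F] RatFunc (AA F E Q), ∀ x : R0 D,
      φ (algebraMap (R0 D) (K0 D) x) = algebraMap (AA F E Q)[X] (RatFunc (AA F E Q)) (ι x) := by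
    refine ⟨IsFractionRing.liftAlgHom (g := (aR F E Q).comp ι) hinj, fun x => ?_⟩
    rw [IsFractionRing.liftAlgHom_apply]
    exact IsFractionRing.lift_algebraMap hinj x
  have hs' := s'_eq D h1 h2 hC hY
  refine ⟨s', st, φ, fun κ => ⟨?_, ?_⟩, fun κ => ⟨?_, ?_⟩, fun q q' => ?_, fun q q' => ?_⟩
  · have h := path_spec (R := PP F E Q) (0 : AA F E Q) (st : AA F E Q →+* RatFunc (AA F E Q)) (RingHom.id (AA F E Q))
      (fun x => by
        obtain ⟨P, hP, hP0, -⟩ := h3 x
        exact ⟨P, hP, hP0.symm⟩) κ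
    rw [h, K2.map_id]
    rfl
  · exact path_spec (R := PP F E Q) (1 : AA F E Q) (st : AA F E Q →+* RatFunc (AA F E Q)) (s' : AA F E Q →+* AA F E Q)
      (fun x => by
        obtain ⟨P, hP, -, hP1⟩ := h3 x
        exact ⟨P, hP, hP1.symm⟩) κ
  · exact path_spec (R := R0 D) (0 : AA F E Q) (φ : K0 D →+* RatFunc (AA F E Q)) (kA D : K0 D →+* AA F E Q)
      (fun x => ⟨ι x, hφ x, (kA_rK D x).trans (hι0 x).symm⟩) κ
  · have h := path_spec (R := R0 D) (1 : AA F E Q) (φ : K0 D →+* RatFunc (AA F E Q))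
      ((s' : AA F E Q →+* AA F E Q).comp (kA D : K0 D →+* AA F E Q))
      (fun x => ⟨ι x, hφ x, (congrArg s' (kA_rK D x)).trans (hs' x)⟩) κ
    rw [h, K2.map_map]
  · rw [tm_comp, kA_C0, ← map_mul, Cg_mul, map_mul, tm_qa]
  · have e1 : φ.comp (rK D) = (aR F E Q).comp ι := AlgHom.ext fun x => hφ x
    have e2 : (aR F E Q).comp (cX (F := F) (E := E) (Q := Q)) = cR F E Q := by
      refine AlgHom.ext fun x => ?_
      exact (IsScalarTower.algebraMap_apply (AA F E Q) (AA F E Q)[X] (RatFunc (AA F E Q)) x).symm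
    rw [C0_val, ← tm_comp, e1, tm_comp, hC, map_mul, tm_inl, ← tm_comp, e2, mul_assoc, ← map_mul, Cg_mul,
      map_mul, tm_qa]
    rfl

end

end MSC
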