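import Pool.Agent.MSC.Brg
import Pool.Agent.MSG.Uh

/-! # MSC / Rld: a trivial symbol `(t, u)` and norms from the extension by a root of `u`

`H` acts on `Ω` (`GA`), `z` a primitive root of unity of order `n = p ^ M` fixed by `H`, `t, u ∈ Ω^H` nonzero, `ρ ^ n = u`, `sb n z t u ~ 1`.

PROOF of `rld`.  `χ = km n z u : H → ZMod n` is a continuous homomorphism, `h • ρ = zp z (χ h) * ρ` (`km_root`).  If `χ = 0` then `ρ` is fixed by `H`.  Otherwise let `p ^ i` (`i < M`) be the largest power of `p` dividing all `(χ h).val`; `r' = M - i ≥ 1`, `Q = p ^ r'`.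
Define `θ : H → ZMod Q` by `χ h = (p ^ i) * (θ h).val`: a continuous homomorphism whose image contains a unit, so it is surjective; `θ h₀ = 1`.  `z' = z ^ (p ^ i)` is a primitive `Q`-th root of unity; `zp z (χ h) = zp z' (θ h)`, so `h • ρ = zp z' (θ h) * ρ`.
`sb n z t u g h = zp z (km n z t g * p ^ i * θ h) = zp z' (km Q z' t g * θ h)` (`km_level` with `n = Q * p ^ i`).  `cy_km` for `Q`, `z'`, `θ`, `c = t`: `zp z' (km Q z' t g * θ h) * t ^ cy θ ~ 1`; so `t ^ cy θ ~ 1`, and `norm_of_cy`: `t = ∏ s < Q, h₀ ^ s • y`, `y` fixed by `ker θ`.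
Fourier: `y i = (Q : Ω)⁻¹ * ρ⁻¹ ^ i * ∑ s < Q, z'⁻¹ ^ (i s) * h₀ ^ s • y`, `i < Q`: fixed by `ker θ` (it fixes `ρ`, `z'`; `ker θ` is normal) and by `h₀` (shift of `s`; `h₀ ^ Q ∈ ker θ`), so by `H` (every `h` is `h₀ ^ (θ h).val` times an element of `ker θ`).
`y = ∑ i < Q, y i * ρ ^ i` (`∑_i z' ^ (- i s) = 0` for `0 < s < Q`), so `h₀ ^ s • y = ∑ i, y i * (z' ^ s * ρ) ^ i`.
-/

set_option autoImplicit false
set_option linter.unusedVariables false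

namespace MSC

universe u

open MSG MSN Pool.Agent.Helper14.Massey

/-- sum of the powers of a root of unity -/
private theorem rld_orth {Ω : Type u} [Field Ω] {Q : ℕ} {w : Ω} (hw : PZ Q w) (a : ZMod Q) :
    ∑ i : Fin Q, zp w (-(((i : ℕ) : ZMod Q) * a)) = if a = 0 then (Q : Ω) else 0 := by
  have hQ := hw.neZero
  have h1 : ∀ i : ℕ, zp w (-((i : ZMod Q) * a)) = zp w (-a) ^ i := by
    intro i
    rw [zp_val_pow hw]
    congr 1
    ring
  rw [Fin.sum_univ_eq_sum_range (fun i => zp w (-((i : ZMod Q) * a))), Finset.sum_congr rfl fun i _ => h1 i]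
  split_ifs with ha
  · subst ha
    simp [zp_zero hw]
  · have h2 : zp w (-a) ≠ 1 := by
      intro h3
      rw [← zp_zero hw] at h3
      have h4 := zp_inj hw h3
      exact ha (neg_eq_zero.1 h4)
    have h5 := mul_neg_geom_sum (zp w (-a)) Q
    rw [zp_pow hw, sub_self] at h5
    rcases mul_eq_zero.1 h5 with h6 | h6
    · exact absurd (sub_eq_zero.1 h6).symm h2
    · exact h6

/-- Fourier coefficients -/
theorem rld_fourier {H Ω : Type u} [Group H] [Field Ω] [MulSemiringAction H Ω] {Q : ℕ} {w : Ω} (hw : PZ Q w)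
    (hwH : ∀ h : H, h • w = w) {θ : H → ZMod Q} (hadd : ∀ g h, θ (g * h) = θ g + θ h) {h₀ : H} (h₀1 : θ h₀ = 1)
    {ρ : Ω} (hρ0 : ρ ≠ 0) (hρ : ∀ h : H, h • ρ = zp w (θ h) * ρ) {y : Ω} (hy : ∀ h : H, θ h = 0 → h • y = y) :
    ∃ Y : Fin Q → Ω, (∀ i, ∀ h : H, h • Y i = Y i) ∧ ∀ s : ℕ, h₀ ^ s • y = ∑ i, Y i * (w ^ s * ρ) ^ (i : ℕ) := by
  have hQ := hw.neZero
  have hQΩ : (Q : Ω) ≠ 0 := hw.cast_ne
  have hF : ∀ g : H, g • y = h₀ ^ (θ g).val • y := by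
    intro g
    have h1 : θ ((h₀ ^ (θ g).val)⁻¹ * g) = 0 := by
      have h2 : θ (h₀ ^ (θ g).val * ((h₀ ^ (θ g).val)⁻¹ * g)) = θ g := by
        rw [mul_inv_cancel_left]
      rw [hadd, hom_pow hadd h₀1, ZMod.natCast_zmod_val] at h2
      exact (add_eq_left.1 h2)
    have h3 := hy _ h1
    rw [mul_smul, inv_smul_eq_iff] at h3
    exact h3
  have hFa : ∀ (g : H) (a : ZMod Q), g • h₀ ^ a.val • y = h₀ ^ (θ g + a).val • y := by
    intro g a
    rw [← mul_smul, hF, hadd, hom_pow hadd h₀1, ZMod.natCast_zmod_val]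
  let Y : Fin Q → Ω := fun i => (Q : Ω)⁻¹ * ∑ a : ZMod Q, zp w (-(((i : ℕ) : ZMod Q) * a)) * ρ⁻¹ ^ (i : ℕ) * h₀ ^ a.val • y
  have hYfix : ∀ i, ∀ h : H, h • Y i = Y i := by
    intro i h
    show h • ((Q : Ω)⁻¹ * ∑ a : ZMod Q, zp w (-(((i : ℕ) : ZMod Q) * a)) * ρ⁻¹ ^ (i : ℕ) * h₀ ^ a.val • y) =
      (Q : Ω)⁻¹ * ∑ a : ZMod Q, zp w (-(((i : ℕ) : ZMod Q) * a)) * ρ⁻¹ ^ (i : ℕ) * h₀ ^ a.val • y
    have h1 : h • (Q : Ω)⁻¹ = (Q : Ω)⁻¹ := by
      rw [smul_inv'']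
      congr 1
      exact map_natCast (MulSemiringAction.toRingHom H Ω h) Q
    rw [smul_mul', h1, Finset.smul_sum]
    congr 1
    conv_rhs => rw [← Equiv.sum_comp (Equiv.addLeft (θ h))]
    refine Finset.sum_congr rfl fun a _ => ?_
    rw [smul_mul', smul_mul', smul_zp (hwH h), smul_pow', smul_inv'', hρ, hFa, Equiv.coe_addLeft, mul_inv, mul_pow,
      ← zp_neg hw, zp_val_pow hw, ← mul_assoc, ← zp_add hw]
    congr 3
    ring
  refine ⟨Y, hYfix, ?_⟩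
  have hy1 : y = ∑ i, Y i * ρ ^ (i : ℕ) := by
    have h2 : ∀ i : Fin Q, Y i * ρ ^ (i : ℕ) = (Q : Ω)⁻¹ * ∑ a : ZMod Q, zp w (-(((i : ℕ) : ZMod Q) * a)) * h₀ ^ a.val • y := by
      intro i
      show (Q : Ω)⁻¹ * (∑ a : ZMod Q, zp w (-(((i : ℕ) : ZMod Q) * a)) * ρ⁻¹ ^ (i : ℕ) * h₀ ^ a.val • y) * ρ ^ (i : ℕ) = _
      rw [mul_assoc, Finset.sum_mul]
      congr 1
      refine Finset.sum_congr rfl fun a _ => ?_
      have h3 : ρ⁻¹ ^ (i : ℕ) * ρ ^ (i : ℕ) = 1 := by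
        rw [← mul_pow, inv_mul_cancel₀ hρ0, one_pow]
      calc zp w (-(((i : ℕ) : ZMod Q) * a)) * ρ⁻¹ ^ (i : ℕ) * h₀ ^ a.val • y * ρ ^ (i : ℕ)
          = zp w (-(((i : ℕ) : ZMod Q) * a)) * (h₀ ^ a.val • y) * (ρ⁻¹ ^ (i : ℕ) * ρ ^ (i : ℕ)) := by ring
        _ = _ := by rw [h3, mul_one]
    rw [Finset.sum_congr rfl fun i _ => h2 i, ← Finset.mul_sum, Finset.sum_comm]
    have h4 : ∀ a : ZMod Q, ∑ i : Fin Q, zp w (-(((i : ℕ) : ZMod Q) * a)) * h₀ ^ a.val • y =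
        (if a = 0 then (Q : Ω) else 0) * h₀ ^ a.val • y := by
      intro a
      rw [← Finset.sum_mul, rld_orth hw]
    rw [Finset.sum_congr rfl fun a _ => h4 a, Finset.sum_eq_single (0 : ZMod Q)]
    · rw [if_pos rfl, ZMod.val_zero, pow_zero, one_smul, ← mul_assoc, inv_mul_cancel₀ hQΩ, one_mul]
    · intro a _ ha
      rw [if_neg ha, zero_mul]
    · intro h5
      exact absurd (Finset.mem_univ _) h5
  intro s
  conv_lhs => rw [hy1]
  rw [Finset.smul_sum]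
  refine Finset.sum_congr rfl fun i _ => ?_
  rw [smul_mul', hYfix, smul_pow', hρ, hom_pow hadd h₀1, zp_nat hw]

/-- a character with values in `ZMod (p ^ M)` -/
theorem rld_char {H : Type u} [Group H] [TopologicalSpace H] {p M : ℕ} (hp : p.Prime) {χ : H → ZMod (p ^ M)}
    (hχ : Continuous χ) (hadd : ∀ g h, χ (g * h) = χ g + χ h) (hne : ¬ ∀ h, χ h = 0) :
    ∃ (i r : ℕ) (θ : H → ZMod (p ^ (r + 1))) (h₀ : H), p ^ M = p ^ (r + 1) * p ^ i ∧ Continuous θ ∧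
      (∀ g h, θ (g * h) = θ g + θ h) ∧ θ h₀ = 1 ∧ ∀ h, χ h = ((p ^ i * (θ h).val : ℕ) : ZMod (p ^ M)) := by
  classical
  have hM : NeZero (p ^ M) := ⟨pow_ne_zero _ hp.ne_zero⟩
  push Not at hne
  obtain ⟨h₁, hh₁⟩ := hne
  have hM0 : M ≠ 0 := by
    rintro rfl
    apply hh₁
    apply ZMod.val_injective
    have h1 : (χ h₁).val < 1 := ZMod.val_lt (χ h₁)
    rw [Nat.lt_one_iff] at h1
    rw [h1]
    exact ZMod.val_zero.symm
  have hP : ∃ i : ℕ, ∃ h, ¬ p ^ (i + 1) ∣ (χ h).val := by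
    refine ⟨M - 1, h₁, ?_⟩
    rw [Nat.sub_add_cancel (Nat.one_le_iff_ne_zero.2 hM0)]
    intro h2
    have h3 := Nat.eq_zero_of_dvd_of_lt h2 (ZMod.val_lt _)
    exact hh₁ ((ZMod.val_eq_zero _).1 h3)
  set i := Nat.find hP with hi
  have hiM : i < M := by
    have h4 : i ≤ M - 1 := by
      refine Nat.find_min' hP ⟨h₁, ?_⟩
      rw [Nat.sub_add_cancel (Nat.one_le_iff_ne_zero.2 hM0)]
      intro h2
      have h3 := Nat.eq_zero_of_dvd_of_lt h2 (ZMod.val_lt _)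
      exact hh₁ ((ZMod.val_eq_zero _).1 h3)
    omega
  obtain ⟨h₂, hh₂⟩ := Nat.find_spec hP
  rw [← hi] at hh₂
  have hdiv : ∀ h, p ^ i ∣ (χ h).val := by
    intro h
    rcases Nat.eq_zero_or_pos i with h0 | h0
    · rw [h0, pow_zero]
      exact one_dvd _
    · by_contra h5
      have h6 := Nat.find_min hP (m := i - 1) (by omega)
      apply h6
      refine ⟨h, ?_⟩
      rw [Nat.sub_add_cancel h0]
      exact h5
  obtain ⟨r, hr⟩ : ∃ r, M = r + 1 + i := ⟨M - i - 1, by omega⟩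
  have hpi : 0 < p ^ i := pow_pos hp.pos _
  have hMr : p ^ M = p ^ (r + 1) * p ^ i := by rw [hr, pow_add]
  have hR : NeZero (p ^ (r + 1)) := ⟨pow_ne_zero _ hp.ne_zero⟩
  let θ : H → ZMod (p ^ (r + 1)) := fun h => (((χ h).val / p ^ i : ℕ) : ZMod (p ^ (r + 1)))
  have hθv : ∀ h, (θ h).val = (χ h).val / p ^ i := by
    intro h
    show ((((χ h).val / p ^ i : ℕ) : ZMod (p ^ (r + 1)))).val = _
    apply ZMod.val_cast_of_lt
    rw [Nat.div_lt_iff_lt_mul hpi, ← hMr]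
    exact ZMod.val_lt _
  have hθχ : ∀ h, p ^ i * (θ h).val = (χ h).val := by
    intro h
    rw [hθv, Nat.mul_div_cancel' (hdiv h)]
  have hθadd : ∀ g h, θ (g * h) = θ g + θ h := by
    intro g h
    have h1 : ((p ^ i * (θ (g * h)).val : ℕ) : ZMod (p ^ M)) = ((p ^ i * ((θ g).val + (θ h).val) : ℕ) : ZMod (p ^ M)) := by
      rw [mul_add, hθχ, hθχ, hθχ, Nat.cast_add, ZMod.natCast_zmod_val, ZMod.natCast_zmod_val, ZMod.natCast_zmod_val, hadd]
    rw [ZMod.natCast_eq_natCast_iff, hMr, mul_comm (p ^ (r + 1)) (p ^ i)] at h1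
    have h2 := Nat.ModEq.mul_left_cancel' (c := p ^ i) hpi.ne' h1
    have h3 := (ZMod.natCast_eq_natCast_iff _ _ _).2 h2
    rw [Nat.cast_add, ZMod.natCast_zmod_val, ZMod.natCast_zmod_val, ZMod.natCast_zmod_val] at h3
    exact h3
  have hθc : Continuous θ :=
    (continuous_of_discreteTopology (f := fun x : ZMod (p ^ M) => ((x.val / p ^ i : ℕ) : ZMod (p ^ (r + 1))))).comp hχ
  have hpθ : ¬ p ∣ (θ h₂).val := by
    intro h1
    apply hh₂
    rw [← hθχ, pow_succ]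
    exact Nat.mul_dvd_mul_left _ h1
  have hcop : (θ h₂).val.Coprime (p ^ (r + 1)) := ((hp.coprime_iff_not_dvd.2 hpθ).symm).pow_right _
  have hpw : ∀ k : ℕ, θ (h₂ ^ k) = (k : ZMod (p ^ (r + 1))) * θ h₂ := by
    intro k
    induction k with
    | zero => rw [pow_zero, hom_one hθadd, Nat.cast_zero, zero_mul]
    | succ k ih =>
      rw [pow_succ h₂ k, hθadd, ih, Nat.cast_succ]
      ring
  refine ⟨i, r, θ, h₂ ^ ((θ h₂)⁻¹).val, hMr, hθc, hθadd, ?_, ?_⟩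
  · rw [hpw, ZMod.natCast_zmod_val, mul_comm]
    have h1 := ZMod.coe_mul_inv_eq_one (θ h₂).val hcop
    rw [ZMod.natCast_zmod_val] at h1
    exact h1
  · intro h
    rw [hθχ, ZMod.natCast_zmod_val]

private theorem rld_km {G Ω : Type u} [Group G] [TopologicalSpace G] [Field Ω] [MulSemiringAction G Ω] (hG : GA G Ω)
    {N n k : ℕ} (hN : N = n * k) {ζ : Ω} (hz : PZ N ζ) (hn : PZ n (ζ ^ k)) {a : Ω} (ha : a ≠ 0) {g : G}
    (hg : g • ζ = ζ) (hga : g • a = a) : km n (ζ ^ k) a g = ((km N ζ a g).val : ZMod n) := by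
  subst hN
  have := hz.neZero
  rw [km_level hG hz hn ha hg hga, ZMod.castHom_apply, ZMod.natCast_val]

theorem rld {H Ω : Type u} [Group H] [TopologicalSpace H] [Field Ω] [MulSemiringAction H Ω] (hH : GA H Ω) {p M : ℕ} (hp : p.Prime)
    {z : Ω} (hz : PZ (p ^ M) z) (hzH : ∀ h : H, h • z = z) {t u ρ : Ω} (ht : Fx H t) (hu : Fx H u) (hρ : ρ ^ (p ^ M) = u)
    (hs : Cu (sb (H := H) (p ^ M) z t u) (fun _ _ => 1)) :
    (∀ h : H, h • ρ = ρ) ∨ ∃ (r : ℕ) (z' : Ω) (h₀ : H) (y : Fin (p ^ (r + 1)) → Ω), IsPrimitiveRoot z' (p ^ (r + 1)) ∧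
      (∀ h : H, h • z' = z') ∧ h₀ • ρ = z' * ρ ∧ (∀ i, ∀ h : H, h • y i = y i) ∧
      t = ∏ s ∈ Finset.range (p ^ (r + 1)), ∑ i, y i * (z' ^ s * ρ) ^ (i : ℕ) := by
  classical
  have halg := hH.alg
  have hn := hz.neZero
  let χ : H → ZMod (p ^ M) := fun h => km (p ^ M) z u h
  have hχc : Continuous χ := km_cont hH _ _ _
  have hχadd : ∀ g h, χ (g * h) = χ g + χ h := fun g h => km_hom hz hu.1 (hzH g) (hzH h) (hu.2 g) (hu.2 h)
  have hρχ : ∀ h : H, h • ρ = zp z (χ h) * ρ := fun h => km_root hz hu.1 hρ (hzH h) (hu.2 h)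
  by_cases h0 : ∀ h, χ h = 0
  · left
    intro h
    rw [hρχ, h0, zp_zero hz, one_mul]
  right
  have hρ0 : ρ ≠ 0 := by
    intro h1
    rw [h1, zero_pow (NeZero.ne _)] at hρ
    exact hu.1 hρ.symm
  obtain ⟨i, r, θ, h₀, hMr, hθc, hθadd, hθ1, hχθ⟩ := rld_char hp hχc hχadd h0
  have hR : NeZero (p ^ (r + 1)) := ⟨pow_ne_zero _ hp.ne_zero⟩
  have hpz : PZ (p ^ (r + 1)) (z ^ (p ^ i)) := by
    refine ⟨?_, Nat.one_lt_pow (Nat.succ_ne_zero r) hp.one_lt, ?_⟩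
    · have h1 := hz.odd
      rw [hMr] at h1
      exact (Nat.odd_mul.1 h1).1
    · exact hz.prim.pow (Nat.pos_of_ne_zero (NeZero.ne _)) (by rw [hMr, mul_comm])
  have hz'H : ∀ h : H, h • z ^ (p ^ i) = z ^ (p ^ i) := fun h => by rw [smul_pow', hzH]
  have hzz : ∀ (A : ZMod (p ^ M)) (h : H), zp z (A * χ h) = zp (z ^ (p ^ i)) ((A.val : ZMod (p ^ (r + 1))) * θ h) := by
    intro A h
    have h1 : A * χ h = ((A.val * (p ^ i * (θ h).val) : ℕ) : ZMod (p ^ M)) := by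
      rw [Nat.cast_mul, ZMod.natCast_zmod_val, hχθ]
    have h2 : (A.val : ZMod (p ^ (r + 1))) * θ h = ((A.val * (θ h).val : ℕ) : ZMod (p ^ (r + 1))) := by
      rw [Nat.cast_mul, ZMod.natCast_zmod_val]
    rw [h1, h2, zp_nat hz, zp_nat hpz, ← pow_mul]
    congr 1
    ring
  have hρθ : ∀ h : H, h • ρ = zp (z ^ (p ^ i)) (θ h) * ρ := by
    intro h
    rw [hρχ, hχθ, zp_nat hz, pow_mul]
    rfl
  have hs1 : Cu (fun g h : H => zp (z ^ (p ^ i)) (km (p ^ (r + 1)) (z ^ (p ^ i)) t g * θ h)) (fun _ _ => 1) := by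
    have h1 : sb (H := H) (p ^ M) z t u = fun g h : H => zp (z ^ (p ^ i)) (km (p ^ (r + 1)) (z ^ (p ^ i)) t g * θ h) := by
      funext g h
      rw [rld_km hH hMr hz hpz ht.1 (hzH g) (ht.2 g)]
      exact hzz (km (p ^ M) z t g) h
    rw [← h1]
    exact hs
  have hs2 := cy_km hH hpz hz'H hθc hθadd ht
  have hs3 : Cu (fun g h : H => t ^ cy θ g h) (fun _ _ => 1) := by
    have h1 := Cu_mul (Cu_inv hs1) hs2
    have e1 : (fun g h : H => (zp (z ^ (p ^ i)) (km (p ^ (r + 1)) (z ^ (p ^ i)) t g * θ h))⁻¹ *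
        (zp (z ^ (p ^ i)) (km (p ^ (r + 1)) (z ^ (p ^ i)) t g * θ h) * t ^ cy θ g h)) = fun g h : H => t ^ cy θ g h := by
      funext g h
      exact inv_mul_cancel_left₀ (zp_ne hpz _) _
    have e2 : (fun _ _ : H => (1 : Ω)⁻¹ * 1) = fun _ _ : H => (1 : Ω) := by
      funext g h
      rw [inv_one, one_mul]
    rw [e1, e2] at h1
    exact h1
  let N : Subgroup H :=
    { carrier := {g | θ g = 0}
      mul_mem' := fun {a b} ha hb => by
        show θ (a * b) = 0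
        rw [hθadd, show θ a = 0 from ha, show θ b = 0 from hb, add_zero]
      one_mem' := hom_one hθadd
      inv_mem' := fun {a} ha => by
        show θ a⁻¹ = 0
        have h1 := hθadd a⁻¹ a
        rw [inv_mul_cancel, hom_one hθadd, show θ a = 0 from ha, add_zero] at h1
        exact h1.symm }
  have hN : ∀ g, g ∈ N ↔ θ g = 0 := fun g => Iff.rfl
  obtain ⟨y, hy0, hyN, hty⟩ := norm_of_cy hH hθc hθadd hθ1 hN ht hs3
  obtain ⟨Y, hYf, hY⟩ := rld_fourier hpz hz'H hθadd hθ1 hρ0 hρθ (y := y) (fun h hh => hyN h ((hN h).2 hh))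
  refine ⟨r, z ^ (p ^ i), h₀, Y, hpz.prim, hz'H, ?_, hYf, ?_⟩
  · have h1 := hρθ h₀
    have h2 : zp (z ^ (p ^ i)) (1 : ZMod (p ^ (r + 1))) = z ^ (p ^ i) := by
      have h3 := zp_nat hpz 1
      rw [Nat.cast_one, pow_one] at h3
      exact h3
    rw [hθ1, h2] at h1
    exact h1
  · rw [hty]
    exact Finset.prod_congr rfl fun s _ => hY s

end MSC
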