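import Pool.Agent.MSC.Rlc
import Pool.Agent.MSC.Rld

/-! # MSC / Rle: if `(t, u)` is trivial over the field of all roots of unity of `p`-power order then `u` is an `n`-th power there

PROOF of `rle`.  `H = Gi p G Ω`, `hB L (S t u) = 0` gives `Cu (sb n z (j t) (j u)) 1` on `H` (`hB_S`, `cu_of_bc_eq`).  Apply `rld`; suppose the second alternative: `Q = p ^ (r+1)`, `z'`, `h₀`, `y i` fixed by `Gi`,
`j tL = ∏ s < Q, ∑ i < Q, y i * (z' ^ s * ρ) ^ i`.  Let `e` be as in `exists_e`, `q = ringExpChar Ω` (prime to `p`), `ser` for the `y i`: `a`, `s i`.  `const_root`: `e ρ = algebraMap (cL r')` (`ρ ^ n = j (cL u)`), `e z' = algebraMap (cL ζ')`.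
Take `q ^ a`-th powers and apply `e` (injectivity of `algebraMap`): in `kb((t))`: `(mapK tL) ^ (q ^ a) = ∏ s < Q, ∑ i < Q, s i * cL ((ζ' ^ s * r') ^ (i q ^ a))`.
Not all `s i` are `0` (the left side is not `0`); let `n₀` be the minimum of the orders of the nonzero `s i`.  The coefficient at `n₀` of the factor for `s` is `∑ i, (s i).coeff n₀ * (ζ' ^ s * r') ^ (i q ^ a)`, whose image in `XX` is `e (∑ i, c i * (z' ^ s * ρ) ^ (i q ^ a))`, `c i` fixed by `Gi`,
not all zero.  CLAIM `indep`: `∑ i < Q, c i * v i ≠ 0` for `v i = (z' ^ s * ρ) ^ (i q ^ a) ≠ 0`, `h₀ • v i = (z' ^ (i q ^ a)) * v i` with different eigenvalues (`i < Q`, `q` prime to `p`): apply `h₀ ^ l`, `l < Q`, to `∑ c i v i = 0`: `∑ (z' ^ (i q ^ a)) ^ l c i v i = 0`, Vandermonde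
(`Matrix.det_vandermonde_ne_zero_iff`).  So every factor has order exactly `n₀` (the lower coefficients vanish), and the product has order `Q n₀`; the left side has order `q ^ a` (`mapK tL = tL`).  So `p` divides `q ^ a`, a contradiction (`q = 1` or `q` prime, `≠ p`).
-/

set_option autoImplicit false
set_option linter.unusedVariables false

namespace MSC

universe u

open MSG MSN

open Pool.Agent.MK (K2 S)

section auxRle

private theorem ord_eq {K : Type u} [Field K] {x : LaurentSeries K} {n : ℤ} (h1 : x.coeff n ≠ 0)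
    (h2 : ∀ m < n, x.coeff m = 0) : x.order = n := by
  have hx : x ≠ 0 := by
    rintro rfl
    exact h1 HahnSeries.coeff_zero
  refine le_antisymm (HahnSeries.order_le_of_coeff_ne_zero h1) ?_
  by_contra hlt
  push Not at hlt
  exact hx (HahnSeries.coeff_order_eq_zero.1 (h2 _ hlt))

private theorem ord_pow {K : Type u} [Field K] {x : LaurentSeries K} (hx : x ≠ 0) (n : ℕ) :
    (x ^ n).order = (n : ℤ) * x.order := by
  induction n with
  | zero => rw [pow_zero, HahnSeries.order_one, Nat.cast_zero, zero_mul]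
  | succ n ih =>
    rw [pow_succ, HahnSeries.order_mul (pow_ne_zero _ hx) hx, ih]
    push_cast
    ring

private theorem ord_prod {K : Type u} [Field K] {f : ℕ → LaurentSeries K} {n : ℤ}
    (hf : ∀ i, f i ≠ 0 ∧ (f i).order = n) (Q : ℕ) :
    (∏ i ∈ Finset.range Q, f i) ≠ 0 ∧ (∏ i ∈ Finset.range Q, f i).order = (Q : ℤ) * n := by
  induction Q with
  | zero =>
    rw [Finset.prod_range_zero, HahnSeries.order_one, Nat.cast_zero, zero_mul]
    exact ⟨one_ne_zero, rfl⟩
  | succ Q ih =>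
    rw [Finset.prod_range_succ]
    refine ⟨mul_ne_zero ih.1 (hf Q).1, ?_⟩
    rw [HahnSeries.order_mul ih.1 (hf Q).1, ih.2, (hf Q).2]
    push_cast
    ring

private theorem coeff_mul_cL {K : Type u} [Field K] (x : LaurentSeries K) (c : K) (m : ℤ) :
    (x * cL c).coeff m = x.coeff m * c := by
  have h1 : x * cL c = c • x := by
    rw [mul_comm]
    exact HahnSeries.C_mul_eq_smul
  rw [h1, HahnSeries.coeff_smul, smul_eq_mul, mul_comm]

private theorem mapK_cL {k : Type u} [Field k] (x : k) :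
    mapK k (cL x) = cL (algebraMap k (AlgebraicClosure k) x) := by
  ext n
  rw [mapK_coeff]
  show algebraMap k (AlgebraicClosure k) ((HahnSeries.C x : LaurentSeries k).coeff n) =
    (HahnSeries.C (algebraMap k (AlgebraicClosure k) x) : LaurentSeries (AlgebraicClosure k)).coeff n
  rw [HahnSeries.C_apply, HahnSeries.C_apply, HahnSeries.coeff_single, HahnSeries.coeff_single]
  split_ifs
  · rfl
  · rw [map_zero]

private theorem mapK_tL_order {k : Type u} [Field k] : (mapK k (tL k)).order = 1 := by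
  have h1 : (tL k).order = 1 := tL_v.1
  have h0 : (tL k).coeff 1 ≠ 0 := by
    intro h
    rw [← h1] at h
    exact tL_ne (HahnSeries.coeff_order_eq_zero.1 h)
  refine ord_eq ?_ (fun m hm => ?_)
  · rw [mapK_coeff]
    exact (map_ne_zero _).2 h0
  · rw [mapK_coeff, HahnSeries.coeff_eq_zero_of_lt_order (by rw [h1]; exact hm), map_zero]

private theorem q_cop {K : Type u} [Field K] (q : ℕ) [hq : ExpChar K q] {p : ℕ} (hp : p.Prime)
    (h : (p : K) ≠ 0) : q.Coprime p := by
  rcases hq with _ | hq'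
  · exact Nat.coprime_one_left p
  · rw [Nat.coprime_primes hq' hp]
    intro e
    apply h
    rw [← e]
    exact CharP.cast_eq_zero K q

private theorem sum_q {K : Type u} [Field K] (q : ℕ) [ExpChar K q] (a : ℕ) {ι : Type} [Fintype ι]
    (f : ι → K) : (∑ i, f i) ^ (q ^ a) = ∑ i, f i ^ (q ^ a) := by
  have h1 := map_sum (iterateFrobenius K q a) f Finset.univ
  simpa only [iterateFrobenius_def] using h1

end auxRle

theorem indep {H Ω : Type u} [Group H] [Field Ω] [MulSemiringAction H Ω] {Q : ℕ} (h₀ : H) (c v l : Fin Q → Ω)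
    (hc : ∀ i, h₀ • c i = c i) (hl : ∀ i, h₀ • l i = l i) (hv : ∀ i, h₀ • v i = l i * v i) (hv0 : ∀ i, v i ≠ 0)
    (hinj : Function.Injective l) (h : ∑ i, c i * v i = 0) : ∀ i, c i = 0 := by
  have key : ∀ m : ℕ, ∑ i, (c i * v i) * l i ^ m = 0 := by
    intro m
    induction m with
    | zero => simpa using h
    | succ m ih =>
      have h1 : h₀ • (∑ i, (c i * v i) * l i ^ m) = ∑ i, (c i * v i) * l i ^ (m + 1) := by
        rw [Finset.smul_sum]
        refine Finset.sum_congr rfl fun i _ => ?_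
        rw [smul_mul', smul_mul', smul_pow', hc i, hl i, hv i]
        ring
      rw [← h1, ih, smul_zero]
  have hdet : (Matrix.vandermonde l).det ≠ 0 := Matrix.det_vandermonde_ne_zero_iff.2 hinj
  have hz : Matrix.vecMul (fun i => c i * v i) (Matrix.vandermonde l) = 0 := by
    funext m
    exact key m
  have h0 := Matrix.eq_zero_of_vecMul_eq_zero hdet hz
  intro i
  have h1 : c i * v i = 0 := congrFun h0 i
  exact (mul_eq_zero.1 h1).resolve_right (hv0 i)

theorem rle {p : ℕ} (hp : p.Prime) {k G Ω : Type u} [Field k] [Group G] [TopologicalSpace G] [Field Ω] [MulSemiringAction G Ω]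
    {j : LaurentSeries k →+* Ω} (h : Ov (LaurentSeries k) G j) {M : ℕ} {z : Ω} (L : Lv (p ^ M) (Gi p G Ω) z j) (u : kˣ)
    (hs : hB L (S (tL k) (cL (u : k))) = 0) {ρ : Ω} (hρ : ρ ^ (p ^ M) = j (cL (u : k))) : ∀ g ∈ Gi p G Ω, g • ρ = ρ := by
  classical
  have ht0 : tL k ≠ 0 := tL_ne
  have hu0 : (cL (u : k) : LaurentSeries k) ≠ 0 := cL_ne u.ne_zero
  have hpos : ∀ n : ℕ, 0 < p ^ n := fun n => Nat.pos_of_ne_zero (pow_ne_zero _ hp.ne_zero)
  rw [hB_S L ht0 hu0, ← bc_one] at hs
  have hcu := cu_of_bc_eq (nz_sb L.pz _ _) (fun _ _ => one_ne_zero) hs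
  rcases rld L.ga hp L.pz L.fz (L.fx ht0) (L.fx hu0) hρ hcu with h1 | h1
  · exact fun g hg => h1 ⟨g, hg⟩
  exfalso
  obtain ⟨r, z', h₀, y, hz', hz'H, hρ', hy, ht⟩ := h1
  -- `p` is invertible
  have hpΩ : (p : Ω) ≠ 0 := by
    have h2 : NeZero (p ^ (r + 1)) := ⟨(hpos _).ne'⟩
    have h3 := hz'.neZero'
    intro h4
    apply h3.ne
    rw [Nat.cast_pow, h4, zero_pow (Nat.succ_ne_zero r)]
  have hqE : ExpChar Ω (ringExpChar Ω) := inferInstance
  have hqp : (ringExpChar Ω).Coprime p := q_cop (ringExpChar Ω) hp hpΩ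
  obtain ⟨e, he⟩ := exists_e h
  obtain ⟨a, s, hsr⟩ := ser hp h hpΩ he y (fun i g hg => hy i ⟨g, hg⟩)
  -- constants
  have hρ0 : ρ ≠ 0 := by
    intro h2
    rw [h2, zero_pow (hpos M).ne'] at hρ
    exact (L.fx hu0).1 hρ.symm
  have hz0 : z' ≠ 0 := hz'.ne_zero (hpos _).ne'
  obtain ⟨r', hr'⟩ := const_root (hpos M) (y := e ρ) (x := algebraMap k (AlgebraicClosure k) (u : k))
    (by rw [← map_pow, hρ, he, mapK_cL])
  obtain ⟨ζ', hζ'⟩ := const_root (k := k) (hpos (r + 1)) (y := e z') (x := 1)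
    (by rw [← map_pow, hz'.pow_eq_one, map_one, map_one, map_one])
  have hw : ∀ (t i : ℕ), e ((z' ^ t * ρ) ^ i) =
      algebraMap (LaurentSeries (AlgebraicClosure k)) _ (cL ((ζ' ^ t * r') ^ i)) := by
    intro t i
    rw [map_pow, map_mul, map_pow, hr', hζ', map_pow, map_mul, map_pow, map_pow, map_mul, map_pow]
  have hinjA : Function.Injective (algebraMap (LaurentSeries (AlgebraicClosure k))
      (AlgebraicClosure (LaurentSeries (AlgebraicClosure k)))) :=
    (algebraMap (LaurentSeries (AlgebraicClosure k))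
      (AlgebraicClosure (LaurentSeries (AlgebraicClosure k)))).injective
  -- the product formula
  have hprod : mapK k (tL k) ^ (ringExpChar Ω ^ a) = ∏ t ∈ Finset.range (p ^ (r + 1)),
      ∑ i, s i * cL ((ζ' ^ t * r') ^ ((i : ℕ) * ringExpChar Ω ^ a)) := by
    apply hinjA
    rw [map_pow, ← he, ← map_pow, ht, map_prod, ← Finset.prod_pow, map_prod]
    refine Finset.prod_congr rfl fun t _ => ?_
    rw [sum_q (ringExpChar Ω) a, map_sum, map_sum]
    refine Finset.sum_congr rfl fun i _ => ?_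
    rw [mul_pow, ← pow_mul, map_mul, map_mul, (hsr i).1, hw]
  have hLne : mapK k (tL k) ≠ 0 := (map_ne_zero _).2 ht0
  -- some `s i` is not zero
  have hex : ∃ i, s i ≠ 0 := by
    by_contra hcon
    push Not at hcon
    have h2 : mapK k (tL k) ^ (ringExpChar Ω ^ a) = 0 := by
      rw [hprod]
      refine Finset.prod_eq_zero (Finset.mem_range.2 (hpos (r + 1))) ?_
      refine Finset.sum_eq_zero fun i _ => ?_
      rw [hcon i, zero_mul]
    exact pow_ne_zero _ hLne h2
  obtain ⟨i₀, hi₀, hmin⟩ := Finset.exists_min_image (Finset.univ.filter fun i => s i ≠ 0)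
    (fun i => (s i).order) (by
      obtain ⟨i, hi⟩ := hex
      exact ⟨i, Finset.mem_filter.2 ⟨Finset.mem_univ _, hi⟩⟩)
  have hi₀' : s i₀ ≠ 0 := (Finset.mem_filter.1 hi₀).2
  have hlow : ∀ i, ∀ m < (s i₀).order, (s i).coeff m = 0 := by
    intro i m hm
    by_cases hsi : s i = 0
    · rw [hsi]
      exact HahnSeries.coeff_zero
    · exact HahnSeries.coeff_eq_zero_of_lt_order
        (lt_of_lt_of_le hm (hmin i (Finset.mem_filter.2 ⟨Finset.mem_univ _, hsi⟩)))
  have hcf : ∀ (t : ℕ) (m : ℤ),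
      (∑ i, s i * cL ((ζ' ^ t * r') ^ ((i : ℕ) * ringExpChar Ω ^ a))).coeff m =
      ∑ i, (s i).coeff m * (ζ' ^ t * r') ^ ((i : ℕ) * ringExpChar Ω ^ a) := by
    intro t m
    rw [HahnSeries.coeff_sum]
    exact Finset.sum_congr rfl fun i _ => coeff_mul_cL _ _ _
  have hprim : IsPrimitiveRoot (z' ^ (ringExpChar Ω ^ a)) (p ^ (r + 1)) :=
    hz'.pow_of_coprime _ (Nat.Coprime.pow _ _ hqp)
  -- the order of every factor
  have hfac : ∀ t : ℕ, (∑ i, s i * cL ((ζ' ^ t * r') ^ ((i : ℕ) * ringExpChar Ω ^ a))) ≠ 0 ∧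
      (∑ i, s i * cL ((ζ' ^ t * r') ^ ((i : ℕ) * ringExpChar Ω ^ a))).order = (s i₀).order := by
    intro t
    have hne : (∑ i, s i * cL ((ζ' ^ t * r') ^ ((i : ℕ) * ringExpChar Ω ^ a))).coeff (s i₀).order ≠ 0 := by
      rw [hcf]
      intro h2
      choose c hc using fun i => (hsr i).2 (s i₀).order
      have h3 : ∑ i, c i * (z' ^ t * ρ) ^ ((i : ℕ) * ringExpChar Ω ^ a) = 0 := by
        apply e.injective
        rw [map_sum, map_zero]
        have h4 : ∀ i, e (c i * (z' ^ t * ρ) ^ ((i : ℕ) * ringExpChar Ω ^ a)) =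
            algebraMap (LaurentSeries (AlgebraicClosure k)) _
              (cL ((s i).coeff (s i₀).order * (ζ' ^ t * r') ^ ((i : ℕ) * ringExpChar Ω ^ a))) := by
          intro i
          rw [map_mul, (hc i).2, hw, map_mul, map_mul]
        rw [Finset.sum_congr rfl fun i _ => h4 i, ← map_sum, ← map_sum, h2, map_zero, map_zero]
      have h5 := indep h₀ c (fun i => (z' ^ t * ρ) ^ ((i : ℕ) * ringExpChar Ω ^ a))
        (fun i => (z' ^ (ringExpChar Ω ^ a)) ^ (i : ℕ)) (fun i => (hc i).1 h₀ h₀.2)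
        (fun i => by rw [smul_pow', smul_pow', hz'H])
        (fun i => by
          rw [smul_pow', smul_mul', smul_pow', hz'H, hρ']
          rw [← pow_mul, mul_comm (ringExpChar Ω ^ a) (i : ℕ), ← mul_pow]
          congr 1
          ring)
        (fun i => pow_ne_zero _ (mul_ne_zero (pow_ne_zero _ hz0) hρ0))
        (fun i i' hii => Fin.ext (hprim.pow_inj i.2 i'.2 hii)) h3 i₀
      have h6 := (hc i₀).2
      rw [h5, map_zero] at h6
      have h7 : (cL ((s i₀).coeff (s i₀).order) : LaurentSeries (AlgebraicClosure k)) = 0 := by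
        apply hinjA
        rw [map_zero]
        exact h6.symm
      have h8 : (s i₀).coeff (s i₀).order = 0 := by
        by_contra h9
        exact cL_ne h9 h7
      exact hi₀' (HahnSeries.coeff_order_eq_zero.1 h8)
    refine ⟨?_, ord_eq hne (fun m hm => ?_)⟩
    · intro h2
      apply hne
      rw [h2]
      exact HahnSeries.coeff_zero
    · rw [hcf]
      refine Finset.sum_eq_zero fun i _ => ?_
      rw [hlow i m hm, zero_mul]
  have hord := (ord_prod hfac (p ^ (r + 1))).2
  rw [← hprod, ord_pow hLne, mapK_tL_order, mul_one] at hord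
  have hdvd : (p : ℤ) ∣ ((ringExpChar Ω ^ a : ℕ) : ℤ) := by
    rw [hord]
    refine Dvd.dvd.mul_right ?_ _
    exact_mod_cast Dvd.intro_left (p ^ r) (pow_succ p r).symm
  have hdvd' : p ∣ ringExpChar Ω ^ a := by exact_mod_cast hdvd
  have h10 : p ∣ ringExpChar Ω := hp.dvd_of_dvd_pow hdvd'
  have h11 : p ∣ 1 := by
    have h12 := Nat.dvd_gcd h10 (dvd_refl p)
    rwa [hqp] at h12
  exact hp.one_lt.ne' (Nat.dvd_one.1 h11)

end MSC
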