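import Pool.Agent.MSN.Ov
import Pool.Agent.MSG.Uf

/-! # MSC / Rlb: elements fixed by `Gi`

`(G, Ω, j)` a pair over `F`, `q = ringExpChar Ω`.

PROOF of `fix_gi`.  For `N : ℕ` let `ξ_N` be a primitive `p ^ N`-th root of unity (`(p : Ω) ≠ 0`) and `G_N` its stabilizer: open, decreasing, with intersection `Gi`; the stabilizer of `x` is open and contains `Gi`, so `G_N ≤ stab x` for some `N`
(`exists_le`).  Let `ξ = ξ_N`.  If `g • ξ = g' • ξ` then `g • x = g' • x`.  The orbit of `ξ` is finite (`GA.orbit_finite`); let `P₀` be the interpolation polynomial of degree `< #(G ξ)` with `P₀ (g • ξ) = g • x` for all `g` (`Lagrange.interpolate`).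
By uniqueness its coefficients `c_i` are fixed by `G`; so (`h.pi`) there is `a₀` with `c_i ^ (q ^ a) ∈ j F` for all `a ≥ a₀`, all `i`.  `x ^ (q ^ a) = (∑ c_i ξ ^ i) ^ (q ^ a) = ∑ c_i ^ (q ^ a) (ξ ^ (q ^ a)) ^ i` (`sum_pow_expChar_pow`-type lemmas; `q = 1` is trivial).
-/

set_option autoImplicit false
set_option linter.unusedVariables false

namespace MSC

universe u

open MSG MSN Polynomial

/-- a primitive root of unity of order `p ^ N` -/
theorem exists_xi {p : ℕ} (hp : p.Prime) {Ω : Type u} [Field Ω] [IsAlgClosed Ω] (hpΩ : (p : Ω) ≠ 0) (N : ℕ) :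
    ∃ ξ : Ω, IsPrimitiveRoot ξ (p ^ N) := by
  have h1 : NeZero ((p ^ N : ℕ) : Ω) := ⟨by
    rw [Nat.cast_pow]
    exact pow_ne_zero _ hpΩ⟩
  have h2 : HasEnoughRootsOfUnity Ω (p ^ N) := inferInstance
  exact HasEnoughRootsOfUnity.exists_primitiveRoot Ω (p ^ N)

theorem fix_gi {p : ℕ} (hp : p.Prime) {F G Ω : Type u} [Field F] [Group G] [TopologicalSpace G] [Field Ω] [MulSemiringAction G Ω]
    {j : F →+* Ω} (h : Ov F G j) (hpΩ : (p : Ω) ≠ 0) {x : Ω} (hx : ∀ g ∈ Gi p G Ω, g • x = x) :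
    ∃ a₀ : ℕ, ∀ a : ℕ, a₀ ≤ a → ∃ (N : ℕ) (ξ : Ω) (P : F[X]), ξ ^ (p ^ N) = 1 ∧ x ^ (ringExpChar Ω ^ a) = P.eval₂ j ξ := by
  classical
  have hG := h.ga
  have hal := hG.alg
  have htop := hG.top
  have hp0 : ∀ N : ℕ, p ^ N ≠ 0 := fun N => pow_ne_zero _ hp.ne_zero
  have hpos : ∀ N : ℕ, 0 < p ^ N := fun N => Nat.pos_of_ne_zero (hp0 N)
  choose ξ hξ using fun N => exists_xi hp hpΩ N
  have hpw : ∀ (k : ℕ) (y : Ω), y ^ (p ^ k) = 1 → ∃ i : ℕ, ξ k ^ i = y := by
    intro k y hy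
    have : NeZero (p ^ k) := ⟨hp0 k⟩
    obtain ⟨i, -, hi⟩ := (hξ k).eq_pow_of_pow_eq_one hy
    exact ⟨i, hi⟩
  obtain ⟨N, hN⟩ := MSG.exists_le hG (fun k => MulAction.stabilizer G (ξ k))
    (fun k => Subgroup.isClosed_of_isOpen _ (hG.stab (ξ k)))
    (by
      intro a b hab g hg
      have hg' : g • ξ b = ξ b := hg
      have h1 : ξ a ^ (p ^ b) = 1 := by
        obtain ⟨c, hc⟩ := Nat.exists_eq_add_of_le hab
        rw [hc, pow_add, pow_mul, (hξ a).pow_eq_one, one_pow]
      obtain ⟨i, hi⟩ := hpw b (ξ a) h1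
      change g • ξ a = ξ a
      rw [← hi, smul_pow', hg'])
    (U := MulAction.stabilizer G x) (hG.stab x)
    (by
      intro g hg
      refine hx g ?_
      intro y k hy
      obtain ⟨i, hi⟩ := hpw k y hy
      have hg' : g • ξ k = ξ k := hg k
      rw [← hi, smul_pow', hg'])
  have hst : ∀ g : G, g • ξ N = ξ N → g • x = x := fun g hg => hN hg
  have hfin := hG.orbit_finite (ξ N)
  let O : Finset Ω := hfin.toFinset
  have hO : ∀ g : G, g • ξ N ∈ O := fun g => hfin.mem_toFinset.2 ⟨g, rfl⟩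
  have hO' : ∀ β ∈ O, ∃ g : G, g • ξ N = β := by
    intro β hβ
    obtain ⟨g, hg⟩ := hfin.mem_toFinset.1 hβ
    exact ⟨g, hg⟩
  have hO'' : ∀ β : Ω, ∃ g : G, β ∈ O → g • ξ N = β := by
    intro β
    by_cases hβ : β ∈ O
    · obtain ⟨g, hg⟩ := hO' β hβ
      exact ⟨g, fun _ => hg⟩
    · exact ⟨1, fun h' => absurd h' hβ⟩
  choose γ hγ using hO''
  have hval : ∀ g : G, γ (g • ξ N) • x = g • x := by
    intro g
    have h1 : γ (g • ξ N) • ξ N = g • ξ N := hγ _ (hO g)
    have h2 : (g⁻¹ * γ (g • ξ N)) • x = x := by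
      refine hst _ ?_
      rw [mul_smul, h1, inv_smul_smul]
    rw [mul_smul] at h2
    exact eq_inv_smul_iff.1 h2.symm |>.symm
  let P : Polynomial Ω := Lagrange.interpolate O id (fun β => γ β • x)
  have hinj : Set.InjOn (id : Ω → Ω) (O : Set Ω) := Function.injective_id.injOn
  have hP : ∀ g : G, P.eval (g • ξ N) = g • x := by
    intro g
    have h1 := Lagrange.eval_interpolate_at_node (fun β => γ β • x) hinj (hO g)
    rw [hval g] at h1
    exact h1
  have hfix : ∀ g : G, P.map (MulSemiringAction.toRingHom G Ω g) = P := by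
    intro g
    refine Lagrange.eq_interpolate_of_eval_eq (fun β => γ β • x) hinj ?_ ?_
    · exact (Polynomial.degree_map_le).trans_lt (Lagrange.degree_interpolate_lt _ hinj)
    · intro β hβ
      obtain ⟨g', rfl⟩ := hO' β hβ
      have h1 : id (g' • ξ N) = (MulSemiringAction.toRingHom G Ω g) ((g⁻¹ * g') • ξ N) := by
        change _ = g • ((g⁻¹ * g') • ξ N)
        rw [smul_smul, mul_inv_cancel_left]
        rfl
      rw [h1, Polynomial.eval_map_apply, hP]
      change g • (g⁻¹ * g') • x = _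
      rw [smul_smul, mul_inv_cancel_left, hval]
  have hcoef : ∀ (i : ℕ) (g : G), g • P.coeff i = P.coeff i := by
    intro i g
    have h1 : (P.map (MulSemiringAction.toRingHom G Ω g)).coeff i = P.coeff i := by rw [hfix g]
    rw [Polynomial.coeff_map] at h1
    exact h1
  choose nn yy hny using fun i => h.pi (P.coeff i) (hcoef i)
  refine ⟨(Finset.range (P.natDegree + 1)).sup nn, fun s hs => ?_⟩
  refine ⟨N, ξ N ^ (ringExpChar Ω ^ s), ∑ i ∈ Finset.range (P.natDegree + 1),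
    C (yy i ^ (ringExpChar Ω ^ (s - nn i))) * X ^ i, ?_, ?_⟩
  · rw [← pow_mul, mul_comm, pow_mul, (hξ N).pow_eq_one, one_pow]
  have hz : ∀ i ∈ Finset.range (P.natDegree + 1),
      P.coeff i ^ (ringExpChar Ω ^ s) = j (yy i ^ (ringExpChar Ω ^ (s - nn i))) := by
    intro i hi
    have h1 : nn i ≤ s := (Finset.le_sup hi).trans hs
    have h2 : s = nn i + (s - nn i) := by omega
    have h3 := hny i
    conv_lhs => rw [h2, pow_add, pow_mul]
    rw [h3, map_pow]
  have hx1 : P.eval (ξ N) = x := by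
    have h1 := hP 1
    rwa [one_smul, one_smul] at h1
  rw [← hx1, Polynomial.eval_eq_sum_range, ← iterateFrobenius_def, map_sum, Polynomial.eval₂_finset_sum]
  refine Finset.sum_congr rfl fun i hi => ?_
  rw [map_mul, iterateFrobenius_def, iterateFrobenius_def, hz i hi, Polynomial.eval₂_mul,
    Polynomial.eval₂_C, Polynomial.eval₂_pow, Polynomial.eval₂_X, ← pow_mul, ← pow_mul, mul_comm i]

end MSC
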