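import Pool.Agent.MSC.Cyd
import Pool.Agent.MSC.Rlb

/-! # MSC / Za: roots in the field of all roots of unity of `p`-power order

`(G, Ω, j)` a pair over `F ∋ ζ₀`, `u ∈ F*`, `ρ ^ (p ^ M) = j u`, `ρ` fixed by `Gi`.  Then `u = ε v ^ (p ^ M)` with `ε` a root of unity of `p`-power order in `F`.

PROOF (`n = p ^ M`, `q = ringExpChar Ω`, prime to `p`; `μ` = the roots of unity of `p`-power order of `Ω`).
* `bez`: if `x ∈ Ω^G` and `x ^ n = j u * c`, `c ∈ μ` (then `c` is fixed by `G`): a power `x ^ (q ^ a) = j v`, `c ^ (q ^ a) = j ε` (`h.pi`, a common `a`), so `u ^ (q ^ a) * ε = v ^ n` in `F`, `ε` of `p`-power order; with integers `α q ^ a + β n = 1`: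
  `u = u ^ (α q ^ a + β n) = ε ^ (-α) * (v ^ α * u ^ β) ^ n`.
* If all of `μ` is fixed by `G` then `Gi = ⊤`, `ρ` is fixed by `G`: `bez` with `c = 1`.  Otherwise there is `i ≥ 1` such that a primitive `p ^ i`-th root of unity is fixed by `G` and a primitive `p ^ (i+1)`-th root is not (`i ≥ 1` because of `ζ₀`).  Let `K = M + i + 1` and `ξ` a primitive `p ^ K`-th root of unity, `U` the
  stabilizer of `ρ` and `ξ` (open, `≥ Gi`).  `cyd` (`ζ = j ζ₀`): if `U = ⊤`: `ρ` is fixed by `G`, `bez`.  Otherwise `θ`, `g₀`, `D`: `ker θ ≤ U`, every `g` is `g₀ ^ l` times an element of `ker θ`.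
* `g₀ • ξ = ξ ^ x` with `x : ℕ`.  `g₀` fixes `ξ ^ (p ^ (K-i))` but not `ξ ^ (p ^ (K-i-1))` (otherwise `G` would fix it), so `x - 1 = p ^ i * w`, `w` prime to `p`.  `λ = g₀ • ρ / ρ` satisfies `λ ^ n = 1`, so `λ = ξ ^ (p ^ (i+1) * s)` (`K - M = i + 1`).  Choose `y` with `w y ≡ p s` modulo `p ^ K`
  and `τ = ξ ^ y`: `g₀ • τ / τ = ξ ^ ((x-1) y) = ξ ^ (p ^ i * w * y) = λ`.  So `ρ / τ` is fixed by `g₀` and by `ker θ` (it fixes `ρ` and `ξ`), so by `G`, and `(ρ / τ) ^ n = j u * (τ ^ n)⁻¹`: `bez`.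
-/

set_option autoImplicit false
set_option linter.unusedVariables false

namespace MSC

universe u

open MSG MSN

theorem za_cop {K : Type u} [Field K] (q : ℕ) [hq : ExpChar K q] {p : ℕ} (hp : p.Prime)
    (h : (p : K) ≠ 0) : q.Coprime p := by
  rcases hq with _ | hq'
  · exact Nat.coprime_one_left p
  · rw [Nat.coprime_primes hq' hp]
    intro e
    apply h
    rw [← e]
    exact CharP.cast_eq_zero K q

theorem bez {p : ℕ} (hp : p.Prime) {F G Ω : Type u} [Field F] [Group G] [TopologicalSpace G] [Field Ω] [MulSemiringAction G Ω]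
    {j : F →+* Ω} (h : Ov F G j) (hpΩ : (p : Ω) ≠ 0) {M : ℕ} (u : Fˣ) {x c : Ω} (hx : ∀ g : G, g • x = x) {N : ℕ} (hc : c ^ (p ^ N) = 1)
    (hxc : x ^ (p ^ M) = j u * c) : ∃ (ε v : Fˣ) (l : ℕ), ε ^ (p ^ l) = 1 ∧ u = ε * v ^ (p ^ M) := by
  have hju : j u ≠ 0 := (map_ne_zero j).2 u.ne_zero
  have hc0 : c ≠ 0 := by
    rintro rfl
    rw [zero_pow (pow_ne_zero _ hp.ne_zero)] at hc
    exact zero_ne_one hc
  have hx0 : x ≠ 0 := by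
    rintro rfl
    rw [zero_pow (pow_ne_zero _ hp.ne_zero)] at hxc
    exact mul_ne_zero hju hc0 hxc.symm
  have hcG : ∀ g : G, g • c = c := by
    intro g
    have h1 := congrArg (fun t => g • t) hxc
    simp only [smul_pow', smul_mul', hx g, h.fj g] at h1
    rw [hxc] at h1
    exact (mul_left_cancel₀ hju h1).symm
  obtain ⟨n, y, hy⟩ := h.pi x hx
  obtain ⟨n', y', hy'⟩ := h.pi c hcG
  obtain ⟨q, hq⟩ : ∃ q : ℕ, q = ringExpChar Ω := ⟨_, rfl⟩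
  rw [← hq] at hy hy'
  have hqp : q.Coprime p := by
    rw [hq]
    exact za_cop (ringExpChar Ω) hp hpΩ
  have ev : x ^ (q ^ (n + n')) = j (y ^ (q ^ n')) := by
    rw [pow_add, pow_mul, hy, map_pow]
  have ee : c ^ (q ^ (n + n')) = j (y' ^ (q ^ n)) := by
    rw [add_comm, pow_add, pow_mul, hy', map_pow]
  obtain ⟨a, ha⟩ : ∃ a : ℕ, a = q ^ (n + n') := ⟨_, rfl⟩
  rw [← ha] at ev ee
  have hv0 : y ^ (q ^ n') ≠ 0 := by
    intro h0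
    rw [h0, map_zero] at ev
    exact pow_ne_zero _ hx0 ev
  have he0 : y' ^ (q ^ n) ≠ 0 := by
    intro h0
    rw [h0, map_zero] at ee
    exact pow_ne_zero _ hc0 ee
  obtain ⟨v₀, hv₀⟩ : ∃ v₀ : Fˣ, (v₀ : F) = y ^ (q ^ n') := ⟨Units.mk0 _ hv0, rfl⟩
  obtain ⟨ε₀, hε₀⟩ : ∃ ε₀ : Fˣ, (ε₀ : F) = y' ^ (q ^ n) := ⟨Units.mk0 _ he0, rfl⟩
  rw [← hv₀] at ev
  rw [← hε₀] at ee
  have hε1 : ε₀ ^ (p ^ N) = 1 := by
    apply Units.ext
    apply j.injective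
    rw [Units.val_pow_eq_pow_val, Units.val_one, map_pow, map_one, ← ee, ← pow_mul, mul_comm a,
      pow_mul, hc, one_pow]
  have hrel : u ^ a * ε₀ = v₀ ^ (p ^ M) := by
    apply Units.ext
    apply j.injective
    rw [Units.val_mul, Units.val_pow_eq_pow_val, Units.val_pow_eq_pow_val, map_mul, map_pow,
      map_pow, ← ev, ← ee, ← mul_pow, ← hxc, ← pow_mul, ← pow_mul, mul_comm]
  have hcop : IsCoprime (a : ℤ) ((p ^ M : ℕ) : ℤ) := by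
    rw [Nat.isCoprime_iff_coprime, ha]
    exact Nat.Coprime.pow _ _ hqp
  obtain ⟨α, β, hαβ⟩ := hcop
  refine ⟨ε₀ ^ (-α), v₀ ^ α * u ^ β, N, ?_, ?_⟩
  · rw [← zpow_natCast, ← zpow_mul, mul_comm, zpow_mul, zpow_natCast, hε1, one_zpow]
  · have h1 : u ^ (a : ℤ) = v₀ ^ ((p ^ M : ℕ) : ℤ) * ε₀⁻¹ := by
      rw [zpow_natCast, zpow_natCast, ← hrel, mul_inv_cancel_right]
    have h2 : u = u ^ (α * (a : ℤ) + β * ((p ^ M : ℕ) : ℤ)) := by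
      rw [hαβ, zpow_one]
    calc u = u ^ (α * (a : ℤ) + β * ((p ^ M : ℕ) : ℤ)) := h2
      _ = (u ^ (a : ℤ)) ^ α * (u ^ β) ^ ((p ^ M : ℕ) : ℤ) := by
          rw [zpow_add, mul_comm α, zpow_mul, zpow_mul]
      _ = (v₀ ^ ((p ^ M : ℕ) : ℤ) * ε₀⁻¹) ^ α * (u ^ β) ^ ((p ^ M : ℕ) : ℤ) := by rw [h1]
      _ = ε₀ ^ (-α) * (v₀ ^ α * u ^ β) ^ (p ^ M) := by
          rw [mul_zpow, inv_zpow, ← zpow_neg, ← zpow_mul, mul_comm ((p ^ M : ℕ) : ℤ) α, zpow_mul,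
            zpow_natCast, zpow_natCast, mul_pow]
          rw [mul_comm ((v₀ ^ α) ^ p ^ M) (ε₀ ^ (-α)), mul_assoc]

/-- elements fixed by a generator and by the kernel of a character -/
theorem za_gen {G Ω : Type u} [Group G] [Field Ω] [MulSemiringAction G Ω] {q : ℕ} (hq : q ≠ 0)
    (θ : G → ZMod q) (g₀ : G) (hθ : ∀ g h, θ (g * h) = θ g + θ h) (h1 : θ g₀ = 1) (z : Ω)
    (hz : g₀ • z = z) (hk : ∀ g, θ g = 0 → g • z = z) (g : G) : g • z = z := by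
  have : NeZero q := ⟨hq⟩
  have h0 : θ 1 = 0 := by
    have h2 := hθ 1 1
    rw [mul_one] at h2
    exact left_eq_add.1 h2
  have hp : ∀ l : ℕ, θ (g₀ ^ l) = l ∧ g₀ ^ l • z = z := by
    intro l
    induction l with
    | zero => exact ⟨by rw [pow_zero, h0, Nat.cast_zero], by rw [pow_zero, one_smul]⟩
    | succ l ih =>
      refine ⟨?_, ?_⟩
      · rw [pow_succ, hθ, ih.1, h1, Nat.cast_succ]
      · rw [pow_succ, mul_smul, hz, ih.2]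
  obtain ⟨h3, h4⟩ := hp (θ g).val
  rw [ZMod.natCast_zmod_val] at h3
  have h5 : θ ((g₀ ^ (θ g).val)⁻¹ * g) = 0 := by
    have h6 := hθ (g₀ ^ (θ g).val) ((g₀ ^ (θ g).val)⁻¹ * g)
    rw [mul_inv_cancel_left, h3] at h6
    exact left_eq_add.1 h6
  have h7 := hk _ h5
  rw [mul_smul, inv_smul_eq_iff, h4] at h7
  exact h7

theorem za {p : ℕ} (hp : p.Prime) {F G Ω : Type u} [Field F] {ζ₀ : F} (hz : PZ p ζ₀) [Group G] [TopologicalSpace G] [Field Ω]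
    [MulSemiringAction G Ω] {j : F →+* Ω} (h : Ov F G j) {M : ℕ} (u : Fˣ) {ρ : Ω} (hρ : ρ ^ (p ^ M) = j u)
    (hfix : ∀ g ∈ Gi p G Ω, g • ρ = ρ) : ∃ (ε v : Fˣ) (l : ℕ), ε ^ (p ^ l) = 1 ∧ u = ε * v ^ (p ^ M) := by
  classical
  have hG := h.ga
  have := hG.top
  have := hG.alg
  have hzΩ : PZ p (j ζ₀) := ⟨hz.odd, hz.one_lt, hz.prim.map_of_injective j.injective⟩
  have hpΩ : (p : Ω) ≠ 0 := hzΩ.cast_ne
  have hρ0 : ρ ≠ 0 := by
    rintro rfl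
    rw [zero_pow (pow_ne_zero _ hp.ne_zero)] at hρ
    exact (map_ne_zero j).2 u.ne_zero hρ.symm
  have hall : (∀ g : G, g • ρ = ρ) → ∃ (ε v : Fˣ) (l : ℕ), ε ^ (p ^ l) = 1 ∧ u = ε * v ^ (p ^ M) := by
    intro hρG
    exact bez hp h hpΩ u (x := ρ) (c := 1) (N := 0) hρG (one_pow _) (by rw [hρ, mul_one])
  by_cases hμ : ∀ (k : ℕ) (x : Ω), x ^ (p ^ k) = 1 → ∀ g : G, g • x = x
  · refine hall fun g => hfix g ?_
    intro x k hx
    exact hμ k x hx g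
  push Not at hμ
  obtain ⟨k₀, hk₀, hmin⟩ : ∃ k : ℕ, (∃ x : Ω, x ^ (p ^ k) = 1 ∧ ∃ g : G, g • x ≠ x) ∧
      ∀ m, m < k → ∀ x : Ω, x ^ (p ^ m) = 1 → ∀ g : G, g • x = x := by
    refine ⟨Nat.find hμ, Nat.find_spec hμ, fun m hm x hx g => ?_⟩
    by_contra hne
    exact Nat.find_min hμ hm ⟨x, hx, g, hne⟩
  have hk0 : k₀ ≠ 0 := by
    rintro rfl
    obtain ⟨x, hx, g, hg⟩ := hk₀
    rw [pow_zero, pow_one] at hx
    rw [hx, smul_one] at hg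
    exact hg rfl
  obtain ⟨i, rfl⟩ := Nat.exists_eq_succ_of_ne_zero hk0
  rw [Nat.succ_eq_add_one] at hk₀ hmin
  obtain ⟨ξ, hξ⟩ := exists_xi hp hpΩ (M + i + 1)
  have hξ0 : ξ ≠ 0 := hξ.ne_zero (pow_ne_zero _ hp.ne_zero)
  have hpK : NeZero (p ^ (M + i + 1)) := ⟨pow_ne_zero _ hp.ne_zero⟩
  -- the open subgroup
  obtain ⟨U, hUd⟩ : ∃ U : Subgroup G, U = MulAction.stabilizer G ρ ⊓ MulAction.stabilizer G ξ :=
    ⟨_, rfl⟩
  have hU : IsOpen (U : Set G) := by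
    rw [hUd, Subgroup.coe_inf]
    exact (hG.stab ρ).inter (hG.stab ξ)
  have hGU : Gi p G Ω ≤ U := by
    rw [hUd]
    intro g hg
    exact ⟨hfix g hg, hg ξ (M + i + 1) hξ.pow_eq_one⟩
  have hUm : ∀ g, g ∈ U → g • ρ = ρ ∧ g • ξ = ξ := by
    intro g hg
    rw [hUd] at hg
    exact hg
  rcases cyd hp hG hzΩ (fun g => h.fj g ζ₀) hU hGU with hT | ⟨q', θ, g₀, D, N, hq', hθc, hθ, hθ1,
    hD, hθD, hgD, hθU⟩
  · refine hall fun g => (hUm g ?_).1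
    rw [hT]
    exact Subgroup.mem_top g
  have hq : q' * p ≠ 0 := mul_ne_zero hq' hp.ne_zero
  obtain ⟨x, -, hx⟩ : ∃ x < p ^ (M + i + 1), ξ ^ x = g₀ • ξ :=
    hξ.eq_pow_of_pow_eq_one (by rw [← smul_pow', hξ.pow_eq_one, smul_one])
  have hord : ∀ n : ℤ, ξ ^ n = 1 ↔ ((p : ℤ) ^ (M + i + 1)) ∣ n := by
    intro n
    rw [hξ.zpow_eq_one_iff_dvd]
    push_cast
    exact Iff.rfl
  have hgz : ∀ n : ℤ, g₀ • (ξ ^ n) = ξ ^ ((x : ℤ) * n) := by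
    intro n
    have h1 : g₀ • (ξ ^ n) = (g₀ • ξ) ^ n := map_zpow₀ (MulSemiringAction.toRingHom G Ω g₀) ξ n
    rw [h1, ← hx, ← zpow_natCast, ← zpow_mul]
  have hfixn : ∀ n : ℤ, g₀ • (ξ ^ n) = ξ ^ n ↔ ((p : ℤ) ^ (M + i + 1)) ∣ ((x : ℤ) - 1) * n := by
    intro n
    rw [hgz, ← hord, sub_mul, one_mul, zpow_sub₀ hξ0, div_eq_one_iff_eq (zpow_ne_zero _ hξ0)]
  have hpz : (p : ℤ) ≠ 0 := by exact_mod_cast hp.ne_zero
  have hd1 : (p : ℤ) ^ i ∣ (x : ℤ) - 1 := by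
    have h1 : g₀ • (ξ ^ ((p : ℤ) ^ (M + 1))) = ξ ^ ((p : ℤ) ^ (M + 1)) := by
      refine hmin i (Nat.lt_succ_self i) _ ?_ g₀
      rw [← zpow_natCast, ← zpow_mul, hord]
      push_cast
      rw [← pow_add]
      exact pow_dvd_pow _ (by omega)
    rw [hfixn] at h1
    have h2 : (p : ℤ) ^ (M + i + 1) = (p : ℤ) ^ i * (p : ℤ) ^ (M + 1) := by
      rw [← pow_add]
      congr 1
      omega
    rw [h2] at h1
    exact (mul_dvd_mul_iff_right (pow_ne_zero _ hpz)).1 h1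
  obtain ⟨w, hw⟩ := hd1
  have hpw : ¬ (p : ℤ) ∣ w := by
    rintro ⟨w', hw'⟩
    have h1 : g₀ • (ξ ^ ((p : ℤ) ^ M)) = ξ ^ ((p : ℤ) ^ M) := by
      rw [hfixn, hw, hw']
      refine ⟨w', ?_⟩
      rw [pow_succ, pow_add]
      ring
    have h2 : ∀ g : G, g • (ξ ^ ((p : ℤ) ^ M)) = ξ ^ ((p : ℤ) ^ M) := by
      refine za_gen hq θ g₀ hθ hθ1 _ h1 fun g hg => ?_
      have h3 := (hUm g (hθU g hg)).2
      have h4 : g • (ξ ^ ((p : ℤ) ^ M)) = (g • ξ) ^ ((p : ℤ) ^ M) :=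
        map_zpow₀ (MulSemiringAction.toRingHom G Ω g) ξ _
      rw [h4, h3]
    have h5 : IsPrimitiveRoot (ξ ^ (p ^ M)) (p ^ (i + 1)) := by
      refine hξ.pow (pow_pos hp.pos _) ?_
      rw [← pow_add]
      congr 1
    obtain ⟨t, ht, g, hg⟩ := hk₀
    have : NeZero (p ^ (i + 1)) := ⟨pow_ne_zero _ hp.ne_zero⟩
    obtain ⟨l, -, hl⟩ := h5.eq_pow_of_pow_eq_one ht
    apply hg
    have h6 := h2 g
    have h7 : (ξ ^ ((p : ℤ) ^ M) : Ω) = ξ ^ (p ^ M) := by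
      rw [← zpow_natCast]
      push_cast
      rfl
    rw [h7] at h6
    rw [← hl, smul_pow', h6]
  -- the quotient
  obtain ⟨lam, hlam⟩ : ∃ lam : Ω, lam = (g₀ • ρ) / ρ := ⟨_, rfl⟩
  have hlamn : lam ^ (p ^ M) = 1 := by
    rw [hlam, div_pow, ← smul_pow', hρ, h.fj, div_self ((map_ne_zero j).2 u.ne_zero)]
  have hlamK : lam ^ (p ^ (M + i + 1)) = 1 := by
    have : p ^ (M + i + 1) = p ^ M * p ^ (i + 1) := by rw [← pow_add]; congr 1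
    rw [this, pow_mul, hlamn, one_pow]
  obtain ⟨s', -, hs'⟩ := hξ.eq_pow_of_pow_eq_one hlamK
  have hs1 : (p : ℤ) ^ (i + 1) ∣ (s' : ℤ) := by
    have h1 : ξ ^ ((s' : ℤ) * (p : ℤ) ^ M) = 1 := by
      rw [zpow_mul, zpow_natCast, hs']
      have h2 : (lam ^ ((p : ℤ) ^ M) : Ω) = lam ^ (p ^ M) := by
        rw [← zpow_natCast]
        push_cast
        rfl
      rw [h2, hlamn]
    rw [hord] at h1
    have h2 : (p : ℤ) ^ (M + i + 1) = (p : ℤ) ^ (i + 1) * (p : ℤ) ^ M := by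
      rw [← pow_add]
      congr 1
      omega
    rw [h2] at h1
    exact (mul_dvd_mul_iff_right (pow_ne_zero _ hpz)).1 h1
  obtain ⟨s, hs⟩ := hs1
  have hcop : IsCoprime w ((p : ℤ) ^ (M + i + 1)) := by
    refine IsCoprime.pow_right ?_
    exact ((Int.prime_iff_natAbs_prime.2 (by simpa using hp)).coprime_iff_not_dvd.2 hpw).symm
  obtain ⟨a, b, hab⟩ := hcop
  obtain ⟨y, hy⟩ : ∃ y : ℤ, y = a * p * s := ⟨_, rfl⟩
  have hτ : g₀ • (ξ ^ y) = lam * ξ ^ y := by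
    rw [hgz, ← hs', ← zpow_natCast, ← zpow_add₀ hξ0]
    have h1 : ξ ^ ((x : ℤ) * y - ((s' : ℤ) + y)) = 1 := by
      rw [hord]
      refine ⟨-(b * (p : ℤ) ^ i * p * s), ?_⟩
      have h2 : (x : ℤ) * y - ((s' : ℤ) + y) = ((x : ℤ) - 1) * y - s' := by ring
      rw [h2, hw, hs, hy, pow_succ]
      linear_combination ((p : ℤ) ^ i * p * s) * hab
    rw [zpow_sub₀ hξ0, div_eq_one_iff_eq (zpow_ne_zero _ hξ0)] at h1
    exact h1
  have hgρ : g₀ • ρ = lam * ρ := by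
    rw [hlam, div_mul_cancel₀ _ hρ0]
  have hlam0 : lam ≠ 0 := by
    rw [hlam]
    exact div_ne_zero ((smul_ne_zero_iff_ne g₀).2 hρ0) hρ0
  have hτ0 : ξ ^ y ≠ 0 := zpow_ne_zero _ hξ0
  have hquot : ∀ g : G, g • (ρ / ξ ^ y) = (g • ρ) / (g • (ξ ^ y)) := fun g =>
    map_div₀ (MulSemiringAction.toRingHom G Ω g) ρ (ξ ^ y)
  have hfin : ∀ g : G, g • (ρ / ξ ^ y) = ρ / ξ ^ y := by
    refine za_gen hq θ g₀ hθ hθ1 _ ?_ fun g hg => ?_
    · rw [hquot, hgρ, hτ, mul_div_mul_left _ _ hlam0]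
    · obtain ⟨h3, h3'⟩ := hUm g (hθU g hg)
      have h4 : g • (ξ ^ y) = (g • ξ) ^ y := map_zpow₀ (MulSemiringAction.toRingHom G Ω g) ξ _
      rw [hquot, h3, h4, h3']
  refine bez hp h hpΩ u (x := ρ / ξ ^ y) (c := ((ξ ^ y) ^ (p ^ M))⁻¹) (N := M + i + 1) hfin ?_ ?_
  · rw [inv_pow, ← pow_mul, ← zpow_natCast, ← zpow_mul, inv_eq_one, hord]
    push_cast
    exact Dvd.dvd.mul_left (dvd_mul_left _ _) y
  · rw [div_pow, hρ, div_eq_mul_inv]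

end MSC
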