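import Pool.Agent.MSC.Rla
import Pool.Agent.MSC.Rle
import Pool.Agent.MSC.Za

/-! # MSC / RlA: residue lemma, assembly -/

set_option autoImplicit false
set_option linter.unusedVariables false

namespace MSC

universe u

open MSG MSN

open Pool.Agent.MK (K2 S)

private theorem ac_pow' {K k : Type u} [Field K] [Field k] (w : Pool.Agent.MK.Val K k) (x : K) (n : ℕ) : w.ac (x ^ n) = w.ac x ^ n := by
  induction n with
  | zero => rw [pow_zero, pow_zero, w.ac_one]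
  | succ n ih => rw [pow_succ, pow_succ, w.ac_mul', ih]

theorem rl_all {p : ℕ} (hp : p.Prime) {E F k : Type u} [Field E] [Field F] [Field k] {ζ₀ : E} (hz : PZ p ζ₀)
    (a : E →+* F) (b : E →+* k) (φ : F →+* LaurentSeries k) (hφ : ∀ x, φ (a x) = HahnSeries.C (b x))
    {G₀ Ω₀ G Ω : Type u} [Group G₀] [TopologicalSpace G₀] [Field Ω₀] [MulSemiringAction G₀ Ω₀]
    [Group G] [TopologicalSpace G] [Field Ω] [MulSemiringAction G Ω] {j₀ : E →+* Ω₀} {j : F →+* Ω}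
    (h₀ : Ov E G₀ j₀) (h : Ov F G j) (m : Mo G₀ Ω₀ G Ω) (hm : ∀ x, m.ψ (j₀ x) = j (a x))
    {f : G₀ → G₀ → Ω₀} (hf : Zo f) {M : ℕ} {z : Ω} (L : Lv (p ^ M) (Gi p G Ω) z j) (w : K2 F)
    (hw : ri p G Ω (bqm m (bc f)) = hB L w) :
    ∃ (ε v : kˣ) (l : ℕ), ε ^ p ^ l = 1 ∧ (Pool.Agent.MSX.lv k).tame (K2.map φ w) = Additive.ofMul (ε * v ^ p ^ M) := by
  obtain ⟨G₁, Ω₁, i1, i2, i3, i4, j₁, h₁⟩ := exists_ov (LaurentSeries k)
  let _ := i1
  let _ := i2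
  let _ := i3
  let _ := i4
  obtain ⟨u, z₁, L₁, h1, h2⟩ := rla hp hz a b φ (fun x => hφ x) h₀ h h₁ m hm hf L w hw
  haveI : IsAlgClosed Ω₁ := h₁.ga.alg
  have hpos : 0 < p ^ M := pow_pos hp.pos M
  obtain ⟨ρ, hρ⟩ := IsAlgClosed.exists_pow_nat_eq (j₁ (cL (u : k))) hpos
  have h3 := rle hp h₁ L₁ u h2 hρ
  have hz1 : PZ p (cL (b ζ₀)) := ⟨hz.odd, hz.one_lt, by
    have := hz.prim.map_of_injective (f := (cL : k →+* LaurentSeries k).comp b) (RingHom.injective _)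
    exact this⟩
  obtain ⟨ε, v, l, h4, h5⟩ := za hp hz1 h₁ (Units.map (cL : k →+* LaurentSeries k).toMonoidHom u) hρ h3
  have hA : ∀ x : (LaurentSeries k)ˣ, (Pool.Agent.MSX.lv k).ac (x : LaurentSeries k) ≠ 0 := fun x => (Pool.Agent.MSX.lv k).ac_ne _ x.ne_zero
  refine ⟨Units.mk0 _ (hA ε), Units.mk0 _ (hA v), l, ?_, ?_⟩
  · apply Units.ext
    push_cast
    rw [Units.val_mk0, ← ac_pow' (Pool.Agent.MSX.lv k), ← Units.val_pow_eq_pow_val, h4, Units.val_one, (Pool.Agent.MSX.lv k).ac_one]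
  · rw [h1]
    congr 1
    apply Units.ext
    push_cast
    rw [Units.val_mk0, Units.val_mk0, ← ac_pow' (Pool.Agent.MSX.lv k), ← (Pool.Agent.MSX.lv k).ac_mul', ← Units.val_pow_eq_pow_val, ← Units.val_mul, ← h5]
    exact (cL_v (u : k)).2.symm

end MSC
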