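import Pool.Agent.MSC.La
import Pool.Agent.MSC.Brg

/-! # MSC / Rla: residue lemma, part 1

`E → F`, `b : E → k`, `φ : F → k((t))` with `φ (a x) = cL (b x)`; `(G₀, Ω₀, j₀)` over `E`, `(G, Ω, j)` over `F`, `(G₁, Ω₁, j₁)` over `k((t))`; `f` a cocycle on `G₀`, `w ∈ K₂(F)` with `ri (m^* f) = hB w` on `Gi`, level `n = p ^ M`.
Then `hB (S t u) = 0` on `Gi p G₁ Ω₁` for `u = tame (φ w)`.

PROOF (`n = p ^ M`, `M ≥ 1` because `1 < n`).
1. `Ov.mo`: `m₁`, `m₂ : (G, Ω) → (G₁, Ω₁)` over `φ` and over `(sg 2) ∘ φ`.  `m.cmp m₁` and `m.cmp m₂` agree on `j₀ E` (`sg_cL`), so `bqm (m.cmp m₁) (bc f) = bqm (m.cmp m₂) (bc f)` (`Ov.conj`).  Restrict to `Gi` (`gim_ri`, `bqm_cmp`, `bqm_hB`, `hB_map`):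
   with `z₁ = m₁.ψ z`, `z₂ = m₂.ψ z` and the levels `X₁`, `X₂ : K2 (k((t))) → Bq (Gi p G₁ Ω₁) Ω₁` (`hB` for `z₁`, `z₂`, `j₁`; `Lv.pull`): `X₁ (φ w) = X₂ (sg 2 (φ w))`.
2. `z₁ = z₂ ^ c`, `c` prime to `p` (both are primitive `n`-th roots of unity).  `z ^ (p ^ (M-1))` is a power of `j (a ζ₀)`, on which `m₁.ψ` and `m₂.ψ` agree; so `z₂ ^ ((c-1) p ^ (M-1)) = 1` and `c ≡ 1` modulo `p`.  `hB_zeta`: `c • X₁ x = X₂ x`.  So `X₂ (φ w) = c • X₂ (sg 2 (φ w))`.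
3. `lt_dec`: `φ w = K2.map cL κ₀ + S t u + n • y`.  Apply `K2.map (sg 2)`: `sg 2 (φ w) = K2.map cL κ₀ + 2 • S t u + n • y'`.  `n • X₂ = 0` (`tors_hB`).  So `(c - 1) • X₂ (cL κ₀) + (2 c - 1) • X₂ (S t u) = 0` (integer multiples).
4. A morphism `m' : (G₁, Ω₁) → (G₁, Ω₁)` over `sg n` (`Ov.mo`), applied to this relation (`bqm (gim p m')`, `bqm_hB`, `hB_map`), `X'` = the level with the root `m'.ψ z₂`: `(c - 1) • X' (cL κ₀) + (2 c - 1) n • X' (S t u) = 0`, so `(c - 1) • X' (cL κ₀) = 0`.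
   `m'.ψ z₂ = z₂ ^ v`, `v` prime to `p`: `v • X' x = X₂ x` (`hB_zeta`), so `(c - 1) • X₂ (cL κ₀) = 0`, so `(2 c - 1) • X₂ (S t u) = 0`; `2 c - 1 ≡ 1` modulo `p` is prime to `p`, and `n • X₂ = 0`: `X₂ (S t u) = 0`.
-/

set_option autoImplicit false
set_option linter.unusedVariables false

namespace MSC

universe u

open MSG MSN Pool.Agent.Helper14.Massey

open Pool.Agent.MK (K2 S)

open Pool.Agent.MSX (lv)

private theorem rla_pull {p n : ℕ} {F K : Type u} [Field F] [Field K] {G Ω G₁ Ω₁ : Type u} [Group G] [TopologicalSpace G]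
    [Field Ω] [MulSemiringAction G Ω] [Group G₁] [TopologicalSpace G₁] [Field Ω₁] [MulSemiringAction G₁ Ω₁]
    {j : F →+* Ω} {j₁ : K →+* Ω₁} (m : Mo G Ω G₁ Ω₁) (φ : F →+* K) (hm : ∀ x, m.ψ (j x) = j₁ (φ x)) {z : Ω}
    (L : Lv n (Gi p G Ω) z j) (X : Lv n (Gi p G₁ Ω₁) (m.ψ z) j₁) (w : K2 F) :
    bqm (gim p m) (hB L w) = hB X (K2.map φ w) := by
  have e : (gim p m).ψ.comp j = j₁.comp φ := RingHom.ext hm
  have L' : Lv n (Gi p G₁ Ω₁) ((gim p m).ψ z) ((gim p m).ψ.comp j) := L.pull (gim p m) X.ga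
  rw [bqm_hB (gim p m) L L' w, hB_map φ X (X.comp φ) w]
  have key : ∀ (j' : F →+* Ω₁) (L'' : Lv n (Gi p G₁ Ω₁) (m.ψ z) j'), j' = j₁.comp φ →
      hB L'' w = hB (X.comp φ) w := by
    intro j' L'' hj'
    subst hj'
    rfl
  exact key _ L' e

private theorem rla_sg {k : Type u} [Field k] (n e : ℕ) (he : e ≠ 0) (κ : K2 k) (u : k) (y : K2 (LaurentSeries k)) :
    K2.map (sg e he) (K2.map cL κ + S (tL k) (cL u) + n • y) =
      K2.map cL κ + e • S (tL k) (cL u) + n • K2.map (sg e he) y := by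
  rw [map_add, map_add, map_nsmul, K2.map_map, K2.map_S, sg_tL, sg_cL, Pool.Agent.MK.S_pow_left]
  congr 3
  have : (sg e he).comp (cL (k := k)) = cL := RingHom.ext fun x => sg_cL e he x
  rw [this]

private theorem rla_kill {A : Type u} [AddCommGroup A] {N : ℕ} {B : A} (hB : N • B = 0) {d : ℤ}
    (hd : IsCoprime d (N : ℤ)) (h : d • B = 0) : B = 0 := by
  obtain ⟨x, y, hxy⟩ := hd
  have hB' : (N : ℤ) • B = 0 := by rw [natCast_zsmul, hB]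
  calc B = (1 : ℤ) • B := (one_zsmul B).symm
    _ = (x * d + y * N) • B := by rw [hxy]
    _ = 0 := by rw [add_zsmul, mul_zsmul, mul_zsmul, h, hB', smul_zero, smul_zero, add_zero]

theorem rla {p : ℕ} (hp : p.Prime) {E F k : Type u} [Field E] [Field F] [Field k] {ζ₀ : E} (hz : PZ p ζ₀)
    (a : E →+* F) (b : E →+* k) (φ : F →+* LaurentSeries k) (hφ : ∀ x, φ (a x) = cL (b x))
    {G₀ Ω₀ G Ω G₁ Ω₁ : Type u} [Group G₀] [TopologicalSpace G₀] [Field Ω₀] [MulSemiringAction G₀ Ω₀]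
    [Group G] [TopologicalSpace G] [Field Ω] [MulSemiringAction G Ω] [Group G₁] [TopologicalSpace G₁] [Field Ω₁] [MulSemiringAction G₁ Ω₁]
    {j₀ : E →+* Ω₀} {j : F →+* Ω} {j₁ : LaurentSeries k →+* Ω₁}
    (h₀ : Ov E G₀ j₀) (h : Ov F G j) (h₁ : Ov (LaurentSeries k) G₁ j₁) (m : Mo G₀ Ω₀ G Ω) (hm : ∀ x, m.ψ (j₀ x) = j (a x))
    {f : G₀ → G₀ → Ω₀} (hf : Zo f) {M : ℕ} {z : Ω} (L : Lv (p ^ M) (Gi p G Ω) z j) (w : K2 F)
    (hw : ri p G Ω (bqm m (bc f)) = hB L w) :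
    ∃ (u : kˣ) (z₁ : Ω₁) (L₁ : Lv (p ^ M) (Gi p G₁ Ω₁) z₁ j₁),
      (lv k).tame (K2.map φ w) = Additive.ofMul u ∧ hB L₁ (S (tL k) (cL (u : k))) = 0 := by
  have hn0 : p ^ M ≠ 0 := (pow_pos hp.pos M).ne'
  have hM : M ≠ 0 := by
    rintro rfl
    have := L.pz.one_lt
    simp at this
  obtain ⟨M', rfl⟩ := Nat.exists_eq_succ_of_ne_zero hM
  rw [Nat.succ_eq_add_one] at *
  -- the morphisms
  obtain ⟨m₁, hm₁⟩ := h.mo h₁.ga (j₁.comp φ) (fun g x => h₁.fj g (φ x))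
  obtain ⟨m₂, hm₂⟩ := h.mo h₁.ga (j₁.comp ((sg 2 two_ne_zero).comp φ)) (fun g x => h₁.fj g _)
  obtain ⟨m', hm'⟩ := h₁.mo h₁.ga (j₁.comp (sg (p ^ (M' + 1)) hn0)) (fun g x => h₁.fj g _)
  have hz₁ : PZ (p ^ (M' + 1)) (m₁.ψ z) := m₁.pz L.pz
  have hz₂ : PZ (p ^ (M' + 1)) (m₂.ψ z) := m₂.pz L.pz
  have hz' : PZ (p ^ (M' + 1)) (m'.ψ (m₂.ψ z)) := m'.pz hz₂
  have X₁ : Lv (p ^ (M' + 1)) (Gi p G₁ Ω₁) (m₁.ψ z) j₁ :=
    ⟨gi_ga h₁.ga, hz₁, fun g => gi_fix g hz₁.prim.pow_eq_one, fun g x => h₁.fj g x⟩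
  have X₂ : Lv (p ^ (M' + 1)) (Gi p G₁ Ω₁) (m₂.ψ z) j₁ :=
    ⟨gi_ga h₁.ga, hz₂, fun g => gi_fix g hz₂.prim.pow_eq_one, fun g x => h₁.fj g x⟩
  have X' : Lv (p ^ (M' + 1)) (Gi p G₁ Ω₁) (m'.ψ (m₂.ψ z)) j₁ :=
    ⟨gi_ga h₁.ga, hz', fun g => gi_fix g hz'.prim.pow_eq_one, fun g x => h₁.fj g x⟩
  -- step 1
  have hcj : bqm (m.cmp m₁) (bc f) = bqm (m.cmp m₂) (bc f) := by
    refine h₀.conj (m.cmp m₂) (m.cmp m₁) (fun y => ?_) hf
    show m₂.ψ (m.ψ (j₀ y)) = m₁.ψ (m.ψ (j₀ y))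
    rw [hm, hm₁, hm₂]
    show j₁ (sg 2 two_ne_zero (φ (a y))) = j₁ (φ (a y))
    rw [hφ, sg_cL]
  have hst1 : hB X₁ (K2.map φ w) = hB X₂ (K2.map (sg 2 two_ne_zero) (K2.map φ w)) := by
    have e1 := rla_pull m₁ φ hm₁ L X₁ w
    have e2 := rla_pull m₂ ((sg 2 two_ne_zero).comp φ) hm₂ L X₂ w
    rw [K2.map_map, ← e1, ← e2, ← hw, gim_ri, gim_ri, ← bqm_cmp, ← bqm_cmp, hcj]
  -- step 2
  have hNZ : NeZero (p ^ (M' + 1)) := ⟨hn0⟩
  have hNp : NeZero p := ⟨hp.ne_zero⟩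
  obtain ⟨c, _, hc⟩ := hz₂.prim.eq_pow_of_pow_eq_one hz₁.prim.pow_eq_one
  have hcop : c.Coprime (p ^ (M' + 1)) := by
    rw [← hz₂.prim.pow_iff_coprime (pow_pos hp.pos _), hc]
    exact hz₁.prim
  have hη : IsPrimitiveRoot (z ^ (p ^ M')) p := L.pz.prim.pow (pow_pos hp.pos _) (pow_succ p M')
  have hη₂ : IsPrimitiveRoot (m₂.ψ z ^ (p ^ M')) p := hz₂.prim.pow (pow_pos hp.pos _) (pow_succ p M')
  have hag : m₁.ψ (z ^ (p ^ M')) = m₂.ψ (z ^ (p ^ M')) := by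
    have h1 : IsPrimitiveRoot (j (a ζ₀)) p := (hz.prim.map_of_injective a.injective).map_of_injective j.injective
    obtain ⟨i, _, hi⟩ := h1.eq_pow_of_pow_eq_one hη.pow_eq_one
    rw [← hi, map_pow, map_pow, hm₁, hm₂]
    show j₁ (φ (a ζ₀)) ^ i = j₁ (sg 2 two_ne_zero (φ (a ζ₀))) ^ i
    rw [hφ, sg_cL]
  have hcp : (p : ℤ) ∣ (c : ℤ) - 1 := by
    rw [← hη₂.zpow_eq_one_iff_dvd]
    have h1 : (m₂.ψ z ^ (p ^ M')) ^ c = m₂.ψ z ^ (p ^ M') := by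
      rw [← pow_mul, mul_comm, pow_mul, hc, ← map_pow, hag, map_pow]
    rw [zpow_sub₀ (hη₂.ne_zero hp.ne_zero), zpow_natCast, zpow_one, h1, div_self (hη₂.ne_zero hp.ne_zero)]
  have hX : ∀ x, c • hB X₁ x = hB X₂ x := by
    intro x
    have key : ∀ (y : Ω₁) (X : Lv (p ^ (M' + 1)) (Gi p G₁ Ω₁) y j₁), m₂.ψ z ^ c = y → c • hB X x = hB X₂ x := by
      intro y X hy
      subst hy
      exact hB_zeta hcop.symm X₂ X x
    exact key _ X₁ hc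
  obtain ⟨v, _, hv⟩ := hz₂.prim.eq_pow_of_pow_eq_one hz'.prim.pow_eq_one
  have hcopv : v.Coprime (p ^ (M' + 1)) := by
    rw [← hz₂.prim.pow_iff_coprime (pow_pos hp.pos _), hv]
    exact hz'.prim
  have hXv : ∀ x, v • hB X' x = hB X₂ x := by
    intro x
    have key : ∀ (y : Ω₁) (X : Lv (p ^ (M' + 1)) (Gi p G₁ Ω₁) y j₁), m₂.ψ z ^ v = y → v • hB X x = hB X₂ x := by
      intro y X hy
      subst hy
      exact hB_zeta hcopv.symm X₂ X x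
    exact key _ X' hv
  -- step 3
  have hnk : ((p ^ (M' + 1) : ℕ) : k) ≠ 0 := by
    intro h0
    have h1 : ((p ^ (M' + 1) : ℕ) : Ω₁) = 0 := by
      rw [← map_natCast (j₁.comp (cL (k := k))), h0, map_zero]
    exact (hz₂.prim.neZero').out h1
  obtain ⟨u, y, hu, hd⟩ := lt_dec hnk (K2.map φ w)
  set κ₀ := (lv k).spec (K2.map φ w) with hκ₀
  clear_value κ₀
  have hAB : hB X₂ (K2.map cL κ₀) + hB X₂ (S (tL k) (cL (u : k))) =
      c • (hB X₂ (K2.map cL κ₀) + 2 • hB X₂ (S (tL k) (cL (u : k)))) := by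
    have e1 := hX (K2.map φ w)
    rw [hst1, hd, rla_sg] at e1
    rw [map_add, map_add, map_nsmul, map_nsmul, map_add, map_add, map_nsmul, tors_hB, tors_hB, add_zero, add_zero] at e1
    exact e1.symm
  -- step 4
  have hA' : hB X' (K2.map cL κ₀) = c • hB X' (K2.map cL κ₀) := by
    have hb : ∀ x, bqm (gim p m') (hB X₂ x) = hB X' (K2.map (sg (p ^ (M' + 1)) hn0) x) := fun x =>
      rla_pull m' (sg (p ^ (M' + 1)) hn0) hm' X₂ X' x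
    have ec : (sg (p ^ (M' + 1)) hn0).comp (cL (k := k)) = cL := RingHom.ext fun x => sg_cL _ hn0 x
    have e1 : hB X' (K2.map (sg (p ^ (M' + 1)) hn0) (K2.map cL κ₀)) = hB X' (K2.map cL κ₀) := by
      rw [K2.map_map, ec]
    have e2 : hB X' (K2.map (sg (p ^ (M' + 1)) hn0) (S (tL k) (cL (u : k)))) = 0 := by
      rw [K2.map_S, sg_tL, sg_cL, Pool.Agent.MK.S_pow_left, map_nsmul, tors_hB]
    have e3 := congrArg (bqm (gim p m')) hAB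
    rw [map_nsmul, map_add, map_add, map_nsmul, hb, hb, e1, e2, smul_zero, add_zero] at e3
    exact e3
  have hA : hB X₂ (K2.map cL κ₀) = c • hB X₂ (K2.map cL κ₀) := by
    rw [← hXv, smul_comm c v, ← hA']
  refine ⟨u, m₂.ψ z, X₂, hu, ?_⟩
  set A := hB X₂ (K2.map cL κ₀) with hAdef
  set B := hB X₂ (S (tL k) (cL (u : k))) with hBdef
  have hnB : (p ^ (M' + 1)) • B = 0 := tors_hB X₂ _
  refine rla_kill hnB (d := 2 * (c : ℤ) - 1) ?_ ?_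
  · push_cast
    apply IsCoprime.pow_right
    obtain ⟨q, hq⟩ := hcp
    exact ⟨1, -(2 * q), by linear_combination 2 * hq⟩
  · have e1 : B = (2 * c) • B := by
      have e2 : A + B = A + (2 * c) • B := by
        calc A + B = c • (A + 2 • B) := hAB
          _ = c • A + (2 * c) • B := by rw [smul_add, smul_smul, mul_comm c 2]
          _ = A + (2 * c) • B := by rw [← hA]
      exact add_left_cancel e2
    have e3 : (2 * (c : ℤ)) • B = (2 * c) • B := by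
      rw [← natCast_zsmul]
      push_cast
      rfl
    rw [sub_zsmul, one_zsmul, e3, ← e1, add_neg_cancel]

end MSC
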