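import Pool.Agent.MSC.Rlb
import Pool.Agent.MSC.La

/-! # MSC / Rlc: embedding in the algebraic closure of the Laurent series over an algebraic closure

`(G, Ω, j)` a pair over `k((t))`; `kb = AlgebraicClosure k`; `mapK : k((t)) → kb((t))` coefficientwise; `XX = AlgebraicClosure (kb((t)))`; `e : Ω → XX` an embedding over `k((t))`.

PROOFS.
* `exists_mapK`: `HahnSeries.map` of the ring homomorphism (additive and multiplicative: `HahnSeries.coeff_mul`, finite sums over the supports; enlarge the supports to those of the source).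
* `exists_e`: `Ω` is algebraic over `j (k((t)))`: it is algebraic over the fixed field (`GA.algebraic`), whose elements have a `q ^ n`-th power in `j (k((t)))` (`h.pi`).  `IsAlgClosed.lift`.
* `const_root`: `y ∈ XX`, `y ^ n = algebraMap (cL x)`, `x ∈ kb`, `n > 0`: the polynomial `X ^ n - x` splits over the algebraically closed `kb`, so its roots in `XX` are images of elements of `kb`.
* `ser`: `fix_gi` for every `x i`, a common `a`: `x i ^ (q ^ a) = P_i.eval₂ j ξ_i`.  `e ξ_i = algebraMap (cL ξ'_i)` (`const_root`).  `s i = P_i.eval₂ mapK (cL ξ'_i)`.  The coefficient of `s i` at `n` is `∑_l (coeff_l P_i).coeff n * ξ'_i ^ l`; let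
  `c = ∑_l j (cL ((coeff_l P_i).coeff n)) * ξ_i ^ l`, fixed by `Gi`, `e c = algebraMap (cL ((s i).coeff n))`.
-/

set_option autoImplicit false
set_option linter.unusedVariables false

namespace MSC

universe u

open MSG MSN Polynomial

noncomputable section

theorem exists_mapK (k : Type u) [Field k] : ∃ f : LaurentSeries k →+* LaurentSeries (AlgebraicClosure k),
    ∀ (x : LaurentSeries k) (n : ℤ), (f x).coeff n = algebraMap k (AlgebraicClosure k) (x.coeff n) := by
  refine ⟨{ toFun := fun x => HahnSeries.map x (algebraMap k (AlgebraicClosure k)),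
            map_one' := ?_, map_mul' := ?_, map_zero' := ?_, map_add' := ?_ }, fun x n => rfl⟩
  · exact HahnSeries.map_one (Γ := ℤ) (algebraMap k (AlgebraicClosure k)).toMonoidWithZeroHom
  · intro x y
    exact HahnSeries.map_mul (Γ := ℤ) ((algebraMap k (AlgebraicClosure k) : k →+* AlgebraicClosure k) :
      k →ₙ+* AlgebraicClosure k)
  · exact HahnSeries.map_zero (Γ := ℤ)
      (ZeroHom.mk (algebraMap k (AlgebraicClosure k)) (map_zero _) : ZeroHom k (AlgebraicClosure k))
  · intro x y
    exact HahnSeries.map_add (Γ := ℤ) ((algebraMap k (AlgebraicClosure k) : k →+* AlgebraicClosure k) :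
      k →+ AlgebraicClosure k)

/-- coefficientwise map -/
def mapK (k : Type u) [Field k] : LaurentSeries k →+* LaurentSeries (AlgebraicClosure k) := (exists_mapK k).choose

theorem mapK_coeff {k : Type u} [Field k] (x : LaurentSeries k) (n : ℤ) :
    (mapK k x).coeff n = algebraMap k (AlgebraicClosure k) (x.coeff n) := (exists_mapK k).choose_spec x n

variable {k G Ω : Type u} [Field k] [Group G] [TopologicalSpace G] [Field Ω] [MulSemiringAction G Ω] {j : LaurentSeries k →+* Ω}

theorem exists_e (h : Ov (LaurentSeries k) G j) : ∃ e : Ω →+* AlgebraicClosure (LaurentSeries (AlgebraicClosure k)),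
    ∀ x, e (j x) = algebraMap (LaurentSeries (AlgebraicClosure k)) _ (mapK k x) := by
  let φ : LaurentSeries k →+* AlgebraicClosure (LaurentSeries (AlgebraicClosure k)) :=
    (algebraMap (LaurentSeries (AlgebraicClosure k)) _).comp (mapK k)
  let i0 : LaurentSeries k →+* FixedPoints.subfield G Ω :=
    j.codRestrict (FixedPoints.subfield G Ω).toSubring (fun x g => h.fj g x)
  let _ : Algebra (LaurentSeries k) Ω := j.toAlgebra
  let _ : Algebra (LaurentSeries k) (FixedPoints.subfield G Ω) := i0.toAlgebra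
  let _ : Algebra (LaurentSeries k) (AlgebraicClosure (LaurentSeries (AlgebraicClosure k))) :=
    φ.toAlgebra
  have ht : IsScalarTower (LaurentSeries k) (FixedPoints.subfield G Ω) Ω :=
    IsScalarTower.of_algebraMap_eq fun x => rfl
  have h1 := h.ga.algebraic
  have h2 : Algebra.IsAlgebraic (LaurentSeries k) (FixedPoints.subfield G Ω) := by
    refine ⟨fun x => ?_⟩
    obtain ⟨n, y, hy⟩ := h.pi x x.2
    have hq : 0 < ringExpChar Ω ^ n := pow_pos (expChar_pos Ω (ringExpChar Ω)) n
    refine ⟨Polynomial.X ^ (ringExpChar Ω ^ n) - Polynomial.C y,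
      Polynomial.X_pow_sub_C_ne_zero hq y, ?_⟩
    rw [map_sub, map_pow, Polynomial.aeval_X, Polynomial.aeval_C, sub_eq_zero]
    exact Subtype.ext hy
  have h3 : Algebra.IsAlgebraic (LaurentSeries k) Ω :=
    Algebra.IsAlgebraic.trans (LaurentSeries k) (FixedPoints.subfield G Ω) Ω
  let l : Ω →ₐ[LaurentSeries k] AlgebraicClosure (LaurentSeries (AlgebraicClosure k)) :=
    IsAlgClosed.lift
  exact ⟨l.toRingHom, fun x => l.commutes x⟩

theorem const_root {n : ℕ} (hn : 0 < n) {y : AlgebraicClosure (LaurentSeries (AlgebraicClosure k))} {x : AlgebraicClosure k}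
    (h : y ^ n = algebraMap (LaurentSeries (AlgebraicClosure k)) _ (cL x)) :
    ∃ r : AlgebraicClosure k, y = algebraMap (LaurentSeries (AlgebraicClosure k)) _ (cL r) := by
  let f : AlgebraicClosure k →+* AlgebraicClosure (LaurentSeries (AlgebraicClosure k)) :=
    (algebraMap (LaurentSeries (AlgebraicClosure k)) _).comp cL
  let P : Polynomial (AlgebraicClosure k) := X ^ n - C x
  have hP : P ≠ 0 := X_pow_sub_C_ne_zero hn x
  have hs : P.Splits := IsAlgClosed.splits P
  have h1 : y ∈ (P.map f).roots := by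
    rw [mem_roots (map_ne_zero hP)]
    have h2 : P.map f = X ^ n - C (f x) := by
      simp only [P, Polynomial.map_sub, Polynomial.map_pow, map_X, map_C]
    rw [IsRoot.def, h2, eval_sub, eval_pow, eval_X, eval_C, sub_eq_zero]
    exact h
  rw [hs.roots_map f] at h1
  obtain ⟨r, -, hr⟩ := Multiset.mem_map.1 h1
  exact ⟨r, hr.symm⟩

private theorem mapK_cL (x : k) : mapK k (cL x) = cL (algebraMap k (AlgebraicClosure k) x) := by
  ext n
  rw [mapK_coeff]
  by_cases hn : n = 0
  · subst hn
    rw [cL, cL, HahnSeries.C_apply, HahnSeries.C_apply, HahnSeries.coeff_single_same,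
      HahnSeries.coeff_single_same]
  · rw [cL, cL, HahnSeries.C_apply, HahnSeries.C_apply, HahnSeries.coeff_single_of_ne hn,
      HahnSeries.coeff_single_of_ne hn, map_zero]

private theorem coeff_mul_cL (x : LaurentSeries k) (r : k) (n : ℤ) : (x * cL r).coeff n = x.coeff n * r := by
  rw [cL, HahnSeries.C_apply]
  exact HahnSeries.coeff_mul_single_zero

private theorem coeff_eval_cL (P : Polynomial (LaurentSeries k)) (r : AlgebraicClosure k) (n : ℤ) :
    (P.eval₂ (mapK k) (cL r)).coeff n =
      ∑ l ∈ Finset.range (P.natDegree + 1), algebraMap k (AlgebraicClosure k) ((P.coeff l).coeff n) * r ^ l := by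
  rw [Polynomial.eval₂_eq_sum_range, HahnSeries.coeff_sum]
  refine Finset.sum_congr rfl fun l _ => ?_
  rw [← map_pow, coeff_mul_cL, mapK_coeff]

theorem ser {p : ℕ} (hp : p.Prime) (h : Ov (LaurentSeries k) G j) (hpΩ : (p : Ω) ≠ 0)
    {e : Ω →+* AlgebraicClosure (LaurentSeries (AlgebraicClosure k))}
    (he : ∀ x, e (j x) = algebraMap (LaurentSeries (AlgebraicClosure k)) _ (mapK k x))
    {ι : Type} [Finite ι] (x : ι → Ω) (hx : ∀ i, ∀ g ∈ Gi p G Ω, g • x i = x i) :
    ∃ (a : ℕ) (s : ι → LaurentSeries (AlgebraicClosure k)), ∀ i,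
      e (x i ^ (ringExpChar Ω ^ a)) = algebraMap (LaurentSeries (AlgebraicClosure k)) _ (s i) ∧
      ∀ n : ℤ, ∃ c : Ω, (∀ g ∈ Gi p G Ω, g • c = c) ∧
        e c = algebraMap (LaurentSeries (AlgebraicClosure k)) _ (cL ((s i).coeff n)) := by
  classical
  cases nonempty_fintype ι
  choose a₀ ha₀ using fun i => fix_gi hp h hpΩ (hx i)
  choose N ξ P hξ hP using fun i => ha₀ i (Finset.univ.sup a₀) (Finset.le_sup (Finset.mem_univ i))
  have hr : ∀ i, ∃ r : AlgebraicClosure k,
      e (ξ i) = algebraMap (LaurentSeries (AlgebraicClosure k)) _ (cL r) := by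
    intro i
    refine const_root (n := p ^ N i) (pow_pos hp.pos _) (x := 1) ?_
    rw [← map_pow, hξ, map_one, map_one, map_one]
  choose r hr using hr
  refine ⟨Finset.univ.sup a₀, fun i => (P i).eval₂ (mapK k) (cL (r i)), fun i => ⟨?_, fun n => ?_⟩⟩
  · rw [hP i, Polynomial.hom_eval₂, Polynomial.hom_eval₂, hr]
    congr 1
    exact RingHom.ext he
  · refine ⟨∑ l ∈ Finset.range ((P i).natDegree + 1), j (cL (((P i).coeff l).coeff n)) * ξ i ^ l, ?_, ?_⟩
    · intro g hg
      rw [Finset.smul_sum]
      refine Finset.sum_congr rfl fun l _ => ?_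
      rw [smul_mul', h.fj, smul_pow', hg (ξ i) (N i) (hξ i)]
    · rw [coeff_eval_cL, map_sum, map_sum, map_sum]
      refine Finset.sum_congr rfl fun l _ => ?_
      rw [map_mul, map_pow, he, mapK_cL, hr, map_mul, map_mul, map_pow, map_pow]

end

end MSC
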