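import Pool.Agent.MSC.Gen

/-! # MSC / Rz: the ring `R0` of the coordinates of the generic cocycle and its fraction field `K0`

`S0` is the set of the coordinates of all `Cg q q'`, `Yg q` in `AA`; `R0` the `F`-subalgebra of `AA` generated by it; `K0` its fraction field; `rK : R0 → K0`, `kA : K0 → AA`.  `CR q q'`, `YR q` in `TT R0`
are mapped to `Cg`, `Yg` in `TT AA`; `C0`, `Y0` are their images in `TT K0` (units).

PROOFS.
* `kA_rK`: `IsFractionRing.lift_algebraMap` (or `IsFractionRing.liftAlgHom`).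
* `exists_CR`, `exists_YR`: `exists_tm_of_cd` for `(R0 D).val`: the coordinates are in `S0 ⊆ R0`.
* `c0_unit`, `y0_unit`: `isUnit_of_tm (kA D)`: `tm kA (tm rK (CR q q')) = tm (R0.val) (CR q q') = Cg q q'` (`tm_comp`).
* `c0_coc`, `c0_pow`: apply the injective `tm (kA D)` (`tm_inj`, a homomorphism of fields is injective), `tm_qa`, `cg_coc`, `cg_pow`.
-/

set_option autoImplicit false
set_option linter.unusedVariables false

namespace MSC

universe u

open scoped TensorProduct

noncomputable section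

variable {p r : ℕ} {F E Q : Type u} [Field F] [Field E] [Algebra F E] [Group Q] [FiniteDimensional F E] (D : CD p r F E Q)

/-- the coordinates -/
def S0 : Set (AA F E Q) :=
  {x | ∃ q q' i, x = cd (AA F E Q) i (Cg D q q' : TT F E (AA F E Q))} ∪
    {x | ∃ q i, x = cd (AA F E Q) i (Yg D q : TT F E (AA F E Q))}

/-- the subalgebra generated by the coordinates -/
def R0 : Subalgebra F (AA F E Q) := Algebra.adjoin F (S0 D)

/-- the fraction field of `R0` -/
abbrev K0 : Type u := FractionRing (R0 D)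

/-- the inclusion `R0 → K0` -/
def rK : R0 D →ₐ[F] K0 D := IsScalarTower.toAlgHom F (R0 D) (K0 D)

/-- the embedding `K0 → AA` -/
def kA : K0 D →ₐ[F] AA F E Q := IsFractionRing.liftAlgHom (g := (R0 D).val) Subtype.val_injective

theorem kA_rK (x : R0 D) : kA D (rK D x) = (x : AA F E Q) := by
  exact IsFractionRing.lift_algebraMap (K := K0 D) (g := ((R0 D).val : R0 D →+* AA F E Q))
    Subtype.val_injective x

theorem exists_CR (q q' : Q) : ∃ x : TT F E (R0 D), tm (R0 D).val x = (Cg D q q' : TT F E (AA F E Q)) := by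
  refine exists_tm_of_cd _ _ fun i => ⟨⟨_, ?_⟩, rfl⟩
  exact Algebra.subset_adjoin (Or.inl ⟨q, q', i, rfl⟩)

theorem exists_YR (q : Q) : ∃ x : TT F E (R0 D), tm (R0 D).val x = (Yg D q : TT F E (AA F E Q)) := by
  refine exists_tm_of_cd _ _ fun i => ⟨⟨_, ?_⟩, rfl⟩
  exact Algebra.subset_adjoin (Or.inr ⟨q, i, rfl⟩)

/-- the cocycle over `R0` -/
def CR (q q' : Q) : TT F E (R0 D) := (exists_CR D q q').choose

theorem CR_spec (q q' : Q) : tm (R0 D).val (CR D q q') = (Cg D q q' : TT F E (AA F E Q)) := (exists_CR D q q').choose_spec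

/-- `Y` over `R0` -/
def YR (q : Q) : TT F E (R0 D) := (exists_YR D q).choose

theorem YR_spec (q : Q) : tm (R0 D).val (YR D q) = (Yg D q : TT F E (AA F E Q)) := (exists_YR D q).choose_spec

private theorem kA_comp : (kA D).comp (rK D) = (R0 D).val :=
  AlgHom.ext fun x => kA_rK D x

theorem c0_unit (q q' : Q) : IsUnit (tm (rK D) (CR D q q')) := by
  refine isUnit_of_tm (kA D) ?_
  rw [← tm_comp, kA_comp, CR_spec]
  exact Units.isUnit _

theorem y0_unit (q : Q) : IsUnit (tm (rK D) (YR D q)) := by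
  refine isUnit_of_tm (kA D) ?_
  rw [← tm_comp, kA_comp, YR_spec]
  exact Units.isUnit _

/-- the universal cocycle -/
def C0 (q q' : Q) : (TT F E (K0 D))ˣ := (c0_unit D q q').unit

/-- the universal `Y` -/
def Y0 (q : Q) : (TT F E (K0 D))ˣ := (y0_unit D q).unit

theorem C0_val (q q' : Q) : (C0 D q q' : TT F E (K0 D)) = tm (rK D) (CR D q q') := (c0_unit D q q').unit_spec

theorem Y0_val (q : Q) : (Y0 D q : TT F E (K0 D)) = tm (rK D) (YR D q) := (y0_unit D q).unit_spec

theorem kA_C0 (q q' : Q) : tm (kA D) (C0 D q q' : TT F E (K0 D)) = (Cg D q q' : TT F E (AA F E Q)) := by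
  rw [C0_val, ← tm_comp, kA_comp, CR_spec]

theorem kA_Y0 (q : Q) : tm (kA D) (Y0 D q : TT F E (K0 D)) = (Yg D q : TT F E (AA F E Q)) := by
  rw [Y0_val, ← tm_comp, kA_comp, YR_spec]

private theorem kA_inj : Function.Injective (tm (E := E) (kA D)) :=
  tm_inj (kA D).toRingHom.injective

private theorem kA_qu (q : Q) (x : (TT F E (K0 D))ˣ) :
    tm (kA D) (qu D (K0 D) q x : TT F E (K0 D)) = qa D.act (AA F E Q) q (tm (kA D) (x : TT F E (K0 D))) :=
  tm_qa D.act (kA D) q (x : TT F E (K0 D))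

private theorem qu_val (q : Q) (x : (TT F E (AA F E Q))ˣ) :
    ((qu D (AA F E Q) q x : (TT F E (AA F E Q))ˣ) : TT F E (AA F E Q)) = qa D.act (AA F E Q) q (x : TT F E (AA F E Q)) :=
  rfl

theorem c0_coc (q q' q'' : Q) : C0 D q q' * C0 D (q * q') q'' = qu D (K0 D) q (C0 D q' q'') * C0 D q (q' * q'') := by
  apply Units.ext
  apply kA_inj D
  rw [Units.val_mul, Units.val_mul, map_mul, map_mul, kA_qu, kA_C0, kA_C0, kA_C0, kA_C0, ← qu_val,
    ← Units.val_mul, ← Units.val_mul, cg_coc]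

theorem c0_pow (q q' : Q) : C0 D q q' ^ p * Y0 D (q * q') = Y0 D q * qu D (K0 D) q (Y0 D q') := by
  apply Units.ext
  apply kA_inj D
  rw [Units.val_mul, Units.val_mul, Units.val_pow_eq_pow_val, map_mul, map_mul, map_pow, kA_qu, kA_C0,
    kA_Y0, kA_Y0, kA_Y0, ← qu_val, ← Units.val_pow_eq_pow_val, ← Units.val_mul, ← Units.val_mul, cg_pow]

end

end MSC
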