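import Pool.Agent.MK.P1

/-! # MSC / Zma: the residues of `K₂(k(X))` at `c` lie in `k(c)`

`MK.vPt c` is the place `X = c` of `RatFunc k`, `c` in the algebraic closure of `k`, with angular component in the algebraic closure.

PROOFS.
* `vpt_dec`: `x = f / g` (`MK.ratFunc_frac`), `f = π ^ a * r`, `g = π ^ b * s` (`WfDvdMonoid.max_power_factor`, `π = minpoly k c` prime, `MK.minpoly_prime`); `n = a - b`.
* `ac_mem`: `x = 0`: `ac_zero`.  `vpt_dec` and `MK.vPt_spec`: `ac x = aeval c r / aeval c s` (`Val.ac_mul'`, `Val.ac_zpow`, `Val.ac_div`).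
* `tame_mem`: `K2_induction`; on symbols `Val.tame_S_unit`, `Val.A_val` and `ac_mem`; products and inverses stay in the field.
* `vpt_congr`: `Val.tame_congr_zero` with `φ = id`, `w = vPt c`, `w' = vPt c'`, `j` = a `k`-homomorphism `σ` of the algebraic closure with `σ c = c'` (`minpoly.exists_algEquiv_of_root'`, or `IsConjRoot`, or `IntermediateField.exists_algHom_of_splits_of_aeval`):
  on `x = π ^ n r / s` both valuations are `n`; if `n = 0` then `vPt c' x = aeval c' r / aeval c' s = σ (aeval c r / aeval c s)`.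
* `mem_poly`: `x ∈ k⟮c⟯` is `aeval c g₀` (`c` is integral: `IntermediateField.mem_adjoin_simple_iff` and inverses are polynomials, or `IntermediateField.adjoin_simple_toSubalgebra_of_isAlgebraic`, `Algebra.adjoin_singleton_eq_range_aeval`); `g = g₀ %ₘ minpoly k c`.
-/

set_option autoImplicit false
set_option linter.unusedVariables false

namespace MSC

universe u

open Polynomial IntermediateField

open Pool.Agent.MK (K2 S Val vPt)

variable {k : Type u} [Field k]

theorem vpt_dec (c : AlgebraicClosure k) {x : RatFunc k} (hx : x ≠ 0) : ∃ (n : ℤ) (r s : k[X]), ¬ minpoly k c ∣ r ∧ ¬ minpoly k c ∣ s ∧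
    x = algebraMap k[X] (RatFunc k) (minpoly k c) ^ n * (algebraMap k[X] (RatFunc k) r / algebraMap k[X] (RatFunc k) s) := by
  obtain ⟨f, g, hg, rfl⟩ := Pool.Agent.MK.ratFunc_frac k x
  have hf : f ≠ 0 := by
    rintro rfl
    exact hx (by rw [map_zero, zero_div])
  have hp := Pool.Agent.MK.minpoly_prime c
  obtain ⟨a, r, hr, rfl⟩ := WfDvdMonoid.max_power_factor hf hp.irreducible
  obtain ⟨b, s, hs, rfl⟩ := WfDvdMonoid.max_power_factor hg hp.irreducible
  refine ⟨(a : ℤ) - b, r, s, hr, hs, ?_⟩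
  have h0 : algebraMap k[X] (RatFunc k) (minpoly k c) ≠ 0 :=
    (map_ne_zero_iff _ (Pool.Agent.MK.ratFunc_inj k)).2 hp.ne_zero
  rw [map_mul, map_mul, map_pow, map_pow, zpow_sub₀ h0, zpow_natCast, zpow_natCast,
    mul_div_mul_comm]

private theorem zm_ne {c : AlgebraicClosure k} {r : k[X]} (h : ¬ minpoly k c ∣ r) :
    algebraMap k[X] (RatFunc k) r ≠ 0 := by
  refine (map_ne_zero_iff _ (Pool.Agent.MK.ratFunc_inj k)).2 ?_
  rintro rfl
  exact h (dvd_zero _)

private theorem zm_ac (c : AlgebraicClosure k) (n : ℤ) (r s : k[X]) (hr : ¬ minpoly k c ∣ r)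
    (hs : ¬ minpoly k c ∣ s) :
    (vPt c).v (algebraMap k[X] (RatFunc k) (minpoly k c) ^ n * (algebraMap k[X] (RatFunc k) r / algebraMap k[X] (RatFunc k) s)) = n ∧
    (vPt c).ac (algebraMap k[X] (RatFunc k) (minpoly k c) ^ n * (algebraMap k[X] (RatFunc k) r / algebraMap k[X] (RatFunc k) s)) =
      aeval c r / aeval c s := by
  obtain ⟨h1, h2, -, h3⟩ := Pool.Agent.MK.vPt_spec c
  have h0 : algebraMap k[X] (RatFunc k) (minpoly k c) ≠ 0 :=
    (map_ne_zero_iff _ (Pool.Agent.MK.ratFunc_inj k)).2 (Pool.Agent.MK.minpoly_prime c).ne_zero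
  have hr0 := zm_ne hr
  have hs0 := zm_ne hs
  constructor
  · rw [(vPt c).v_mul _ _ (zpow_ne_zero n h0) (div_ne_zero hr0 hs0), (vPt c).v_zpow _ n h0, h1,
      (vPt c).v_div hr0 hs0, (h3 r hr).1, (h3 s hs).1]
    ring
  · rw [(vPt c).ac_mul', (vPt c).ac_zpow _ n h0, h2, one_zpow, one_mul, (vPt c).ac_div,
      (h3 r hr).2, (h3 s hs).2]

private theorem zm_mem (c : AlgebraicClosure k) (r : k[X]) : aeval c r ∈ k⟮c⟯ :=
  IntermediateField.algebra_adjoin_le_adjoin k {c}
    (Algebra.adjoin_singleton_eq_range_aeval k c ▸ AlgHom.mem_range_self (aeval c) r)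

theorem ac_mem (c : AlgebraicClosure k) (x : RatFunc k) : (vPt c).ac x ∈ k⟮c⟯ := by
  by_cases hx : x = 0
  · rw [hx, (vPt c).ac_zero]
    exact zero_mem _
  · obtain ⟨n, r, s, hr, hs, rfl⟩ := vpt_dec c hx
    rw [(zm_ac c n r s hr hs).2]
    exact div_mem (zm_mem c r) (zm_mem c s)

theorem tame_mem (c : AlgebraicClosure k) (w : K2 (RatFunc k)) :
    ((Additive.toMul ((vPt c).tame w) : (AlgebraicClosure k)ˣ) : AlgebraicClosure k) ∈ k⟮c⟯ := by
  induction w using Pool.Agent.MK.K2_induction with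
  | hS a b ha hb =>
    obtain ⟨h1, -⟩ := (vPt c).tame_S_unit ha hb
    rw [h1, (vPt c).A_val (div_ne_zero (mul_ne_zero (zpow_ne_zero _ (neg_ne_zero.mpr one_ne_zero))
      (zpow_ne_zero _ hb)) (zpow_ne_zero _ ha))]
    exact ac_mem c _
  | hz =>
    rw [map_zero, toMul_zero, Units.val_one]
    exact one_mem _
  | hadd x y hx hy =>
    rw [map_add, toMul_add, Units.val_mul]
    exact mul_mem hx hy

theorem vpt_congr {c c' : AlgebraicClosure k} (h : minpoly k c = minpoly k c') (w : K2 (RatFunc k)) :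
    (vPt c').tame w = 0 ↔ (vPt c).tame w = 0 := by
  obtain ⟨σ, hσ⟩ := minpoly.exists_algEquiv_of_root' (K := k) (x := c') (y := c)
    (Algebra.IsAlgebraic.isAlgebraic c) (by rw [h]; exact minpoly.aeval k c')
  have hv : ∀ x : RatFunc k, x ≠ 0 → (vPt c').v (RingHom.id (RatFunc k) x) = (vPt c).v x ∧
      (vPt c').ac (RingHom.id (RatFunc k) x) =
        (σ : AlgebraicClosure k →+* AlgebraicClosure k) ((vPt c).ac x) := by
    intro x hx
    obtain ⟨n, r, s, hr, hs, rfl⟩ := vpt_dec c hx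
    obtain ⟨a1, a2⟩ := zm_ac c n r s hr hs
    have b := zm_ac c' n r s (by rw [← h]; exact hr) (by rw [← h]; exact hs)
    rw [← h] at b
    rw [RingHom.id_apply, a1, a2, b.1, b.2]
    refine ⟨rfl, ?_⟩
    have e : ∀ q : k[X], (σ : AlgebraicClosure k →+* AlgebraicClosure k) (aeval c q) =
        aeval c' q := by
      intro q
      rw [← hσ]
      exact (Polynomial.aeval_algHom_apply (σ : AlgebraicClosure k →ₐ[k] AlgebraicClosure k)
        c q).symm
    rw [map_div₀, e, e]
  have h2 := (vPt c).tame_congr_zero (vPt c') (RingHom.id (RatFunc k))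
    (σ : AlgebraicClosure k →+* AlgebraicClosure k) (fun x hx => (hv x hx).1)
    (fun x hx _ => (hv x hx).2) w
  rw [Pool.Agent.MK.K2.map_id] at h2
  exact h2

theorem mem_poly {c x : AlgebraicClosure k} (hx : x ∈ k⟮c⟯) : ∃ g : k[X], g.natDegree < (minpoly k c).natDegree ∧ aeval c g = x := by
  have hc : IsIntegral k c := Algebra.IsIntegral.isIntegral c
  have h1 : x ∈ (k⟮c⟯).toSubalgebra := hx
  rw [IntermediateField.adjoin_simple_toSubalgebra_of_isAlgebraic hc.isAlgebraic,
    Algebra.adjoin_singleton_eq_range_aeval] at h1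
  obtain ⟨g0, hg0⟩ := h1
  refine ⟨g0 %ₘ minpoly k c, ?_, ?_⟩
  · exact natDegree_modByMonic_lt _ (minpoly.monic hc) (minpoly.ne_one k c)
  · have h2 := modByMonic_add_div g0 (minpoly k c)
    have h3 := congrArg (aeval c) h2
    rw [map_add, map_mul, minpoly.aeval, zero_mul, add_zero] at h3
    rw [h3]
    exact hg0

end MSC
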