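import Pool.Agent.MSC.La
import Pool.Agent.MSC.Zma

/-! # MSC / Zmc: expansion at `X = c`

`φ : k(X) → k(c)((t))`, `X ↦ c + t`.

PROOFS.
* `tame_e`: as `Val.tame_congr` (copy its proof): on a symbol `S a b`, with `α = w.v a`, `β = w.v b`: `tame' (S (φ a) (φ b))` is the residue of `(-1) ^ (e α e β) φ b ^ (e α) / φ a ^ (e β)`, which is `φ` of `((-1) ^ (α β) b ^ α / a ^ β) ^ e` times
  `(-1) ^ (e (e - 1) α β) = 1` (`e (e - 1)` is even), so `j` of it is the `e`-th power of the residue of `(-1) ^ (α β) b ^ α / a ^ β` (of valuation `0`), which is `tame (S a b)`.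
* `exists_phi`: `κ = k⟮c⟯`, `γ = AdjoinSimple.gen k c`.  On polynomials: `P ↦ cs (Taylor expansion)`: the composition of `Polynomial.mapRingHom (algebraMap k κ)`, `Polynomial.taylor`-type map `P ↦ P.comp (X + C γ)`, the coercion to power series and `cs` (or `HahnSeries.ofPowerSeries`); it is injective (degree), so it extends to
  `RatFunc k` (`IsFractionRing.lift` or `IsLocalization.lift`, `RatFunc.liftRingHom`).  `φ (C x) = cL x`.
  For a polynomial `r` with `r(c) ≠ 0` the constant coefficient of its expansion is `aeval γ r ≠ 0`, so the valuation is `0` and the angular component is `aeval γ r`, which maps to `aeval c r` (`MSX.lv_coe`).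
  `π = minpoly k c`, `q = ringExpChar k`: `Irreducible.hasSeparableContraction`: `π = expand k Q g`, `Q = q ^ i`, `g` separable.  Over `κ`: `g = (X - γ ^ Q) * h`, `h (γ ^ Q) ≠ 0` (`g` is separable, `Polynomial.Separable`, no double root), so
  `π = (X - γ) ^ Q * h (X ^ Q)` (`sub_pow_expChar_pow`), and its expansion is `t ^ Q * (h ((γ + t) ^ Q))`, the second factor with constant coefficient `h (γ ^ Q) ≠ 0`: valuation `e = Q`, prime to `p` (`q = 1` or `q` is a prime different from `p`).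
  For `x ≠ 0` use `vpt_dec`: `v (φ x) = e n`, `(vPt c).v x = n`, and if `n = 0` then `ac (φ x) = aeval γ r / aeval γ s`.
-/

set_option autoImplicit false
set_option linter.unusedVariables false

namespace MSC

universe u

open Polynomial IntermediateField

open Pool.Agent.MK (K2 S Val vPt)

open Pool.Agent.MSX (lv cs)

theorem tame_e {K K' κ Λ : Type u} [Field K] [Field K'] [Field κ] [Field Λ] (w : Val K Λ) (w' : Val K' κ) (φ : K →+* K') (j : κ →+* Λ) (e : ℕ)
    (hv : ∀ x, x ≠ 0 → w'.v (φ x) = e * w.v x) (hac : ∀ x, x ≠ 0 → w.v x = 0 → j (w'.ac (φ x)) = w.ac x) (x : K2 K) :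
    Units.map (j : κ →* Λ) (Additive.toMul (w'.tame (K2.map φ x))) = Additive.toMul (w.tame x) ^ e := by
  induction x using Pool.Agent.MK.K2_induction with
  | hS a b ha hb =>
    obtain ⟨h1, h2⟩ := w.tame_S_unit ha hb
    have hφa : φ a ≠ 0 := (map_ne_zero φ).mpr ha
    have hφb : φ b ≠ 0 := (map_ne_zero φ).mpr hb
    obtain ⟨h3, -⟩ := w'.tame_S_unit hφa hφb
    have ht : (-1 : K) ^ (w.v a * w.v b) * b ^ (w.v a) / a ^ (w.v b) ≠ 0 :=
      div_ne_zero (mul_ne_zero (zpow_ne_zero _ (neg_ne_zero.mpr one_ne_zero))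
        (zpow_ne_zero _ hb)) (zpow_ne_zero _ ha)
    have hs : (-1 : K') ^ ((e : ℤ) * w.v a * ((e : ℤ) * w.v b)) = (-1 : K') ^ (w.v a * w.v b * (e : ℤ)) := by
      have h5 : (e : ℤ) * w.v a * ((e : ℤ) * w.v b) = w.v a * w.v b * (e : ℤ) + (e : ℤ) * ((e : ℤ) - 1) * (w.v a * w.v b) := by ring
      have h6 : Even ((e : ℤ) * ((e : ℤ) - 1) * (w.v a * w.v b)) := by
        refine Even.mul_right ?_ _
        rw [mul_comm]
        have h7 := Int.even_mul_succ_self ((e : ℤ) - 1)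
        rwa [sub_add_cancel] at h7
      rw [h5, zpow_add₀ (neg_ne_zero.mpr one_ne_zero), h6.neg_one_zpow, mul_one]
    have h4 : (-1 : K') ^ (w'.v (φ a) * w'.v (φ b)) * φ b ^ (w'.v (φ a)) / φ a ^ (w'.v (φ b)) =
        φ (((-1 : K) ^ (w.v a * w.v b) * b ^ (w.v a) / a ^ (w.v b)) ^ e) := by
      rw [hv a ha, hv b hb, map_pow, map_div₀, map_mul, map_zpow₀, map_zpow₀, map_zpow₀, map_neg,
        map_one, div_pow, mul_pow, hs, zpow_mul, zpow_natCast, mul_comm (e : ℤ) (w.v a),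
        mul_comm (e : ℤ) (w.v b), zpow_mul (φ b), zpow_mul (φ a), zpow_natCast, zpow_natCast]
    have hte : ((-1 : K) ^ (w.v a * w.v b) * b ^ (w.v a) / a ^ (w.v b)) ^ e ≠ 0 := pow_ne_zero _ ht
    have hve : w.v (((-1 : K) ^ (w.v a * w.v b) * b ^ (w.v a) / a ^ (w.v b)) ^ e) = 0 := by
      rw [w.v_pow, h2, mul_zero]
    rw [K2.map_S, h3, h1, h4, Units.ext_iff, Units.coe_map, Units.val_pow_eq_pow_val,
      w'.A_val ((map_ne_zero φ).mpr hte), w.A_val ht]
    show j _ = _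
    rw [hac _ hte hve, ← zpow_natCast, w.ac_zpow _ _ ht, zpow_natCast]
  | hz => simp
  | hadd x y hx hy =>
    rw [map_add (K2.map φ), map_add w'.tame, map_add w.tame, toMul_add, toMul_add, map_mul, hx, hy, mul_pow]

namespace ZmcAux

noncomputable section

variable {k : Type u} [Field k] (c : AlgebraicClosure k)

/-- the Taylor expansion at `γ` -/
def tay : k[X] →+* (k⟮c⟯)[X] :=
  (compRingHom (X + C (AdjoinSimple.gen k c))).comp (mapRingHom (algebraMap k k⟮c⟯))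

theorem tay_eq (P : k[X]) : tay c P = taylor (AdjoinSimple.gen k c) (P.map (algebraMap k k⟮c⟯)) := by
  rw [taylor_apply]
  rfl

theorem tay_inj : Function.Injective (tay c) := by
  intro P Q h
  rw [tay_eq, tay_eq] at h
  exact map_injective _ (algebraMap k k⟮c⟯).injective (taylor_injective _ h)

theorem tay_coeff (P : k[X]) : (tay c P).coeff 0 = aeval (AdjoinSimple.gen k c) P := by
  rw [tay_eq, taylor_coeff_zero, eval_map_algebraMap]

/-- the expansion -/
def ex : k[X] →+* LaurentSeries k⟮c⟯ := (cs (k := k⟮c⟯)).comp ((coeToPowerSeries.ringHom).comp (tay c))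

theorem ex_apply (P : k[X]) : ex c P = cs ((tay c P : (k⟮c⟯)[X]) : PowerSeries k⟮c⟯) := rfl

theorem ex_inj : Function.Injective (ex c) := by
  intro P Q h
  rw [ex_apply, ex_apply] at h
  exact tay_inj c (coe_injective _ (Pool.Agent.MSX.cs_inj h))

theorem ex_C (x : k) : ex c (C x) = HahnSeries.C (algebraMap k k⟮c⟯ x) := by
  have h : tay c (C x) = C (algebraMap k k⟮c⟯ x) := by
    show (compRingHom _) ((C x).map _) = _
    rw [map_C]
    exact C_comp
  rw [ex_apply, h, coe_C]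
  exact HahnSeries.ofPowerSeries_C _

theorem gen_map : algebraMap k⟮c⟯ (AlgebraicClosure k) (AdjoinSimple.gen k c) = c :=
  AdjoinSimple.algebraMap_gen k c

theorem aeval_gen (r : k[X]) : algebraMap k⟮c⟯ (AlgebraicClosure k) (aeval (AdjoinSimple.gen k c) r) = aeval c r := by
  rw [← aeval_algebraMap_apply, gen_map]

theorem aeval_gen_ne {r : k[X]} (h : ¬ minpoly k c ∣ r) : aeval (AdjoinSimple.gen k c) r ≠ 0 := by
  intro h0
  apply h
  rw [minpoly.dvd_iff, ← aeval_gen, h0, map_zero]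

theorem ex_unit {r : k[X]} (h : ¬ minpoly k c ∣ r) :
    (lv k⟮c⟯).v (ex c r) = 0 ∧ (lv k⟮c⟯).ac (ex c r) = aeval (AdjoinSimple.gen k c) r := by
  have h1 : PowerSeries.constantCoeff ((tay c r : (k⟮c⟯)[X]) : PowerSeries k⟮c⟯) = aeval (AdjoinSimple.gen k c) r := by
    rw [constantCoeff_coe, tay_coeff]
  have h2 := Pool.Agent.MSX.lv_unit ((tay c r : (k⟮c⟯)[X]) : PowerSeries k⟮c⟯) (by rw [h1]; exact aeval_gen_ne c h)
  rw [h1] at h2
  exact h2

theorem tay_minpoly {p : ℕ} (hp : p.Prime) (hk : (p : k) ≠ 0) :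
    ∃ (Q : ℕ) (U : (k⟮c⟯)[X]), Nat.Coprime Q p ∧ U.coeff 0 ≠ 0 ∧ tay c (minpoly k c) = X ^ Q * U := by
  obtain ⟨q, hq⟩ : ∃ q, ExpChar k q := ⟨_, ringExpChar.expChar k⟩
  obtain ⟨g, hg, m, hm⟩ := Irreducible.hasSeparableContraction q (Pool.Agent.MK.minpoly_prime c).irreducible
  haveI h1 : ExpChar k⟮c⟯ q := expChar_of_injective_algebraMap (algebraMap k k⟮c⟯).injective q
  haveI h2 : ExpChar (k⟮c⟯)[X] q := expChar_of_injective_ringHom (C_injective (R := k⟮c⟯)) q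
  obtain ⟨γ, hγ⟩ : ∃ γ, γ = AdjoinSimple.gen k c := ⟨_, rfl⟩
  obtain ⟨Q, hQ⟩ : ∃ Q, Q = q ^ m := ⟨_, rfl⟩
  have hcop : Nat.Coprime Q p := by
    rw [hQ]
    apply Nat.Coprime.pow_left
    rcases hq with _ | _
    · exact Nat.coprime_one_left p
    · rename_i hqp hch
      refine (Nat.coprime_primes hqp hp).2 ?_
      rintro rfl
      exact hk (CharP.cast_eq_zero k q)
  have hsep : (g.map (algebraMap k k⟮c⟯)).Separable := hg.map
  have hroot : (g.map (algebraMap k k⟮c⟯)).IsRoot (γ ^ Q) := by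
    have e1 : aeval γ (minpoly k c) = 0 := by
      apply (algebraMap k⟮c⟯ (AlgebraicClosure k)).injective
      rw [hγ, aeval_gen, minpoly.aeval, map_zero]
    rw [← hm, expand_aeval, ← hQ] at e1
    rw [IsRoot.def, eval_map_algebraMap]
    exact e1
  obtain ⟨h, hh⟩ := dvd_iff_isRoot.2 hroot
  have hδ : eval (γ ^ Q) h ≠ 0 := by
    have e1 := hsep.eval₂_derivative_ne_zero (RingHom.id _) (x := γ ^ Q) (by rw [← eval]; exact hroot)
    rw [← eval, hh, derivative_mul, derivative_sub, derivative_X, derivative_C, sub_zero, one_mul,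
      eval_add, eval_mul, eval_sub, eval_X, eval_C, sub_self, zero_mul, add_zero] at e1
    exact e1
  refine ⟨Q, taylor γ (expand _ Q h), hcop, ?_, ?_⟩
  · rw [taylor_coeff_zero, expand_eval]
    exact hδ
  · have e2 : (minpoly k c).map (algebraMap k k⟮c⟯) = (X - C γ) ^ Q * expand _ Q h := by
      rw [← hm, map_expand, ← hQ, hh, map_mul, map_sub, expand_X, expand_C, C_pow, hQ,
        sub_pow_expChar_pow]
    rw [tay_eq, e2, ← hγ, taylor_mul, taylor_pow, map_sub, taylor_X, taylor_C, add_sub_cancel_right]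

theorem ex_minpoly {p : ℕ} (hp : p.Prime) (hk : (p : k) ≠ 0) :
    ∃ e : ℕ, Nat.Coprime e p ∧ (lv k⟮c⟯).v (ex c (minpoly k c)) = e := by
  obtain ⟨Q, U, h1, h2, h3⟩ := tay_minpoly c hp hk
  refine ⟨Q, h1, ?_⟩
  have h4 : ex c (minpoly k c) = tL k⟮c⟯ ^ Q * cs (U : PowerSeries k⟮c⟯) := by
    rw [ex_apply, h3, coe_mul, coe_pow, coe_X, map_mul, map_pow]
    rfl
  have h5 : PowerSeries.constantCoeff (U : PowerSeries k⟮c⟯) ≠ 0 := by
    rw [constantCoeff_coe]
    exact h2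
  have h6 := (Pool.Agent.MSX.lv_unit _ h5).1
  have h7 : cs (U : PowerSeries k⟮c⟯) ≠ 0 := by
    intro h8
    have h9 := (Pool.Agent.MSX.lv_unit _ h5).2
    rw [h8, (lv k⟮c⟯).ac_zero] at h9
    exact h5 h9.symm
  rw [h4, (lv k⟮c⟯).v_mul _ _ (pow_ne_zero _ tL_ne) h7, (lv k⟮c⟯).v_pow, h6, tL_v.1]
  ring

end

end ZmcAux

open ZmcAux in
theorem exists_phi {p : ℕ} (hp : p.Prime) {k : Type u} [Field k] (hk : (p : k) ≠ 0) (c : AlgebraicClosure k) :
    ∃ (φ : RatFunc k →+* LaurentSeries k⟮c⟯) (e : ℕ), Nat.Coprime e p ∧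
      (∀ x : k, φ (RatFunc.C x) = HahnSeries.C (algebraMap k k⟮c⟯ x)) ∧
      (∀ x, x ≠ 0 → (lv k⟮c⟯).v (φ x) = e * (vPt c).v x) ∧
      ∀ x, x ≠ 0 → (vPt c).v x = 0 → algebraMap k⟮c⟯ (AlgebraicClosure k) ((lv k⟮c⟯).ac (φ x)) = (vPt c).ac x := by
  obtain ⟨e, he, hve⟩ := ex_minpoly c hp hk
  have hφ : ∀ P : k[X], IsFractionRing.lift (ex_inj c) (algebraMap k[X] (RatFunc k) P) = ex c P :=
    fun P => IsFractionRing.lift_algebraMap (ex_inj c) P
  obtain ⟨φ, hφ⟩ : ∃ φ : RatFunc k →+* LaurentSeries k⟮c⟯, ∀ P : k[X], φ (algebraMap k[X] (RatFunc k) P) = ex c P :=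
    ⟨_, hφ⟩
  have hinj := Pool.Agent.MK.ratFunc_inj k
  have hmp : algebraMap k[X] (RatFunc k) (minpoly k c) ≠ 0 :=
    (map_ne_zero_iff _ hinj).2 (Pool.Agent.MK.minpoly_prime c).ne_zero
  have key : ∀ x : RatFunc k, x ≠ 0 → (lv k⟮c⟯).v (φ x) = e * (vPt c).v x ∧
      ((vPt c).v x = 0 → algebraMap k⟮c⟯ (AlgebraicClosure k) ((lv k⟮c⟯).ac (φ x)) = (vPt c).ac x) := by
    intro x hx
    obtain ⟨n, r, s, hr, hs, rfl⟩ := vpt_dec c hx
    have hr0 : algebraMap k[X] (RatFunc k) r ≠ 0 :=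
      (map_ne_zero_iff _ hinj).2 (by rintro rfl; exact hr (dvd_zero _))
    have hs0 : algebraMap k[X] (RatFunc k) s ≠ 0 :=
      (map_ne_zero_iff _ hinj).2 (by rintro rfl; exact hs (dvd_zero _))
    have hmn := zpow_ne_zero n hmp
    obtain ⟨a1, a2⟩ := (Pool.Agent.MK.vPt_spec c).2.2.2 r hr
    obtain ⟨b1, b2⟩ := (Pool.Agent.MK.vPt_spec c).2.2.2 s hs
    obtain ⟨c1, c2⟩ := ex_unit c hr
    obtain ⟨d1, d2⟩ := ex_unit c hs
    have hv : (vPt c).v (algebraMap k[X] (RatFunc k) (minpoly k c) ^ n *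
        (algebraMap k[X] (RatFunc k) r / algebraMap k[X] (RatFunc k) s)) = n := by
      rw [(vPt c).v_mul _ _ hmn (div_ne_zero hr0 hs0), (vPt c).v_zpow _ _ hmp,
        (Pool.Agent.MK.vPt_spec c).1, (vPt c).v_div hr0 hs0, a1, b1]
      ring
    have hne : ∀ {y : RatFunc k}, y ≠ 0 → φ y ≠ 0 := fun h => (map_ne_zero φ).2 h
    refine ⟨?_, ?_⟩
    · rw [hv, map_mul, map_zpow₀, map_div₀, hφ, hφ, hφ]
      have e1 : ex c (minpoly k c) ≠ 0 := by rw [← hφ]; exact hne hmp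
      have e2 : ex c r ≠ 0 := by rw [← hφ]; exact hne hr0
      have e3 : ex c s ≠ 0 := by rw [← hφ]; exact hne hs0
      rw [(lv k⟮c⟯).v_mul _ _ (zpow_ne_zero _ e1) (div_ne_zero e2 e3), (lv k⟮c⟯).v_zpow _ _ e1, hve,
        (lv k⟮c⟯).v_div e2 e3, c1, d1]
      ring
    · intro h0
      rw [hv] at h0
      subst h0
      rw [zpow_zero, one_mul, map_div₀, hφ, hφ, (lv k⟮c⟯).ac_div, c2, d2, map_div₀, aeval_gen,
        aeval_gen, (vPt c).ac_div, a2, b2]
  refine ⟨φ, e, he, ?_, fun x hx => (key x hx).1, fun x hx => (key x hx).2⟩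
  intro x
  rw [← RatFunc.algebraMap_C, hφ, ex_C]

end MSC
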