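import Pool.Agent.MSC.Zmb
import Pool.Agent.MSC.Zmc
import Pool.Agent.MSC.RlA

/-! # MSC / Zmd: elements of `K₂(k(X))` killed over the roots of unity, assembly -/

set_option autoImplicit false
set_option linter.unusedVariables false

namespace MSC

universe u

open Polynomial IntermediateField MSG MSN

open Pool.Agent.MK (K2 S Val vPt)

open Pool.Agent.MSX (lv cs)

variable {k : Type u} [Field k]

theorem rp_mono {p l l' M : ℕ} {w : K2 (RatFunc k)} {c : AlgebraicClosure k} (h : Rp (p ^ (l + M)) (p ^ l • w) c) (hl : l ≤ l') :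
    Rp (p ^ (l' + M)) (p ^ l' • w) c := by
  obtain ⟨v, h1, h2⟩ := h
  obtain ⟨r, rfl⟩ := Nat.exists_eq_add_of_le hl
  refine ⟨v, h1, ?_⟩
  have e1 : p ^ (l + r) • w = p ^ r • (p ^ l • w) := by rw [← mul_smul, ← pow_add, add_comm]
  have e2 : p ^ (l + r + M) • v = p ^ r • (p ^ (l + M) • v) := by rw [← mul_smul, ← pow_add]; congr 2; ring
  rw [e1, map_nsmul, h2, e2]

private theorem bz_aux {A : Type u} [AddCommGroup A] (τ ε v : A) (e n : ℕ) (α β : ℤ) (hab : α * (e : ℤ) + β * (n : ℤ) = 1)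
    (h : e • τ = ε + n • v) : τ = α • ε + n • (α • v + β • τ) := by
  have h' : (e : ℤ) • τ = ε + (n : ℤ) • v := by rw [natCast_zsmul, natCast_zsmul, h]
  have h9 : τ = (α * e + β * n) • τ := by rw [hab, one_smul]
  conv_lhs => rw [h9]
  rw [add_smul, mul_smul, h', smul_add, smul_add, ← natCast_zsmul, ← natCast_zsmul, smul_comm α (n : ℤ) v, mul_comm β, mul_smul, add_assoc]

private theorem bz_aux2 {A : Type u} [AddCommGroup A] (τ ε v : A) (e p l M : ℕ) (α β : ℤ) (hab : α * (e : ℤ) + β * ((p ^ M : ℕ) : ℤ) = 1)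
    (h : e • τ = ε + p ^ M • v) (hε : p ^ l • ε = 0) : p ^ l • τ = p ^ (l + M) • (α • v + β • τ) := by
  have h1 := bz_aux τ ε v e (p ^ M) α β hab h
  conv_lhs => rw [h1]
  rw [smul_add, smul_comm (p ^ l) α, hε, smul_zero, zero_add, ← mul_smul, ← pow_add]

theorem zc_pt {p : ℕ} (hp : p.Prime) {ζ₀ : k} (hz : PZ p ζ₀) {G Ω : Type u} [Group G] [TopologicalSpace G]
    [Field Ω] [MulSemiringAction G Ω] {j : RatFunc k →+* Ω} (h : Ov (RatFunc k) G j) {M : ℕ} {z : Ω}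
    (L : Lv (p ^ M) (Gi p G Ω) z j) (w : K2 (RatFunc k)) (hw : hB L w = 0) (c : AlgebraicClosure k) :
    ∃ l : ℕ, Rp (p ^ (l + M)) (p ^ l • w) c := by
  have hk : (p : k) ≠ 0 := by
    haveI : NeZero p := ⟨hp.ne_zero⟩
    have := hz.prim.neZero'
    exact this.ne
  obtain ⟨φ, e, hep, h1, h2, h3⟩ := exists_phi hp hk c
  obtain ⟨G₀, Ω₀, i1, i2, i3, i4, j₀, h₀⟩ := exists_ov k
  obtain ⟨m, hm⟩ := h₀.mo h.ga (j.comp (RatFunc.C : k →+* RatFunc k)) (fun g x => h.fj g _)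
  obtain ⟨ε, v, l, h4, h5⟩ := rl_all hp hz (RatFunc.C : k →+* RatFunc k) (algebraMap k k⟮c⟯) φ h1 h₀ h m hm
    (f := fun _ _ => 1) (Zu_one (G := G₀) (Ω := Ω₀)) L w (by rw [bc_one, map_zero, map_zero, hw])
  have h6 := tame_e (vPt c) (lv k⟮c⟯) φ (algebraMap k⟮c⟯ (AlgebraicClosure k)) e h2 h3 w
  rw [h5, toMul_ofMul] at h6
  have hcop : IsCoprime (e : ℤ) ((p ^ M : ℕ) : ℤ) := Nat.isCoprime_iff_coprime.2 (hep.pow_right M)
  obtain ⟨α, β, hab⟩ := hcop
  set τ := (vPt c).tame w with hτ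
  have hmem := tame_mem c w
  set J : k⟮c⟯ˣ →* (AlgebraicClosure k)ˣ := Units.map ((algebraMap k⟮c⟯ (AlgebraicClosure k)) : k⟮c⟯ →* AlgebraicClosure k) with hJ
  have h7 : e • τ = Additive.ofMul (J ε) + p ^ M • Additive.ofMul (J v) := by
    have h0 : Additive.ofMul (J (ε * v ^ p ^ M)) = e • τ := by
      rw [h6]
      rfl
    rw [← h0, map_mul, map_pow, ofMul_mul, ofMul_pow]
  refine ⟨l, α • Additive.ofMul (J v) + β • τ, ?_, ?_⟩
  · rw [toMul_add, toMul_zsmul, toMul_zsmul, toMul_ofMul, Units.val_mul, Units.val_zpow_eq_zpow_val, Units.val_zpow_eq_zpow_val]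
    exact mul_mem (zpow_mem (v : k⟮c⟯).2 _) (zpow_mem hmem _)
  · rw [map_nsmul, ← hτ]
    exact bz_aux2 τ (Additive.ofMul (J ε)) (Additive.ofMul (J v)) e p l M α β hab h7 (by
      rw [← ofMul_pow, ← map_pow, h4, map_one, ofMul_one])

theorem zc {p : ℕ} (hp : p.Prime) {ζ₀ : k} (hz : PZ p ζ₀) {G Ω : Type u} [Group G] [TopologicalSpace G]
    [Field Ω] [MulSemiringAction G Ω] {j : RatFunc k →+* Ω} (h : Ov (RatFunc k) G j) {M : ℕ} {z : Ω}
    (L : Lv (p ^ M) (Gi p G Ω) z j) (w : K2 (RatFunc k)) (hw : hB L w = 0) :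
    ∃ (s : ℕ) (k₀ : K2 k) (w₁ : K2 (RatFunc k)), p ^ s • w = K2.map (RatFunc.C : k →+* RatFunc k) k₀ + p ^ (s + M) • w₁ := by
  classical
  obtain ⟨P, hP, h1⟩ := Pool.Agent.MK.finite_support w
  choose l hl using zc_pt hp hz h L w hw
  set T := (P.aroots (AlgebraicClosure k)).toFinset with hT
  refine ⟨T.sup l, ?_⟩
  apply mil
  intro c
  by_cases hc : aeval c P = 0
  · refine rp_mono (hl c) (Finset.le_sup (f := l) ?_)
    rw [hT, Multiset.mem_toFinset, mem_aroots]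
    exact ⟨hP, hc⟩
  · refine ⟨0, ?_, ?_⟩
    · simp
    · rw [map_nsmul, h1 c hc, smul_zero, smul_zero]

end MSC
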