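import Pool.Agent.MSC.Kz
import Pool.Agent.MSC.Pa3
import Pool.Agent.MSN.Zc

/-! # MSC / Th1: the conclusion from path 2

`Univ D A ζ m κ₀` is the universal property of `κ₀` (conclusion of `kz`).

PROOF of `th1`.  `M = RatFunc (AA F E Q)`, `exists_ov M` : `(G', Ω', j')`.  `hU` for `φ = st ∘ kA`: `O`, `z'`, `L`; take `c = 1`, `W q = tm st (Ua (some q))` (a unit, `ua_unit`): `hB L (K2.map (st ∘ kA) κ₀) = ri (bc 1) = 0`.
`zero_const` for `k = AA`, `ζ₀` = the image of `ζF`, `w = K2.map st (K2.map kA κ₀)`: `p ^ s • w = K2.map C k₀ + p ^ (s + m + 1) • w₁`.  `diff_spec` (the scalars as integers) and `h1`.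
-/

set_option autoImplicit false
set_option linter.unusedVariables false

namespace MSC

universe u

open scoped TensorProduct

open MSG MSN Pool.Agent.Helper14.Massey Polynomial

open Pool.Agent.MK (K2 S)

variable {p r : ℕ} {F E Q : Type u} [Field F] [Field E] [Algebra F E] [Group Q] [FiniteDimensional F E] (D : CD p r F E Q)
  {G Ω : Type u} [Group G] [TopologicalSpace G] [Field Ω] [MulSemiringAction G Ω]

/-- the universal property of `κ₀` -/
def Univ (A : Frm D.act G Ω) (ζ : Ω) (m : ℕ) (κ₀ : K2 (K0 D)) : Prop :=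
  ∀ (M : Type u) [Field M] [Algebra F M] (φ : K0 D →ₐ[F] M) (G' Ω' : Type u) [Group G']
      [TopologicalSpace G'] [Field Ω'] [MulSemiringAction G' Ω'] (j' : M →+* Ω'), Ov M G' j' →
      ∃ (O : OvM A M G' Ω') (z' : Ω') (L : Lv (p ^ (m + 1)) (Gi p G' Ω') z' j'), O.j = j' ∧ z' ^ (p ^ m) = O.m.ψ ζ ∧
        ∀ (c : Q → Q → M) (W : Q → TT F E M), (∀ q q', c q q' ≠ 0) → (∀ q, IsUnit (W q)) →
          (∀ q q', tm φ (C0 D q q' : TT F E (K0 D)) * W (q * q') = inl M (c q q') * (W q * qa D.act M q (W q'))) →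
          ri p G' Ω' (bc (fun σ τ => j' (c (A.π (O.m.r σ)) (A.π (O.m.r τ))))) = hB L (K2.map (φ : K0 D →+* M) κ₀)

theorem th1 (hp : p.Prime) {ζF : F} (hzF : PZ p ζF) {A : Frm D.act G Ω} {ζ : Ω} {m : ℕ} {κ₀ : K2 (K0 D)}
    (hU : Univ D A ζ m κ₀) (s' : AA F E Q →ₐ[F] AA F E Q) (st : AA F E Q →ₐ[F] RatFunc (AA F E Q))
    (h1 : ∀ κ : K2 (AA F E Q), (pc (AA F E Q) 0).spec (K2.map (st : AA F E Q →+* RatFunc (AA F E Q)) κ) = κ ∧
        (pc (AA F E Q) 1).spec (K2.map (st : AA F E Q →+* RatFunc (AA F E Q)) κ) = K2.map (s' : AA F E Q →+* AA F E Q) κ)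
    (h3 : ∀ q q', tm (st.comp (kA D)) (C0 D q q' : TT F E (K0 D)) * tm st (Ua (some (q * q'))) =
        tm st (Ua (some q)) * qa D.act _ q (tm st (Ua (some q')))) :
    ∃ (s : ℕ) (w : K2 (AA F E Q)), p ^ s • (K2.map (s' : AA F E Q →+* AA F E Q) (K2.map (kA D : K0 D →+* AA F E Q) κ₀) -
      K2.map (kA D : K0 D →+* AA F E Q) κ₀) = p ^ (s + m + 1) • w := by
  obtain ⟨G', Ω', i1, i2, i3, i4, j', hov⟩ := exists_ov (RatFunc (AA F E Q))
  obtain ⟨O, z', L, hOj, hz', hprop⟩ := hU (RatFunc (AA F E Q)) (st.comp (kA D)) G' Ω' j' hov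
  have h0 := hprop (fun _ _ => 1) (fun q => tm st (Ua (some q))) (fun _ _ => one_ne_zero)
    (fun q => (ua_unit (some q)).map (tm st)) (fun q q' => by
      rw [map_one, one_mul]
      exact h3 q q')
  have h00 : hB L (K2.map ((st.comp (kA D) : K0 D →ₐ[F] RatFunc (AA F E Q)) :
      K0 D →+* RatFunc (AA F E Q)) κ₀) = 0 := by
    rw [← h0]
    have e : (fun σ τ : G' => j' ((fun _ _ => 1 : Q → Q → RatFunc (AA F E Q))
        (A.π (O.m.r σ)) (A.π (O.m.r τ)))) = fun _ _ => (1 : Ω') := by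
      funext σ τ
      exact map_one j'
    rw [e, bc_one, map_zero]
  have hz0 : PZ p (algebraMap F (AA F E Q) ζF) :=
    ⟨hzF.odd, hzF.one_lt, hzF.prim.map_of_injective (algebraMap F (AA F E Q)).injective⟩
  obtain ⟨s, k₀, w₁, hw⟩ := zero_const hp hz0 hov L _ h00
  have e1 : K2.map ((st.comp (kA D) : K0 D →ₐ[F] RatFunc (AA F E Q)) :
      K0 D →+* RatFunc (AA F E Q)) κ₀ = K2.map (st : AA F E Q →+* RatFunc (AA F E Q))
        (K2.map (kA D : K0 D →+* AA F E Q) κ₀) := by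
    rw [K2.map_map]
    rfl
  rw [e1] at hw
  have hw' : ((p ^ s : ℕ) : ℤ) • K2.map (st : AA F E Q →+* RatFunc (AA F E Q))
      (K2.map (kA D : K0 D →+* AA F E Q) κ₀) =
      K2.map (RatFunc.C : AA F E Q →+* RatFunc (AA F E Q)) k₀ +
        ((p ^ (s + m + 1) : ℕ) : ℤ) • w₁ := by
    rw [natCast_zsmul, natCast_zsmul]
    exact hw
  have hd := diff_spec hw'
  rw [(h1 _).1, (h1 _).2, natCast_zsmul, natCast_zsmul] at hd
  exact ⟨s, _, hd⟩

end MSC
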