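import Pool.Agent.MSC.Zma

/-! # MSC / Zmb: elements of `K₂(k(X))` whose residues are `N`-th powers are constant modulo `N`

`Rp N w c`: the residue of `w` at `c` is an `N`-th power of an element of `k(c)`.

PROOF of `mil`.
* `rp_sub`: `tame (w - N • y) = N • (v - tame y)`, `tame_mem`.
* `A n`: every `w` with `Rp N w c` for all `c` and `tame_c w = 0` for all `c` with `natDegree (minpoly k c) ≥ n` is constant modulo `N`.  `A 1` is `MK.unram_const` (`natDegree (minpoly k c) ≥ 1` always).
* `A n → A (n+1)` (`n ≥ 1`): induction on a finite set `T` of polynomials: if `tame_c w = 0` for `natDegree ≥ n + 1` and for `natDegree = n` unless `minpoly k c ∈ T`, then the conclusion.  `T = ∅`: `A n`.  `insert π T`: if no `c` with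
  `minpoly k c = π` and `natDegree π = n` exists, `T` works.  Otherwise choose such a `c` and `v` with `tame_c w = N • v`, `v = aeval c g`, `natDegree g < n` (`mem_poly`), `g ≠ 0`, and `w' = w - N • S (ι π) (ι g)` (`ι = algebraMap k[X] (RatFunc k)`).
  `tame_c (S (ι π) (ι g)) = v` (`vPt_spec`: `v (ι π) = 1`, `v (ι g) = 0`, `Val.tame_S_left`, `Val.A_val`: `ac (ι g) = aeval c g`).  So `tame_c w' = 0`, and `tame_{c'} w' = 0` for all `c'` with the same minimal polynomial (`vpt_congr`).
  For `c'` with `natDegree (minpoly k c') ≥ n` and `minpoly k c' ≠ π`: `v (ι π) = 0` and `v (ι g) = 0` at `c'` (`minpoly k c'` does not divide `π` (both monic irreducible) nor `g` (degree)), so `tame_{c'} (S (ι π) (ι g)) = 0` (`Val.tame_S_units`) and `tame_{c'} w' = tame_{c'} w`.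
  So `w'` satisfies the hypothesis for `T`: `w' = C k₀ + N • w₁`, `w = C k₀ + N • (w₁ + S (ι π) (ι g))`.
* Start: `MK.finite_support` gives `P ≠ 0`; `tame_c w = 0` if `natDegree (minpoly k c) > natDegree P`; and for every `n` the set `T` of the monic irreducible factors of `P` (`(UniqueFactorizationMonoid.normalizedFactors P).toFinset`, or the `minpoly k c`, `c ∈ P.aroots`)
  (in the step `A n → A (n+1)` the finite set `T` exists by `MK.finite_support` for the given `w`).
-/

set_option autoImplicit false
set_option linter.unusedVariables false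

namespace MSC

universe u

open Polynomial IntermediateField

open Pool.Agent.MK (K2 S Val vPt)

variable {k : Type u} [Field k]

/-- the residue at `c` is an `N`-th power in `k(c)` -/
def Rp (N : ℕ) (w : K2 (RatFunc k)) (c : AlgebraicClosure k) : Prop :=
  ∃ v : Additive (AlgebraicClosure k)ˣ, ((Additive.toMul v : (AlgebraicClosure k)ˣ) : AlgebraicClosure k) ∈ k⟮c⟯ ∧ (vPt c).tame w = N • v

theorem rp_sub {N : ℕ} {w : K2 (RatFunc k)} {c : AlgebraicClosure k} (h : Rp N w c) (y : K2 (RatFunc k)) : Rp N (w - N • y) c := by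
  obtain ⟨v, hv, e⟩ := h
  refine ⟨v - (vPt c).tame y, ?_, ?_⟩
  · rw [toMul_sub, Units.val_div_eq_div_val]
    exact div_mem hv (tame_mem c y)
  · rw [map_sub, e, map_nsmul, nsmul_sub]

/-- the conclusion of `mil` -/
private def Cn (N : ℕ) (w : K2 (RatFunc k)) : Prop :=
  ∃ (k₀ : K2 k) (w₁ : K2 (RatFunc k)), w = K2.map (RatFunc.C : k →+* RatFunc k) k₀ + N • w₁

private theorem minpoly_not_dvd {c c' : AlgebraicClosure k} (h : minpoly k c' ≠ minpoly k c) :
    ¬ minpoly k c' ∣ minpoly k c := by
  intro hd
  apply h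
  have hi : ∀ x : AlgebraicClosure k, IsIntegral k x := fun x => Algebra.IsIntegral.isIntegral x
  have ha : Associated (minpoly k c') (minpoly k c) :=
    (Pool.Agent.MK.minpoly_prime c').associated_of_dvd (Pool.Agent.MK.minpoly_prime c) hd
  exact eq_of_monic_of_associated (minpoly.monic (hi c')) (minpoly.monic (hi c)) ha

private theorem deg_not_dvd {c' : AlgebraicClosure k} {g : k[X]} (hg : g ≠ 0)
    (h : g.natDegree < (minpoly k c').natDegree) : ¬ minpoly k c' ∣ g := by
  intro hd
  exact absurd (natDegree_le_of_dvd hd hg) (not_le.mpr h)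

private theorem mil_fin {N n : ℕ}
    (hA : ∀ w : K2 (RatFunc k), (∀ c, Rp N w c) →
      (∀ c, n ≤ (minpoly k c).natDegree → (vPt c).tame w = 0) → Cn N w)
    (T : Finset k[X]) : ∀ w : K2 (RatFunc k), (∀ c, Rp N w c) →
      (∀ c, n + 1 ≤ (minpoly k c).natDegree → (vPt c).tame w = 0) →
      (∀ c, (minpoly k c).natDegree = n → minpoly k c ∉ T → (vPt c).tame w = 0) → Cn N w := by
  classical
  induction T using Finset.induction_on with
  | empty =>
    intro w h1 h2 h3
    refine hA w h1 fun c hc => ?_
    rcases Nat.lt_or_ge n (minpoly k c).natDegree with h | h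
    · exact h2 c h
    · exact h3 c (le_antisymm h hc) (Finset.notMem_empty _)
  | insert π T hπ ih =>
    intro w h1 h2 h3
    by_cases hex : ∃ c : AlgebraicClosure k, minpoly k c = π ∧ π.natDegree = n
    · obtain ⟨c, hc, hn⟩ := hex
      obtain ⟨v, hv, e⟩ := h1 c
      obtain ⟨g, hgd, hg⟩ := mem_poly hv
      have hg0 : g ≠ 0 := by
        rintro rfl
        rw [map_zero] at hg
        exact Units.ne_zero (Additive.toMul v) hg.symm
      have hgn : g.natDegree < n := by rw [hc, hn] at hgd; exact hgd
      have hπ0 : π ≠ 0 := by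
        rw [← hc]
        exact (Pool.Agent.MK.minpoly_prime c).ne_zero
      have n1 : algebraMap k[X] (RatFunc k) π ≠ 0 :=
        (map_ne_zero_iff _ (Pool.Agent.MK.ratFunc_inj k)).2 hπ0
      have n2 : algebraMap k[X] (RatFunc k) g ≠ 0 :=
        (map_ne_zero_iff _ (Pool.Agent.MK.ratFunc_inj k)).2 hg0
      -- the residue at `c`
      have e1 : (vPt c).tame (S (algebraMap k[X] (RatFunc k) π) (algebraMap k[X] (RatFunc k) g))
          = v := by
        obtain ⟨g1, g2⟩ := (Pool.Agent.MK.vPt_spec c).2.2.2 g (deg_not_dvd hg0 hgd)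
        have g3 := (Pool.Agent.MK.vPt_spec c).1
        rw [hc] at g3
        rw [(vPt c).tame_S_left n1 n2 g1, g3, one_zsmul]
        apply Additive.toMul.injective
        rw [Units.ext_iff, (vPt c).A_val n2, g2, hg]
      -- the residues at the other points
      have e2 : ∀ c' : AlgebraicClosure k, n ≤ (minpoly k c').natDegree → minpoly k c' ≠ π →
          (vPt c').tame (S (algebraMap k[X] (RatFunc k) π) (algebraMap k[X] (RatFunc k) g))
          = 0 := by
        intro c' hc' hne
        refine Val.tame_S_units _ ?_ ?_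
        · refine ((Pool.Agent.MK.vPt_spec c').2.2.2 π ?_).1
          rw [← hc]
          exact minpoly_not_dvd (by rw [hc]; exact hne)
        · exact ((Pool.Agent.MK.vPt_spec c').2.2.2 g (deg_not_dvd hg0 (lt_of_lt_of_le hgn hc'))).1
      obtain ⟨y, hy⟩ : ∃ y, y = S (algebraMap k[X] (RatFunc k) π) (algebraMap k[X] (RatFunc k) g) :=
        ⟨_, rfl⟩
      rw [← hy] at e1
      simp only [← hy] at e2
      have e3 : (vPt c).tame (w - N • y) = 0 := by
        rw [map_sub, map_nsmul, e1, e, sub_self]
      have e4 : ∀ c' : AlgebraicClosure k, minpoly k c' = π → (vPt c').tame (w - N • y) = 0 := by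
        intro c' hc'
        exact (vpt_congr (c := c) (c' := c') (by rw [hc, hc']) _).mpr e3
      have e5 : ∀ c' : AlgebraicClosure k, n ≤ (minpoly k c').natDegree → minpoly k c' ≠ π →
          (vPt c').tame (w - N • y) = (vPt c').tame w := by
        intro c' hc' hne
        rw [map_sub, map_nsmul, e2 c' hc' hne, smul_zero, sub_zero]
      obtain ⟨k₀, w₁, hw⟩ := ih (w - N • y) (fun c => rp_sub (h1 c) y)
        (fun c' hc' => by
          rw [e5 c' (by omega) ?_]
          · exact h2 c' hc'
          · intro h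
            rw [h, hn] at hc'
            omega)
        (fun c' hc' hT => by
          by_cases h : minpoly k c' = π
          · exact e4 c' h
          · rw [e5 c' hc'.ge h]
            exact h3 c' hc' (fun hm => (Finset.mem_insert.mp hm).elim h hT))
      refine ⟨k₀, w₁ + y, ?_⟩
      rw [nsmul_add, ← add_assoc, ← hw, sub_add_cancel]
    · refine ih w h1 h2 fun c hc hT => h3 c hc fun hm => ?_
      rcases Finset.mem_insert.mp hm with h | h
      · exact hex ⟨c, h, by rw [← h]; exact hc⟩
      · exact hT h

private theorem mil_all (N n : ℕ) : ∀ w : K2 (RatFunc k), (∀ c, Rp N w c) →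
    (∀ c, n ≤ (minpoly k c).natDegree → (vPt c).tame w = 0) → Cn N w := by
  classical
  induction n with
  | zero =>
    intro w _ h
    obtain ⟨κ, hκ⟩ := Pool.Agent.MK.unram_const w (fun c => h c (Nat.zero_le _))
    exact ⟨κ, 0, by rw [hκ, smul_zero, add_zero]⟩
  | succ n ih =>
    intro w h1 h2
    obtain ⟨P, hP, hPw⟩ := Pool.Agent.MK.finite_support w
    refine mil_fin ih ((P.aroots (AlgebraicClosure k)).toFinset.image (minpoly k)) w h1 h2
      fun c _ hc => hPw c fun h0 => hc ?_
    rw [Finset.mem_image]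
    refine ⟨c, ?_, rfl⟩
    rw [Multiset.mem_toFinset, mem_aroots]
    exact ⟨hP, h0⟩

theorem mil {N : ℕ} {w : K2 (RatFunc k)} (h : ∀ c : AlgebraicClosure k, Rp N w c) :
    ∃ (k₀ : K2 k) (w₁ : K2 (RatFunc k)), w = K2.map (RatFunc.C : k →+* RatFunc k) k₀ + N • w₁ := by
  obtain ⟨P, hP, hPw⟩ := Pool.Agent.MK.finite_support w
  refine mil_all N (P.natDegree + 1) w h fun c hc => hPw c fun h0 => ?_
  have := natDegree_le_of_dvd ((minpoly.dvd_iff).2 h0) hP
  omega

end MSC
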